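import Pool.Agent.H773R2.U2.Defs

namespace H773V

theorem ARB_1 {s l K x n h D mb : ℝ} (hs : 0 < s) (hK : 0 < K)
    (hn : 0 < n) (hh : 0 < h) (h1 : x * l ≤ h * K) (h2 : D ≤ x * s ^ 2 / 4)
    (h3 : mb * h ≤ 2 * s) (hD : 0 ≤ D) (h4 : s ^ 3 * K = l * n) :
    mb * D ≤ n := by
  have hhK : 0 < h * K := mul_pos hh hK
  have key : (h * K) * (mb * D) ≤ (h * K) * n := by
    calc (h * K) * (mb * D) = (mb * h) * D * K := by ring
      _ ≤ (2 * s) * (x * s ^ 2 / 4) * K := by gcongr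
      _ = x * (s ^ 3 * K) / 2 := by ring
      _ = (x * l) * n / 2 := by rw [h4]; ring
      _ ≤ (h * K) * n / 2 := by gcongr
      _ ≤ (h * K) * n := by nlinarith [mul_pos hhK hn]
  exact le_of_mul_le_mul_left key hhK

theorem ARB_2 {g s l x n M k mb D : ℝ} (hs : 0 < s) (hx : 0 < x) (hn : 0 < n)
    (hk : k ≤ l) (hk0 : 0 ≤ k)
    (hM : M ≤ 2 * l ^ 20 * x * s ^ 2) (h1 : s / (64 * l) ≤ mb)
    (h2 : x * s ^ 2 / 16 ≤ D) (hn2 : n ≤ 2 * g ^ 480) (hg : (g : ℝ) ^ 159 ≤ s) (hl : 10 ^ 9 ≤ l)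
    (hlg : l ^ 100 ≤ g) : 256 * M * n * k ≤ mb * D * g ^ 479 := by
  have hl0 : 0 < l := by linarith
  have hg0 : 0 < g := lt_of_lt_of_le (by positivity) hlg
  have hl1 : 1 ≤ l := by linarith
  have e1 : 1048576 * l ^ 22 ≤ g := by
    calc 1048576 * l ^ 22 ≤ l * l ^ 22 := by gcongr; linarith
      _ = l ^ 23 := by ring
      _ ≤ l ^ 100 := pow_le_pow_right₀ hl1 (by norm_num)
      _ ≤ g := hlg
  have hg1 : 1 ≤ g := le_trans (one_le_pow₀ hl1) hlg
  have hmb0 : 0 ≤ mb := le_trans (by positivity) h1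
  have hD0 : 0 ≤ D := le_trans (by positivity) h2
  have e2 : 524288 * l ^ 22 * n ≤ s * g ^ 479 := by
    calc 524288 * l ^ 22 * n ≤ 524288 * l ^ 22 * (2 * g ^ 480) := by gcongr
      _ = (1048576 * l ^ 22) * g ^ 480 := by ring
      _ ≤ g * g ^ 480 := by gcongr
      _ = g ^ 2 * g ^ 479 := by ring
      _ ≤ g ^ 159 * g ^ 479 := by
          gcongr
          norm_num
      _ ≤ s * g ^ 479 := by gcongr
  calc 256 * M * n * k ≤ 256 * (2 * l ^ 20 * x * s ^ 2) * n * l := by gcongr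
    _ = (x * s ^ 2 / (1024 * l)) * (524288 * l ^ 22 * n) := by field_simp; norm_num
    _ ≤ (x * s ^ 2 / (1024 * l)) * (s * g ^ 479) := by gcongr
    _ = s / (64 * l) * (x * s ^ 2 / 16) * g ^ 479 := by field_simp; norm_num
    _ ≤ mb * D * g ^ 479 := by gcongr

theorem ARB_3 {g s l K x n Y mb D : ℝ} (hs : 0 < s) (hx : 0 < x) (hn : 0 < n) (hK : 0 < K)
    (hK2 : K ≤ l ^ 7) (hx1 : (l ^ 6)⁻¹ ≤ x) (hY : n ≤ 4 * l ^ 20 * Y)
    (h1 : s / (64 * l) ≤ mb) (h4 : s ^ 3 * K = l * n)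
    (h2 : x * s ^ 2 / 16 ≤ D) (hn2 : g ^ 480 ≤ n) (hl : 10 ^ 9 ≤ l)
    (hlg : l ^ 100 ≤ g) : g ^ 479 ≤ mb * D / (4 * n) * Y := by
  have hl0 : 0 < l := by linarith
  have hg0 : 0 < g := lt_of_lt_of_le (by positivity) hlg
  have hl1 : 1 ≤ l := by linarith
  have e1 : 16384 * l ^ 33 ≤ g := by
    calc 16384 * l ^ 33 ≤ l * l ^ 33 := by gcongr; linarith
      _ = l ^ 34 := by ring
      _ ≤ l ^ 100 := pow_le_pow_right₀ hl1 (by norm_num)
      _ ≤ g := hlg
  have hY0 : n / (4 * l ^ 20) ≤ Y := by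
    rw [div_le_iff₀ (by positivity)]; linarith
  have hYn : 0 ≤ Y := le_trans (by positivity) hY0
  have hmb0 : 0 ≤ mb := le_trans (by positivity) h1
  have hD0 : 0 ≤ D := le_trans (by positivity) h2
  have e3 : x / (4096 * K) ≤ mb * D / (4 * n) := by
    rw [div_le_div_iff₀ (by positivity) (by positivity)]
    have : s / (64 * l) * (x * s ^ 2 / 16) * (4096 * K) ≤ mb * D * (4096 * K) := by gcongr
    calc x * (4 * n) = s / (64 * l) * (x * s ^ 2 / 16) * (4096 * K) := by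
          have : s / (64 * l) * (x * s ^ 2 / 16) * (4096 * K) = x * (4 / l) * (s ^ 3 * K) := by
            field_simp; norm_num
          rw [this, h4]; field_simp
      _ ≤ _ := this
  have e4 : (l ^ 6)⁻¹ / (4096 * l ^ 7) ≤ x / (4096 * K) := by gcongr
  calc g ^ 479 ≤ (l ^ 6)⁻¹ / (4096 * l ^ 7) * (g ^ 480 / (4 * l ^ 20)) := by
        rw [show (l ^ 6)⁻¹ / (4096 * l ^ 7) * (g ^ 480 / (4 * l ^ 20)) =
          g ^ 480 / (16384 * l ^ 33) by field_simp; norm_num]
        rw [le_div_iff₀ (by positivity)]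
        calc g ^ 479 * (16384 * l ^ 33) ≤ g ^ 479 * g := by gcongr
          _ = g ^ 480 := by ring
    _ ≤ x / (4096 * K) * (n / (4 * l ^ 20)) := by gcongr
    _ ≤ mb * D / (4 * n) * Y := by gcongr

/-- `log 128 ≤ 5` -/
theorem ARB_log : Real.log 128 ≤ 5 := by
  have h1 : Real.log 128 = 7 * Real.log 2 := by
    rw [show (128 : ℝ) = 2 ^ 7 by norm_num, Real.log_pow]; norm_num
  have h2 := Real.log_two_lt_d9
  rw [h1]; linarith

theorem ARB_4 {g s l K x n Y mb D : ℝ} {k h : ℕ} (hs : 0 < s) (hx : 0 < x) (hn : 0 < n)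
    (hK : 0 < K) (hY : n ≤ 4 * l ^ 20 * Y) (hln : l = Real.log n)
    (h1 : s / (2 * h) ≤ mb) (h4 : s ^ 3 * K = l * n) (hh : 1 ≤ h) (hkh : k ≤ h)
    (hlog : (h : ℝ) * (1 + Real.log (h * K / (x * l))) ≤ l / 4800) (hxl : x * l ≤ h * K)
    (h2 : x * s ^ 2 / 16 ≤ D) (hn1 : g ^ 480 ≤ n) (hn2 : n ≤ 2 * g ^ 480) (hl : 10 ^ 9 ≤ l)
    (hlg : l ^ 100 ≤ g) : g ^ 479 ≤ (mb * D / (4 * n)) ^ k * Y := by
  have hl0 : 0 < l := by linarith
  have hg0 : 0 < g := lt_of_lt_of_le (by positivity) hlg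
  have hl1 : 1 ≤ l := by linarith
  have hh0 : (0 : ℝ) < h := by exact_mod_cast hh
  have hhK : 0 < (h : ℝ) * K := mul_pos hh0 hK
  have hxl0 : 0 < x * l := mul_pos hx hl0
  set b : ℝ := x * l / (128 * (h * K)) with hb
  have hb0 : 0 < b := by positivity
  have hb1 : b ≤ 1 := by
    rw [hb, div_le_one (by positivity)]; nlinarith
  have hmb0 : 0 ≤ mb := le_trans (by positivity) h1
  have hD0 : 0 ≤ D := le_trans (by positivity) h2
  have e3 : b ≤ mb * D / (4 * n) := by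
    rw [hb, div_le_div_iff₀ (by positivity) (by positivity)]
    have h5 : s / (2 * h) * (x * s ^ 2 / 16) * (128 * (h * K)) ≤ mb * D * (128 * (h * K)) := by
      gcongr
    calc x * l * (4 * n) = s / (2 * h) * (x * s ^ 2 / 16) * (128 * (h * K)) := by
          have : s / (2 * h) * (x * s ^ 2 / 16) * (128 * (h * K)) = x * 4 * (s ^ 3 * K) := by
            field_simp; norm_num
          rw [this, h4]; ring
      _ ≤ _ := h5
  have hlogb : Real.log b = - (Real.log 128 + Real.log (h * K / (x * l))) := by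
    rw [hb, Real.log_div hxl0.ne' (by positivity), Real.log_mul (by norm_num) hhK.ne',
      Real.log_div hhK.ne' hxl0.ne']
    ring
  have hlog0 : 0 ≤ Real.log (h * K / (x * l)) := by
    apply Real.log_nonneg
    rw [le_div_iff₀ hxl0]; linarith
  have e5 : Real.exp (-(l / 960)) ≤ b ^ h := by
    rw [← Real.exp_log hb0, ← Real.exp_nat_mul]
    apply Real.exp_le_exp.2
    rw [hlogb]
    have := ARB_log
    nlinarith [mul_nonneg hh0.le hlog0]
  have hY0 : n / (4 * l ^ 20) ≤ Y := by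
    rw [div_le_iff₀ (by positivity)]; linarith
  have hYn : 0 ≤ Y := le_trans (by positivity) hY0
  -- E ^ 2 ≤ 2 g
  set E : ℝ := Real.exp (l / 960) with hE
  have hE0 : 0 < E := Real.exp_pos _
  have hE2 : E ^ 2 ≤ 2 * g := by
    have h6 : (E ^ 2) ^ 480 ≤ (2 * g) ^ 480 := by
      calc (E ^ 2) ^ 480 = Real.exp l := by
            rw [hE, ← pow_mul, ← Real.exp_nat_mul]; congr 1; push_cast; ring
        _ = n := by rw [hln, Real.exp_log hn]
        _ ≤ 2 * g ^ 480 := hn2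
        _ ≤ 2 ^ 480 * g ^ 480 :=
            mul_le_mul_of_nonneg_right (le_self_pow₀ (by norm_num) (by norm_num))
              (by positivity)
        _ = (2 * g) ^ 480 := by rw [mul_pow]
    exact le_of_pow_le_pow_left₀ (by norm_num) (by positivity) h6
  have hE3 : E ≤ g / (4 * l ^ 20) := by
    apply le_of_pow_le_pow_left₀ (n := 2) (by norm_num) (by positivity)
    calc E ^ 2 ≤ 2 * g := hE2
      _ ≤ (g / (4 * l ^ 20)) ^ 2 := by
          rw [div_pow, le_div_iff₀ (by positivity)]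
          have : 32 * l ^ 40 ≤ g := by
            calc 32 * l ^ 40 ≤ l * l ^ 40 := by gcongr; linarith
              _ = l ^ 41 := by ring
              _ ≤ l ^ 100 := pow_le_pow_right₀ hl1 (by norm_num)
              _ ≤ g := hlg
          calc 2 * g * (4 * l ^ 20) ^ 2 = g * (32 * l ^ 40) := by ring
            _ ≤ g * g := by gcongr
            _ = g ^ 2 := by ring
  have hEi : Real.exp (-(l / 960)) = E⁻¹ := by rw [Real.exp_neg]
  calc g ^ 479 ≤ E⁻¹ * (g / (4 * l ^ 20)) * g ^ 479 := by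
        have : 1 ≤ E⁻¹ * (g / (4 * l ^ 20)) := by
          rw [inv_mul_eq_div, le_div_iff₀ hE0]; linarith
        nlinarith [pow_pos hg0 479]
    _ = E⁻¹ * (g ^ 480 / (4 * l ^ 20)) := by ring
    _ ≤ b ^ h * (n / (4 * l ^ 20)) := by
        rw [← hEi]; gcongr
    _ ≤ b ^ k * Y :=
        mul_le_mul (pow_le_pow_of_le_one hb0.le hb1 hkh) hY0 (by positivity) (by positivity)
    _ ≤ (mb * D / (4 * n)) ^ k * Y := by gcongr

theorem ARB (h : S_PFS) : S_ARB := by
  intro n e g A s l K x h' D M Y d pf hx0 hx1 hh hlog hxl hD1 hD2 hY hM hd1 hd2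
  obtain ⟨q1, q2, q3, hl0, hK0, hn0, he0⟩ := h n e g A s l K pf
  have hs := pf.s0
  have hl := pf.l1
  have hlg := pf.l2
  have h4 := pf.K3
  have hK2 := pf.K2
  have hn1 : (g : ℝ) ^ 480 ≤ n := by exact_mod_cast pf.par.n1
  have hn2 : (n : ℝ) ≤ 2 * (g : ℝ) ^ 480 := by exact_mod_cast pf.par.n2
  have hx : 0 < x := lt_of_lt_of_le (by positivity) hx0
  have hh0 : (0 : ℝ) < h' := by exact_mod_cast hh
  have hh1 : (1 : ℝ) ≤ h' := by exact_mod_cast hh
  have hxl0 : 0 < x * l := mul_pos hx hl0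
  have hlog0 : 0 ≤ Real.log (h' * K / (x * l)) := by
    apply Real.log_nonneg
    rw [le_div_iff₀ hxl0]; linarith
  have hhl : (h' : ℝ) ≤ l / 4800 := by nlinarith [mul_nonneg hh0.le hlog0]
  have hl1 : 1 ≤ l := by linarith
  have hg1 : (1 : ℝ) ≤ g := le_trans (one_le_pow₀ hl1) hlg
  have hls : l ≤ s := by
    calc l = l ^ 1 := by ring
      _ ≤ l ^ 100 := pow_le_pow_right₀ hl1 (by norm_num)
      _ ≤ g := hlg
      _ = (g : ℝ) ^ 1 := by ring
      _ ≤ (g : ℝ) ^ 159 := pow_le_pow_right₀ hg1 (by norm_num)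
      _ ≤ s := q1
  have hD0 : (0 : ℝ) ≤ D := by positivity
  by_cases hc : (d : ℝ) * h' ≤ 2 * s
  · refine ⟨1, d, le_refl _, hh, by simp, ?_, ?_, ?_, by simpa using hc⟩
    · have := ARB_1 hs hK0 hn0 hh0 hxl hD2 hc hD0 h4
      exact_mod_cast this
    · have := ARB_3 hs hx hn0 hK0 hK2 hx0 hY hd1 h4 hD1 hn1 hl hlg
      push_cast
      rw [pow_one]; exact this
    · have := ARB_2 (k := 1) hs hx hn0 hl1 (by norm_num) hM hd1 hD1 hn2 q1 hl hlg
      have h5 : 256 * (M : ℝ) * n * ((1 : ℕ) : ℝ) ≤ d * D * (g : ℝ) ^ 479 := by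
        push_cast; exact this
      exact_mod_cast h5
  · push Not at hc
    set q : ℝ := (d : ℝ) * h' / (2 * s) with hq
    have hq1 : 1 < q := by rw [hq, lt_div_iff₀ (by positivity)]; linarith
    have hd0 : (0 : ℝ) ≤ d := by positivity
    set k : ℕ := ⌈q⌉₊ with hk
    have hkq : q ≤ k := Nat.le_ceil q
    have hkq2 : (k : ℝ) < q + 1 := Nat.ceil_lt_add_one (by linarith)
    have hk1 : 1 ≤ k := by
      rw [hk]; exact Nat.one_le_ceil_iff.2 (by linarith)
    have hk0 : (0 : ℝ) < k := by exact_mod_cast hk1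
    have hkh : k ≤ h' := by
      rw [hk]
      apply Nat.ceil_le.2
      rw [hq, div_le_iff₀ (by positivity)]
      have : (d : ℝ) ≤ 2 * s := by linarith
      nlinarith
    have hdk : s / h' ≤ d / k := by
      rw [div_le_div_iff₀ hh0 hk0]
      have : (k : ℝ) ≤ 2 * q := by linarith
      calc s * k ≤ s * (2 * q) := by gcongr
        _ = d * h' := by rw [hq]; field_simp
    have hmb1 : (d : ℝ) / k < ((d / k : ℕ) : ℝ) + 1 := by
      have := Nat.lt_div_mul_add (a := d) (b := k) hk1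
      rw [div_lt_iff₀ hk0]
      have h7 : (d : ℝ) < ((d / k * k + k : ℕ) : ℝ) := by exact_mod_cast this
      push_cast at h7
      linarith
    have hsh : 1 ≤ s / (2 * h') := by
      rw [le_div_iff₀ (by positivity)]; linarith
    have hmb2 : s / (2 * h') ≤ ((d / k : ℕ) : ℝ) := by
      have : s / h' = s / (2 * h') + s / (2 * h') := by field_simp; norm_num
      linarith
    have hmb3 : ((d / k : ℕ) : ℝ) * h' ≤ 2 * s := by
      have h8 : ((d / k : ℕ) : ℝ) ≤ d / k := Nat.cast_div_le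
      calc ((d / k : ℕ) : ℝ) * h' ≤ d / k * h' := by gcongr
        _ = d * h' / k := by ring
        _ ≤ 2 * s := by
            rw [div_le_iff₀ hk0]
            have : d * h' = 2 * s * q := by rw [hq]; field_simp
            rw [this]; gcongr
    have hmb4 : s / (64 * l) ≤ ((d / k : ℕ) : ℝ) := by
      refine le_trans ?_ hmb2
      apply div_le_div_of_nonneg_left hs.le (by positivity)
      linarith
    refine ⟨k, d / k, hk1, hkh, Nat.mul_div_le d k, ?_, ?_, ?_, ?_⟩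
    · have := ARB_1 hs hK0 hn0 hh0 hxl hD2 hmb3 hD0 h4
      exact_mod_cast this
    · have := ARB_4 hs hx hn0 hK0 hY pf.ln hmb2 h4 hh hkh hlog hxl hD1 hn1 hn2 hl hlg
      rw [Nat.cast_pow]
      exact this
    · have hkl : (k : ℝ) ≤ l := by
        have : (k : ℝ) ≤ h' := by exact_mod_cast hkh
        linarith
      have := ARB_2 hs hx hn0 hkl hk0.le hM hmb4 hD1 hn2 q1 hl hlg
      exact_mod_cast this
    · have : (d : ℝ) * h' = 2 * s * q := by rw [hq]; field_simp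
      rw [this]; gcongr

end H773V
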