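import Pool.Agent.H773R2.U2.Defs

/-! ARI: the arithmetic of case I (helper166). -/

namespace H773V

lemma ARI_log_le {l : ℝ} (hl : 10 ^ 9 ≤ l) :
    28800 * (2 + 8.5 * Real.log l) ≤ l := by
  set r := Real.sqrt (Real.sqrt l) with hr
  have hl0 : 0 ≤ l := by linarith
  have h4 : r ^ 4 = l := by
    have : r ^ 4 = (r ^ 2) ^ 2 := by ring
    rw [this, hr, Real.sq_sqrt (Real.sqrt_nonneg _), Real.sq_sqrt hl0]
  have hr1 : 177 ≤ r := by
    rw [hr]
    apply Real.le_sqrt_of_sq_le
    apply Real.le_sqrt_of_sq_le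
    linarith
  have hr0 : 0 < r := by linarith
  have h5 : Real.log l = 4 * Real.log r := by
    rw [← h4, Real.log_pow]; norm_num
  have h6 : Real.log r ≤ r := by
    have := Real.log_le_sub_one_of_pos hr0; linarith
  have h7 : (177 : ℝ) ^ 3 ≤ r ^ 3 := pow_le_pow_left₀ (by norm_num) hr1 3
  have h8 : l = r ^ 3 * r := by rw [← h4]; ring
  rw [h5, h8]
  nlinarith

lemma ARI_K {K : ℝ} (hK : 10 ^ 6 ≤ K) : 400 * (1 + Real.log K) ≤ K := by
  set r := Real.sqrt K with hr
  have hK0 : 0 ≤ K := by linarith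
  have h2 : r ^ 2 = K := Real.sq_sqrt hK0
  have hr1 : 1000 ≤ r := by
    rw [hr]
    apply Real.le_sqrt_of_sq_le
    linarith
  have hr0 : 0 < r := by linarith
  have h5 : Real.log K = 2 * Real.log r := by
    rw [← h2, Real.log_pow]; norm_num
  have h6 : Real.log r ≤ r := by
    have := Real.log_le_sub_one_of_pos hr0; linarith
  rw [h5]
  nlinarith

theorem ARI (hP : S_PFS) : S_ARI := by
  intro n e g A i s l K hPF hK hi
  have hl := hPF.l1
  have hl0 : 0 < l := by linarith
  have hs := hPF.s0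
  have hK0 : 0 < K := by linarith
  have hlogK : 0 ≤ Real.log K := Real.log_nonneg hPF.K1
  have hlogl : 0 ≤ Real.log l := Real.log_nonneg (by linarith)
  -- bounds for i
  have hi1 : (2 : ℝ) ^ i ≤ 2 * l := by
    have h1 : ((2 ^ i : ℕ) : ℝ) ≤ (⌈l⌉₊ : ℝ) := by exact_mod_cast hi
    have h2 := (Nat.ceil_lt_add_one hl0.le).le
    push_cast at h1
    linarith
  have hi2 : (1 + i : ℝ) ≤ 2 ^ i := by
    have h : i + 1 ≤ 2 ^ i := Nat.lt_two_pow_self
    have h' : ((i + 1 : ℕ) : ℝ) ≤ ((2 ^ i : ℕ) : ℝ) := by exact_mod_cast h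
    push_cast at h'
    linarith
  have hlog2 : Real.log 2 < 0.7 := by linarith [Real.log_two_lt_d9]
  have hlog2' : 0.69 < Real.log 2 := by linarith [Real.log_two_gt_d9]
  have hi0 : (0 : ℝ) ≤ i := Nat.cast_nonneg i
  have hi3 : (i : ℝ) ≤ 1 + 1.5 * Real.log l := by
    have h1 := Real.log_le_log (by positivity) hi1
    rw [Real.log_pow, Real.log_mul (by norm_num) hl0.ne'] at h1
    nlinarith
  have hlK : Real.log K ≤ 7 * Real.log l := by
    have h1 := Real.log_le_log hK0 hPF.K2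
    rw [Real.log_pow] at h1
    push_cast at h1
    exact h1
  set L : ℝ := 1 + Real.log K + i with hL
  have hL1 : 1 ≤ L := by linarith
  have hL2 : 28800 * L ≤ l := by
    have := ARI_log_le hl
    have h1 : L ≤ 2 + 8.5 * Real.log l := by linarith
    linarith
  have hL0 : 0 < L := by linarith
  set x : ℝ := 1 / (144 * (1 + i) ^ 2 * 8 ^ i) with hx
  have hxd : (0 : ℝ) < 144 * (1 + i) ^ 2 * 8 ^ i := by positivity
  have hx0 : 0 < x := by positivity
  set h : ℕ := ⌊l / (28800 * L)⌋₊ with hh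
  have hq1 : 1 ≤ l / (28800 * L) := by
    rw [le_div_iff₀ (by positivity)]; linarith
  have hh1 : 1 ≤ h := by
    rw [hh, Nat.one_le_floor_iff]; exact hq1
  have hh2 : (h : ℝ) ≤ l / (28800 * L) := Nat.floor_le (by linarith)
  have hh3 : l / (57600 * L) ≤ h := by
    have h1 := (Nat.lt_floor_add_one (l / (28800 * L))).le
    have h2 : (1 : ℝ) ≤ h := by exact_mod_cast hh1
    have h3 : l / (57600 * L) = l / (28800 * L) / 2 := by field_simp; norm_num
    rw [h3]
    linarith
  have hh0 : (0 : ℝ) < h := by exact_mod_cast hh1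
  refine ⟨h, x, ?_, ?_, ?_, hh1, ?_, ?_, ?_⟩
  · rw [hx, ← one_div]
    apply one_div_le_one_div_of_le hxd
    have h8 : (8 : ℝ) ^ i = (2 ^ i) ^ 3 := by
      rw [← pow_mul, mul_comm, pow_mul]; norm_num
    rw [h8]
    have hsq : (1 + (i : ℝ)) ^ 2 ≤ (2 * l) ^ 2 := pow_le_pow_left₀ (by positivity) (hi2.trans hi1) 2
    have hcu : ((2 : ℝ) ^ i) ^ 3 ≤ (2 * l) ^ 3 := pow_le_pow_left₀ (by positivity) hi1 3
    calc 144 * (1 + (i : ℝ)) ^ 2 * (2 ^ i) ^ 3 ≤ 144 * (2 * l) ^ 2 * (2 * l) ^ 3 := by gcongr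
      _ = 4608 * l ^ 5 := by ring
      _ ≤ l * l ^ 5 := by
          apply mul_le_mul_of_nonneg_right _ (by positivity)
          linarith
      _ = l ^ 6 := by ring
  · rw [hx, div_le_one hxd]
    have h1 : (1 : ℝ) ≤ (1 + i) ^ 2 := one_le_pow₀ (by linarith)
    have h2 : (1 : ℝ) ≤ 8 ^ i := one_le_pow₀ (by norm_num)
    nlinarith
  · rw [hx]
    field_simp
    exact le_refl _
  · have e1 : (h : ℝ) * K / (x * l) ≤ K * 32 ^ i := by
      rw [hx, div_le_iff₀ (by positivity)]
      have h32 : (32 : ℝ) ^ i = 4 ^ i * 8 ^ i := by rw [← mul_pow]; norm_num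
      have h4 : (1 + (i : ℝ)) ^ 2 ≤ 4 ^ i := by
        have : (4 : ℝ) ^ i = (2 ^ i) ^ 2 := by rw [← pow_mul, mul_comm, pow_mul]; norm_num
        rw [this]
        exact pow_le_pow_left₀ (by positivity) hi2 2
      have h5 : (h : ℝ) ≤ l / 28800 := by
        refine hh2.trans ?_
        apply div_le_div_of_nonneg_left hl0.le (by norm_num)
        linarith
      rw [h32]
      have h6 : K * (4 ^ i * 8 ^ i) * (1 / (144 * (1 + (i : ℝ)) ^ 2 * 8 ^ i) * l) =
          (4 ^ i / (1 + (i : ℝ)) ^ 2) * (K * l / 144) := by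
        field_simp
      rw [h6]
      have h7 : 1 ≤ (4 : ℝ) ^ i / (1 + (i : ℝ)) ^ 2 := by
        rw [one_le_div (by positivity)]; exact h4
      calc (h : ℝ) * K ≤ l / 28800 * K := mul_le_mul_of_nonneg_right h5 hK0.le
        _ ≤ 1 * (K * l / 144) := by
            have : 0 < K * l := by positivity
            linarith
        _ ≤ _ := mul_le_mul_of_nonneg_right h7 (by positivity)
    have e2 : Real.log (h * K / (x * l)) ≤ Real.log K + 4 * i := by
      have h1 := Real.log_le_log (by positivity) e1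
      rw [Real.log_mul hK0.ne' (by positivity), Real.log_pow] at h1
      have h2 : Real.log 32 = 5 * Real.log 2 := by
        rw [show (32 : ℝ) = 2 ^ 5 by norm_num, Real.log_pow]; norm_num
      rw [h2] at h1
      nlinarith
    have e3 : 1 + Real.log (h * K / (x * l)) ≤ 4 * L := by
      rw [hL]; linarith
    calc (h : ℝ) * (1 + Real.log (h * K / (x * l))) ≤ h * (4 * L) :=
          mul_le_mul_of_nonneg_left e3 hh0.le
      _ ≤ l / (28800 * L) * (4 * L) := mul_le_mul_of_nonneg_right hh2 (by positivity)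
      _ = l / 7200 := by field_simp; norm_num
      _ ≤ l / 4800 := by apply div_le_div_of_nonneg_left hl0.le <;> norm_num
  · have h1 : l / (57600 * L) * K ≤ h * K := mul_le_mul_of_nonneg_right hh3 hK0.le
    refine le_trans ?_ h1
    rw [hx, div_mul_eq_mul_div, div_mul_eq_mul_div, div_le_div_iff₀ hxd (by positivity)]
    have hkk := ARI_K hK
    have h2 : 400 * L ≤ K * (1 + i) := by
      rw [hL]
      nlinarith
    have h3 : (1 : ℝ) ≤ 1 + i := by linarith
    have h4 : (1 : ℝ) ≤ 8 ^ i := one_le_pow₀ (by norm_num)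
    have h5 : K * (1 + (i : ℝ)) ≤ K * ((1 + i) ^ 2 * 8 ^ i) := by
      apply mul_le_mul_of_nonneg_left _ hK0.le
      nlinarith [mul_nonneg (sub_nonneg.mpr h3) (sub_nonneg.mpr h4)]
    calc 1 * l * (57600 * L) = 144 * l * (400 * L) := by ring
      _ ≤ 144 * l * (K * ((1 + i) ^ 2 * 8 ^ i)) := by
          apply mul_le_mul_of_nonneg_left (h2.trans h5) (by positivity)
      _ = _ := by ring
  · have h1 : L ≤ (1 + Real.log K) * 2 ^ i := by
      calc L ≤ (1 + Real.log K) * (1 + i) := by rw [hL]; nlinarith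
        _ ≤ _ := mul_le_mul_of_nonneg_left hi2 (by linarith)
    have h2 : s * l / (3686400 * (1 + Real.log K)) ≤ s * (l / (57600 * L)) / 64 * 2 ^ i := by
      have h3 : s * (l / (57600 * L)) / 64 * 2 ^ i = s * l * 2 ^ i / (3686400 * L) := by
        field_simp
        norm_num
      rw [h3, div_le_div_iff₀ (by positivity) (by positivity)]
      have h4 : 0 ≤ s * l * 3686400 := by positivity
      nlinarith [mul_le_mul_of_nonneg_left h1 h4]
    refine h2.trans ?_
    gcongr

end H773V
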