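import Pool.Agent.H773R2.U2.Defs

/-! CHAIN: iteration of the second moment lemma over disjoint blocks. -/

namespace H773V

open Finset

/-- double counting through replacement of the values on the range of `e` -/
theorem CHAIN_count {n m : ℕ} (e : Fin m → Fin n) (he : Function.Injective e)
    (S : Finset (Fin n → Fin n)) :
    n ^ m * S.card = ∑ φ : Fin n → Fin n,
      ((univ : Finset (Fin m → Fin n)).filter (fun x => Function.extend e x φ ∈ S)).card := by
  classical
  let T : ((Fin n → Fin n) × (Fin m → Fin n)) → ((Fin n → Fin n) × (Fin m → Fin n)) :=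
    fun p => (Function.extend e p.2 p.1, p.1 ∘ e)
  have hT : Function.Involutive T := by
    rintro ⟨φ, x⟩
    have h2 : (Function.extend e x φ) ∘ e = x := by
      funext j
      exact he.extend_apply x φ j
    have h1 : Function.extend e (φ ∘ e) (Function.extend e x φ) = φ := by
      funext a
      by_cases ha : ∃ j, e j = a
      · obtain ⟨j, rfl⟩ := ha
        rw [he.extend_apply]
        rfl
      · rw [Function.extend_apply' _ _ _ ha, Function.extend_apply' _ _ _ ha]
    show (Function.extend e (φ ∘ e) (Function.extend e x φ), (Function.extend e x φ) ∘ e) = (φ, x)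
    rw [h1, h2]
  have h1 : ∑ p : (Fin n → Fin n) × (Fin m → Fin n), (if (T p).1 ∈ S then 1 else 0) =
      ∑ p : (Fin n → Fin n) × (Fin m → Fin n), (if p.1 ∈ S then 1 else 0) :=
    Equiv.sum_comp hT.toPerm (fun p => if p.1 ∈ S then 1 else 0)
  rw [Fintype.sum_prod_type, Fintype.sum_prod_type] at h1
  have h2 : ∀ φ : Fin n → Fin n, ∑ _x : Fin m → Fin n, (if φ ∈ S then 1 else 0) =
      n ^ m * (if φ ∈ S then 1 else 0) := by
    intro φ
    rw [Finset.sum_const, Finset.card_univ, Fintype.card_fun, Fintype.card_fin, Fintype.card_fin,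
      smul_eq_mul]
  simp only [h2] at h1
  rw [← Finset.mul_sum] at h1
  have h3 : ∑ φ : Fin n → Fin n, (if φ ∈ S then 1 else 0) = S.card := by
    simp
  rw [h3] at h1
  rw [← h1]
  apply Finset.sum_congr rfl
  intro φ _
  rw [Finset.card_filter]

/-- the hits of the first `j` blocks -/
def CHAIN_Z {n k : ℕ} (Y : Finset (Fin n)) (nb : Fin n → Finset (Fin n))
    (bl : Fin k → Finset (Fin n)) (j : ℕ) (φ : Fin n → Fin n) : Finset (Fin n) :=
  Y.filter (fun y => ∀ i : Fin k, (i : ℕ) < j → ∃ a ∈ bl i, φ a ∈ nb y)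

theorem CHAIN_Z_succ {n k : ℕ} (Y : Finset (Fin n)) (nb : Fin n → Finset (Fin n))
    (bl : Fin k → Finset (Fin n)) (j : ℕ) (hj : j < k) (φ : Fin n → Fin n) :
    CHAIN_Z Y nb bl (j + 1) φ =
      (CHAIN_Z Y nb bl j φ).filter (fun y => ∃ a ∈ bl ⟨j, hj⟩, φ a ∈ nb y) := by
  unfold CHAIN_Z
  rw [Finset.filter_filter]
  apply Finset.filter_congr
  intro y _
  constructor
  · intro h
    exact ⟨fun i hi => h i (by omega), h ⟨j, hj⟩ (Nat.lt_succ_self j)⟩
  · rintro ⟨h1, h2⟩ i hi
    rcases Nat.lt_succ_iff_lt_or_eq.1 hi with h | h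
    · exact h1 i h
    · have : i = ⟨j, hj⟩ := Fin.ext h
      rw [this]
      exact h2

/-- one block -/
theorem CHAIN_block (h : S_STEP) {n k m D Δ z : ℕ} (Y : Finset (Fin n))
    (nb : Fin n → Finset (Fin n)) (bl : Fin k → Finset (Fin n))
    (hD : ∀ y ∈ Y, (nb y).card = D) (hΔ : ∀ x, (Y.filter (fun y => x ∈ nb y)).card ≤ Δ)
    (hm : ∀ i, (bl i).card = m) (hdis : ∀ i j, i ≠ j → Disjoint (bl i) (bl j)) (hmD : m * D ≤ n)
    (hn : 0 < n) (j : ℕ) (hj : j < k) :
    ((univ : Finset (Fin n → Fin n)).filter (fun φ => z ≤ (CHAIN_Z Y nb bl j φ).card ∧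
      4 * n * (CHAIN_Z Y nb bl (j + 1) φ).card < m * D * (CHAIN_Z Y nb bl j φ).card)).card *
      (m * D * z) ≤ 16 * Δ * n * n ^ n := by
  classical
  set S := (univ : Finset (Fin n → Fin n)).filter (fun φ => z ≤ (CHAIN_Z Y nb bl j φ).card ∧
      4 * n * (CHAIN_Z Y nb bl (j + 1) φ).card < m * D * (CHAIN_Z Y nb bl j φ).card) with hS
  let e : Fin m → Fin n := (bl ⟨j, hj⟩).orderEmbOfFin (hm ⟨j, hj⟩)
  have he : Function.Injective e := ((bl ⟨j, hj⟩).orderEmbOfFin (hm ⟨j, hj⟩)).injective
  have hr : ∀ a, (∃ i, e i = a) ↔ a ∈ bl ⟨j, hj⟩ := by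
    intro a
    have := Finset.range_orderEmbOfFin (bl ⟨j, hj⟩) (hm ⟨j, hj⟩)
    have h2 : a ∈ Set.range e ↔ a ∈ ((bl ⟨j, hj⟩ : Finset (Fin n)) : Set (Fin n)) := by
      rw [← this]
    exact h2
  have hcount := CHAIN_count e he S
  have hone : ∀ φ : Fin n → Fin n,
      ((univ : Finset (Fin m → Fin n)).filter (fun x => Function.extend e x φ ∈ S)).card *
        (m * D * z) ≤ 16 * Δ * n * n ^ m := by
    intro φ
    by_cases hz : z ≤ (CHAIN_Z Y nb bl j φ).card
    · have hst := h n m D Δ (CHAIN_Z Y nb bl j φ) nb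
        (fun y hy => hD y (Finset.mem_of_mem_filter y hy))
        (fun x => (Finset.card_le_card (Finset.filter_subset_filter _
          (Finset.filter_subset _ _))).trans (hΔ x)) hmD
      refine le_trans (Nat.mul_le_mul (Finset.card_le_card ?_) (Nat.mul_le_mul_left _ hz)) hst
      intro x hx
      rw [Finset.mem_filter] at hx ⊢
      refine ⟨Finset.mem_univ _, ?_⟩
      have hx2 := hx.2
      rw [hS, Finset.mem_filter] at hx2
      obtain ⟨_, _, hx3⟩ := hx2
      have e1 : CHAIN_Z Y nb bl j (Function.extend e x φ) = CHAIN_Z Y nb bl j φ := by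
        unfold CHAIN_Z
        apply Finset.filter_congr
        intro y _
        apply forall_congr'
        intro i
        apply imp_congr_right
        intro hi
        have hdi : Disjoint (bl i) (bl ⟨j, hj⟩) := hdis i ⟨j, hj⟩ (by
          intro hc
          rw [hc] at hi
          exact lt_irrefl _ hi)
        constructor
        · rintro ⟨a, ha, hφ⟩
          have hna : ¬ ∃ i, e i = a := by
            rw [hr]
            exact Finset.disjoint_left.1 hdi ha
          rw [Function.extend_apply' _ _ _ hna] at hφ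
          exact ⟨a, ha, hφ⟩
        · rintro ⟨a, ha, hφ⟩
          have hna : ¬ ∃ i, e i = a := by
            rw [hr]
            exact Finset.disjoint_left.1 hdi ha
          refine ⟨a, ha, ?_⟩
          rw [Function.extend_apply' _ _ _ hna]
          exact hφ
      have e2 : CHAIN_Z Y nb bl (j + 1) (Function.extend e x φ) =
          (CHAIN_Z Y nb bl j φ).filter (fun y => ∃ i, x i ∈ nb y) := by
        rw [CHAIN_Z_succ Y nb bl j hj, e1]
        apply Finset.filter_congr
        intro y _
        constructor
        · rintro ⟨a, ha, hφ⟩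
          obtain ⟨i, rfl⟩ := (hr a).2 ha
          rw [he.extend_apply] at hφ
          exact ⟨i, hφ⟩
        · rintro ⟨i, hi⟩
          refine ⟨e i, (hr _).1 ⟨i, rfl⟩, ?_⟩
          rw [he.extend_apply]
          exact hi
      rw [e1, e2] at hx3
      exact hx3
    · have hempty : ((univ : Finset (Fin m → Fin n)).filter
          (fun x => Function.extend e x φ ∈ S)) = ∅ := by
        apply Finset.filter_eq_empty_iff.2
        intro x _ hx
        rw [hS, Finset.mem_filter] at hx
        obtain ⟨_, hx2, _⟩ := hx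
        apply hz
        refine hx2.trans (le_of_eq ?_)
        congr 1
        unfold CHAIN_Z
        apply Finset.filter_congr
        intro y _
        apply forall_congr'
        intro i
        apply imp_congr_right
        intro hi
        have hdi : Disjoint (bl i) (bl ⟨j, hj⟩) := hdis i ⟨j, hj⟩ (by
          intro hc
          rw [hc] at hi
          exact lt_irrefl _ hi)
        constructor
        · rintro ⟨a, ha, hφ⟩
          have hna : ¬ ∃ i, e i = a := by
            rw [hr]
            exact Finset.disjoint_left.1 hdi ha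
          rw [Function.extend_apply' _ _ _ hna] at hφ
          exact ⟨a, ha, hφ⟩
        · rintro ⟨a, ha, hφ⟩
          have hna : ¬ ∃ i, e i = a := by
            rw [hr]
            exact Finset.disjoint_left.1 hdi ha
          refine ⟨a, ha, ?_⟩
          rw [Function.extend_apply' _ _ _ hna]
          exact hφ
      rw [hempty, Finset.card_empty, Nat.zero_mul]
      exact Nat.zero_le _
  have hpos : 0 < n ^ m := Nat.pow_pos hn
  apply Nat.le_of_mul_le_mul_left _ hpos
  calc n ^ m * (S.card * (m * D * z)) = (n ^ m * S.card) * (m * D * z) := by ring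
    _ = ∑ φ : Fin n → Fin n, ((univ : Finset (Fin m → Fin n)).filter
          (fun x => Function.extend e x φ ∈ S)).card * (m * D * z) := by
        rw [hcount, Finset.sum_mul]
    _ ≤ ∑ _φ : Fin n → Fin n, 16 * Δ * n * n ^ m := Finset.sum_le_sum fun φ _ => hone φ
    _ = n ^ m * (16 * Δ * n * n ^ n) := by
        rw [Finset.sum_const, Finset.card_univ, Fintype.card_fun, Fintype.card_fin, smul_eq_mul]
        ring

theorem CHAIN (h : S_STEP) : S_CHAIN := by
  classical
  intro n k m D Δ z Y nb bl hD hΔ hm hdis hmD hz hkz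
  -- the degenerate cases
  rcases Nat.eq_zero_or_pos z with hz0 | hz0
  · subst hz0
    simp
  have hZk : ∀ φ : Fin n → Fin n, Y.filter (fun y => ∀ i, ∃ a ∈ bl i, φ a ∈ nb y) =
      CHAIN_Z Y nb bl k φ := by
    intro φ
    unfold CHAIN_Z
    apply Finset.filter_congr
    intro y _
    exact ⟨fun h i _ => h i, fun h i => h i i.2⟩
  simp only [hZk]
  rcases Nat.eq_zero_or_pos (m * D) with hmD0 | hmD0
  · -- `z ≤ 0` unless `k = 0`
    have hq : (m : ℝ) * D / (4 * n) = 0 := by
      have : ((m * D : ℕ) : ℝ) = 0 := by rw [hmD0]; simp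
      push_cast at this
      rw [this, zero_div]
    rw [hq] at hz
    rcases Nat.eq_zero_or_pos k with hk | hk
    · subst hk
      rw [pow_zero, one_mul] at hz
      have hz2 : z ≤ Y.card := by exact_mod_cast hz
      have hemp : (univ : Finset (Fin n → Fin n)).filter
          (fun φ => (CHAIN_Z Y nb bl 0 φ).card < z) = ∅ := by
        apply Finset.filter_eq_empty_iff.2
        intro φ _ hc
        have : CHAIN_Z Y nb bl 0 φ = Y := by
          unfold CHAIN_Z
          apply Finset.filter_true_of_mem
          intro y _ i hi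
          exact absurd hi (Nat.not_lt_zero _)
        rw [this] at hc
        omega
      rw [hemp]
      simp
    · rw [zero_pow hk.ne', zero_mul] at hz
      have : (0 : ℝ) < z := by exact_mod_cast hz0
      linarith
  have hn : 0 < n := lt_of_lt_of_le hmD0 hmD
  have hnR : (0 : ℝ) < n := by exact_mod_cast hn
  set q : ℝ := (m : ℝ) * D / (4 * n) with hqd
  have hq0 : 0 ≤ q := by positivity
  have hq1 : q ≤ 1 := by
    rw [hqd, div_le_one (by positivity)]
    have : ((m * D : ℕ) : ℝ) ≤ n := by exact_mod_cast hmD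
    push_cast at this
    linarith
  -- the claim
  have hclaim : ∀ j, j ≤ k → ((univ : Finset (Fin n → Fin n)).filter
      (fun φ => ((CHAIN_Z Y nb bl j φ).card : ℝ) < q ^ j * Y.card)).card * (m * D * z) ≤
        j * (16 * Δ * n * n ^ n) := by
    intro j
    induction j with
    | zero =>
      intro _
      have hemp : (univ : Finset (Fin n → Fin n)).filter
          (fun φ => ((CHAIN_Z Y nb bl 0 φ).card : ℝ) < q ^ 0 * Y.card) = ∅ := by
        apply Finset.filter_eq_empty_iff.2
        intro φ _ hc
        have : CHAIN_Z Y nb bl 0 φ = Y := by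
          unfold CHAIN_Z
          apply Finset.filter_true_of_mem
          intro y _ i hi
          exact absurd hi (Nat.not_lt_zero _)
        rw [this, pow_zero, one_mul] at hc
        exact lt_irrefl _ hc
      rw [hemp]
      simp
    | succ j ih =>
      intro hjk
      have hj : j < k := hjk
      have ih' := ih hj.le
      have hb := CHAIN_block h (z := z) Y nb bl hD hΔ hm hdis hmD hn j hj
      have hsub : (univ : Finset (Fin n → Fin n)).filter
          (fun φ => ((CHAIN_Z Y nb bl (j + 1) φ).card : ℝ) < q ^ (j + 1) * Y.card) ⊆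
          ((univ : Finset (Fin n → Fin n)).filter
            (fun φ => ((CHAIN_Z Y nb bl j φ).card : ℝ) < q ^ j * Y.card)) ∪
          ((univ : Finset (Fin n → Fin n)).filter (fun φ => z ≤ (CHAIN_Z Y nb bl j φ).card ∧
            4 * n * (CHAIN_Z Y nb bl (j + 1) φ).card < m * D * (CHAIN_Z Y nb bl j φ).card)) := by
        intro φ hφ
        rw [Finset.mem_filter] at hφ
        rw [Finset.mem_union, Finset.mem_filter, Finset.mem_filter]
        by_cases hc : ((CHAIN_Z Y nb bl j φ).card : ℝ) < q ^ j * Y.card
        · exact Or.inl ⟨Finset.mem_univ _, hc⟩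
        · right
          push Not at hc
          refine ⟨Finset.mem_univ _, ?_, ?_⟩
          · have h1 : q ^ k ≤ q ^ j := pow_le_pow_of_le_one hq0 hq1 hj.le
            have h2 : (z : ℝ) ≤ (CHAIN_Z Y nb bl j φ).card :=
              calc (z : ℝ) ≤ q ^ k * Y.card := hz
                _ ≤ q ^ j * Y.card := mul_le_mul_of_nonneg_right h1 (Nat.cast_nonneg _)
                _ ≤ _ := hc
            exact_mod_cast h2
          · have h3 : ((CHAIN_Z Y nb bl (j + 1) φ).card : ℝ) < q * (CHAIN_Z Y nb bl j φ).card := by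
              calc ((CHAIN_Z Y nb bl (j + 1) φ).card : ℝ) < q ^ (j + 1) * Y.card := hφ.2
                _ = q * (q ^ j * Y.card) := by ring
                _ ≤ q * (CHAIN_Z Y nb bl j φ).card := mul_le_mul_of_nonneg_left hc hq0
            have h4 : 4 * (n : ℝ) * ((CHAIN_Z Y nb bl (j + 1) φ).card : ℝ) <
                (m : ℝ) * D * (CHAIN_Z Y nb bl j φ).card := by
              have h5 : 4 * (n : ℝ) * (q * (CHAIN_Z Y nb bl j φ).card) =
                  (m : ℝ) * D * (CHAIN_Z Y nb bl j φ).card := by
                rw [hqd]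
                field_simp
              rw [← h5]
              exact mul_lt_mul_of_pos_left h3 (by positivity)
            exact_mod_cast h4
      calc ((univ : Finset (Fin n → Fin n)).filter
            (fun φ => ((CHAIN_Z Y nb bl (j + 1) φ).card : ℝ) < q ^ (j + 1) * Y.card)).card *
              (m * D * z)
          ≤ (((univ : Finset (Fin n → Fin n)).filter
            (fun φ => ((CHAIN_Z Y nb bl j φ).card : ℝ) < q ^ j * Y.card)).card +
          ((univ : Finset (Fin n → Fin n)).filter (fun φ => z ≤ (CHAIN_Z Y nb bl j φ).card ∧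
            4 * n * (CHAIN_Z Y nb bl (j + 1) φ).card <
              m * D * (CHAIN_Z Y nb bl j φ).card)).card) * (m * D * z) :=
            Nat.mul_le_mul_right _ ((Finset.card_le_card hsub).trans (Finset.card_union_le _ _))
        _ ≤ j * (16 * Δ * n * n ^ n) + 16 * Δ * n * n ^ n := by
            rw [Nat.add_mul]
            exact Nat.add_le_add ih' hb
        _ = (j + 1) * (16 * Δ * n * n ^ n) := by ring
  have hk := hclaim k (le_refl k)
  have hsub : (univ : Finset (Fin n → Fin n)).filter
      (fun φ => (CHAIN_Z Y nb bl k φ).card < z) ⊆ (univ : Finset (Fin n → Fin n)).filter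
      (fun φ => ((CHAIN_Z Y nb bl k φ).card : ℝ) < q ^ k * Y.card) := by
    intro φ hφ
    rw [Finset.mem_filter] at hφ ⊢
    refine ⟨Finset.mem_univ _, ?_⟩
    have : ((CHAIN_Z Y nb bl k φ).card : ℝ) < z := by exact_mod_cast hφ.2
    linarith
  have hpos : 0 < m * D * z := Nat.mul_pos hmD0 hz0
  apply Nat.le_of_mul_le_mul_right _ hpos
  calc 16 * ((univ : Finset (Fin n → Fin n)).filter
        (fun φ => (CHAIN_Z Y nb bl k φ).card < z)).card * (m * D * z)
      ≤ 16 * (((univ : Finset (Fin n → Fin n)).filter
        (fun φ => ((CHAIN_Z Y nb bl k φ).card : ℝ) < q ^ k * Y.card)).card * (m * D * z)) := by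
        rw [Nat.mul_assoc]
        exact Nat.mul_le_mul_left _ (Nat.mul_le_mul_right _ (Finset.card_le_card hsub))
    _ ≤ 16 * (k * (16 * Δ * n * n ^ n)) := Nat.mul_le_mul_left _ hk
    _ = 256 * Δ * n * k * n ^ n := by ring
    _ ≤ m * D * z * n ^ n := Nat.mul_le_mul_right _ hkz
    _ = n ^ n * (m * D * z) := by ring

end H773V
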