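import Pool.Agent.H773R2.U2.Defs

/-! Task CLEAN: a conflict-free symmetric system of pairs with `w` thirds each. -/

set_option linter.unusedVariables false

namespace H773V

open Finset Pool.Agent.Results.MP_9dddc4_co.UkExponent

/-- the thirds of the pair `u v` -/
def CLEAN_th {n : ℕ} (H : ES n) (u v : Fin n) : Finset (Fin n) :=
  univ.filter (fun t => t ≠ u ∧ t ≠ v ∧ ({u, v, t} : Finset (Fin n)) ∈ H)

lemma CLEAN_th_symm {n : ℕ} (H : ES n) (u v : Fin n) : CLEAN_th H u v = CLEAN_th H v u := by
  unfold CLEAN_th
  apply Finset.filter_congr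
  intro t _
  have h : ({u, v, t} : Finset (Fin n)) = {v, u, t} := by
    ext x; simp only [mem_insert, mem_singleton]; tauto
  rw [h]
  tauto

lemma CLEAN_th_card {n : ℕ} (H : ES n) (hH : IsRGraph 3 H) (u v : Fin n) (huv : u ≠ v) :
    (CLEAN_th H u v).card = cod H u v := by
  unfold cod
  have himg : (CLEAN_th H u v).image (fun t => ({u, v, t} : Finset (Fin n)))
      = H.filter (fun f => u ∈ f ∧ v ∈ f) := by
    ext f
    simp only [mem_image, mem_filter, CLEAN_th, mem_univ, true_and]
    constructor
    · rintro ⟨t, ⟨h1, h2, h3⟩, rfl⟩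
      exact ⟨h3, by simp, by simp⟩
    · rintro ⟨hf, hu, hv⟩
      have h3 : f.card = 3 := hH f hf
      have hsub : ({u, v} : Finset (Fin n)) ⊆ f := by
        intro x hx
        simp only [mem_insert, mem_singleton] at hx
        rcases hx with rfl | rfl <;> assumption
      have hc2 : ({u, v} : Finset (Fin n)).card = 2 := card_pair huv
      have hd : (f \ {u, v}).card = 1 := by
        rw [card_sdiff_of_subset hsub, h3, hc2]
      obtain ⟨t, ht⟩ := card_eq_one.mp hd
      have htm : t ∈ f \ {u, v} := by rw [ht]; simp
      have htm' := htm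
      simp only [mem_sdiff, mem_insert, mem_singleton, not_or] at htm'
      have hfe : ({u, v, t} : Finset (Fin n)) = f := by
        have : f = (f \ {u, v}) ∪ {u, v} := (sdiff_union_of_subset hsub).symm
        rw [ht] at this
        rw [this]
        ext x; simp only [mem_insert, mem_singleton, mem_union]; tauto
      exact ⟨t, ⟨htm'.2.1, htm'.2.2, by rw [hfe]; exact hf⟩, hfe⟩
  rw [← himg, card_image_of_injOn]
  intro t ht t' ht' he
  simp only [CLEAN_th, coe_filter, mem_univ, true_and, Set.mem_setOf_eq] at ht ht'
  have : t ∈ ({u, v, t'} : Finset (Fin n)) := by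
    have h : t ∈ ({u, v, t} : Finset (Fin n)) := by simp
    have he' : ({u, v, t} : Finset (Fin n)) = {u, v, t'} := he
    rw [he'] at h; exact h
  simp only [mem_insert, mem_singleton] at this
  rcases this with h | h | h
  · exact absurd h ht.1
  · exact absurd h ht.2.1
  · exact h

/-- a subset of size `w` if there is one -/
noncomputable def CLEAN_sub {n : ℕ} (w : ℕ) (S : Finset (Fin n)) : Finset (Fin n) :=
  open Classical in if h : w ≤ S.card then (exists_subset_card_eq h).choose else ∅

lemma CLEAN_sub_subset {n : ℕ} (w : ℕ) (S : Finset (Fin n)) : CLEAN_sub w S ⊆ S := by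
  unfold CLEAN_sub
  split_ifs with h
  · exact (exists_subset_card_eq h).choose_spec.1
  · simp

lemma CLEAN_sub_card {n : ℕ} (w : ℕ) (S : Finset (Fin n)) (h : w ≤ S.card) :
    (CLEAN_sub w S).card = w := by
  unfold CLEAN_sub
  rw [dif_pos h]
  exact (exists_subset_card_eq h).choose_spec.2

/-- CLEAN -/
theorem CLEAN : S_CLEAN := by
  classical
  intro n w Γ H hH hw hΓ
  set T : Fin n → Fin n → Finset (Fin n) := fun u v => CLEAN_sub w (CLEAN_th H u v) with hT
  have hTs : ∀ u v, T u v = T v u := by
    intro u v
    simp only [hT]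
    rw [CLEAN_th_symm]
  have hTsub : ∀ u v t, t ∈ T u v → t ≠ u ∧ t ≠ v ∧ ({u, v, t} : Finset (Fin n)) ∈ H := by
    intro u v t ht
    have := CLEAN_sub_subset w (CLEAN_th H u v) ht
    simpa [CLEAN_th] using this
  have hhv : ∀ p : Fin n × Fin n, p ∈ hv H w ↔ p.1 ≠ p.2 ∧ w ≤ cod H p.1 p.2 := by
    intro p; simp [hv]
  have hTc : ∀ u v, (u, v) ∈ hv H w → (T u v).card = w := by
    intro u v h
    rw [hhv] at h
    apply CLEAN_sub_card
    rw [CLEAN_th_card H hH u v h.1]
    exact h.2
  have hcs : ∀ u v, u ≠ v → cod H u v = cod H v u := by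
    intro u v h
    rw [← CLEAN_th_card H hH u v h, ← CLEAN_th_card H hH v u h.symm, CLEAN_th_symm]
  have hhs : ∀ u v, (u, v) ∈ hv H w → (v, u) ∈ hv H w := by
    intro u v h
    rw [hhv] at h ⊢
    exact ⟨h.1.symm, by rw [← hcs u v h.1]; exact h.2⟩
  -- the family of admissible sets
  let Adm : Finset (Fin n × Fin n) → Prop := fun G => SG G ∧
    ∀ u v v', (u, v) ∈ G → (u, v') ∈ G → v ≠ v' → Disjoint (T u v) (T u v')
  have hne : (((hv H w).powerset).filter Adm).Nonempty := by
    refine ⟨∅, ?_⟩
    simp only [mem_filter, mem_powerset, empty_subset, true_and, Adm, SG]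
    refine ⟨?_, ?_⟩
    · intro u v h; simp at h
    · intro u v v' h; simp at h
  obtain ⟨G, hG, hmax⟩ := exists_max_image _ (fun G : Finset (Fin n × Fin n) => G.card) hne
  simp only [mem_filter, mem_powerset] at hG
  obtain ⟨hGsub, hGsg, hGd⟩ := hG
  refine ⟨G, T, hGsub, ⟨hGsg, hTs, ?_, ?_, hGd⟩, ?_, ?_⟩
  · intro u v h; exact hTc u v (hGsub h)
  · intro u v h
    exact ⟨fun h' => (hTsub u v u h').1 rfl, fun h' => (hTsub u v v h').2.1 rfl⟩
  · intro u v h t ht
    exact (hTsub u v t ht).2.2
  · -- counting
    -- the conflict set at a pair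
    let C : Fin n × Fin n → Finset (Fin n) := fun p =>
      (T p.1 p.2).biUnion (fun t => CLEAN_th H p.1 t)
    have hC : ∀ p ∈ G, (C p).card ≤ w * Γ := by
      intro p hp
      have h1 : (C p).card ≤ ∑ t ∈ T p.1 p.2, (CLEAN_th H p.1 t).card := card_biUnion_le
      have h2 : ∑ t ∈ T p.1 p.2, (CLEAN_th H p.1 t).card ≤ ∑ t ∈ T p.1 p.2, Γ := by
        apply sum_le_sum
        intro t ht
        have hne : p.1 ≠ t := (hTsub _ _ _ ht).1.symm
        rw [CLEAN_th_card H hH p.1 t hne]
        exact hΓ _ _ hne
      rw [sum_const, smul_eq_mul, hTc p.1 p.2 (hGsub hp)] at h2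
      exact h1.trans h2
    have hcov : hv H w ⊆ G ∪ (G.biUnion (fun p => (C p).image (fun v => (p.1, v))) ∪
        G.biUnion (fun p => (C p).image (fun v => (v, p.1)))) := by
      intro q hq
      obtain ⟨u, v⟩ := q
      by_contra hcon
      simp only [mem_union, mem_biUnion, mem_image, not_or, not_exists, not_and] at hcon
      obtain ⟨hnG, hn1, hn2⟩ := hcon
      have huv : u ≠ v := ((hhv _).1 hq).1
      -- no conflicts at u
      have key1 : ∀ v', (u, v') ∈ G → Disjoint (T u v) (T u v') := by
        intro v' hv'
        rw [Finset.disjoint_left]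
        intro t ht ht'
        apply hn1 (u, v') hv' v _ rfl
        simp only [C, mem_biUnion]
        refine ⟨t, ht', ?_⟩
        have h3 := hTsub u v t ht
        simp only [CLEAN_th, mem_filter, mem_univ, true_and]
        refine ⟨huv.symm, h3.2.1.symm, ?_⟩
        have : ({u, t, v} : Finset (Fin n)) = {u, v, t} := by
          ext x; simp only [mem_insert, mem_singleton]; tauto
        rw [this]; exact h3.2.2
      have key2 : ∀ u', (v, u') ∈ G → Disjoint (T v u) (T v u') := by
        intro u' hu'
        rw [Finset.disjoint_left]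
        intro t ht ht'
        apply hn2 (v, u') hu' u _ rfl
        simp only [C, mem_biUnion]
        refine ⟨t, ht', ?_⟩
        have h3 := hTsub v u t ht
        simp only [CLEAN_th, mem_filter, mem_univ, true_and]
        refine ⟨huv, h3.2.1.symm, ?_⟩
        have : ({v, t, u} : Finset (Fin n)) = {v, u, t} := by
          ext x; simp only [mem_insert, mem_singleton]; tauto
        rw [this]; exact h3.2.2
      -- the extension
      have hadm : insert (u, v) (insert (v, u) G) ∈ ((hv H w).powerset).filter Adm := by
        simp only [mem_filter, mem_powerset]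
        refine ⟨?_, ?_, ?_⟩
        · intro p hp
          simp only [mem_insert] at hp
          rcases hp with rfl | rfl | hp
          · exact hq
          · exact hhs _ _ hq
          · exact hGsub hp
        · intro a b hab
          simp only [mem_insert, Prod.mk.injEq] at hab ⊢
          rcases hab with ⟨rfl, rfl⟩ | ⟨rfl, rfl⟩ | hab
          · exact ⟨Or.inr (Or.inl ⟨rfl, rfl⟩), huv⟩
          · exact ⟨Or.inl ⟨rfl, rfl⟩, huv.symm⟩
          · exact ⟨Or.inr (Or.inr (hGsg _ _ hab).1), (hGsg _ _ hab).2⟩
        · intro a b b' hab hab' hbb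
          simp only [mem_insert, Prod.mk.injEq] at hab hab'
          rcases hab with ⟨rfl, rfl⟩ | ⟨rfl, rfl⟩ | hab
          · rcases hab' with ⟨_, rfl⟩ | ⟨h1, _⟩ | hab'
            · exact absurd rfl hbb
            · exact absurd h1 huv
            · exact key1 _ hab'
          · rcases hab' with ⟨h1, _⟩ | ⟨_, rfl⟩ | hab'
            · exact absurd h1.symm huv
            · exact absurd rfl hbb
            · exact key2 _ hab'
          · rcases hab' with ⟨rfl, rfl⟩ | ⟨rfl, rfl⟩ | hab'
            · exact (key1 _ hab).symm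
            · exact (key2 _ hab).symm
            · exact hGd _ _ _ hab hab' hbb
      have hle := hmax _ hadm
      have hlt : G.card < (insert (u, v) (insert (v, u) G)).card := by
        apply card_lt_card
        rw [ssubset_iff_of_subset]
        · exact ⟨(u, v), by simp, hnG⟩
        · intro p hp; simp [hp]
      exact absurd hle (not_le.mpr hlt)
    have h1 : (hv H w).card ≤ G.card + ((G.biUnion (fun p => (C p).image (fun v => (p.1, v)))).card +
        (G.biUnion (fun p => (C p).image (fun v => (v, p.1)))).card) := by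
      refine (card_le_card hcov).trans ((card_union_le _ _).trans ?_)
      gcongr
      exact card_union_le _ _
    have h2 : (G.biUnion (fun p => (C p).image (fun v => (p.1, v)))).card ≤ G.card * (w * Γ) := by
      apply card_biUnion_le_card_mul
      intro p hp
      exact card_image_le.trans (hC p hp)
    have h3 : (G.biUnion (fun p => (C p).image (fun v => (v, p.1)))).card ≤ G.card * (w * Γ) := by
      apply card_biUnion_le_card_mul
      intro p hp
      exact card_image_le.trans (hC p hp)
    nlinarith [Nat.zero_le (G.card * (w * Γ))]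

end H773V
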