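import Pool.Agent.H773R2.U2.Defs

/-! Task COMT (helper879): a common subgraph from the tree-like hypergraph. -/

set_option autoImplicit false

namespace H773V

open Finset Pool.Agent.Results.MP_9dddc4_co.UkExponent
open H773U (ContainsT Tr dg cg nn mm)

lemma COMT_perm {n : ℕ} {X : Type} (f g : X → Fin n) (hf : Function.Injective f)
    (hg : Function.Injective g) : ∃ σ : Equiv.Perm (Fin n), ∀ x, σ (f x) = g x := by
  classical
  let e : {v // v ∈ Set.range f} ≃ {v // v ∈ Set.range g} :=
    (Equiv.ofInjective f hf).symm.trans (Equiv.ofInjective g hg)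
  refine ⟨e.extendSubtype, fun x => ?_⟩
  rw [Equiv.extendSubtype_apply_of_mem e (f x) ⟨x, rfl⟩]
  have h1 : e (Equiv.ofInjective f hf x) = Equiv.ofInjective g hg x := by
    change (Equiv.ofInjective g hg) ((Equiv.ofInjective f hf).symm (Equiv.ofInjective f hf x)) = _
    rw [Equiv.symm_apply_apply]
  exact congrArg Subtype.val h1

/-- the edge with index `x` -/
def COMT_edge {n t u w : ℕ} (φ : (Fin t ⊕ (Fin t × Fin u)) ⊕ (Fin t × Fin u × Fin w) → Fin n)
    (x : Fin t × Fin u × Fin w) : Finset (Fin n) :=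
  {φ (.inl (.inl x.1)), φ (.inl (.inr (x.1, x.2.1))), φ (.inr x)}

lemma COMT_inj {n t u w : ℕ} (φ : (Fin t ⊕ (Fin t × Fin u)) ⊕ (Fin t × Fin u × Fin w) → Fin n)
    (hφ : Function.Injective φ) : Function.Injective (COMT_edge φ) := by
  intro x y h
  have h1 : φ (.inr x) ∈ COMT_edge φ y := by
    rw [← h]
    simp [COMT_edge]
  simp only [COMT_edge, mem_insert, mem_singleton] at h1
  rcases h1 with h1 | h1 | h1
  · exact absurd (hφ h1) (by simp)
  · exact absurd (hφ h1) (by simp)
  · exact Sum.inr_injective (hφ h1)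

theorem COMT : S_COMT := by
  intro n t u w H1 H2 hH1 hH2
  obtain ⟨φ1, h1, m1⟩ := hH1
  obtain ⟨φ2, h2, m2⟩ := hH2
  obtain ⟨σ, hσ⟩ := COMT_perm φ1 φ2 h1 h2
  refine ⟨univ.image (COMT_edge φ1), σ, ?_, σ.injective.injOn, ?_, ?_⟩
  · intro s hs
    obtain ⟨x, _, rfl⟩ := mem_image.1 hs
    exact m1 x.1 x.2.1 x.2.2
  · intro s hs
    unfold img at hs
    rw [image_image] at hs
    obtain ⟨x, _, rfl⟩ := mem_image.1 hs
    have : (COMT_edge φ1 x).image σ = COMT_edge φ2 x := by
      simp only [COMT_edge, image_insert, image_singleton, hσ]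
    rw [Function.comp_apply, this]
    exact m2 x.1 x.2.1 x.2.2
  · rw [card_image_of_injective _ (COMT_inj _ h1), card_univ]
    simp only [Fintype.card_prod, Fintype.card_fin]
    exact le_of_eq (mul_assoc _ _ _)

end H773V
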