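import Pool.Agent.H773R2.U2.Defs

set_option autoImplicit false

namespace H773V

open Finset

lemma CORE_blocks {n : ℕ} (S : Finset (Fin n)) (k m : ℕ) (h : k * m ≤ S.card) :
    ∃ bl : Fin k → Finset (Fin n), (∀ i, bl i ⊆ S) ∧ (∀ i, (bl i).card = m) ∧
      ∀ i j, i ≠ j → Disjoint (bl i) (bl j) := by
  classical
  have h1 : Fintype.card (Fin k × Fin m) ≤ Fintype.card S := by
    rw [Fintype.card_prod, Fintype.card_fin, Fintype.card_fin, Fintype.card_coe]
    exact h
  obtain ⟨e⟩ := Function.Embedding.nonempty_of_card_le h1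
  refine ⟨fun i => univ.image fun j => (e (i, j) : Fin n), ?_, ?_, ?_⟩
  · intro i x hx
    rw [mem_image] at hx
    obtain ⟨j, -, rfl⟩ := hx
    exact (e (i, j)).2
  · intro i
    rw [card_image_of_injective, card_univ, Fintype.card_fin]
    intro j j' hj
    have := e.injective (Subtype.ext hj)
    exact (Prod.mk.inj this).2
  · intro i j hij
    rw [Finset.disjoint_left]
    intro x hx hx'
    rw [mem_image] at hx hx'
    obtain ⟨a, -, rfl⟩ := hx
    obtain ⟨b, -, hb⟩ := hx'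
    have := e.injective (Subtype.ext hb)
    exact hij (Prod.mk.inj this).1.symm

lemma CORE_hit {n k : ℕ} (S : Finset (Fin n)) (bl : Fin k → Finset (Fin n)) (h1 : ∀ i, bl i ⊆ S)
    (h2 : ∀ i j, i ≠ j → Disjoint (bl i) (bl j)) (p : Fin n → Prop) [DecidablePred p]
    (h : ∀ i, ∃ a ∈ bl i, p a) : k ≤ (S.filter p).card := by
  classical
  choose f hf hp using h
  have hinj : Function.Injective f := by
    intro i j hij
    by_contra hne
    exact Finset.disjoint_left.1 (h2 i j hne) (hf i) (hij ▸ hf j)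
  calc k = (univ.image f).card := by
        rw [card_image_of_injective _ hinj, card_univ, Fintype.card_fin]
    _ ≤ (S.filter p).card := by
        apply card_le_card
        intro x hx
        rw [mem_image] at hx
        obtain ⟨i, -, rfl⟩ := hx
        rw [mem_filter]
        exact ⟨h1 i (hf i), hp i⟩

lemma CORE_pair {n : ℕ} (a a' : Fin n) (h : a ≠ a') :
    ((univ : Finset (Fin n → Fin n)).filter (fun φ => φ a = φ a')).card * n ≤ n ^ n := by
  classical
  have h1 : ((((univ : Finset (Fin n → Fin n)).filter (fun φ => φ a = φ a')) ×ˢ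
      (univ : Finset (Fin n))).image (fun q => Function.update q.1 a q.2)).card =
      ((univ : Finset (Fin n → Fin n)).filter (fun φ => φ a = φ a')).card * n := by
    rw [card_image_of_injOn, card_product, card_univ, Fintype.card_fin]
    rintro ⟨φ, c⟩ hq ⟨φ', c'⟩ hq' heq
    simp only [coe_product, Set.mem_prod, mem_coe, mem_filter, mem_univ, true_and, and_true]
      at hq hq' heq
    have hc : c = c' := by
      have := congrFun heq a
      simpa using this
    have hoff : ∀ x, x ≠ a → φ x = φ' x := by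
      intro x hx
      have := congrFun heq x
      simpa [Function.update_of_ne hx] using this
    have hφ : φ = φ' := by
      funext x
      by_cases hx : x = a
      · rw [hx, hq, hq', hoff a' (Ne.symm h)]
      · exact hoff x hx
    rw [hc, hφ]
  rw [← h1]
  calc _ ≤ (univ : Finset (Fin n → Fin n)).card := card_le_card (subset_univ _)
    _ = n ^ n := by rw [card_univ, Fintype.card_fun, Fintype.card_fin]

lemma CORE_inj {n : ℕ} (V : Finset (Fin n)) (hV : 4 * V.card ^ 2 ≤ n) (hn : 1 ≤ n)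
    (X : Finset (Fin n → Fin n)) (hX : ∀ φ ∈ X, ¬ Set.InjOn φ (V : Set (Fin n))) :
    4 * X.card ≤ n ^ n := by
  classical
  have h1 : X ⊆ V.offDiag.biUnion
      (fun q => (univ : Finset (Fin n → Fin n)).filter (fun φ => φ q.1 = φ q.2)) := by
    intro φ hφ
    have := hX φ hφ
    unfold Set.InjOn at this
    push_neg at this
    obtain ⟨a, ha, b, hb, hab, hne⟩ := this
    rw [mem_biUnion]
    refine ⟨(a, b), ?_, ?_⟩
    · rw [mem_offDiag]
      exact ⟨ha, hb, hne⟩
    · simpa using hab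
  have h2 : X.card * n ≤ V.card ^ 2 * n ^ n := by
    calc X.card * n ≤ (V.offDiag.biUnion
          (fun q => (univ : Finset (Fin n → Fin n)).filter (fun φ => φ q.1 = φ q.2))).card * n :=
          Nat.mul_le_mul_right _ (card_le_card h1)
      _ ≤ (∑ q ∈ V.offDiag,
          ((univ : Finset (Fin n → Fin n)).filter (fun φ => φ q.1 = φ q.2)).card) * n :=
          Nat.mul_le_mul_right _ card_biUnion_le
      _ = ∑ q ∈ V.offDiag,
          ((univ : Finset (Fin n → Fin n)).filter (fun φ => φ q.1 = φ q.2)).card * n := by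
          rw [sum_mul]
      _ ≤ ∑ _q ∈ V.offDiag, n ^ n := by
          refine sum_le_sum fun q hq => ?_
          rw [mem_offDiag] at hq
          exact CORE_pair q.1 q.2 hq.2.2
      _ = V.offDiag.card * n ^ n := by rw [sum_const, smul_eq_mul]
      _ ≤ V.card ^ 2 * n ^ n := by
          refine Nat.mul_le_mul_right _ ?_
          rw [offDiag_card, sq]
          exact Nat.sub_le _ _
  have h3 : (4 * X.card) * n ≤ n ^ n * n := by
    calc (4 * X.card) * n = 4 * (X.card * n) := by ring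
      _ ≤ 4 * (V.card ^ 2 * n ^ n) := Nat.mul_le_mul_left _ h2
      _ = (4 * V.card ^ 2) * n ^ n := by ring
      _ ≤ n * n ^ n := Nat.mul_le_mul_right _ hV
      _ = n ^ n * n := by ring
  exact Nat.le_of_mul_le_mul_right h3 hn

lemma CORE_weight {α β : Type} [Fintype α] [DecidableEq α] (B : Finset β) (k : β → ℕ)
    (bad : β → Finset α) (M : ℕ) (h : ∀ b ∈ B, 16 * (bad b).card ≤ M)
    (X : Finset α) (hX : ∀ φ ∈ X, ∑ b ∈ B, k b < 2 * ∑ b ∈ B with φ ∈ bad b, k b) :
    8 * X.card ≤ M := by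
  classical
  by_cases hX0 : X = ∅
  · rw [hX0, card_empty]; omega
  obtain ⟨φ₀, hφ₀⟩ := Finset.nonempty_iff_ne_empty.2 hX0
  have hWpos : 0 < ∑ b ∈ B, k b := by
    have h1 := hX φ₀ hφ₀
    have h2 : ∑ b ∈ B with φ₀ ∈ bad b, k b ≤ ∑ b ∈ B, k b :=
      sum_le_sum_of_subset (filter_subset _ _)
    omega
  have h3 : ∑ φ : α, ∑ b ∈ B with φ ∈ bad b, k b = ∑ b ∈ B, k b * (bad b).card := by
    have e1 : ∀ φ : α, ∑ b ∈ B with φ ∈ bad b, k b = ∑ b ∈ B, if φ ∈ bad b then k b else 0 :=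
      fun φ => sum_filter _ _
    rw [sum_congr rfl fun φ _ => e1 φ, sum_comm]
    refine sum_congr rfl fun b _ => ?_
    rw [← sum_filter, sum_const, smul_eq_mul, mul_comm]
    congr 2
    ext φ
    simp
  have h4 : X.card * ∑ b ∈ B, k b ≤ 2 * ∑ b ∈ B, k b * (bad b).card := by
    calc X.card * ∑ b ∈ B, k b = ∑ _φ ∈ X, ∑ b ∈ B, k b := by rw [sum_const, smul_eq_mul]
      _ ≤ ∑ φ ∈ X, 2 * ∑ b ∈ B with φ ∈ bad b, k b := sum_le_sum fun φ hφ => (hX φ hφ).le
      _ ≤ ∑ φ : α, 2 * ∑ b ∈ B with φ ∈ bad b, k b := sum_le_sum_of_subset (subset_univ _)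
      _ = 2 * ∑ b ∈ B, k b * (bad b).card := by rw [← mul_sum, h3]
  have h5 : 16 * ∑ b ∈ B, k b * (bad b).card ≤ (∑ b ∈ B, k b) * M := by
    rw [mul_sum, sum_mul]
    refine sum_le_sum fun b hb => ?_
    calc 16 * (k b * (bad b).card) = k b * (16 * (bad b).card) := by ring
      _ ≤ k b * M := Nat.mul_le_mul_left _ (h b hb)
  have h6 : (8 * X.card) * ∑ b ∈ B, k b ≤ M * ∑ b ∈ B, k b := by
    calc (8 * X.card) * ∑ b ∈ B, k b = 8 * (X.card * ∑ b ∈ B, k b) := by ring
      _ ≤ 8 * (2 * ∑ b ∈ B, k b * (bad b).card) := Nat.mul_le_mul_left _ h4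
      _ = 16 * ∑ b ∈ B, k b * (bad b).card := by ring
      _ ≤ (∑ b ∈ B, k b) * M := h5
      _ = M * ∑ b ∈ B, k b := by ring
  exact Nat.le_of_mul_le_mul_right h6 hWpos

theorem CORE (h : S_CHAIN) : S_CORE := by
  classical
  intro n D Δ z Y nb B N k mb hn hY hΔ hB hV
  have hbl : ∀ b, ∃ bl : Fin (k b) → Finset (Fin n), b ∈ B → ((∀ i, bl i ⊆ N b) ∧
      (∀ i, (bl i).card = mb b) ∧ ∀ i j, i ≠ j → Disjoint (bl i) (bl j)) := by
    intro b
    by_cases hb : b ∈ B
    · obtain ⟨bl, h1⟩ := CORE_blocks (N b) (k b) (mb b) (hB b hb).2.1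
      exact ⟨bl, fun _ => h1⟩
    · exact ⟨fun _ => ∅, fun h' => absurd h' hb⟩
  choose bl hbl using hbl
  let bad : Fin n → Finset (Fin n → Fin n) := fun b => univ.filter (fun φ =>
    (Y.filter (fun y => ∀ i, ∃ a ∈ bl b i, φ a ∈ nb y)).card < z)
  have hbad : ∀ b ∈ B, 16 * (bad b).card ≤ n ^ n := by
    intro b hb
    obtain ⟨h1, h2, h3, h4, h5⟩ := hB b hb
    obtain ⟨g1, g2, g3⟩ := hbl b hb
    exact h n (k b) (mb b) D Δ z Y nb (bl b) hY hΔ g2 g3 h3 h4 h5
  let X1 : Finset (Fin n → Fin n) := univ.filter fun φ =>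
    ∑ b ∈ B, k b < 2 * ∑ b ∈ B with φ ∈ bad b, k b
  let X2 : Finset (Fin n → Fin n) := univ.filter fun φ =>
    ¬ Set.InjOn φ ((B.biUnion N : Finset (Fin n)) : Set (Fin n))
  have hX1 : 8 * X1.card ≤ n ^ n :=
    CORE_weight B k bad (n ^ n) hbad X1 fun φ hφ => (mem_filter.1 hφ).2
  have hX2 : 4 * X2.card ≤ n ^ n :=
    CORE_inj (B.biUnion N) hV hn X2 fun φ hφ => (mem_filter.1 hφ).2
  have hpos : 0 < n ^ n := Nat.pow_pos hn
  have hex : ∃ φ : Fin n → Fin n, φ ∉ X1 ∪ X2 := by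
    by_contra hcon
    push_neg at hcon
    have h1 : (univ : Finset (Fin n → Fin n)).card ≤ (X1 ∪ X2).card :=
      card_le_card fun φ _ => hcon φ
    rw [card_univ, Fintype.card_fun, Fintype.card_fin] at h1
    have h2 := card_union_le X1 X2
    omega
  obtain ⟨φ, hφ⟩ := hex
  rw [mem_union, not_or] at hφ
  obtain ⟨hφ1, hφ2⟩ := hφ
  have hφ1' : 2 * ∑ b ∈ B with φ ∈ bad b, k b ≤ ∑ b ∈ B, k b := by
    by_contra hlt
    push_neg at hlt
    exact hφ1 (mem_filter.2 ⟨mem_univ _, hlt⟩)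
  have hφ2' : Set.InjOn φ ((B.biUnion N : Finset (Fin n)) : Set (Fin n)) := by
    by_contra hlt
    exact hφ2 (mem_filter.2 ⟨mem_univ _, hlt⟩)
  refine ⟨φ, hφ2', B.filter (fun b => φ ∉ bad b), filter_subset _ _, ?_, ?_⟩
  · have := sum_filter_add_sum_filter_not B (fun b => φ ∈ bad b) k
    omega
  · intro b hb
    rw [mem_filter] at hb
    obtain ⟨hbB, hnb⟩ := hb
    obtain ⟨g1, g2, g3⟩ := hbl b hbB
    have h1 : z ≤ (Y.filter (fun y => ∀ i, ∃ a ∈ bl b i, φ a ∈ nb y)).card := by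
      by_contra hlt
      push_neg at hlt
      exact hnb (mem_filter.2 ⟨mem_univ _, hlt⟩)
    refine h1.trans (card_le_card ?_)
    intro y hy
    rw [mem_filter] at hy ⊢
    exact ⟨hy.1, CORE_hit (N b) (bl b) g1 g3 (fun a => φ a ∈ nb y) hy.2⟩

end H773V
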