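import Pool.Agent.Results.MP_9dddc4_co.UkExponent
import Pool.Agent.H773R2.UD.Defs

/-! The order of magnitude of `U_2(n,3)`: definitions and the statements of all tasks. -/

set_option linter.unusedVariables false

namespace H773V

open Finset Pool.Agent.Results.MP_9dddc4_co.UkExponent
open H773U (ContainsT Tr dg cg nn mm)

/-- an edge set on the vertex set `Fin n` -/
abbrev ES (n : ℕ) := Finset (Finset (Fin n))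

/-- covered vertices -/
def cov {n : ℕ} (E : ES n) : Finset (Fin n) := E.biUnion id

/-- codegree -/
def cod {n : ℕ} (H : ES n) (u v : Fin n) : ℕ := (H.filter (fun f => u ∈ f ∧ v ∈ f)).card

/-- `H1` and `H2` have a common subgraph with `m` edges -/
def Sh {n : ℕ} (H1 H2 : ES n) (m : ℕ) : Prop :=
  ∃ (F : ES n) (f : Fin n → Fin n), F ⊆ H1 ∧ Set.InjOn f (cov F : Set (Fin n)) ∧
    img f F ⊆ H2 ∧ m ≤ F.card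

/-- a common subgraph avoiding `U1` in `H1` and `U2` in `H2` -/
def Piece {n : ℕ} (H1 H2 : ES n) (U1 U2 : Finset (Fin n)) (m N : ℕ) : Prop :=
  ∃ (F : ES n) (f : Fin n → Fin n), F ⊆ H1 ∧ Set.InjOn f (cov F : Set (Fin n)) ∧
    img f F ⊆ H2 ∧ m ≤ F.card ∧ Disjoint (cov F) U1 ∧ Disjoint ((cov F).image f) U2 ∧
    (cov F).card ≤ N

/-- pairs of codegree at least `D`, as ordered pairs -/
def hv {n : ℕ} (H : ES n) (D : ℕ) : Finset (Fin n × Fin n) :=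
  univ.filter (fun p => p.1 ≠ p.2 ∧ D ≤ cod H p.1 p.2)

/-- the link of `v` in `H` outside `U`, as a set of ordered pairs -/
def lkp {n : ℕ} (H : ES n) (v : Fin n) (U : Finset (Fin n)) : Finset (Fin n × Fin n) :=
  univ.filter (fun p => p.1 ≠ p.2 ∧ p.1 ≠ v ∧ p.2 ≠ v ∧ ({v, p.1, p.2} : Finset (Fin n)) ∈ H ∧
    p.1 ∉ U ∧ p.2 ∉ U)

/-- a graph without loops, as a symmetric set of ordered pairs -/
def SG {n : ℕ} (P : Finset (Fin n × Fin n)) : Prop :=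
  ∀ u v, (u, v) ∈ P → (v, u) ∈ P ∧ u ≠ v

/-- non-isolated vertices -/
def VS {n : ℕ} (P : Finset (Fin n × Fin n)) : Finset (Fin n) :=
  P.image Prod.fst ∪ P.image Prod.snd

/-- degree in a graph -/
def dgr {n : ℕ} (G : Finset (Fin n × Fin n)) (y : Fin n) : ℕ := (G.filter (fun p => p.1 = y)).card

/-- a graph `G` with a set `T u v` of `w` thirds for every pair, such that pairs with a common
vertex have disjoint sets of thirds -/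
structure GT {n : ℕ} (G : Finset (Fin n × Fin n)) (T : Fin n → Fin n → Finset (Fin n)) (w : ℕ) :
    Prop where
  sg : SG G
  tsym : ∀ u v, T u v = T v u
  card : ∀ u v, (u, v) ∈ G → (T u v).card = w
  nm : ∀ u v, (u, v) ∈ G → u ∉ T u v ∧ v ∉ T u v
  disj : ∀ u v v', (u, v) ∈ G → (u, v') ∈ G → v ≠ v' → Disjoint (T u v) (T u v')

/-- `m` edges of the graph `P`, with at most `N` vertices, are embedded into `G` with private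
thirds -/
def Emb {n : ℕ} (P G : Finset (Fin n × Fin n)) (T : Fin n → Fin n → Finset (Fin n)) (m N : ℕ) :
    Prop :=
  ∃ (F : Finset (Fin n × Fin n)) (φ : Fin n → Fin n), F ⊆ P ∧ (∀ p ∈ F, (p.2, p.1) ∉ F) ∧
    m ≤ F.card ∧ (VS F).card ≤ N ∧ Set.InjOn φ (VS F : Set (Fin n)) ∧
    (∀ p ∈ F, (φ p.1, φ p.2) ∈ G) ∧
    (∀ p ∈ F, Disjoint (T (φ p.1) (φ p.2)) ((VS F).image φ)) ∧
    (∀ p ∈ F, ∀ q ∈ F, p ≠ q → Disjoint (T (φ p.1) (φ p.2)) (T (φ q.1) (φ q.2)))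

/-- stars `N b`, `b ∈ B`, of `P` with leaves outside `B` -/
def OD {n : ℕ} (P : Finset (Fin n × Fin n)) (B : Finset (Fin n)) (N : Fin n → Finset (Fin n)) :
    Prop :=
  ∀ b ∈ B, ∀ a ∈ N b, (a, b) ∈ P ∧ a ∉ B

/-- coarse parameters -/
structure Par (n e g A : ℕ) : Prop where
  hg : 10 ^ 6 ≤ g
  n1 : g ^ 480 ≤ n
  n2 : n ≤ 2 * g ^ 480
  a1 : 1 ≤ A
  a2 : A ≤ g ^ 161
  e1 : g ^ 799 ≤ e
  e2 : e ≤ g ^ 801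

/-- all parameters: `s = √(e/n)`, `l = log n`, `K = l n / s ^ 3`, `A = ⌈s l⌉` -/
structure PF (n e g A : ℕ) (s l K : ℝ) : Prop where
  par : Par n e g A
  ln : l = Real.log n
  l1 : 10 ^ 9 ≤ l
  l2 : l ^ 100 ≤ g
  s0 : 0 < s
  s1 : s ^ 2 * n = e
  K1 : 1 ≤ K
  K2 : K ≤ l ^ 7
  K3 : s ^ 3 * K = l * n
  A1 : s * l ≤ A
  A2 : (A : ℝ) ≤ 2 * s * l

/-- upper end of the critical range -/
noncomputable def E1 (n : ℕ) : ℝ := (n : ℝ) ^ (5 / 3 : ℝ) * (Real.log n) ^ (2 / 3 : ℝ)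

/-- lower end of the critical range -/
noncomputable def E2 (n : ℕ) : ℝ := (n : ℝ) ^ (5 / 3 : ℝ) / (Real.log n) ^ 4

/-! ### common subgraphs -/

/-- COMT -/
def S_COMT : Prop := ∀ (n t u w : ℕ) (H1 H2 : ES n),
  ContainsT H1 t u w → ContainsT H2 t u w → Sh H1 H2 (t * u * w)

/-- SHS -/
def S_SHS : Prop := ∀ (n m : ℕ) (H1 H2 : ES n), Sh H1 H2 m → Sh H2 H1 m

/-- SHC -/
def S_SHC : Prop := ∀ (n m : ℕ) (H : Fin 2 → ES n), Sh (H 0) (H 1) m → Common H m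

/-! ### structure of 3-graphs without large matchings, stars, books -/

/-- NC0 -/
def S_NC0 : Prop := ∀ (n A : ℕ) (H : ES n), IsRGraph 3 H → ¬ ContainsT H A 1 1 →
  ∃ Z : Finset (Fin n), Z.card ≤ 3 * A ∧ ∀ f ∈ H, ∃ v ∈ f, v ∈ Z

/-- NC1 -/
def S_NC1 : Prop := ∀ (n A : ℕ) (H : ES n), IsRGraph 3 H → ¬ ContainsT H 1 A 1 →
  ∀ v : Fin n, ∃ W : Finset (Fin n), W.card ≤ 2 * A ∧ v ∉ W ∧ ∀ f ∈ H, v ∈ f → ∃ w ∈ f, w ∈ W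

/-- NC2 -/
def S_NC2 : Prop := ∀ (n A : ℕ) (H : ES n), IsRGraph 3 H → ¬ ContainsT H 1 1 A →
  ∀ u v : Fin n, u ≠ v → cod H u v < A

/-- NOT3 -/
def S_NOT3 : Prop := ∀ (n A : ℕ) (H : ES n), IsRGraph 3 H → ¬ ContainsT H A 1 1 →
  ¬ ContainsT H 1 A 1 → ¬ ContainsT H 1 1 A → H.card ≤ 6 * A ^ 3

/-- TK: counting toolkit -/
def S_TK : Prop := ∀ (n : ℕ) (H : ES n), IsRGraph 3 H →
  (∀ v, 2 * deg H v = ∑ u ∈ univ.erase v, cod H v u) ∧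
  (∀ u v, u ≠ v → cod H u v ≤ n ∧ cod H u v = cod H v u) ∧
  (∑ p ∈ (univ : Finset (Fin n × Fin n)).filter (fun p => p.1 ≠ p.2), cod H p.1 p.2
    = 6 * H.card) ∧
  (∀ D, (univ.filter (fun v => D ≤ deg H v)).card * D ≤ 3 * H.card) ∧
  (∀ S : Tr n, (∀ p ∈ S, ({p 0, p 1, p 2} : Finset (Fin n)) ∈ H) →
    (∀ a v, dg S a v ≤ 6 * deg H v) ∧ (∀ a b v v', a ≠ b → cg S a b v v' ≤ cod H v v')) ∧
  (∀ (v : Fin n) (W : Finset (Fin n)), (∀ f ∈ H, v ∈ f → ∃ w ∈ f, w ∈ W) →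
    deg H v ≤ ∑ w ∈ W, cod H v w) ∧
  (∀ (L : Finset (Fin n)) (D : ℕ), (∀ u v, u ≠ v → cod H u v ≤ D) →
    (H.filter (fun f => ∃ u ∈ f, ∃ v ∈ f, u ≠ v ∧ u ∈ L ∧ v ∈ L)).card ≤ L.card ^ 2 * D) ∧
  (∀ (Z : Finset (Fin n)) (D : ℕ),
    (H.filter (fun f => ∃ v ∈ f, v ∈ Z ∧ deg H v ≤ D)).card ≤ Z.card * D)

/-- EMT: embedding `T(t,u,w)` -/
def S_EMT : Prop := ∀ (n : ℕ) (H : ES n) (S : Tr n) (t u w Δ0 Δ1 Δ2 Γ1 Γ2 : ℕ),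
  IsRGraph 3 H → 1 ≤ t → 1 ≤ u → 1 ≤ w → S.Nonempty →
  (∀ p ∈ S, ({p 0, p 1, p 2} : Finset (Fin n)) ∈ H) →
  (∀ v, dg S 0 v ≤ Δ0) → (∀ v, dg S 1 v ≤ Δ1) → (∀ v, dg S 2 v ≤ Δ2) →
  (∀ v v', cg S 0 1 v v' ≤ Γ1) → (∀ v v', cg S 0 2 v v' ≤ Γ2) →
  216 * t * Δ0 ≤ S.card → 216 * (t * u) * Δ1 ≤ S.card → 216 * (t * u * w) * Δ2 ≤ S.card →
  432 * u * Γ1 * nn S 0 ≤ S.card → 432 * (u * w) * Γ2 * nn S 0 ≤ S.card →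
  54 * w * mm S 0 1 < S.card → ContainsT H t u w

/-- LEAF -/
def S_LEAF : Prop := ∀ (n t u w : ℕ) (H : ES n) (x : Fin t → Fin n) (y : Fin t × Fin u → Fin n),
  IsRGraph 3 H → Function.Injective x → Function.Injective y → (∀ i q, x i ≠ y q) →
  (∀ i j, t + t * u + t * u * w ≤ cod H (x i) (y (i, j))) → ContainsT H t u w

/-- TIIa -/
def S_TIIa : Prop := ∀ (n e g A : ℕ) (H : ES n), Par n e g A → IsRGraph 3 H → H.card = e →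
  ¬ ContainsT H A 1 1 → ¬ ContainsT H 1 1 A → ContainsT H (g ^ 152) 1 (g ^ 16)

/-- TIIb -/
def S_TIIb : Prop := ∀ (n e g A : ℕ) (H : ES n), Par n e g A → IsRGraph 3 H → H.card = e →
  ¬ ContainsT H 1 A 1 → ContainsT H (g ^ 152) 1 (g ^ 16)

/-- TIIIa -/
def S_TIIIa : Prop := ∀ (n e g A : ℕ) (H : ES n), Par n e g A → IsRGraph 3 H → H.card = e →
  ¬ ContainsT H 1 A 1 → ¬ ContainsT H 1 1 A → ContainsT H (g ^ 16) (g ^ 136) (g ^ 16)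

/-- TIIIb -/
def S_TIIIb : Prop := ∀ (n e g A : ℕ) (H : ES n), Par n e g A → IsRGraph 3 H → H.card = e →
  ¬ ContainsT H A 1 1 → e ≤ 2 * (H.filter (fun f => ∀ v ∈ f, deg H v < g ^ 776)).card →
  ContainsT H (g ^ 16) (g ^ 136) (g ^ 16)

/-- PP -/
def S_PP : Prop := ∀ (n e g A : ℕ) (H : ES n), Par n e g A → IsRGraph 3 H → H.card = e →
  ¬ ContainsT H A 1 1 → ¬ ContainsT H 1 A 1 →
  SG (hv H (g ^ 470)) ∧ e ≤ n * (hv H (g ^ 470)).card ∧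
  (∀ v, dgr (hv H (g ^ 470)) v ≤ 2 * A) ∧
  ∃ Z : Finset (Fin n), Z.card ≤ 3 * A ∧ ∀ p ∈ hv H (g ^ 470), p.1 ∈ Z ∨ p.2 ∈ Z

/-- TIa -/
def S_TIa : Prop := ∀ (n e g A : ℕ) (H : ES n), Par n e g A → IsRGraph 3 H → H.card = e →
  ¬ ContainsT H A 1 1 → ¬ ContainsT H 1 A 1 → ContainsT H (g ^ 16) (g ^ 136) (g ^ 16)

/-- TIb -/
def S_TIb : Prop := ∀ (n e g A : ℕ) (H : ES n), Par n e g A → IsRGraph 3 H → H.card = e →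
  ¬ ContainsT H 1 1 A →
  e ≤ 2 * (H.filter (fun f => ∃ u ∈ f, ∃ v ∈ f, u ≠ v ∧ g ^ 24 ≤ cod H u v)).card →
  ContainsT H (g ^ 16) (g ^ 136) (g ^ 16)

/-! ### embedding graphs -/

/-- SFOR: star forests -/
def S_SFOR : Prop := ∀ (n a : ℕ) (P : Finset (Fin n × Fin n)), SG P → 2 * a ≤ (VS P).card →
  ∃ (L : Finset (Fin n)) (c : Fin n → Fin n), L.card = a ∧ ∀ x ∈ L, (x, c x) ∈ P ∧ c x ∉ L

/-- SFE -/
def S_SFE : Prop := ∀ (n w a : ℕ) (P G : Finset (Fin n × Fin n))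
  (T : Fin n → Fin n → Finset (Fin n)), SG P → GT G T w → 2 * a ≤ (VS P).card →
  n * (a + 1 + 2 * (2 + w) * a) ≤ G.card → Emb P G T a (2 * a)

/-- OR: orientation and bipartition -/
def S_OR : Prop := ∀ (n : ℕ) (P : Finset (Fin n × Fin n)), SG P →
  ∃ (B : Finset (Fin n)) (N : Fin n → Finset (Fin n)), OD P B N ∧
    (∀ b ∈ B, (N b).card ^ 2 ≤ P.card) ∧ P.card ≤ 8 * ∑ b ∈ B, (N b).card ∧
    B.card + (B.biUnion N).card ≤ (VS P).card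

/-- TRUNC -/
def S_TRUNC : Prop := ∀ (n m : ℕ) (P : Finset (Fin n × Fin n)), SG P → m ≤ P.card →
  ∃ P1 ⊆ P, SG P1 ∧ m ≤ P1.card ∧ P1.card ≤ m + 1

/-- STEP: second moment -/
def S_STEP : Prop := ∀ (n m D Δ : ℕ) (Z : Finset (Fin n)) (nb : Fin n → Finset (Fin n)),
  (∀ y ∈ Z, (nb y).card = D) → (∀ x, (Z.filter (fun y => x ∈ nb y)).card ≤ Δ) → m * D ≤ n →
  ((univ : Finset (Fin m → Fin n)).filter (fun x =>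
    4 * n * (Z.filter (fun y => ∃ j, x j ∈ nb y)).card < m * D * Z.card)).card * (m * D * Z.card)
    ≤ 16 * Δ * n * n ^ m

/-- CHAIN -/
def S_CHAIN : Prop := ∀ (n k m D Δ z : ℕ) (Y : Finset (Fin n)) (nb : Fin n → Finset (Fin n))
  (bl : Fin k → Finset (Fin n)),
  (∀ y ∈ Y, (nb y).card = D) → (∀ x, (Y.filter (fun y => x ∈ nb y)).card ≤ Δ) →
  (∀ i, (bl i).card = m) → (∀ i j, i ≠ j → Disjoint (bl i) (bl j)) → m * D ≤ n →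
  (z : ℝ) ≤ ((m : ℝ) * D / (4 * n)) ^ k * Y.card → 256 * Δ * n * k ≤ m * D * z →
  16 * ((univ : Finset (Fin n → Fin n)).filter (fun φ =>
    (Y.filter (fun y => ∀ i, ∃ a ∈ bl i, φ a ∈ nb y)).card < z)).card ≤ n ^ n

/-- CORE -/
def S_CORE : Prop := ∀ (n D Δ z : ℕ) (Y : Finset (Fin n)) (nb : Fin n → Finset (Fin n))
  (B : Finset (Fin n)) (N : Fin n → Finset (Fin n)) (k mb : Fin n → ℕ), 1 ≤ n →
  (∀ y ∈ Y, (nb y).card = D) → (∀ x, (Y.filter (fun y => x ∈ nb y)).card ≤ Δ) →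
  (∀ b ∈ B, 1 ≤ k b ∧ k b * mb b ≤ (N b).card ∧ mb b * D ≤ n ∧
    (z : ℝ) ≤ ((mb b : ℝ) * D / (4 * n)) ^ (k b) * Y.card ∧
    256 * Δ * n * k b ≤ mb b * D * z) →
  4 * (B.biUnion N).card ^ 2 ≤ n →
  ∃ φ : Fin n → Fin n, Set.InjOn φ (B.biUnion N : Set (Fin n)) ∧
    ∃ B0 ⊆ B, ∑ b ∈ B, k b ≤ 2 * ∑ b ∈ B0, k b ∧
      ∀ b ∈ B0, z ≤ (Y.filter (fun y => k b ≤ ((N b).filter (fun a => φ a ∈ nb y)).card)).card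

/-- SPLIT -/
def S_SPLIT : Prop := ∀ (n M D : ℕ) (G : Finset (Fin n × Fin n)), SG G → 1 ≤ n → 1 ≤ M →
  8 * n * D ≤ G.card →
  G.card ≤ 8 * n * (univ.filter (fun y => M ≤ dgr G y)).card ∨
  ∃ (Y : Finset (Fin n)) (nb : Fin n → Finset (Fin n)),
    (∀ y ∈ Y, (nb y).card = D ∧ ∀ x ∈ nb y, (x, y) ∈ G) ∧
    (∀ x, (Y.filter (fun y => x ∈ nb y)).card ≤ M) ∧ G.card ≤ 2 * Y.card * M

/-- MO: mean overlay -/
def S_MO : Prop := ∀ (n w M m : ℕ) (P G : Finset (Fin n × Fin n))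
  (T : Fin n → Fin n → Finset (Fin n)) (B Hi : Finset (Fin n)) (N : Fin n → Finset (Fin n)),
  1 ≤ n → GT G T w → OD P B N → B.card ≤ Hi.card → (∀ y ∈ Hi, M ≤ dgr G y) →
  2 * n * m ≤ (∑ b ∈ B, (N b).card) * M →
  4 * (B.card + (B.biUnion N).card + w * (m + B.card)) ≤ M →
  Emb P G T m (B.card + (B.biUnion N).card)

/-- SEL: selection of the images of the centres -/
def S_SEL : Prop := ∀ (n w z : ℕ) (P G : Finset (Fin n × Fin n))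
  (T : Fin n → Fin n → Finset (Fin n)) (B B0 Y : Finset (Fin n)) (N nb : Fin n → Finset (Fin n))
  (k : Fin n → ℕ) (φ : Fin n → Fin n),
  GT G T w → OD P B N → B0 ⊆ B → Set.InjOn φ (B.biUnion N : Set (Fin n)) →
  (∀ y ∈ Y, ∀ x ∈ nb y, (x, y) ∈ G) →
  (∀ b ∈ B0, z ≤ (Y.filter (fun y => k b ≤ ((N b).filter (fun a => φ a ∈ nb y)).card)).card) →
  (1 + (B.biUnion N).card) * ((B.biUnion N).card + B.card + w * ∑ b ∈ B0, k b) < z →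
  Emb P G T (∑ b ∈ B0, k b) ((B.biUnion N).card + B.card)

/-- PFS: simple consequences of the parameters -/
def S_PFS : Prop := ∀ (n e g A : ℕ) (s l K : ℝ), PF n e g A s l K →
  (g : ℝ) ^ 159 ≤ s ∧ s ≤ (g : ℝ) ^ 161 ∧ (10 : ℝ) ^ 900 ≤ g ∧ 0 < l ∧ 0 < K ∧ (0 : ℝ) < n ∧
    (0 : ℝ) < e

/-- ARB: block sizes -/
def S_ARB : Prop := ∀ (n e g A : ℕ) (s l K x : ℝ) (h D M Y d : ℕ), PF n e g A s l K →
  (l ^ 6)⁻¹ ≤ x → x ≤ 1 → 1 ≤ h → (h : ℝ) * (1 + Real.log (h * K / (x * l))) ≤ l / 4800 →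
  x * l ≤ h * K → x * s ^ 2 / 16 ≤ D → (D : ℝ) ≤ x * s ^ 2 / 4 → (n : ℝ) ≤ 4 * l ^ 20 * Y →
  (M : ℝ) ≤ 2 * l ^ 20 * x * s ^ 2 → s / (64 * l) ≤ d → (d : ℝ) ≤ s + 1 →
  ∃ k mb : ℕ, 1 ≤ k ∧ k ≤ h ∧ k * mb ≤ d ∧ mb * D ≤ n ∧
    ((g ^ 479 : ℕ) : ℝ) ≤ ((mb : ℝ) * D / (4 * n)) ^ k * Y ∧
    256 * M * n * k ≤ mb * D * g ^ 479 ∧ (d : ℝ) * h ≤ 2 * s * k

/-- LG: the graph lemma -/
def S_LG : Prop := ∀ (n e g A w h : ℕ) (s l K x : ℝ) (P G : Finset (Fin n × Fin n))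
  (T : Fin n → Fin n → Finset (Fin n)), PF n e g A s l K → SG P → GT G T w →
  e ≤ n * P.card → (VS P).card ≤ 2 * A → (w : ℝ) ≤ l + 1 → (l ^ 6)⁻¹ ≤ x → x ≤ 1 →
  x * e ≤ G.card → 1 ≤ h → (h : ℝ) * (1 + Real.log (h * K / (x * l))) ≤ l / 4800 →
  x * l ≤ h * K → Emb P G T ⌈s * h / 64⌉₊ (2 * A)

/-- EMS: star forests, with the parameters -/
def S_EMS : Prop := ∀ (n e g A w : ℕ) (s l K : ℝ) (P G : Finset (Fin n × Fin n))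
  (T : Fin n → Fin n → Finset (Fin n)), PF n e g A s l K → SG P → GT G T w →
  e ≤ n * P.card → (w : ℝ) ≤ l + 1 → g ^ 700 ≤ G.card →
  Emb P G T ⌈s / 4⌉₊ (2 * A) ∧ (2 * A ≤ (VS P).card → Emb P G T A (2 * A))

/-! ### case III -/

/-- LIFT3 -/
def S_LIFT3 : Prop := ∀ (n m N : ℕ) (H1 H2 : ES n) (U1 U2 : Finset (Fin n)) (v z : Fin n),
  v ∉ U1 → z ∉ U2 → Emb (lkp H1 v U1) (lkp H2 z U2) (fun _ _ => ∅) m N →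
  Piece H1 H2 U1 U2 m (N + 1)

/-- MULTI -/
def S_MULTI : Prop := ∀ (n N Mx : ℕ) (H1 H2 : ES n) (Q : Finset (Fin n)) (μ : Fin n → ℕ),
  IsRGraph 3 H1 → (∀ z ∈ Q, ∀ U1 U2 : Finset (Fin n), U1.card ≤ Mx → U2.card ≤ Mx → z ∉ U2 →
    Piece H1 H2 U1 U2 (μ z) N) →
  ∀ Q' ⊆ Q, Q'.card * N + Q.card ≤ Mx → Sh H1 H2 (∑ z ∈ Q', μ z)

/-- OC: one centre -/
def S_OC : Prop := ∀ (n e g A : ℕ) (s l K : ℝ) (H1 H2 : ES n) (U1 U2 : Finset (Fin n))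
  (z : Fin n), PF n e g A s l K → 10 ^ 6 ≤ K → IsRGraph 3 H1 → IsRGraph 3 H2 → H1.card = e →
  H2.card = e → ¬ ContainsT H1 1 A 1 → ¬ ContainsT H1 1 1 A → g ^ 776 ≤ deg H2 z →
  U1.card ≤ g ^ 170 → U2.card ≤ g ^ 170 → z ∉ U2 →
  Piece H1 H2 U1 U2 ⌈s * max 1 (l * (deg H2 z / e) / (1 + Real.log K)) / 614400⌉₊ (3 * A)

/-- IIIA -/
def S_IIIA : Prop := ∀ (n e g A : ℕ) (s l K : ℝ) (H1 H2 : ES n), PF n e g A s l K →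
  10 ^ 6 ≤ K → IsRGraph 3 H1 → IsRGraph 3 H2 → H1.card = e → H2.card = e →
  ¬ ContainsT H1 1 A 1 → ¬ ContainsT H1 1 1 A →
  e ≤ 2 * (H2.filter (fun f => ∃ v ∈ f, g ^ 776 ≤ deg H2 v)).card →
  ∃ m : ℕ, Sh H1 H2 m ∧ s * l / (3686400 * (1 + Real.log K)) ≤ m

/-! ### case I -/

/-- CLEAN -/
def S_CLEAN : Prop := ∀ (n w Γ : ℕ) (H : ES n), IsRGraph 3 H → 1 ≤ w →
  (∀ u v, u ≠ v → cod H u v ≤ Γ) →
  ∃ (G : Finset (Fin n × Fin n)) (T : Fin n → Fin n → Finset (Fin n)), G ⊆ hv H w ∧ GT G T w ∧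
    (∀ u v, (u, v) ∈ G → ∀ t ∈ T u v, ({u, v, t} : Finset (Fin n)) ∈ H) ∧
    (hv H w).card ≤ (1 + 4 * w * Γ) * G.card

/-- LEV -/
def S_LEV : Prop := ∀ (n I : ℕ) (H : ES n), IsRGraph 3 H →
  (∀ u v, u ≠ v → cod H u v < 2 ^ (I + 1)) →
  ∃ i ≤ I, ∃ Hc ⊆ H, (∀ u v, u ≠ v → cod Hc u v < 2 ^ (i + 1)) ∧
    H.card ≤ 4 * (1 + i) ^ 2 *
      (Hc.filter (fun f => ∃ u ∈ f, ∃ v ∈ f, u ≠ v ∧ 2 ^ i ≤ cod Hc u v)).card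

/-- HVC: edges containing a heavy pair -/
def S_HVC : Prop := ∀ (n w D : ℕ) (H : ES n), IsRGraph 3 H →
  (∀ u v, u ≠ v → cod H u v ≤ D) →
  2 * (H.filter (fun f => ∃ u ∈ f, ∃ v ∈ f, u ≠ v ∧ w ≤ cod H u v)).card ≤ (hv H w).card * D

/-- LIFTI -/
def S_LIFTI : Prop := ∀ (n D w m N : ℕ) (H1 H2 : ES n) (G : Finset (Fin n × Fin n))
  (T : Fin n → Fin n → Finset (Fin n)), IsRGraph 3 H1 → IsRGraph 3 H2 → GT G T w →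
  (∀ u v, (u, v) ∈ G → ∀ t ∈ T u v, ({u, v, t} : Finset (Fin n)) ∈ H2) →
  Emb (hv H1 D) G T m N → N + m * w ≤ D → Sh H1 H2 (m * w)

/-- ARI: the arithmetic of case I -/
def S_ARI : Prop := ∀ (n e g A i : ℕ) (s l K : ℝ), PF n e g A s l K → 10 ^ 6 ≤ K →
  2 ^ i ≤ ⌈l⌉₊ →
  ∃ (h : ℕ) (x : ℝ), (l ^ 6)⁻¹ ≤ x ∧ x ≤ 1 ∧ x * (144 * (1 + i) ^ 2 * 8 ^ i) ≤ 1 ∧ 1 ≤ h ∧
    (h : ℝ) * (1 + Real.log (h * K / (x * l))) ≤ l / 4800 ∧ x * l ≤ h * K ∧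
    s * l / (3686400 * (1 + Real.log K)) ≤ s * h / 64 * 2 ^ i

/-- IA -/
def S_IA : Prop := ∀ (n e g A : ℕ) (s l K : ℝ) (H1 H2 : ES n), PF n e g A s l K →
  10 ^ 6 ≤ K → IsRGraph 3 H1 → IsRGraph 3 H2 → H1.card = e → H2.card = e →
  ¬ ContainsT H1 A 1 1 → ¬ ContainsT H1 1 A 1 →
  e ≤ 2 * (H2.filter (fun f => ∀ u ∈ f, ∀ v ∈ f, u ≠ v → cod H2 u v < g ^ 24)).card →
  ∃ m : ℕ, Sh H1 H2 m ∧ s * l / (3686400 * (1 + Real.log K)) ≤ m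

/-! ### the upper bound -/

/-- FINE -/
def S_FINE : Prop := ∀ (n e g A : ℕ) (s l K : ℝ) (H1 H2 : ES n), PF n e g A s l K →
  10 ^ 6 ≤ K → IsRGraph 3 H1 → IsRGraph 3 H2 → H1.card = e → H2.card = e →
  ∃ m : ℕ, Sh H1 H2 m ∧ s * l / (3686400 * (1 + Real.log K)) ≤ m

/-- PARM -/
def S_PARM : Prop := ∀ᶠ n : ℕ in Filter.atTop, ∀ e : ℕ, E2 n ≤ e → (e : ℝ) ≤ E1 n →
  PF n e ⌊(n : ℝ) ^ (1 / 480 : ℝ)⌋₊ ⌈Real.sqrt ((e : ℝ) / n) * Real.log n⌉₊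
    (Real.sqrt ((e : ℝ) / n)) (Real.log n) (Real.log n * n / (Real.sqrt ((e : ℝ) / n)) ^ 3)

/-- FIN2 -/
def S_FIN2 : Prop := ∃ c : ℝ, 0 < c ∧ ∀ᶠ n : ℕ in Filter.atTop, ∀ (e : ℕ) (H : Fin 2 → ES n),
  (∀ i, IsRGraph 3 (H i)) → (∀ i, (H i).card = e) → E2 n ≤ e → (e : ℝ) ≤ E1 n →
  ∃ s : ℕ, 1 ≤ s ∧ Common H s ∧
    c * Real.sqrt ((e : ℝ) / n) * Real.log n * ((e : ℝ) / E1 n) ^ (1 / 4 : ℝ) ≤ s

/-- POT: the potential -/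
def S_POT : Prop := ∀ c : ℝ, 0 < c → ∃ C : ℝ, 0 < C ∧ ∀ᶠ n : ℕ in Filter.atTop,
  ∃ Φ : ℕ → ℝ, 0 ≤ Φ 0 ∧
    (∀ e, Φ e ≤ C * (n : ℝ) ^ (4 / 3 : ℝ) / (Real.log n) ^ (2 / 3 : ℝ)) ∧
    ∀ e m : ℕ, 1 ≤ m → m ≤ e → ((e : ℝ) ≤ E2 n → Real.sqrt ((e : ℝ) / n) ≤ 4 * m) →
      (E2 n < e → (e : ℝ) ≤ E1 n →
        c * Real.sqrt ((e : ℝ) / n) * Real.log n * ((e : ℝ) / E1 n) ^ (1 / 4 : ℝ) ≤ m) →
      (E1 n < e → (e : ℝ) ^ 2 ≤ m * (n : ℝ) ^ 3) → Φ (e - m) + 1 ≤ Φ e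

/-- UB: the upper bound -/
def S_UB : Prop := ∃ C : ℝ, 0 < C ∧ ∀ᶠ n : ℕ in Filter.atTop,
  (U 2 n 3 : ℝ) ≤ C * (n : ℝ) ^ (4 / 3 : ℝ) / (Real.log n) ^ (2 / 3 : ℝ)

/-! ### the lower bound -/

/-- the triples inside the first `b` blocks of length `m` -/
def BL (n m b : ℕ) : ES n :=
  (powersetCard 3 univ).filter (fun f => ∃ j < b, ∀ x ∈ f, (x : ℕ) / m = j)

/-- LB1: a graph without dense small pieces -/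
def S_LB1 : Prop := ∀ (n m T E : ℕ) (z0 : Fin n), E ≤ (n - 1).choose 2 →
  n ^ m * (m ^ 2).choose T * E ^ T < ((n - 1).choose 2) ^ T →
  ∃ G : Finset (Finset (Fin n)), (∀ p ∈ G, p.card = 2 ∧ z0 ∉ p) ∧ G.card = E ∧
    ∀ W : Finset (Fin n), W.card ≤ m → (G.filter (fun p => p ⊆ W)).card < T

/-- LB2 -/
def S_LB2 : Prop := ∀ (n m b T : ℕ) (z0 : Fin n) (G : Finset (Finset (Fin n))),
  1 ≤ m → b * m ≤ n → (∀ p ∈ G, p.card = 2 ∧ z0 ∉ p) → G.card = b * m.choose 3 →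
  (∀ W : Finset (Fin n), W.card ≤ m → (G.filter (fun p => p ⊆ W)).card < T) →
  b * m.choose 3 ≤ U 2 n 3 * T

/-- LB3 -/
def S_LB3 : Prop := ∃ c : ℝ, 0 < c ∧ ∀ᶠ n : ℕ in Filter.atTop, ∃ m b T : ℕ,
  1 ≤ m ∧ 1 ≤ T ∧ b * m ≤ n ∧ b * m.choose 3 ≤ (n - 1).choose 2 ∧
  n ^ m * (m ^ 2).choose T * (b * m.choose 3) ^ T < ((n - 1).choose 2) ^ T ∧
  c * (n : ℝ) ^ (4 / 3 : ℝ) / (Real.log n) ^ (2 / 3 : ℝ) * T ≤ ((b * m.choose 3 : ℕ) : ℝ)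

/-- LB: the lower bound -/
def S_LB : Prop := ∃ c : ℝ, 0 < c ∧ ∀ᶠ n : ℕ in Filter.atTop,
  c * (n : ℝ) ^ (4 / 3 : ℝ) / (Real.log n) ^ (2 / 3 : ℝ) ≤ (U 2 n 3 : ℝ)

end H773V
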