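import Pool.Agent.H773R2.U2.Defs

/-! Task EMS: star forests, with the parameters. -/

set_option linter.unusedVariables false

namespace H773V

open Finset Pool.Agent.Results.MP_9dddc4_co.UkExponent
open H773U (ContainsT Tr dg cg nn mm)

theorem EMS_mono {n : ℕ} {P G : Finset (Fin n × Fin n)} {T : Fin n → Fin n → Finset (Fin n)}
    {m N N' : ℕ} (h : Emb P G T m N) (hN : N ≤ N') : Emb P G T m N' := by
  obtain ⟨F, φ, h1, h2, h3, h4, h5⟩ := h
  exact ⟨F, φ, h1, h2, h3, h4.trans hN, h5⟩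

theorem EMS_card {n : ℕ} (P : Finset (Fin n × Fin n)) : P.card ≤ (VS P).card ^ 2 := by
  have h : P ⊆ VS P ×ˢ VS P := by
    intro p hp
    rw [mem_product]
    unfold VS
    exact ⟨mem_union_left _ (mem_image_of_mem _ hp), mem_union_right _ (mem_image_of_mem _ hp)⟩
  calc P.card ≤ (VS P ×ˢ VS P).card := card_le_card h
    _ = (VS P).card ^ 2 := by rw [card_product, sq]

theorem EMS_bound {n g a w C : ℕ} (hg : 10 ^ 6 ≤ g) (hn : n ≤ 2 * g ^ 480) (ha : a ≤ g ^ 161)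
    (hw : w ≤ g) (hC : g ^ 700 ≤ C) : n * (a + 1 + 2 * (2 + w) * a) ≤ C := by
  have hg1 : 1 ≤ g := by omega
  have h1 : 1 ≤ g ^ 161 := Nat.one_le_pow _ _ hg1
  have h2 : a + 1 + 2 * (2 + w) * a ≤ g ^ 161 + g ^ 161 + 2 * (2 * g + g) * g ^ 161 := by
    have h3 : 2 * (2 + w) * a ≤ 2 * (2 * g + g) * g ^ 161 :=
      Nat.mul_le_mul (by omega) ha
    omega
  have h4 : g ^ 161 + g ^ 161 + 2 * (2 * g + g) * g ^ 161 ≤ 8 * g ^ 162 := by
    have h5 : g ^ 162 = g * g ^ 161 := by rw [← pow_succ']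
    rw [h5]
    nlinarith
  calc n * (a + 1 + 2 * (2 + w) * a) ≤ (2 * g ^ 480) * (8 * g ^ 162) :=
        Nat.mul_le_mul hn (h2.trans h4)
    _ = 16 * g ^ 642 := by ring
    _ ≤ g * g ^ 642 := Nat.mul_le_mul_right _ (by omega)
    _ = g ^ 643 := by rw [← pow_succ']
    _ ≤ g ^ 700 := Nat.pow_le_pow_right hg1 (by norm_num)
    _ ≤ C := hC

theorem EMS (hS : S_SFE) (hP : S_PFS) : S_EMS := by
  intro n e g A w s l K P G T hpf hSG hGT heP hw hG
  obtain ⟨p1, p2, -, p4, p5, p6, p7⟩ := hP n e g A s l K hpf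
  have hgN : 10 ^ 6 ≤ g := hpf.par.hg
  have hl1 : (1 : ℝ) ≤ l := by
    have := hpf.l1
    norm_num at this ⊢
    linarith
  have hwg : w ≤ g := by
    have h1 : l ^ 2 ≤ l ^ 100 := pow_le_pow_right₀ hl1 (by norm_num)
    have h2 : l + 1 ≤ l ^ 2 := by
      have := hpf.l1
      norm_num at this
      nlinarith
    have h3 : (w : ℝ) ≤ g := hw.trans (h2.trans (h1.trans hpf.l2))
    exact_mod_cast h3
  have hs4 : (4 : ℝ) ≤ s := by
    have h3 : (1000000 : ℝ) ≤ g := by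
      have h4 : 1000000 ≤ g := by omega
      exact_mod_cast h4
    have h1 : (1 : ℝ) ≤ g := le_trans (by norm_num) h3
    have h2 : (g : ℝ) ≤ (g : ℝ) ^ 159 := le_self_pow₀ h1 (by norm_num)
    exact (le_trans (by norm_num) h3).trans (h2.trans p1)
  have hbd : ∀ a : ℕ, a ≤ A → n * (a + 1 + 2 * (2 + w) * a) ≤ G.card := fun a ha =>
    EMS_bound hgN hpf.par.n2 (ha.trans hpf.par.a2) hwg hG
  constructor
  · have hV : s ≤ (VS P).card := by
      have h1 : (e : ℝ) ≤ n * ((VS P).card : ℝ) ^ 2 := by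
        have h2 : e ≤ n * (VS P).card ^ 2 := heP.trans (Nat.mul_le_mul_left _ (EMS_card P))
        exact_mod_cast h2
      rw [← hpf.s1] at h1
      have h3 : s ^ 2 ≤ ((VS P).card : ℝ) ^ 2 := by
        have h4 : (n : ℝ) * s ^ 2 ≤ n * ((VS P).card : ℝ) ^ 2 := by linarith
        exact le_of_mul_le_mul_left h4 p6
      exact le_of_sq_le_sq h3 (Nat.cast_nonneg _)
    have hc : (⌈s / 4⌉₊ : ℝ) < s / 4 + 1 := Nat.ceil_lt_add_one (by linarith)
    have h2a : 2 * ⌈s / 4⌉₊ ≤ (VS P).card := by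
      have h1 : ((2 * ⌈s / 4⌉₊ : ℕ) : ℝ) ≤ (VS P).card := by
        push_cast
        linarith
      exact_mod_cast h1
    have haA : ⌈s / 4⌉₊ ≤ A := by
      apply Nat.ceil_le.2
      have h1 : s / 4 ≤ s * l := by nlinarith
      exact h1.trans hpf.A1
    exact EMS_mono (hS n w _ P G T hSG hGT h2a (hbd _ haA)) (Nat.mul_le_mul_left _ haA)
  · intro hA
    exact hS n w A P G T hSG hGT hA (hbd A le_rfl)

end H773V
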