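import Pool.Agent.H773R2.U2.Defs

namespace H773V

open Finset Pool.Agent.Results.MP_9dddc4_co.UkExponent
open H773U (ContainsT Tr dg cg nn mm)

/-- number of colourings with prescribed colours -/
theorem EMT_count {n : ℕ} (p : Fin 3 → Fin n) (hp : Function.Injective p) :
    27 * (univ.filter (fun f : Fin n → Fin 3 => ∀ a, f (p a) = a)).card = 3 ^ n := by
  have h1 : ∀ c : Fin 3 → Fin 3, (univ.filter (fun f : Fin n → Fin 3 => ∀ a, f (p a) = c a)).card =
      (univ.filter (fun f : Fin n → Fin 3 => ∀ a, f (p a) = a)).card := by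
    intro c
    apply Finset.card_equiv (Equiv.addRight (Function.extend p (fun a => a - c a) 0))
    intro f
    simp only [mem_filter, mem_univ, true_and, Equiv.coe_addRight, Pi.add_apply,
      hp.extend_apply]
    constructor
    · intro h a
      rw [h a]
      abel
    · intro h a
      have := h a
      calc f (p a) = f (p a) + (a - c a) - (a - c a) := by abel
        _ = a - (a - c a) := by rw [this]
        _ = c a := by abel
  have h2 : ∑ c : Fin 3 → Fin 3, (univ.filter (fun f : Fin n → Fin 3 => ∀ a, f (p a) = c a)).card =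
      3 ^ n := by
    simp only [card_filter]
    rw [Finset.sum_comm]
    have h3 : ∀ f : Fin n → Fin 3, ∑ c : Fin 3 → Fin 3, (if ∀ a, f (p a) = c a then 1 else 0) = 1 := by
      intro f
      rw [Finset.sum_eq_single (fun a => f (p a))]
      · simp
      · intro c _ hc
        rw [if_neg]
        intro h
        exact hc (funext fun a => (h a).symm)
      · intro h
        exact absurd (mem_univ _) h
    rw [Finset.sum_congr rfl fun f _ => h3 f]
    simp
  rw [← h2, Finset.sum_congr rfl fun c _ => h1 c]
  simp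

theorem EMT (h : H773U.S_EM2) : S_EMT := by
  intro n H S t u w Δ0 Δ1 Δ2 Γ1 Γ2 hH ht hu hw hne hS d0 d1 d2 g1 g2 b0 b1 b2 b3 b4 b5
  have hinj : ∀ p ∈ S, Function.Injective p := by
    intro p hp
    have hc := hH _ (hS p hp)
    have hsub : ({p 0, p 1, p 2} : Finset (Fin n)) ⊆ univ.image p := by
      intro x hx
      simp only [mem_insert, mem_singleton] at hx
      rcases hx with rfl | rfl | rfl <;> exact mem_image_of_mem _ (mem_univ _)
    have h3 : (univ.image p).card = Fintype.card (Fin 3) := by
      apply le_antisymm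
      · exact card_image_le
      · rw [Fintype.card_fin]
        calc 3 = ({p 0, p 1, p 2} : Finset (Fin n)).card := hc.symm
          _ ≤ _ := card_le_card hsub
    exact Finset.card_image_iff.1 (by rw [h3]; simp) |> fun h => by
      intro a b hab
      exact h (by simp) (by simp) hab
  -- a good colouring
  have hex : ∃ f : Fin n → Fin 3, S.card ≤ 27 * (S.filter (fun p => ∀ a, f (p a) = a)).card := by
    by_contra hcon
    push Not at hcon
    have h1 : ∑ f : Fin n → Fin 3, 27 * (S.filter (fun p => ∀ a, f (p a) = a)).card <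
        ∑ _f : Fin n → Fin 3, S.card :=
      Finset.sum_lt_sum_of_nonempty univ_nonempty fun f _ => hcon f
    have h2 : ∑ f : Fin n → Fin 3, 27 * (S.filter (fun p => ∀ a, f (p a) = a)).card =
        ∑ p ∈ S, 27 * (univ.filter (fun f : Fin n → Fin 3 => ∀ a, f (p a) = a)).card := by
      simp only [card_filter, Finset.mul_sum]
      rw [Finset.sum_comm]
    rw [h2, Finset.sum_congr rfl fun p hp => EMT_count p (hinj p hp)] at h1
    simp only [sum_const, smul_eq_mul, card_univ, Fintype.card_fun, Fintype.card_fin] at h1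
    rw [mul_comm] at h1
    exact lt_irrefl _ h1
  obtain ⟨f, hf⟩ := hex
  set S' : Tr n := S.filter (fun p => ∀ a, f (p a) = a) with hS'
  have hsub : S' ⊆ S := filter_subset _ _
  have hSc : 1 ≤ S.card := hne.card_pos
  have hne' : S'.Nonempty := by
    rw [← card_pos]
    omega
  have hdg : ∀ a v, dg S' a v ≤ dg S a v := fun a v =>
    card_le_card (filter_subset_filter _ hsub)
  have hcg : ∀ a b v v', cg S' a b v v' ≤ cg S a b v v' := fun a b v v' =>
    card_le_card (filter_subset_filter _ hsub)
  have hnn : nn S' 0 ≤ nn S 0 := card_le_card (image_subset_image hsub)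
  have hmm : mm S' 0 1 ≤ mm S 0 1 := card_le_card (image_subset_image hsub)
  obtain ⟨A, B, C, hA, hB, hC, hABC⟩ := h n S' 0 1 2 t u w Δ0 Δ1 Δ2 Γ1 Γ2 (by decide) (by decide)
    (by decide) ht hu hw hne' (fun v => (hdg 0 v).trans (d0 v)) (fun v => (hdg 1 v).trans (d1 v))
    (fun v => (hdg 2 v).trans (d2 v))
    (by
      have : 8 * (t - 1) * Δ0 ≤ 8 * t * Δ0 :=
        Nat.mul_le_mul_right _ (Nat.mul_le_mul_left _ (Nat.sub_le _ _))
      have e : 216 * t * Δ0 = 27 * (8 * t * Δ0) := by ring
      omega)
    (by
      have e : 216 * (t * u) * Δ1 = 27 * (8 * (t * u) * Δ1) := by ring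
      omega)
    (by
      have e : 216 * (t * u * w) * Δ2 = 27 * (8 * (t * u * w) * Δ2) := by ring
      omega)
    (fun v v' => (hcg 0 1 v v').trans (g1 v v')) (fun v v' => (hcg 0 2 v v').trans (g2 v v'))
    (by
      have e : 432 * u * Γ1 * nn S 0 = 27 * (16 * u * Γ1 * nn S 0) := by ring
      have e' : 16 * u * Γ1 * nn S' 0 ≤ 16 * u * Γ1 * nn S 0 := Nat.mul_le_mul_left _ hnn
      omega)
    (by
      have e : 432 * (u * w) * Γ2 * nn S 0 = 27 * (16 * (u * w) * Γ2 * nn S 0) := by ring
      have e' : 16 * (u * w) * Γ2 * nn S' 0 ≤ 16 * (u * w) * Γ2 * nn S 0 :=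
        Nat.mul_le_mul_left _ hnn
      omega)
    (by
      have e : 54 * w * mm S 0 1 = 27 * (2 * w * mm S 0 1) := by ring
      have e' : 2 * (w - 1) * mm S' 0 1 ≤ 2 * w * mm S 0 1 :=
        Nat.mul_le_mul (Nat.mul_le_mul_left _ (Nat.sub_le _ _)) hmm
      omega)
  have hf' : ∀ p ∈ S', ∀ a, f (p a) = a := fun p hp => (mem_filter.1 hp).2
  have cA : ∀ i, f (A i) = 0 := by
    intro i
    obtain ⟨p, hp, h0, _, _⟩ := hABC i ⟨0, hu⟩ ⟨0, hw⟩
    rw [← h0]
    exact hf' p hp 0
  have cB : ∀ q, f (B q) = 1 := by
    rintro ⟨i, j⟩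
    obtain ⟨p, hp, _, h1, _⟩ := hABC i j ⟨0, hw⟩
    rw [← h1]
    exact hf' p hp 1
  have cC : ∀ q, f (C q) = 2 := by
    rintro ⟨i, j, l⟩
    obtain ⟨p, hp, _, _, h2⟩ := hABC i j l
    rw [← h2]
    exact hf' p hp 2
  refine ⟨Sum.elim (Sum.elim A B) C, ?_, ?_⟩
  · rintro ((i | q) | r) ((i' | q') | r') hh
    · simp only [Sum.elim_inl] at hh
      rw [hA hh]
    · simp only [Sum.elim_inl, Sum.elim_inr] at hh
      have := congrArg f hh
      rw [cA, cB] at this
      exact absurd this (by decide)
    · simp only [Sum.elim_inl, Sum.elim_inr] at hh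
      have := congrArg f hh
      rw [cA, cC] at this
      exact absurd this (by decide)
    · simp only [Sum.elim_inl, Sum.elim_inr] at hh
      have := congrArg f hh
      rw [cA, cB] at this
      exact absurd this (by decide)
    · simp only [Sum.elim_inl, Sum.elim_inr] at hh
      rw [hB hh]
    · simp only [Sum.elim_inl, Sum.elim_inr] at hh
      have := congrArg f hh
      rw [cB, cC] at this
      exact absurd this (by decide)
    · simp only [Sum.elim_inl, Sum.elim_inr] at hh
      have := congrArg f hh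
      rw [cA, cC] at this
      exact absurd this (by decide)
    · simp only [Sum.elim_inl, Sum.elim_inr] at hh
      have := congrArg f hh
      rw [cB, cC] at this
      exact absurd this (by decide)
    · simp only [Sum.elim_inr] at hh
      rw [hC hh]
  · intro i j l
    obtain ⟨p, hp, h0, h1, h2⟩ := hABC i j l
    have := hS p (hsub hp)
    simp only [Sum.elim_inl, Sum.elim_inr]
    rw [← h0, ← h1, ← h2]
    exact this

end H773V
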