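import Pool.Agent.H773R2.U2.Defs

/-! FIN2: the common subgraph in the critical range. -/

set_option linter.unusedVariables false

namespace H773V

open Finset Pool.Agent.Results.MP_9dddc4_co.UkExponent
open H773U (ContainsT Tr dg cg nn mm)

lemma FIN2_rpow_pow (x : ℝ) (hx : 0 ≤ x) : (x ^ (1 / 4 : ℝ)) ^ 4 = x := by
  rw [← Real.rpow_natCast, ← Real.rpow_mul hx]
  norm_num

lemma FIN2_E1_pow (n : ℕ) (hl : 0 ≤ Real.log n) :
    (E1 n) ^ 3 = (n : ℝ) ^ 5 * (Real.log n) ^ 2 := by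
  unfold E1
  rw [mul_pow, ← Real.rpow_natCast ((n : ℝ) ^ (5 / 3 : ℝ)),
    ← Real.rpow_natCast ((Real.log n) ^ (2 / 3 : ℝ)),
    ← Real.rpow_mul (Nat.cast_nonneg n), ← Real.rpow_mul hl]
  norm_num

theorem FIN2 (hF : S_FINE) (hP : S_PARM) (hS : S_SHC) (hQ : S_PFS) : S_FIN2 := by
  refine ⟨1 / (6 * 3686400), by norm_num, ?_⟩
  filter_upwards [hP] with n hn
  intro e H hH hc h2 h1
  have hpf := hn e h2 h1
  obtain ⟨-, -, -, hl, hK, hn0, he0⟩ := hQ _ _ _ _ _ _ _ hpf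
  have hs := hpf.s0
  have hs1 := hpf.s1
  have hK3 := hpf.K3
  have hK1 := hpf.K1
  set s := Real.sqrt ((e : ℝ) / n) with hsdef
  set l := Real.log n with hldef
  set K := l * n / s ^ 3 with hKdef
  set t := ((e : ℝ) / E1 n) ^ (1 / 4 : ℝ) with htdef
  have hE1 : 0 < E1 n := lt_of_lt_of_le he0 h1
  have hx : 0 < (e : ℝ) / E1 n := div_pos he0 hE1
  have ht : 0 < t := Real.rpow_pos_of_pos hx _
  have ht1 : t ≤ 1 := Real.rpow_le_one hx.le ((div_le_one hE1).2 h1) (by norm_num)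
  have ht4 : t ^ 4 = (e : ℝ) / E1 n := FIN2_rpow_pow _ hx.le
  have hE3 : (E1 n) ^ 3 = (n : ℝ) ^ 5 * l ^ 2 := FIN2_E1_pow n hl.le
  have htK : t ^ 6 * K = 1 := by
    have h3 : (t ^ 6 * K) ^ 2 = 1 := by
      have e1 : t ^ 12 * (E1 n) ^ 3 = (e : ℝ) ^ 3 := by
        have : t ^ 12 = (t ^ 4) ^ 3 := by ring
        rw [this, ht4, div_pow]
        field_simp
      have e2 : (s ^ 3 * K) ^ 2 = (l * n) ^ 2 := by rw [hK3]
      have e3 : (s ^ 2) ^ 3 * (n : ℝ) ^ 3 = (e : ℝ) ^ 3 := by rw [← hs1]; ring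
      have e4 : (0 : ℝ) < s ^ 6 * (n : ℝ) ^ 5 * l ^ 2 := by positivity
      have e5 : (t ^ 6 * K) ^ 2 * (s ^ 6 * (n : ℝ) ^ 5 * l ^ 2) =
          1 * (s ^ 6 * (n : ℝ) ^ 5 * l ^ 2) := by
        calc (t ^ 6 * K) ^ 2 * (s ^ 6 * (n : ℝ) ^ 5 * l ^ 2) =
              t ^ 12 * ((n : ℝ) ^ 5 * l ^ 2) * (s ^ 3 * K) ^ 2 := by ring
          _ = (e : ℝ) ^ 3 * (l * n) ^ 2 := by rw [← hE3, e1, e2]
          _ = 1 * (s ^ 6 * (n : ℝ) ^ 5 * l ^ 2) := by rw [← e3]; ring
      exact mul_right_cancel₀ e4.ne' e5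
    have h4 : 0 < t ^ 6 * K := by positivity
    nlinarith
  by_cases hKK : 10 ^ 6 ≤ K
  · obtain ⟨m, hm, hmb⟩ := hF _ _ _ _ _ _ _ (H 0) (H 1) hpf hKK (hH 0) (hH 1) (hc 0) (hc 1)
    have hlogK : 0 ≤ Real.log K := Real.log_nonneg hK1
    have hlt : Real.log K ≤ 6 * (1 / t - 1) := by
      have e1 : Real.log K = 6 * Real.log (1 / t) := by
        have e2 : K = (1 / t) ^ 6 := by
          field_simp
          linarith
        rw [e2, Real.log_pow]
        norm_num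
      rw [e1]
      have := Real.log_le_sub_one_of_pos (one_div_pos.2 ht)
      linarith
    have hb : t * (1 + Real.log K) ≤ 6 := by
      have e1 : t * (1 + Real.log K) ≤ t * (1 + 6 * (1 / t - 1)) :=
        mul_le_mul_of_nonneg_left (by linarith) ht.le
      have e2 : t * (1 + 6 * (1 / t - 1)) = 6 - 5 * t := by
        field_simp
        ring
      linarith
    have hkey : 1 / (6 * 3686400) * s * l * t ≤ m := by
      refine le_trans ?_ hmb
      rw [le_div_iff₀ (by positivity)]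
      have hsl : 0 < s * l := mul_pos hs hl
      have e3 : 1 / (6 * 3686400) * s * l * t * (3686400 * (1 + Real.log K)) =
          (s * l) * (t * (1 + Real.log K)) / 6 := by ring
      rw [e3]
      have := mul_le_mul_of_nonneg_left hb hsl.le
      linarith
    have hm1 : 1 ≤ m := by
      have : (0 : ℝ) < m := lt_of_lt_of_le (by positivity) hkey
      have : 0 < m := by exact_mod_cast this
      omega
    exact ⟨m, hm1, hS n m H hm, hkey⟩
  · push Not at hKK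
    have he1 : 1 ≤ e := by
      have : 0 < e := by exact_mod_cast he0
      omega
    obtain ⟨m, hm1, hmC, hmb⟩ := common_rand (k := 2) (by norm_num) H hH hc he1
    refine ⟨m, hm1, hmC, ?_⟩
    have e1 : (e : ℝ) ^ 2 ≤ m * (n : ℝ) ^ 3 := by simpa using hmb
    have hsl : 0 < s * l := mul_pos hs hl
    have e2 : s ^ 4 ≤ m * n := by
      have e3 : s ^ 4 * (n : ℝ) ^ 2 ≤ m * n * (n : ℝ) ^ 2 := by
        calc s ^ 4 * (n : ℝ) ^ 2 = (s ^ 2 * n) ^ 2 := by ring
          _ = (e : ℝ) ^ 2 := by rw [hs1]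
          _ ≤ m * (n : ℝ) ^ 3 := e1
          _ = m * n * (n : ℝ) ^ 2 := by ring
      exact le_of_mul_le_mul_right e3 (by positivity)
    -- `s l = s ^ 4 K / n`
    have e4 : s * l * n = s ^ 4 * K := by
      calc s * l * n = s * (l * n) := by ring
        _ = s * (s ^ 3 * K) := by rw [hK3]
        _ = s ^ 4 * K := by ring
    have e5 : s * l * n ≤ (10 ^ 6 * m) * n := by
      rw [e4]
      calc s ^ 4 * K ≤ (m * n) * K := mul_le_mul_of_nonneg_right e2 hK.le
        _ ≤ (m * n) * 10 ^ 6 := mul_le_mul_of_nonneg_left hKK.le (by positivity)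
        _ = (10 ^ 6 * m) * n := by ring
    have e6 : s * l ≤ 10 ^ 6 * m := le_of_mul_le_mul_right e5 hn0
    have e7 : s * l * t ≤ s * l := mul_le_of_le_one_right hsl.le ht1
    have e8 : 1 / (6 * 3686400) * s * l * t = (s * l * t) / (6 * 3686400) := by ring
    rw [e8, div_le_iff₀ (by norm_num)]
    have hm0 : (0 : ℝ) ≤ m := Nat.cast_nonneg m
    linarith

end H773V
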