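import Pool.Agent.H773R2.U2.Defs

namespace H773V

open Finset Pool.Agent.Results.MP_9dddc4_co.UkExponent
open H773U (ContainsT)

theorem FINE_num {n e g A : ℕ} {s l K : ℝ} (hF : PF n e g A s l K) :
    s * l / (3686400 * (1 + Real.log K)) ≤ A := by
  have h1 : 0 ≤ Real.log K := Real.log_nonneg hF.K1
  have h2 : 0 ≤ s * l := by
    have := hF.s0
    have := hF.l1
    have : (0 : ℝ) ≤ l := by linarith
    positivity
  refine le_trans ?_ hF.A1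
  apply div_le_self h2
  nlinarith

theorem FINE_tree (hC : S_COMT) {n e g A t u w : ℕ} {s l K : ℝ} {H1 H2 : ES n}
    (hF : PF n e g A s l K) (hA : A ≤ t * u * w) (h1 : ContainsT H1 t u w)
    (h2 : ContainsT H2 t u w) :
    ∃ m : ℕ, Sh H1 H2 m ∧ s * l / (3686400 * (1 + Real.log K)) ≤ m := by
  refine ⟨t * u * w, hC _ _ _ _ _ _ h1 h2, le_trans (FINE_num hF) ?_⟩
  exact_mod_cast hA

theorem FINE_pow {n e g A : ℕ} (hP : Par n e g A) : A ≤ g ^ 168 := by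
  refine le_trans hP.a2 (Nat.pow_le_pow_right ?_ (by norm_num))
  have := hP.hg
  omega

theorem FINE_II (hC : S_COMT) (hIIa : S_TIIa) (hIIb : S_TIIb) {n e g A : ℕ} {s l K : ℝ}
    {H1 H2 : ES n} (hF : PF n e g A s l K) (r1 : IsRGraph 3 H1) (r2 : IsRGraph 3 H2)
    (c1 : H1.card = e) (c2 : H2.card = e) (h0 : ¬ ContainsT H1 A 1 1) (h2 : ¬ ContainsT H1 1 1 A)
    (h1 : ¬ ContainsT H2 1 A 1) :
    ∃ m : ℕ, Sh H1 H2 m ∧ s * l / (3686400 * (1 + Real.log K)) ≤ m := by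
  refine FINE_tree hC hF ?_ (hIIa n e g A H1 hF.par r1 c1 h0 h2) (hIIb n e g A H2 hF.par r2 c2 h1)
  have : g ^ 152 * 1 * g ^ 16 = g ^ 168 := by ring
  rw [this]
  exact FINE_pow hF.par

theorem FINE_III (hC : S_COMT) (hIIIa : S_TIIIa) (hIIIb : S_TIIIb) (hS : S_IIIA) {n e g A : ℕ}
    {s l K : ℝ}
    {H1 H2 : ES n} (hF : PF n e g A s l K) (hK : 10 ^ 6 ≤ K) (r1 : IsRGraph 3 H1)
    (r2 : IsRGraph 3 H2)
    (c1 : H1.card = e) (c2 : H2.card = e) (h1 : ¬ ContainsT H1 1 A 1) (h2 : ¬ ContainsT H1 1 1 A)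
    (h0 : ¬ ContainsT H2 A 1 1) :
    ∃ m : ℕ, Sh H1 H2 m ∧ s * l / (3686400 * (1 + Real.log K)) ≤ m := by
  have hsum : (H2.filter (fun f => ∀ v ∈ f, deg H2 v < g ^ 776)).card +
      (H2.filter (fun f => ∃ v ∈ f, g ^ 776 ≤ deg H2 v)).card = e := by
    rw [← c2]
    have hEq : H2.filter (fun f => ∃ v ∈ f, g ^ 776 ≤ deg H2 v) =
        H2.filter (fun f => ¬ ∀ v ∈ f, deg H2 v < g ^ 776) := by
      apply Finset.filter_congr
      intro f _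
      push Not
      rfl
    rw [hEq]
    exact Finset.card_filter_add_card_filter_not _
  by_cases hb : e ≤ 2 * (H2.filter (fun f => ∀ v ∈ f, deg H2 v < g ^ 776)).card
  · refine FINE_tree hC hF ?_ (hIIIa n e g A H1 hF.par r1 c1 h1 h2)
      (hIIIb n e g A H2 hF.par r2 c2 h0 hb)
    have : g ^ 16 * g ^ 136 * g ^ 16 = g ^ 168 := by ring
    rw [this]
    exact FINE_pow hF.par
  · exact hS n e g A s l K H1 H2 hF hK r1 r2 c1 c2 h1 h2 (by omega)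

theorem FINE_I (hC : S_COMT) (hIa : S_TIa) (hIb : S_TIb) (hS : S_IA) {n e g A : ℕ} {s l K : ℝ}
    {H1 H2 : ES n} (hF : PF n e g A s l K) (hK : 10 ^ 6 ≤ K) (r1 : IsRGraph 3 H1)
    (r2 : IsRGraph 3 H2)
    (c1 : H1.card = e) (c2 : H2.card = e) (h0 : ¬ ContainsT H1 A 1 1) (h1 : ¬ ContainsT H1 1 A 1)
    (h2 : ¬ ContainsT H2 1 1 A) :
    ∃ m : ℕ, Sh H1 H2 m ∧ s * l / (3686400 * (1 + Real.log K)) ≤ m := by
  have hsum : (H2.filter (fun f => ∃ u ∈ f, ∃ v ∈ f, u ≠ v ∧ g ^ 24 ≤ cod H2 u v)).card +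
      (H2.filter (fun f => ∀ u ∈ f, ∀ v ∈ f, u ≠ v → cod H2 u v < g ^ 24)).card = e := by
    rw [← c2]
    have hEq : H2.filter (fun f => ∀ u ∈ f, ∀ v ∈ f, u ≠ v → cod H2 u v < g ^ 24) =
        H2.filter (fun f => ¬ ∃ u ∈ f, ∃ v ∈ f, u ≠ v ∧ g ^ 24 ≤ cod H2 u v) := by
      apply Finset.filter_congr
      intro f _
      push Not
      rfl
    rw [hEq]
    exact Finset.card_filter_add_card_filter_not _
  by_cases hb : e ≤ 2 * (H2.filter (fun f => ∃ u ∈ f, ∃ v ∈ f, u ≠ v ∧ g ^ 24 ≤ cod H2 u v)).card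
  · refine FINE_tree hC hF ?_ (hIa n e g A H1 hF.par r1 c1 h0 h1)
      (hIb n e g A H2 hF.par r2 c2 h2 hb)
    have : g ^ 16 * g ^ 136 * g ^ 16 = g ^ 168 := by ring
    rw [this]
    exact FINE_pow hF.par
  · exact hS n e g A s l K H1 H2 hF hK r1 r2 c1 c2 h0 h1 (by omega)

theorem FINE_ne {n e g A : ℕ} (hN : S_NOT3) (hP : Par n e g A) {H : ES n} (r : IsRGraph 3 H)
    (c : H.card = e) : ContainsT H A 1 1 ∨ ContainsT H 1 A 1 ∨ ContainsT H 1 1 A := by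
  by_contra hcon
  push Not at hcon
  have h1 := hN n A H r hcon.1 hcon.2.1 hcon.2.2
  have hg := hP.hg
  have h2 : g ^ 799 ≤ 6 * (g ^ 161) ^ 3 := by
    calc g ^ 799 ≤ e := hP.e1
      _ = H.card := c.symm
      _ ≤ 6 * A ^ 3 := h1
      _ ≤ 6 * (g ^ 161) ^ 3 := by
        have := hP.a2
        gcongr
  have h3 : (g ^ 161) ^ 3 = g ^ 483 := by rw [← pow_mul]
  rw [h3] at h2
  have h4 : g ^ 799 = g ^ 315 * g * g ^ 483 := by
    rw [← pow_succ, ← pow_add]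
  rw [h4] at h2
  have h5 : 0 < g ^ 483 := Nat.pow_pos (by omega)
  have h6 : g ^ 315 * g ≤ 6 := Nat.le_of_mul_le_mul_right h2 h5
  have h7 : 1 ≤ g ^ 315 := Nat.one_le_pow _ _ (by omega)
  have h8 : 1 * g ≤ g ^ 315 * g := Nat.mul_le_mul_right _ h7
  omega

theorem FINE (hC : S_COMT) (hS : S_SHS) (hN : S_NOT3) (hIIa : S_TIIa) (hIIb : S_TIIb)
    (hIIIa : S_TIIIa) (hIIIb : S_TIIIb) (hIa : S_TIa) (hIb : S_TIb) (hIII : S_IIIA) (hI : S_IA) :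
    S_FINE := by
  intro n e g A s l K H1 H2 hF hK r1 r2 c1 c2
  have swap : (∃ m : ℕ, Sh H2 H1 m ∧ s * l / (3686400 * (1 + Real.log K)) ≤ m) →
      ∃ m : ℕ, Sh H1 H2 m ∧ s * l / (3686400 * (1 + Real.log K)) ≤ m := by
    rintro ⟨m, h1, h2⟩
    exact ⟨m, hS _ _ _ _ h1, h2⟩
  have hn1 := FINE_ne hN hF.par r1 c1
  have hn2 := FINE_ne hN hF.par r2 c2
  by_cases t0 : ContainsT H1 A 1 1 ∧ ContainsT H2 A 1 1
  · exact FINE_tree hC hF (by simp) t0.1 t0.2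
  by_cases t1 : ContainsT H1 1 A 1 ∧ ContainsT H2 1 A 1
  · exact FINE_tree hC hF (by simp) t1.1 t1.2
  by_cases t2 : ContainsT H1 1 1 A ∧ ContainsT H2 1 1 A
  · exact FINE_tree hC hF (by simp) t2.1 t2.2
  by_cases a0 : ContainsT H1 A 1 1
  · have b0 : ¬ ContainsT H2 A 1 1 := fun h => t0 ⟨a0, h⟩
    by_cases a1 : ContainsT H1 1 A 1
    · have b1 : ¬ ContainsT H2 1 A 1 := fun h => t1 ⟨a1, h⟩
      have b2 : ContainsT H2 1 1 A := by tauto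
      have a2 : ¬ ContainsT H1 1 1 A := fun h => t2 ⟨h, b2⟩
      exact swap (FINE_I hC hIa hIb hI hF hK r2 r1 c2 c1 b0 b1 a2)
    · by_cases a2 : ContainsT H1 1 1 A
      · have b2 : ¬ ContainsT H2 1 1 A := fun h => t2 ⟨a2, h⟩
        exact swap (FINE_II hC hIIa hIIb hF r2 r1 c2 c1 b0 b2 a1)
      · exact FINE_III hC hIIIa hIIIb hIII hF hK r1 r2 c1 c2 a1 a2 b0
  · by_cases a1 : ContainsT H1 1 A 1
    · have b1 : ¬ ContainsT H2 1 A 1 := fun h => t1 ⟨a1, h⟩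
      by_cases a2 : ContainsT H1 1 1 A
      · have b2 : ¬ ContainsT H2 1 1 A := fun h => t2 ⟨a2, h⟩
        exact swap (FINE_III hC hIIIa hIIIb hIII hF hK r2 r1 c2 c1 b1 b2 a0)
      · exact FINE_II hC hIIa hIIb hF r1 r2 c1 c2 a0 a2 b1
    · have a2 : ContainsT H1 1 1 A := by tauto
      have b2 : ¬ ContainsT H2 1 1 A := fun h => t2 ⟨a2, h⟩
      exact FINE_I hC hIa hIb hI hF hK r1 r2 c1 c2 a0 a1 b2

end H773V
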