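import Pool.Agent.H773R2.U2.Defs

/-! Task HVC (helper680): edges containing a heavy pair. -/

set_option linter.unusedVariables false

namespace H773V

open Finset Pool.Agent.Results.MP_9dddc4_co.UkExponent
open H773U (ContainsT Tr dg cg nn mm)

theorem HVC (hT : S_TK) : S_HVC := by
  intro n w D H hH hD
  obtain ⟨-, hcod, -⟩ := hT n H hH
  have key := Finset.card_mul_le_card_mul
    (s := H.filter (fun f => ∃ u ∈ f, ∃ v ∈ f, u ≠ v ∧ w ≤ cod H u v)) (t := hv H w)
    (m := 2) (n := D) (fun (f : Finset (Fin n)) (p : Fin n × Fin n) => p.1 ∈ f ∧ p.2 ∈ f) ?_ ?_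
  · rw [mul_comm]
    exact key
  · intro f hf
    rw [Finset.mem_filter] at hf
    obtain ⟨-, u, hu, v, hv', huv, hw⟩ := hf
    have h2 : ({(u, v), (v, u)} : Finset (Fin n × Fin n)).card = 2 := by
      rw [Finset.card_pair]
      intro h
      exact huv (Prod.ext_iff.1 h).1
    rw [← h2]
    apply Finset.card_le_card
    intro p hp
    rw [Finset.mem_insert, Finset.mem_singleton] at hp
    rw [Finset.mem_bipartiteAbove]
    rcases hp with rfl | rfl
    · refine ⟨?_, hu, hv'⟩
      unfold hv
      rw [Finset.mem_filter]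
      exact ⟨Finset.mem_univ _, huv, hw⟩
    · refine ⟨?_, hv', hu⟩
      unfold hv
      rw [Finset.mem_filter]
      refine ⟨Finset.mem_univ _, huv.symm, ?_⟩
      show w ≤ cod H v u
      rw [← (hcod u v huv).2]
      exact hw
  · intro p hp
    unfold hv at hp
    rw [Finset.mem_filter] at hp
    refine le_trans ?_ (hD p.1 p.2 hp.2.1)
    unfold cod
    apply Finset.card_le_card
    intro f hf
    rw [Finset.mem_bipartiteBelow, Finset.mem_filter] at hf
    rw [Finset.mem_filter]
    exact ⟨hf.1.1, hf.2⟩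

end H773V
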