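import Pool.Agent.H773R2.U2.Defs

set_option linter.unusedVariables false

namespace H773V

open Finset Pool.Agent.Results.MP_9dddc4_co.UkExponent
open H773U (ContainsT Tr dg cg nn mm)

theorem IA_lift_bound (g a m w : ℕ) (hg : 10 ^ 6 ≤ g) (ha : a ≤ g ^ 161) (hm : m ≤ g ^ 162)
    (hw : w ≤ g) : 2 * a + m * w ≤ g ^ 470 := by
  have hg0 : 0 < g := lt_of_lt_of_le (by norm_num) hg
  have hg3 : 3 ≤ g := le_trans (by norm_num) hg
  have h1 : m * w ≤ g ^ 162 * g := Nat.mul_le_mul hm hw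
  have h2 : g ^ 161 ≤ g ^ 163 := Nat.pow_le_pow_right hg0 (by norm_num)
  have h3 : g ^ 162 * g = g ^ 163 := by rw [← pow_succ]
  have h4 : g ^ 163 * 3 ≤ g ^ 163 * g := Nat.mul_le_mul_left _ hg3
  have h5 : g ^ 163 * g = g ^ 164 := by rw [← pow_succ]
  have h6 : g ^ 164 ≤ g ^ 470 := Nat.pow_le_pow_right hg0 (by norm_num)
  generalize g ^ 161 = x1 at *
  generalize g ^ 162 = x2 at *
  generalize g ^ 163 = x3 at *
  generalize g ^ 164 = x4 at *
  generalize g ^ 470 = x5 at *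
  calc 2 * a + m * w ≤ 2 * x3 + x3 := by
        refine Nat.add_le_add (Nat.mul_le_mul_left _ (ha.trans h2)) ?_
        rw [← h3]; exact h1
    _ = x3 * 3 := by ring
    _ ≤ x5 := h4.trans (h5.le.trans h6)

theorem IA_cod_mono {n : ℕ} {H H' : ES n} (h : H ⊆ H') (u v : Fin n) :
    cod H u v ≤ cod H' u v :=
  card_le_card (filter_subset_filter _ h)

theorem IA_cod_pos {n : ℕ} {H : ES n} {u v : Fin n} (h : 0 < cod H u v) :
    ∃ f ∈ H, u ∈ f ∧ v ∈ f := by
  obtain ⟨f, hf⟩ := card_pos.1 h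
  rw [mem_filter] at hf
  exact ⟨f, hf.1, hf.2⟩

theorem IA (hP : S_PP) (hC : S_CLEAN) (hV : S_LEV) (hH : S_HVC) (hL : S_LIFTI) (hA : S_ARI)
    (hG : S_LG) (hE : S_EMS) (hF : S_PFS) : S_IA := by
  classical
  intro n e g A s l K H1 H2 hPF hK hr1 hr2 hc1 hc2 hn1 hn2 hlow
  obtain ⟨hs1, hs2, hg900, hl0, hK0, hn0, he0⟩ := hF n e g A s l K hPF
  have hpar := hPF.par
  have hg6 : 10 ^ 6 ≤ g := hpar.hg
  have hg0 : 0 < g := lt_of_lt_of_le (by norm_num) hg6
  have hgR : (1 : ℝ) ≤ g := by exact_mod_cast hg0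
  have hgR6 : (10 : ℝ) ^ 6 ≤ g := by exact_mod_cast hg6
  have hl9 : (10 : ℝ) ^ 9 ≤ l := hPF.l1
  have hl1 : (1 : ℝ) ≤ l := le_trans (by norm_num) hl9
  have hlg : l ≤ g := le_trans (le_self_pow₀ hl1 (by norm_num)) hPF.l2
  have hl6g : l ^ 6 ≤ g := le_trans (pow_le_pow_right₀ hl1 (by norm_num)) hPF.l2
  have hs0 : 0 < s := hPF.s0
  have hlogK : 0 ≤ Real.log K := Real.log_nonneg (le_trans (by norm_num) hK)
  obtain ⟨hSG, heP, -, -⟩ := hP n e g A H1 hpar hr1 hc1 hn1 hn2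
  set P := hv H1 (g ^ 470) with hPdef
  set Ha := H2.filter (fun f => ∀ u ∈ f, ∀ v ∈ f, u ≠ v → cod H2 u v < g ^ 24) with hHadef
  have hHa2 : Ha ⊆ H2 := filter_subset _ _
  have hrHa : IsRGraph 3 Ha := fun f hf => hr2 f (hHa2 hf)
  have hcodHa : ∀ u v, u ≠ v → cod Ha u v ≤ g ^ 24 := by
    intro u v huv
    rcases Nat.eq_zero_or_pos (cod Ha u v) with h0 | h0
    · rw [h0]; exact Nat.zero_le _
    · obtain ⟨f, hf, hu, hv'⟩ := IA_cod_pos h0
      rw [hHadef, mem_filter] at hf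
      exact (IA_cod_mono hHa2 u v).trans (hf.2 u hu v hv' huv).le
  set L := ⌈l⌉₊ with hLdef
  have hLl : l ≤ L := Nat.le_ceil l
  have hLl1 : (L : ℝ) ≤ l + 1 := (Nat.ceil_lt_add_one hl0.le).le
  have hLg : L ≤ g := Nat.ceil_le.2 hlg
  have hL1 : 1 ≤ L := by
    have : (1 : ℝ) ≤ L := hl1.trans hLl
    exact_mod_cast this
  -- the target is small
  have htar : s * l / (3686400 * (1 + Real.log K)) ≤ s / 4 * l := by
    rw [div_le_iff₀ (by positivity)]
    have h1 : 0 < s * l := mul_pos hs0 hl0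
    nlinarith [mul_nonneg h1.le hlogK]
  have hs162 : ∀ c : ℝ, 0 ≤ c → c ≤ g → ⌈s * c⌉₊ ≤ g ^ 162 := by
    intro c hc0 hcg
    refine Nat.ceil_le.2 ?_
    push_cast
    calc s * c ≤ (g : ℝ) ^ 161 * g := mul_le_mul hs2 hcg hc0 (by positivity)
      _ = (g : ℝ) ^ 162 := by rw [← pow_succ]
  set E := Ha.filter (fun f => ∃ u ∈ f, ∃ v ∈ f, u ≠ v ∧ L ≤ cod Ha u v) with hEdef
  by_cases halpha : e ≤ 4 * E.card
  · -- case alpha
    have h1 := hH n L (g ^ 24) Ha hrHa hcodHa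
    obtain ⟨G, T, hGs, hGT, hth, hcard⟩ := hC n L (g ^ 24) Ha hrHa hL1 hcodHa
    have h1' : 2 * E.card ≤ (hv Ha L).card * g ^ 24 := h1
    have hG700 : g ^ 700 ≤ G.card := by
      have h2 : e ≤ g ^ 50 * G.card := by
        have h3 : 1 + 4 * L * g ^ 24 ≤ 5 * g ^ 25 := by
          have h4 : L * g ^ 24 ≤ g * g ^ 24 := Nat.mul_le_mul_right _ hLg
          have h5 : g * g ^ 24 = g ^ 25 := by rw [← pow_succ']
          have h6 : 1 ≤ g ^ 25 := Nat.one_le_pow _ _ hg0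
          calc 1 + 4 * L * g ^ 24 = 1 + 4 * (L * g ^ 24) := by ring
            _ ≤ g ^ 25 + 4 * (g ^ 25) := by
              refine Nat.add_le_add h6 (Nat.mul_le_mul_left _ (h5 ▸ h4))
            _ = 5 * g ^ 25 := by ring
        calc e ≤ 4 * E.card := halpha
          _ = 2 * (2 * E.card) := by ring
          _ ≤ 2 * ((hv Ha L).card * g ^ 24) := Nat.mul_le_mul_left _ h1'
          _ ≤ 2 * (((1 + 4 * L * g ^ 24) * G.card) * g ^ 24) :=
            Nat.mul_le_mul_left _ (Nat.mul_le_mul_right _ hcard)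
          _ ≤ 2 * (((5 * g ^ 25) * G.card) * g ^ 24) :=
            Nat.mul_le_mul_left _ (Nat.mul_le_mul_right _ (Nat.mul_le_mul_right _ h3))
          _ = (10 * g ^ 49) * G.card := by ring
          _ ≤ (g * g ^ 49) * G.card := by
            refine Nat.mul_le_mul_right _ (Nat.mul_le_mul_right _ (le_trans (by norm_num) hg6))
          _ = g ^ 50 * G.card := by rw [← pow_succ']
      have h7 : g ^ 50 * g ^ 749 ≤ g ^ 50 * G.card := by
        rw [← pow_add]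
        exact le_trans hpar.e1 h2
      have h8 : g ^ 749 ≤ G.card := Nat.le_of_mul_le_mul_left h7 (pow_pos hg0 _)
      exact (Nat.pow_le_pow_right hg0 (by norm_num)).trans h8
    have hEmb := (hE n e g A L s l K P G T hPF hSG hGT heP hLl1 hG700).1
    have hth2 : ∀ u v, (u, v) ∈ G → ∀ t ∈ T u v, ({u, v, t} : Finset (Fin n)) ∈ H2 :=
      fun u v huv t ht => hHa2 (hth u v huv t ht)
    have hm162 : ⌈s / 4⌉₊ ≤ g ^ 162 := by
      have := hs162 (1 / 4) (by norm_num) (le_trans (by norm_num) hgR)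
      rwa [mul_one_div] at this
    have hSh := hL n (g ^ 470) L ⌈s / 4⌉₊ (2 * A) H1 H2 G T hr1 hr2 hGT hth2 hEmb
      (IA_lift_bound g A _ L hg6 hpar.a2 hm162 hLg)
    refine ⟨_, hSh, ?_⟩
    push_cast
    refine htar.trans ?_
    exact mul_le_mul (Nat.le_ceil _) hLl hl0.le (Nat.cast_nonneg _)
  · -- case beta
    set Hb := Ha.filter (fun f => ¬ ∃ u ∈ f, ∃ v ∈ f, u ≠ v ∧ L ≤ cod Ha u v) with hHbdef
    have hHba : Hb ⊆ Ha := filter_subset _ _
    have hrHb : IsRGraph 3 Hb := fun f hf => hrHa f (hHba hf)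
    have hsplit : E.card + Hb.card = Ha.card := by
      rw [hEdef, hHbdef]
      exact card_filter_add_card_filter_not _
    have hHb4 : e ≤ 4 * Hb.card := by
      have : e ≤ 2 * Ha.card := hlow
      omega
    have hcodHb : ∀ u v, u ≠ v → cod Hb u v < L := by
      intro u v huv
      rcases Nat.eq_zero_or_pos (cod Hb u v) with h0 | h0
      · rw [h0]; exact hL1
      · obtain ⟨f, hf, hu, hv'⟩ := IA_cod_pos h0
        rw [hHbdef, mem_filter] at hf
        by_contra hcon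
        rw [not_lt] at hcon
        exact hf.2 ⟨u, hu, v, hv', huv, hcon.trans (IA_cod_mono hHba u v)⟩
    have hI1 : L < 2 ^ (Nat.log 2 L + 1) := Nat.lt_pow_succ_log_self (by norm_num) L
    have hI2 : 2 ^ Nat.log 2 L ≤ L := Nat.pow_log_le_self 2 (by omega)
    obtain ⟨i, hi, Hc, hHcb, hcodHc, hcardc⟩ := hV n (Nat.log 2 L) Hb hrHb
      (fun u v huv => (hcodHb u v huv).trans hI1)
    have hrHc : IsRGraph 3 Hc := fun f hf => hrHb f (hHcb hf)
    have hHc2 : Hc ⊆ H2 := (hHcb.trans hHba).trans hHa2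
    have h2iL : 2 ^ i ≤ L := (Nat.pow_le_pow_right (by norm_num) hi).trans hI2
    have hcodHc' : ∀ u v, u ≠ v → cod Hc u v ≤ 2 ^ (i + 1) := fun u v huv => (hcodHc u v huv).le
    have h2i1 : 1 ≤ 2 ^ i := Nat.one_le_two_pow
    have h1 := hH n (2 ^ i) (2 ^ (i + 1)) Hc hrHc hcodHc'
    obtain ⟨G, T, hGs, hGT, hth, hcard⟩ := hC n (2 ^ i) (2 ^ (i + 1)) Hc hrHc h2i1 hcodHc'
    set X := (Hc.filter (fun f => ∃ u ∈ f, ∃ v ∈ f, u ≠ v ∧ 2 ^ i ≤ cod Hc u v)).card with hX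
    have h8 : (8 : ℕ) ^ i = 2 ^ i * 2 ^ i * 2 ^ i := by
      rw [← mul_pow, ← mul_pow]; norm_num
    have hXG : X ≤ 9 * 8 ^ i * G.card := by
      have h3 : X ≤ (hv Hc (2 ^ i)).card * 2 ^ i := by
        have : 2 * X ≤ 2 * ((hv Hc (2 ^ i)).card * 2 ^ i) := by
          calc 2 * X ≤ (hv Hc (2 ^ i)).card * 2 ^ (i + 1) := h1
            _ = 2 * ((hv Hc (2 ^ i)).card * 2 ^ i) := by rw [pow_succ]; ring
        exact Nat.le_of_mul_le_mul_left this (by norm_num)
      have h4 : 1 + 4 * 2 ^ i * 2 ^ (i + 1) ≤ 9 * (2 ^ i * 2 ^ i) := by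
        have h5 : 1 ≤ 2 ^ i * 2 ^ i := Nat.mul_pos h2i1 h2i1
        calc 1 + 4 * 2 ^ i * 2 ^ (i + 1) = 1 + 8 * (2 ^ i * 2 ^ i) := by rw [pow_succ]; ring
          _ ≤ 2 ^ i * 2 ^ i + 8 * (2 ^ i * 2 ^ i) := Nat.add_le_add_right h5 _
          _ = 9 * (2 ^ i * 2 ^ i) := by ring
      calc X ≤ (hv Hc (2 ^ i)).card * 2 ^ i := h3
        _ ≤ ((1 + 4 * 2 ^ i * 2 ^ (i + 1)) * G.card) * 2 ^ i := Nat.mul_le_mul_right _ hcard
        _ ≤ ((9 * (2 ^ i * 2 ^ i)) * G.card) * 2 ^ i :=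
          Nat.mul_le_mul_right _ (Nat.mul_le_mul_right _ h4)
        _ = 9 * 8 ^ i * G.card := by rw [h8]; ring
    have heG : e ≤ 144 * (1 + i) ^ 2 * 8 ^ i * G.card := by
      calc e ≤ 4 * Hb.card := hHb4
        _ ≤ 4 * (4 * (1 + i) ^ 2 * X) := Nat.mul_le_mul_left _ hcardc
        _ ≤ 4 * (4 * (1 + i) ^ 2 * (9 * 8 ^ i * G.card)) :=
          Nat.mul_le_mul_left _ (Nat.mul_le_mul_left _ hXG)
        _ = 144 * (1 + i) ^ 2 * 8 ^ i * G.card := by ring
    obtain ⟨h, x, hx1, hx2, hx3, hh1, hh2, hh3, hfin⟩ := hA n e g A i s l K hPF hK h2iL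
    have hx0 : 0 < x := lt_of_lt_of_le (by positivity) hx1
    have hxG : x * e ≤ G.card := by
      have h2 : (e : ℝ) ≤ 144 * (1 + i) ^ 2 * 8 ^ i * G.card := by exact_mod_cast heG
      calc x * e ≤ x * (144 * (1 + i) ^ 2 * 8 ^ i * G.card) := mul_le_mul_of_nonneg_left h2 hx0.le
        _ = (x * (144 * (1 + i) ^ 2 * 8 ^ i)) * G.card := by ring
        _ ≤ 1 * G.card := mul_le_mul_of_nonneg_right hx3 (Nat.cast_nonneg _)
        _ = G.card := one_mul _
    have hwl : ((2 ^ i : ℕ) : ℝ) ≤ l + 1 := by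
      refine le_trans ?_ hLl1
      exact_mod_cast h2iL
    have hwg : 2 ^ i ≤ g := h2iL.trans hLg
    have hth2 : ∀ u v, (u, v) ∈ G → ∀ t ∈ T u v, ({u, v, t} : Finset (Fin n)) ∈ H2 :=
      fun u v huv t ht => hHc2 (hth u v huv t ht)
    by_cases hVS : 2 * A ≤ (VS P).card
    · have hG700 : g ^ 700 ≤ G.card := by
        have h3 : (g : ℝ) ^ 798 ≤ G.card := by
          refine le_trans ?_ hxG
          have h4 : (g : ℝ) ^ 799 ≤ e := by exact_mod_cast hpar.e1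
          have h5 : (g : ℝ)⁻¹ ≤ x := by
            refine le_trans ?_ hx1
            exact inv_anti₀ (by positivity) hl6g
          calc (g : ℝ) ^ 798 = (g : ℝ)⁻¹ * (g : ℝ) ^ 799 := by
                rw [show (799 : ℕ) = 798 + 1 from rfl, pow_succ]
                field_simp
            _ ≤ x * e := mul_le_mul h5 h4 (by positivity) hx0.le
        have h6 : g ^ 798 ≤ G.card := by exact_mod_cast h3
        exact (Nat.pow_le_pow_right hg0 (by norm_num)).trans h6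
      have hEmb := (hE n e g A (2 ^ i) s l K P G T hPF hSG hGT heP hwl hG700).2 hVS
      have hA162 : A ≤ g ^ 162 := hpar.a2.trans (Nat.pow_le_pow_right hg0 (by norm_num))
      have hSh := hL n (g ^ 470) (2 ^ i) A (2 * A) H1 H2 G T hr1 hr2 hGT hth2 hEmb
        (IA_lift_bound g A _ _ hg6 hpar.a2 hA162 hwg)
      refine ⟨_, hSh, htar.trans ?_⟩
      push_cast
      have h9 : s * l ≤ A := hPF.A1
      have h10 : (1 : ℝ) ≤ 2 ^ i := one_le_pow₀ (by norm_num)
      have h11 : (0 : ℝ) ≤ A := Nat.cast_nonneg _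
      have h12 : 0 < s * l := mul_pos hs0 hl0
      calc s / 4 * l ≤ s * l := by nlinarith
        _ ≤ A * 1 := by rw [mul_one]; exact h9
        _ ≤ A * 2 ^ i := mul_le_mul_of_nonneg_left h10 h11
    · have hVS' : (VS P).card ≤ 2 * A := by omega
      have hEmb := hG n e g A (2 ^ i) h s l K x P G T hPF hSG hGT heP hVS' hwl hx1 hx2 hxG hh1
        hh2 hh3
      have hhl : (h : ℝ) ≤ g := by
        have h3 : 0 ≤ Real.log (h * K / (x * l)) := by
          refine Real.log_nonneg ?_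
          rw [one_le_div (mul_pos hx0 hl0)]
          exact hh3
        have h4 : (0 : ℝ) ≤ h := Nat.cast_nonneg _
        have h5 : (h : ℝ) ≤ l / 4800 := by
          refine le_trans ?_ hh2
          nlinarith [mul_nonneg h4 h3]
        exact h5.trans ((div_le_self hl0.le (by norm_num)).trans hlg)
      have hm162 : ⌈s * h / 64⌉₊ ≤ g ^ 162 := by
        have := hs162 (h / 64) (by positivity) (by
          have h4 : (0 : ℝ) ≤ h := Nat.cast_nonneg _
          exact (div_le_self h4 (by norm_num)).trans hhl)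
        rwa [← mul_div_assoc] at this
      have hSh := hL n (g ^ 470) (2 ^ i) ⌈s * h / 64⌉₊ (2 * A) H1 H2 G T hr1 hr2 hGT hth2 hEmb
        (IA_lift_bound g A _ _ hg6 hpar.a2 hm162 hwg)
      refine ⟨_, hSh, hfin.trans ?_⟩
      push_cast
      exact mul_le_mul_of_nonneg_right (Nat.le_ceil _) (by positivity)

end H773V
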