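import Pool.Agent.H773R2.U2.Defs

set_option autoImplicit false

/-! Task IIIA of the project `U_2(n,3)`. -/

namespace H773V

open Finset Pool.Agent.Results.MP_9dddc4_co.UkExponent
open H773U (ContainsT Tr dg cg nn mm)

theorem IIIA_sum_deg {n : ℕ} (H : ES n) (D : ℕ) (Q : Finset (Fin n))
    (hQ : ∀ z, D ≤ deg H z → z ∈ Q) :
    (H.filter (fun f => ∃ v ∈ f, D ≤ deg H v)).card ≤ ∑ z ∈ Q, deg H z := by
  classical
  have h : H.filter (fun f => ∃ v ∈ f, D ≤ deg H v) ⊆
      Q.biUnion (fun z => H.filter (fun f => z ∈ f)) := by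
    intro f hf
    rw [Finset.mem_filter] at hf
    obtain ⟨hf1, v, hv1, hv2⟩ := hf
    rw [Finset.mem_biUnion]
    exact ⟨v, hQ v hv2, Finset.mem_filter.mpr ⟨hf1, hv1⟩⟩
  refine (Finset.card_le_card h).trans (Finset.card_biUnion_le.trans ?_)
  exact le_of_eq (Finset.sum_congr rfl fun z _ => rfl)

theorem IIIA (hO : S_OC) (hM : S_MULTI) (hP : S_PFS) (hT : S_TK) : S_IIIA := by
  classical
  intro n e g A s l K H1 H2 hPF hK hH1 hH2 he1 he2 hc1 hc2 hbig
  obtain ⟨hs1, hs2, hg, hl0, hK0, hn0, he0⟩ := hP n e g A s l K hPF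
  have hs0 : 0 < s := hPF.s0
  have hg6 : 10 ^ 6 ≤ g := hPF.par.hg
  have hgpos : 0 < g := by omega
  have hA1 := hPF.A1
  have hA2 := hPF.A2
  have hlog : 0 ≤ Real.log K := Real.log_nonneg hPF.K1
  have hL1 : (1 : ℝ) ≤ 1 + Real.log K := by linarith
  set Q : Finset (Fin n) := univ.filter (fun z => g ^ 776 ≤ deg H2 z) with hQdef
  -- the size of Q
  have hQ1 : Q.card ≤ 3 * g ^ 25 := by
    have h1 := (hT n H2 hH2).2.2.2.1 (g ^ 776)
    rw [he2] at h1
    have h2 : 3 * e ≤ (3 * g ^ 25) * g ^ 776 := by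
      have := hPF.par.e2
      calc 3 * e ≤ 3 * g ^ 801 := by omega
        _ = (3 * g ^ 25) * g ^ 776 := by ring
    exact Nat.le_of_mul_le_mul_right (h1.trans h2) (pow_pos hgpos 776)
  have hlg : 10 * (1228800 * l + 1) ≤ (g : ℝ) := by
    have h1 : l ^ 2 ≤ l ^ 100 := pow_le_pow_right₀ (by linarith [hPF.l1]) (by norm_num)
    have h2 := hPF.l2
    have h3 := hPF.l1
    have h4 : (10 : ℝ) ^ 9 * l ≤ l ^ 2 := by
      rw [sq]
      exact mul_le_mul_of_nonneg_right h3 hl0.le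
    have h5 : (10 : ℝ) ^ 9 * l ≤ g := h4.trans (h1.trans h2)
    norm_num at h3 h5
    linarith only [h3, h5]
  have hsize : ∀ q : ℕ, (q : ℝ) ≤ 1228800 * l + 1 → q * (3 * A) + Q.card ≤ g ^ 170 := by
    intro q hq
    have h1 : 10 * q ≤ g := by
      have : (10 * (q : ℝ)) ≤ g := by linarith
      exact_mod_cast this
    have h2 := hPF.par.a2
    have h3 : (10 * q) * (3 * A) ≤ g * (3 * g ^ 161) :=
      Nat.mul_le_mul h1 (Nat.mul_le_mul_left 3 h2)
    have h4 : g ^ 25 ≤ g ^ 162 := Nat.pow_le_pow_right hgpos (by norm_num)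
    have h5 : g * (3 * g ^ 161) = 3 * g ^ 162 := by ring
    have h6 : 6 * g ^ 162 ≤ g ^ 163 := by
      rw [pow_succ g 162, mul_comm]
      exact Nat.mul_le_mul_left _ (by omega)
    have h7 : g ^ 163 ≤ g ^ 170 := Nat.pow_le_pow_right hgpos (by norm_num)
    have h8 : (10 * q) * (3 * A) = 10 * (q * (3 * A)) := by ring
    omega
  set μ : Fin n → ℕ := fun z =>
    ⌈s * max 1 (l * (deg H2 z / e) / (1 + Real.log K)) / 614400⌉₊ with hμ
  have hmulti := hM n (3 * A) (g ^ 170) H1 H2 Q μ hH1 (by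
    intro z hz U1 U2 hU1 hU2 hzU
    exact hO n e g A s l K H1 H2 U1 U2 z hPF hK hH1 hH2 he1 he2 hc1 hc2
      (Finset.mem_filter.mp hz).2 hU1 hU2 hzU)
  have hμ1 : ∀ z, s / 614400 ≤ (μ z : ℝ) := by
    intro z
    refine le_trans ?_ (Nat.le_ceil _)
    have : (1 : ℝ) ≤ max 1 (l * (deg H2 z / e) / (1 + Real.log K)) := le_max_left _ _
    have h2 : s * 1 ≤ s * max 1 (l * (deg H2 z / e) / (1 + Real.log K)) :=
      mul_le_mul_of_nonneg_left this hs0.le
    linarith
  have hμ2 : ∀ z, s * l / (614400 * (1 + Real.log K)) * ((deg H2 z : ℝ) / e) ≤ (μ z : ℝ) := by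
    intro z
    refine le_trans ?_ (Nat.le_ceil _)
    have : l * ((deg H2 z : ℝ) / e) / (1 + Real.log K) ≤
        max 1 (l * (deg H2 z / e) / (1 + Real.log K)) := le_max_right _ _
    have h2 : s * (l * ((deg H2 z : ℝ) / e) / (1 + Real.log K)) ≤
        s * max 1 (l * (deg H2 z / e) / (1 + Real.log K)) :=
      mul_le_mul_of_nonneg_left this hs0.le
    have h3 : s * l / (614400 * (1 + Real.log K)) * ((deg H2 z : ℝ) / e) =
        s * (l * ((deg H2 z : ℝ) / e) / (1 + Real.log K)) / 614400 := by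
      field_simp
    rw [h3]
    linarith
  set R : ℕ := ⌈614400 * (A : ℝ) / s⌉₊ with hR
  have hR1 : 614400 * (A : ℝ) / s ≤ R := Nat.le_ceil _
  have hR2 : (R : ℝ) ≤ 1228800 * l + 1 := by
    have h1 : (R : ℝ) < 614400 * (A : ℝ) / s + 1 := Nat.ceil_lt_add_one (by positivity)
    have h2 : 614400 * (A : ℝ) / s ≤ 1228800 * l := by
      rw [div_le_iff₀ hs0]
      nlinarith
    linarith
  have htarget : ∀ m : ℕ, s * l / (614400 * (1 + Real.log K)) * (1 / 2) ≤ (m : ℝ) →
      s * l / (3686400 * (1 + Real.log K)) ≤ (m : ℝ) := by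
    intro m hm
    refine le_trans ?_ hm
    have h1 : s * l / (3686400 * (1 + Real.log K)) =
        s * l / (614400 * (1 + Real.log K)) * (1 / 6) := by
      have : (1 + Real.log K) ≠ 0 := by linarith
      field_simp
      norm_num
    rw [h1]
    have h2 : 0 ≤ s * l / (614400 * (1 + Real.log K)) := by positivity
    linarith
  rcases le_or_gt R Q.card with hRQ | hRQ
  · obtain ⟨Q', hQ'1, hQ'2⟩ := Finset.exists_subset_card_eq hRQ
    refine ⟨∑ z ∈ Q', μ z, hmulti Q' hQ'1 ?_, htarget _ ?_⟩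
    · rw [hQ'2]
      exact hsize R hR2
    · push_cast
      have h1 : ∑ z ∈ Q', s / 614400 ≤ ∑ z ∈ Q', (μ z : ℝ) :=
        Finset.sum_le_sum fun z _ => hμ1 z
      rw [Finset.sum_const, hQ'2, nsmul_eq_mul] at h1
      have h2 : (A : ℝ) ≤ R * (s / 614400) := by
        rw [div_le_iff₀ hs0] at hR1
        linarith
      have h3 : s * l / (614400 * (1 + Real.log K)) * (1 / 2) ≤ s * l := by
        have hsl : 0 ≤ s * l := by positivity
        have h4 : s * l / (614400 * (1 + Real.log K)) ≤ s * l := by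
          refine div_le_self hsl (by linarith)
        have h5 : 0 ≤ s * l / (614400 * (1 + Real.log K)) := by positivity
        linarith
      linarith
  · refine ⟨∑ z ∈ Q, μ z, hmulti Q (Finset.Subset.refl _) ?_, htarget _ ?_⟩
    · refine hsize Q.card (le_trans ?_ hR2)
      exact_mod_cast hRQ.le
    · push_cast
      have h1 : ∑ z ∈ Q, s * l / (614400 * (1 + Real.log K)) * ((deg H2 z : ℝ) / e) ≤
          ∑ z ∈ Q, (μ z : ℝ) := Finset.sum_le_sum fun z _ => hμ2 z
      rw [← Finset.mul_sum, ← Finset.sum_div] at h1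
      have h2 := IIIA_sum_deg H2 (g ^ 776) Q (fun z hz => by
        rw [hQdef, Finset.mem_filter]
        exact ⟨Finset.mem_univ z, hz⟩)
      have h3 : (e : ℝ) ≤ 2 * ∑ z ∈ Q, (deg H2 z : ℝ) := by
        have : e ≤ 2 * ∑ z ∈ Q, deg H2 z := le_trans hbig (Nat.mul_le_mul_left 2 h2)
        exact_mod_cast this
      have h4 : (1 : ℝ) / 2 ≤ (∑ z ∈ Q, (deg H2 z : ℝ)) / e := by
        rw [le_div_iff₀ he0]
        linarith
      have h5 : 0 ≤ s * l / (614400 * (1 + Real.log K)) := by positivity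
      have h6 := mul_le_mul_of_nonneg_left h4 h5
      linarith

end H773V
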