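import Pool.Agent.H773R2.U2.Defs

namespace H773V

open Finset Pool.Agent.Results.MP_9dddc4_co.UkExponent

theorem LB (h1 : S_LB1) (h2 : S_LB2) (h3 : S_LB3) : S_LB := by
  obtain ⟨c, hc, h⟩ := h3
  refine ⟨c, hc, ?_⟩
  filter_upwards [h, Filter.eventually_ge_atTop 1] with n hn hn1
  obtain ⟨m, b, T, hm, hT, hbm, hE, hcount, hlow⟩ := hn
  obtain ⟨G, hG1, hG2, hG3⟩ := h1 n m T (b * m.choose 3) ⟨0, hn1⟩ hE hcount
  have h4 := h2 n m b T ⟨0, hn1⟩ G hm hbm hG1 hG2 hG3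
  have h5 : ((b * m.choose 3 : ℕ) : ℝ) ≤ ((U 2 n 3 * T : ℕ) : ℝ) := by exact_mod_cast h4
  rw [Nat.cast_mul (U 2 n 3) T] at h5
  have hTr : (0 : ℝ) < T := by exact_mod_cast hT
  exact le_of_mul_le_mul_right (le_trans hlow h5) hTr

end H773V
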