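import Pool.Agent.H773R2.U2.Defs

set_option linter.unusedVariables false

namespace H773V

open Finset Pool.Agent.Results.MP_9dddc4_co.UkExponent

theorem LB1_surj {n m : ℕ} (z0 : Fin n) (W : Finset (Fin n)) (hW : W.card ≤ m) :
    ∃ w : Fin m → Fin n, W ⊆ univ.image w := by
  classical
  refine ⟨fun i => if h : (i : ℕ) < W.card then (W.equivFin.symm ⟨i, h⟩ : Fin n) else z0, ?_⟩
  intro x hx
  rw [Finset.mem_image]
  have hlt : ((W.equivFin ⟨x, hx⟩ : Fin W.card) : ℕ) < m :=
    lt_of_lt_of_le (W.equivFin ⟨x, hx⟩).2 hW
  refine ⟨⟨(W.equivFin ⟨x, hx⟩ : Fin W.card), hlt⟩, mem_univ _, ?_⟩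
  simp only
  rw [dif_pos (W.equivFin ⟨x, hx⟩).2]
  simp

theorem LB1 : S_LB1 := by
  classical
  intro n m T E z0 hE hlt
  have hn : 1 ≤ n := by have := z0.2; omega
  have hT : 1 ≤ T := by
    by_contra hT
    have hT0 : T = 0 := by omega
    subst hT0
    simp only [Nat.choose_zero_right, pow_zero, mul_one] at hlt
    have := Nat.one_le_pow m n hn
    omega
  set Ω : Finset (Finset (Fin n)) := powersetCard 2 (univ.erase z0) with hΩ
  have hΩc : Ω.card = (n - 1).choose 2 := by
    rw [hΩ, card_powersetCard, card_erase_of_mem (mem_univ z0), card_univ, Fintype.card_fin]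
  set J : Finset (Fin 1 → Finset (Finset (Fin n))) :=
    (univ : Finset (Fin m → Fin n)).biUnion (fun w =>
      ((powersetCard T (powersetCard 2 (univ.image w))).filter (fun D => D ⊆ Ω)).image
        (fun D => fun _ : Fin 1 => D)) with hJ
  have hJc : J.card ≤ n ^ m * (m ^ 2).choose T := by
    calc J.card ≤ ∑ w : Fin m → Fin n,
          (((powersetCard T (powersetCard 2 (univ.image w))).filter (fun D => D ⊆ Ω)).image
            (fun D => fun _ : Fin 1 => D)).card := card_biUnion_le
      _ ≤ ∑ w : Fin m → Fin n, (m ^ 2).choose T := by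
          apply Finset.sum_le_sum
          intro w _
          calc _ ≤ ((powersetCard T (powersetCard 2 (univ.image w))).filter
                (fun D => D ⊆ Ω)).card := card_image_le
            _ ≤ (powersetCard T (powersetCard 2 (univ.image w))).card :=
                card_le_card (filter_subset _ _)
            _ = ((univ.image w).card.choose 2).choose T := by
                rw [card_powersetCard, card_powersetCard]
            _ ≤ (m ^ 2).choose T := by
                apply Nat.choose_le_choose
                have h1 : (univ.image w).card ≤ m := by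
                  refine le_trans card_image_le ?_
                  simp
                calc (univ.image w).card.choose 2 ≤ m.choose 2 := Nat.choose_le_choose 2 h1
                  _ ≤ m ^ 2 := Nat.choose_le_pow m 2
      _ = n ^ m * (m ^ 2).choose T := by
          rw [Finset.sum_const, card_univ, Fintype.card_fun, Fintype.card_fin, Fintype.card_fin,
            smul_eq_mul]
  obtain ⟨G, hG1, hG2⟩ := union_bound Ω E T 1 (by rw [hΩc]; exact hE) J
    (by
      intro D hD i
      rw [hJ, mem_biUnion] at hD
      obtain ⟨w, _, hw⟩ := hD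
      rw [mem_image] at hw
      obtain ⟨D', hD', rfl⟩ := hw
      rw [mem_filter, mem_powersetCard] at hD'
      exact ⟨hD'.2, hD'.1.2⟩)
    (by
      rw [mul_one, hΩc]
      exact lt_of_le_of_lt (Nat.mul_le_mul_right _ hJc) hlt)
  refine ⟨G 0, ?_, (hG1 0).2, ?_⟩
  · intro p hp
    have h1 := (hG1 0).1 hp
    rw [hΩ, mem_powersetCard] at h1
    exact ⟨h1.2, fun hz => by simpa using h1.1 hz⟩
  · intro W hW
    by_contra hcon
    rw [not_lt] at hcon
    obtain ⟨D, hD, hDc⟩ := exists_subset_card_eq hcon
    obtain ⟨w, hw⟩ := LB1_surj z0 W hW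
    have hDJ : (fun _ : Fin 1 => D) ∈ J := by
      rw [hJ, mem_biUnion]
      refine ⟨w, mem_univ _, ?_⟩
      rw [mem_image]
      refine ⟨D, ?_, rfl⟩
      rw [mem_filter, mem_powersetCard]
      refine ⟨⟨?_, hDc⟩, ?_⟩
      · intro p hp
        have h1 := mem_filter.mp (hD hp)
        rw [mem_powersetCard]
        have h2 := (hG1 0).1 h1.1
        rw [hΩ, mem_powersetCard] at h2
        exact ⟨h1.2.trans hw, h2.2⟩
      · intro p hp
        exact (hG1 0).1 (mem_filter.mp (hD hp)).1
    obtain ⟨i, hi⟩ := hG2 _ hDJ
    apply hi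
    have hi0 : i = 0 := Subsingleton.elim _ _
    subst hi0
    intro p hp
    exact (mem_filter.mp (hD hp)).1

end H773V
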