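import Pool.Agent.H773R2.U2.Defs

namespace H773V

open Finset Pool.Agent.Results.MP_9dddc4_co.UkExponent
open H773U (ContainsT Tr dg cg nn mm)

namespace LB2aux

/-- the blocks -/
def blk (n m j : ℕ) : Finset (Fin n) := univ.filter (fun x => (x : ℕ) / m = j)

theorem mem_blk {n m j : ℕ} {x : Fin n} : x ∈ blk n m j ↔ (x : ℕ) / m = j := by
  unfold blk
  rw [mem_filter]
  exact ⟨fun h => h.2, fun h => ⟨mem_univ _, h⟩⟩

theorem card_blk {n m b j : ℕ} (hm : 1 ≤ m) (hb : b * m ≤ n) (hj : j < b) :
    (blk n m j).card = m := by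
  have hlt : ∀ i : Fin m, j * m + i.val < n := by
    intro i
    have h1 : (j + 1) * m ≤ b * m := Nat.mul_le_mul_right m hj
    have h2 : (j + 1) * m = j * m + m := by ring
    have := i.2
    omega
  have h : blk n m j = univ.image (fun i : Fin m => (⟨j * m + i.val, hlt i⟩ : Fin n)) := by
    ext x
    rw [mem_blk, mem_image]
    constructor
    · intro h
      refine ⟨⟨(x : ℕ) % m, Nat.mod_lt _ hm⟩, mem_univ _, ?_⟩
      apply Fin.ext
      simp only
      rw [← h, mul_comm]
      exact Nat.div_add_mod _ _
    · rintro ⟨i, -, rfl⟩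
      simp only
      rw [mul_comm, Nat.mul_add_div (by omega), Nat.div_eq_of_lt i.2, add_zero]
  rw [h, card_image_of_injective, card_univ, Fintype.card_fin]
  intro i i' hi
  have := congrArg Fin.val hi
  simp only at this
  exact Fin.ext (by omega)

theorem BL_eq (n m b : ℕ) :
    BL n m b = (range b).biUnion (fun j => powersetCard 3 (blk n m j)) := by
  ext f
  unfold BL
  rw [mem_filter, mem_powersetCard, mem_biUnion]
  constructor
  · rintro ⟨⟨-, hc⟩, j, hj, h⟩
    exact ⟨j, mem_range.2 hj, mem_powersetCard.2 ⟨fun x hx => mem_blk.2 (h x hx), hc⟩⟩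
  · rintro ⟨j, hj, h⟩
    rw [mem_powersetCard] at h
    exact ⟨⟨subset_univ _, h.2⟩, j, mem_range.1 hj, fun x hx => mem_blk.1 (h.1 hx)⟩

theorem card_BL {n m b : ℕ} (hm : 1 ≤ m) (hb : b * m ≤ n) : (BL n m b).card = b * m.choose 3 := by
  rw [BL_eq, card_biUnion]
  · rw [sum_congr rfl (fun j hj => by
      rw [card_powersetCard, card_blk hm hb (mem_range.1 hj)] :
      ∀ j ∈ range b, (powersetCard 3 (blk n m j)).card = m.choose 3)]
    simp
  · intro j _ j' _ hjj
    simp only [Function.onFun]
    rw [Finset.disjoint_left]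
    intro f hf hf'
    rw [mem_powersetCard] at hf hf'
    obtain ⟨x, hx⟩ : f.Nonempty := by
      rw [← card_pos]; omega
    exact hjj ((mem_blk.1 (hf.1 hx)).symm.trans (mem_blk.1 (hf'.1 hx)))

end LB2aux

open LB2aux

theorem LB2 : S_LB2 := by
  intro n m b T z0 G hm hb hG hGc hW
  classical
  set H : Fin 2 → Finset (Finset (Fin n)) := ![BL n m b, G.image (insert z0)] with hH
  have hH0 : H 0 = BL n m b := rfl
  have hH1 : H 1 = G.image (insert z0) := rfl
  refine le_U_mul (k := 2) (n := n) (r := 3) H ?_ (b * m.choose 3) T (by norm_num) ?_ ?_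
  · intro i
    refine Fin.cases ?_ (fun j => ?_) i
    · intro e he
      rw [hH0] at he
      unfold BL at he
      rw [mem_filter, mem_powersetCard] at he
      exact he.1.2
    · obtain rfl : j = 0 := Subsingleton.elim _ _
      intro e he
      have he' : e ∈ G.image (insert z0) := he
      rw [mem_image] at he'
      obtain ⟨p, hp, rfl⟩ := he'
      rw [card_insert_of_notMem (hG p hp).2, (hG p hp).1]
  · intro i
    refine Fin.cases ?_ (fun j => ?_) i
    · rw [hH0]
      exact card_BL hm hb
    · obtain rfl : j = 0 := Subsingleton.elim _ _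
      have : H (Fin.succ 0) = G.image (insert z0) := rfl
      rw [this, card_image_of_injOn, hGc]
      intro p hp p' hp' h
      have h1 := (hG p hp).2
      have h2 := (hG p' hp').2
      have h3 : (insert z0 p).erase z0 = (insert z0 p').erase z0 := by
        have : insert z0 p = insert z0 p' := h
        rw [this]
      rwa [erase_insert h1, erase_insert h2] at h3
  · rintro s ⟨F, σ, rfl, hF⟩
    rcases F.eq_empty_or_nonempty with rfl | ⟨f0, hf0⟩
    · simp
    have hF0 := hF 0
    have hF1 := hF 1
    rw [hH0] at hF0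
    rw [hH1] at hF1
    have hmem1 : ∀ f ∈ F, ∃ p ∈ G, insert z0 p = f.image (σ 1) := by
      intro f hf
      have : f.image (σ 1) ∈ G.image (insert z0) := hF1 (mem_image_of_mem _ hf)
      rw [mem_image] at this
      exact this
    have hmem0 : ∀ f ∈ F, ∃ j < b, ∀ x ∈ f.image (σ 0), (x : ℕ) / m = j := by
      intro f hf
      have : f.image (σ 0) ∈ BL n m b := hF0 (mem_image_of_mem _ hf)
      unfold BL at this
      rw [mem_filter] at this
      exact this.2
    set c := (σ 1).symm z0 with hc
    have hcf : ∀ f ∈ F, c ∈ f := by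
      intro f hf
      obtain ⟨p, hp, h⟩ := hmem1 f hf
      have h1 : z0 ∈ f.image (σ 1) := by rw [← h]; exact mem_insert_self _ _
      rw [mem_image] at h1
      obtain ⟨y, hy, hyz⟩ := h1
      have : c = y := by rw [hc, ← hyz, Equiv.symm_apply_apply]
      rwa [this]
    set J := ((σ 0 c : Fin n) : ℕ) / m with hJ
    have hJf : ∀ f ∈ F, ∀ y ∈ f, ((σ 0 y : Fin n) : ℕ) / m = J := by
      intro f hf y hy
      obtain ⟨j, hj, h⟩ := hmem0 f hf
      rw [h _ (mem_image_of_mem _ hy), hJ, h _ (mem_image_of_mem _ (hcf f hf))]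
    have hJb : J < b := by
      obtain ⟨j, hj, h⟩ := hmem0 f0 hf0
      rw [hJ, h _ (mem_image_of_mem _ (hcf f0 hf0))]
      exact hj
    set W := (blk n m J).image (fun x => σ 1 ((σ 0).symm x)) with hWdef
    have hWc : W.card ≤ m := card_image_le.trans (card_blk hm hb hJb).le
    have h1 : F.card ≤ (G.filter (fun p => p ⊆ W)).card := by
      refine card_le_card_of_injOn (fun f => (f.image (σ 1)).erase z0) ?_ ?_
      · intro f hf
        obtain ⟨p, hp, h⟩ := hmem1 f hf
        have h2 : (f.image (σ 1)).erase z0 = p := by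
          rw [← h, erase_insert (hG p hp).2]
        simp only [coe_filter, Set.mem_ofPred_eq]
        rw [h2]
        refine ⟨hp, ?_⟩
        intro x hx
        have h3 : x ∈ f.image (σ 1) := by rw [← h]; exact mem_insert_of_mem hx
        rw [mem_image] at h3
        obtain ⟨y, hy, rfl⟩ := h3
        rw [hWdef, mem_image]
        refine ⟨σ 0 y, mem_blk.2 (hJf f hf y hy), ?_⟩
        rw [Equiv.symm_apply_apply]
      · intro f hf f' hf' h
        have h2 : ∀ g ∈ F, insert z0 ((g.image (σ 1)).erase z0) = g.image (σ 1) := by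
          intro g hg
          obtain ⟨p, hp, h⟩ := hmem1 g hg
          rw [← h, erase_insert (hG p hp).2]
        have h3 : f.image (σ 1) = f'.image (σ 1) := by
          rw [← h2 f hf, ← h2 f' hf']
          simp only at h
          rw [h]
        exact image_injective (σ 1).injective h3
    exact h1.trans (hW W hWc).le

end H773V
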