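import Pool.Agent.H773R2.U2.Defs

namespace H773V

open Finset Pool.Agent.Results.MP_9dddc4_co.UkExponent

theorem LB3_choose_two (n : ℕ) (hn : 6 ≤ n) : n ^ 2 ≤ 4 * (n - 1).choose 2 := by
  obtain ⟨k, rfl⟩ : ∃ k, n = k + 6 := ⟨n - 6, by omega⟩
  have h1 : k + 6 - 1 = (k + 4) + 1 := by omega
  rw [h1]
  have h2 : 2 * ((k + 4) + 1).choose 2 = (k + 5) * (k + 4) := by
    have := Nat.triangle_succ (k + 4)
    rw [Nat.choose_two_right]
    have h3 : Even ((k + 4 + 1) * (k + 4 + 1 - 1)) := by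
      rw [mul_comm]
      exact Nat.even_mul_pred_self (k + 4 + 1) |> fun h => by simpa [mul_comm] using h
    have h4 := Nat.two_mul_div_two_of_even h3
    rw [h4]
    simp
  nlinarith

theorem LB3 : S_LB3 := by
  refine ⟨1 / 448, by norm_num, ?_⟩
  have hl2 : ∀ᶠ n : ℕ in Filter.atTop, (Real.log n) ^ 2 ≤ (n : ℝ) := by
    have h1 := (Real.isLittleO_pow_log_id_atTop (n := 2)).bound (c := 1) one_pos
    have h2 := tendsto_natCast_atTop_atTop (R := ℝ) |>.eventually h1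
    filter_upwards [h2] with n hn
    simp only [id, Real.norm_eq_abs, one_mul, abs_pow, sq_abs] at hn
    rwa [Nat.abs_cast] at hn
  filter_upwards [hl2, Filter.eventually_ge_atTop 125] with n hnl hn
  set l : ℝ := Real.log n with hl
  have hn' : (125 : ℝ) ≤ n := by exact_mod_cast hn
  have hn0 : (0 : ℝ) < n := by linarith
  have hl1 : 1 ≤ l := by
    rw [hl, Real.le_log_iff_exp_le hn0]
    exact le_trans Real.exp_one_lt_three.le (by linarith)
  have hl0 : 0 < l := by linarith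
  set a : ℝ := (n : ℝ) ^ (1 / 3 : ℝ) with ha
  set d : ℝ := l ^ (1 / 3 : ℝ) with hd
  have ha0 : 0 < a := Real.rpow_pos_of_pos hn0 _
  have hd0 : 0 < d := Real.rpow_pos_of_pos hl0 _
  have ha3 : a ^ 3 = n := by
    rw [ha, ← Real.rpow_natCast, ← Real.rpow_mul hn0.le]
    norm_num
  have hd3 : d ^ 3 = l := by
    rw [hd, ← Real.rpow_natCast, ← Real.rpow_mul hl0.le]
    norm_num
  have ha4 : (n : ℝ) ^ (4 / 3 : ℝ) = a ^ 4 := by
    rw [ha, ← Real.rpow_natCast, ← Real.rpow_mul hn0.le]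
    norm_num
  have hd2 : l ^ (2 / 3 : ℝ) = d ^ 2 := by
    rw [hd, ← Real.rpow_natCast, ← Real.rpow_mul hl0.le]
    norm_num
  have ha5 : 5 ≤ a := by
    by_contra hcon
    push Not at hcon
    have : a ^ 3 < 5 ^ 3 := pow_lt_pow_left₀ hcon ha0.le (by norm_num)
    rw [ha3] at this
    linarith
  have hd1 : 1 ≤ d := by
    by_contra hcon
    push Not at hcon
    have : d ^ 3 < 1 ^ 3 := pow_lt_pow_left₀ hcon hd0.le (by norm_num)
    rw [hd3] at this
    linarith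
  set m : ℕ := ⌊a * d⌋₊ with hm
  have hx5 : 5 ≤ a * d := by nlinarith
  have hmle : (m : ℝ) ≤ a * d := Nat.floor_le (by positivity)
  have hmlt : a * d < m + 1 := Nat.lt_floor_add_one _
  have hm5 : 5 ≤ m := Nat.le_floor (by exact_mod_cast hx5)
  have hm5' : (5 : ℝ) ≤ m := by exact_mod_cast hm5
  have hmhalf : a * d ≤ 2 * m := by linarith
  have hm0 : (0 : ℝ) < m := by linarith
  have hm3 : (m : ℝ) ^ 3 ≤ n * l := by
    calc (m : ℝ) ^ 3 ≤ (a * d) ^ 3 := pow_le_pow_left₀ hm0.le hmle 3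
      _ = n * l := by rw [mul_pow, ha3, hd3]
  have hm2 : (m : ℝ) ^ 2 ≤ n := by
    have h1 : ((m : ℝ) ^ 2) ^ 3 ≤ (n : ℝ) ^ 3 := by
      calc ((m : ℝ) ^ 2) ^ 3 = ((m : ℝ) ^ 3) ^ 2 := by ring
        _ ≤ (n * l) ^ 2 := pow_le_pow_left₀ (by positivity) hm3 2
        _ = n ^ 2 * l ^ 2 := by ring
        _ ≤ n ^ 2 * n := mul_le_mul_of_nonneg_left hnl (by positivity)
        _ = n ^ 3 := by ring
    exact le_of_pow_le_pow_left₀ (by norm_num) hn0.le h1
  have hm2n : m ^ 2 ≤ n := by exact_mod_cast hm2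
  have hmn : m ≤ n := le_trans (Nat.le_self_pow (by norm_num) m) hm2n
  set b : ℕ := n / m with hb
  have hbm : b * m ≤ n := Nat.div_mul_le_self n m
  have hb1 : 1 ≤ b := (Nat.one_le_div_iff (by omega)).mpr hmn
  have hbm2 : n ≤ 2 * (b * m) := by
    have h1 : n < (b + 1) * m := by
      have := Nat.lt_mul_div_succ n (show 0 < m by omega)
      rw [mul_comm]
      exact this
    nlinarith
  set T : ℕ := ⌈6 * m * l⌉₊ with hT
  have hT1 : 6 * m * l ≤ T := Nat.le_ceil _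
  have hT2 : (T : ℝ) < 6 * m * l + 1 := Nat.ceil_lt_add_one (by positivity)
  have hml : 1 ≤ m * l := by nlinarith
  have hT3 : (T : ℝ) ≤ 7 * m * l := by linarith
  have hT0 : (0 : ℝ) < T := by nlinarith
  have hT0' : 1 ≤ T := by exact_mod_cast hT0
  set E : ℕ := b * m.choose 3 with hE
  have hE6 : 6 * E ≤ n * m ^ 2 := by
    have h1 := six_choose_le m
    calc 6 * E = b * (6 * m.choose 3) := by rw [hE]; ring
      _ ≤ b * m ^ 3 := Nat.mul_le_mul_left _ h1
      _ = (b * m) * m ^ 2 := by ring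
      _ ≤ n * m ^ 2 := Nat.mul_le_mul_right _ hbm
  have hC4 := LB3_choose_two n (by omega)
  have hE6' : 6 * (E : ℝ) ≤ n * m ^ 2 := by exact_mod_cast hE6
  have hC4' : (n : ℝ) ^ 2 ≤ 4 * ((n - 1).choose 2 : ℕ) := by exact_mod_cast hC4
  refine ⟨m, b, T, by omega, hT0', hbm, ?_, ?_, ?_⟩
  · have h1 : 6 * E ≤ n * n := hE6.trans (Nat.mul_le_mul_left _ hm2n)
    nlinarith
  · -- the main inequality
    have hgoal : ((n : ℝ) ^ m * ((m ^ 2).choose T : ℕ) * (E : ℝ) ^ T) <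
        (((n - 1).choose 2 : ℕ) : ℝ) ^ T := by
      have hTT : (0 : ℝ) < (T : ℝ) ^ T := by positivity
      rw [← mul_lt_mul_iff_left₀ hTT]
      have c1 := choose_le_three (m ^ 2) T
      push_cast at c1
      have c2 : (E : ℝ) ≤ n * m ^ 2 / 6 := by linarith
      have c3 : (n : ℝ) ^ m < 3 ^ T := by
        have e1 : (n : ℝ) ^ m = Real.exp (m * l) := by
          rw [mul_comm, hl, Real.exp_mul, Real.exp_log hn0, Real.rpow_natCast]
        have e2 : Real.exp (T : ℝ) ≤ 3 ^ T := by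
          have : Real.exp (T : ℝ) = (Real.exp 1) ^ T := by
            rw [← Real.exp_nat_mul, mul_one]
          rw [this]
          exact pow_le_pow_left₀ (Real.exp_pos _).le Real.exp_one_lt_three.le T
        rw [e1]
        refine lt_of_lt_of_le (Real.exp_lt_exp.mpr ?_) e2
        nlinarith
      have c4 : 3 * (n * m ^ 4 / 2) ≤ (T : ℝ) * (((n - 1).choose 2 : ℕ) : ℝ) := by
        have e1 : (m : ℝ) ^ 4 ≤ m * (n * l) := by
          calc (m : ℝ) ^ 4 = m * m ^ 3 := by ring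
            _ ≤ m * (n * l) := mul_le_mul_of_nonneg_left hm3 hm0.le
        have e2 : (T : ℝ) * (n ^ 2 / 4) ≤ T * (((n - 1).choose 2 : ℕ) : ℝ) :=
          mul_le_mul_of_nonneg_left (by linarith) hT0.le
        have e3 : (6 * m * l) * ((n : ℝ) ^ 2 / 4) ≤ T * (n ^ 2 / 4) :=
          mul_le_mul_of_nonneg_right hT1 (by positivity)
        have e4 : 3 * ((n : ℝ) * m ^ 4 / 2) ≤ (6 * m * l) * ((n : ℝ) ^ 2 / 4) := by
          calc 3 * ((n : ℝ) * m ^ 4 / 2) = 3 / 2 * n * m ^ 4 := by ring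
            _ ≤ 3 / 2 * n * (m * (n * l)) := mul_le_mul_of_nonneg_left e1 (by positivity)
            _ = _ := by ring
        linarith
      have hpos : (0 : ℝ) < ((n : ℝ) * m ^ 4 / 2) ^ T := by positivity
      calc (n : ℝ) ^ m * ((m ^ 2).choose T : ℕ) * (E : ℝ) ^ T * (T : ℝ) ^ T
          = (n : ℝ) ^ m * (((m ^ 2).choose T : ℕ) * (T : ℝ) ^ T) * (E : ℝ) ^ T := by ring
        _ ≤ (n : ℝ) ^ m * ((3 * (m : ℝ) ^ 2) ^ T) * (n * m ^ 2 / 6) ^ T := by
            gcongr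
        _ = (n : ℝ) ^ m * ((n : ℝ) * m ^ 4 / 2) ^ T := by
            rw [mul_assoc, ← mul_pow]
            congr 2
            ring
        _ < 3 ^ T * ((n : ℝ) * m ^ 4 / 2) ^ T := mul_lt_mul_of_pos_right c3 hpos
        _ = (3 * ((n : ℝ) * m ^ 4 / 2)) ^ T := by rw [mul_pow]
        _ ≤ ((T : ℝ) * (((n - 1).choose 2 : ℕ) : ℝ)) ^ T :=
            pow_le_pow_left₀ (by positivity) c4 T
        _ = (((n - 1).choose 2 : ℕ) : ℝ) ^ T * (T : ℝ) ^ T := by rw [mul_pow]; ring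
    exact_mod_cast hgoal
  · rw [ha4, hd2]
    have h16 := cube_le_choose (m := m) (by omega)
    have h32 : n * m ^ 2 ≤ 32 * E := by
      calc n * m ^ 2 ≤ (2 * (b * m)) * m ^ 2 := Nat.mul_le_mul_right _ hbm2
        _ = 2 * b * m ^ 3 := by ring
        _ ≤ 2 * b * (16 * m.choose 3) := Nat.mul_le_mul_left _ h16
        _ = 32 * E := by rw [hE]; ring
    have h32' : (n : ℝ) * m ^ 2 ≤ 32 * E := by exact_mod_cast h32
    have e1 : a ^ 4 / d ^ 2 * l = n * (a * d) := by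
      rw [← hd3, ← ha3]
      field_simp
    calc 1 / 448 * a ^ 4 / d ^ 2 * (T : ℝ) ≤ 1 / 448 * a ^ 4 / d ^ 2 * (7 * m * l) :=
          mul_le_mul_of_nonneg_left hT3 (by positivity)
      _ = 1 / 64 * m * (a ^ 4 / d ^ 2 * l) := by ring
      _ = 1 / 64 * m * (n * (a * d)) := by rw [e1]
      _ ≤ 1 / 64 * m * (n * (2 * m)) := by gcongr
      _ = 1 / 32 * (n * m ^ 2) := by ring
      _ ≤ 1 / 32 * (32 * E) := by linarith
      _ = (E : ℝ) := by ring

end H773V
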