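import Pool.Agent.H773R2.U2.Defs

/-! LEAF: a tree-like 3-graph from a skeleton with large codegrees. -/

namespace H773V

open Finset Pool.Agent.Results.MP_9dddc4_co.UkExponent
open H773U (ContainsT Tr dg cg nn mm)

theorem LEAF_thirds {n : ℕ} (H : ES n) (hH : IsRGraph 3 H) (u v : Fin n) (huv : u ≠ v) :
    cod H u v ≤ (univ.filter (fun z => ({u, v, z} : Finset (Fin n)) ∈ H)).card := by
  unfold cod
  have h : H.filter (fun f => u ∈ f ∧ v ∈ f) ⊆
      (univ.filter (fun z => ({u, v, z} : Finset (Fin n)) ∈ H)).image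
        (fun z => ({u, v, z} : Finset (Fin n))) := by
    intro f hf
    rw [mem_filter] at hf
    obtain ⟨hfH, huf, hvf⟩ := hf
    have hc := hH f hfH
    have hv1 : v ∈ f.erase u := mem_erase.2 ⟨huv.symm, hvf⟩
    have h1 : ((f.erase u).erase v).card = 1 := by
      rw [card_erase_of_mem hv1, card_erase_of_mem huf, hc]
    obtain ⟨z, hz⟩ := card_eq_one.1 h1
    have h2 : ({u, v, z} : Finset (Fin n)) = f := by
      rw [← hz, insert_erase hv1, insert_erase huf]
    rw [mem_image]
    exact ⟨z, by rw [mem_filter, h2]; exact ⟨mem_univ _, hfH⟩, h2⟩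
  exact (card_le_card h).trans card_image_le

theorem LEAF : S_LEAF := by
  intro n t u w H x y hH hx hy hxy hcod
  set U : Finset (Fin n) := univ.image x ∪ univ.image y with hU
  have hUc : U.card ≤ t + t * u := by
    refine (card_union_le _ _).trans (add_le_add ?_ ?_)
    · exact card_image_le.trans (by simp)
    · exact card_image_le.trans (by simp)
  let S : Fin t × Fin u × Fin w → Finset (Fin n) := fun a =>
    (univ.filter (fun z => ({x a.1, y (a.1, a.2.1), z} : Finset (Fin n)) ∈ H)) \ U
  have hS : ∀ a, t * u * w ≤ (S a).card := by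
    intro a
    have h1 := hcod a.1 a.2.1
    have h2 := LEAF_thirds H hH (x a.1) (y (a.1, a.2.1)) (hxy _ _)
    have h3 := le_card_sdiff U
      (univ.filter (fun z => ({x a.1, y (a.1, a.2.1), z} : Finset (Fin n)) ∈ H))
    show t * u * w ≤ ((univ.filter
      (fun z => ({x a.1, y (a.1, a.2.1), z} : Finset (Fin n)) ∈ H)) \ U).card
    omega
  obtain ⟨g, hg, hgS⟩ := (all_card_le_biUnion_card_iff_exists_injective S).1 (by
    intro s
    rcases s.eq_empty_or_nonempty with rfl | ⟨a, ha⟩
    · simp
    · calc s.card ≤ (univ : Finset (Fin t × Fin u × Fin w)).card := card_le_card (subset_univ _)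
        _ = t * u * w := by
          rw [card_univ, Fintype.card_prod, Fintype.card_prod, Fintype.card_fin, Fintype.card_fin,
            Fintype.card_fin, mul_assoc]
        _ ≤ (S a).card := hS a
        _ ≤ (s.biUnion S).card := card_le_card (subset_biUnion_of_mem S ha))
  have hgU : ∀ a, g a ∉ U := fun a => (mem_sdiff.1 (hgS a)).2
  refine ⟨Sum.elim (Sum.elim x y) g, ?_, fun i j l => ?_⟩
  · refine (hx.sumElim hy hxy).sumElim hg ?_
    rintro (i | q) b h
    · exact hgU b (by
        rw [← h]
        exact mem_union_left _ (mem_image_of_mem _ (mem_univ _)))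
    · exact hgU b (by
        rw [← h]
        exact mem_union_right _ (mem_image_of_mem _ (mem_univ _)))
  · exact (mem_filter.1 (mem_sdiff.1 (hgS (i, j, l))).1).2

end H773V
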