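import Pool.Agent.H773R2.U2.Defs

/-! Task LEV. -/

namespace H773V

open Finset Pool.Agent.Results.MP_9dddc4_co.UkExponent

/-- edges with a heavy pair -/
def LEV_E {n : ℕ} (H : ES n) (w : ℕ) : ES n :=
  H.filter (fun f => ∃ u ∈ f, ∃ v ∈ f, u ≠ v ∧ w ≤ cod H u v)

theorem LEV_core {n : ℕ} (M : ℝ) (hM : 0 ≤ M) : ∀ (I : ℕ) (H : ES n), IsRGraph 3 H →
    (∀ u v, u ≠ v → cod H u v < 2 ^ (I + 1)) → M * (1 - 1 / (4 * ((I : ℝ) + 1))) ≤ H.card →
    ∃ i ≤ I, ∃ Hc ⊆ H, (∀ u v, u ≠ v → cod Hc u v < 2 ^ (i + 1)) ∧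
      M ≤ 4 * (1 + (i : ℝ)) ^ 2 * (LEV_E Hc (2 ^ i)).card := by
  classical
  intro I
  induction I with
  | zero =>
    intro H hH hc hcard
    refine ⟨0, le_rfl, H, Subset.refl _, hc, ?_⟩
    have hE : LEV_E H (2 ^ 0) = H := by
      unfold LEV_E
      refine filter_true_of_mem ?_
      intro f hf
      have h3 : f.card = 3 := hH f hf
      obtain ⟨u, hu, v, hv, huv⟩ := one_lt_card.1 (by omega : 1 < f.card)
      refine ⟨u, hu, v, hv, huv, ?_⟩
      unfold cod
      rw [pow_zero]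
      exact card_pos.2 ⟨f, mem_filter.2 ⟨hf, hu, hv⟩⟩
    rw [hE]
    norm_num at hcard ⊢
    linarith
  | succ I ih =>
    intro H hH hc hcard
    by_cases hbig : M ≤ 4 * (1 + ((I + 1 : ℕ) : ℝ)) ^ 2 * (LEV_E H (2 ^ (I + 1))).card
    · exact ⟨I + 1, le_rfl, H, Subset.refl _, hc, hbig⟩
    · rw [not_le] at hbig
      set E := LEV_E H (2 ^ (I + 1)) with hE
      have hEH : E ⊆ H := filter_subset _ _
      obtain ⟨i, hi, Hc, hHc, h1, h2⟩ := ih (H \ E) (fun f hf => hH f (mem_sdiff.1 hf).1) (by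
        intro u v huv
        by_contra hcon
        rw [not_lt] at hcon
        have hpos : 0 < cod (H \ E) u v := lt_of_lt_of_le (by positivity) hcon
        obtain ⟨f, hf⟩ := card_pos.1 hpos
        rw [mem_filter, mem_sdiff] at hf
        apply hf.1.2
        refine mem_filter.2 ⟨hf.1.1, u, hf.2.1, v, hf.2.2, huv, hcon.trans ?_⟩
        exact card_le_card (filter_subset_filter _ sdiff_subset)) (by
        have hcd : ((H \ E).card : ℝ) = (H.card : ℝ) - E.card := by
          rw [card_sdiff_of_subset hEH, Nat.cast_sub (card_le_card hEH)]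
        rw [hcd]
        have hIp : (0 : ℝ) < (I : ℝ) + 1 := by positivity
        push_cast at hcard hbig
        have hE2 : (E.card : ℝ) ≤ M / (4 * ((I : ℝ) + 2) ^ 2) := by
          rw [le_div_iff₀ (by positivity)]
          nlinarith
        have hkey : 1 / (4 * ((I : ℝ) + 1 + 1)) + 1 / (4 * ((I : ℝ) + 2) ^ 2) ≤
            1 / (4 * ((I : ℝ) + 1)) := by
          rw [div_add_div _ _ (by positivity) (by positivity), div_le_div_iff₀ (by positivity)
            (by positivity)]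
          nlinarith [hIp]
        have hkey2 := mul_le_mul_of_nonneg_left hkey hM
        have e1 : M * (1 / (4 * ((I : ℝ) + 1 + 1)) + 1 / (4 * ((I : ℝ) + 2) ^ 2)) =
            M * (1 / (4 * ((I : ℝ) + 1 + 1))) + M / (4 * ((I : ℝ) + 2) ^ 2) := by ring
        rw [e1] at hkey2
        nlinarith)
      exact ⟨i, hi.trans (Nat.le_succ _), Hc, hHc.trans sdiff_subset, h1, h2⟩

theorem LEV : S_LEV := by
  intro n I H hH hc
  obtain ⟨i, hi, Hc, hHc, h1, h2⟩ := LEV_core (H.card : ℝ) (by positivity) I H hH hc (by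
    have : (0 : ℝ) ≤ 1 / (4 * ((I : ℝ) + 1)) := by positivity
    nlinarith [(by positivity : (0 : ℝ) ≤ H.card)])
  refine ⟨i, hi, Hc, hHc, h1, ?_⟩
  exact_mod_cast h2

end H773V
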