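import Pool.Agent.H773R2.U2.Defs

/-! Task LG: the graph lemma -/

namespace H773V

open Finset Pool.Agent.Results.MP_9dddc4_co.UkExponent

theorem LG_vs_mono {n : ℕ} {P Q : Finset (Fin n × Fin n)} (h : P ⊆ Q) : VS P ⊆ VS Q :=
  union_subset_union (image_subset_image h) (image_subset_image h)

theorem LG_emb_mono {n : ℕ} {P P' G G' : Finset (Fin n × Fin n)}
    {T : Fin n → Fin n → Finset (Fin n)} {m m' N N' : ℕ} (hP : P' ⊆ P) (hG : G' ⊆ G)
    (hm : m ≤ m') (hN : N' ≤ N) (h : Emb P' G' T m' N') : Emb P G T m N := by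
  obtain ⟨F, φ, h1, h2, h3, h4, h5, h6, h7, h8⟩ := h
  exact ⟨F, φ, h1.trans hP, h2, hm.trans h3, h4.trans hN, h5, fun p hp => hG (h6 p hp), h7, h8⟩

theorem LG_gt_mono {n w : ℕ} {G G' : Finset (Fin n × Fin n)} {T : Fin n → Fin n → Finset (Fin n)}
    (h : GT G T w) (hG : G' ⊆ G) (hs : SG G') : GT G' T w :=
  ⟨hs, h.tsym, fun u v huv => h.card u v (hG huv), fun u v huv => h.nm u v (hG huv),
    fun u v v' h1 h2 h3 => h.disj u v v' (hG h1) (hG h2) h3⟩

/-- numerical facts -/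
theorem LG_num (s l K x : ℝ) (hl9 : 10 ^ 9 ≤ l) (hsl : l ^ 100 ≤ s) (hx0 : 0 < x)
    (hxl6 : 1 ≤ x * l ^ 6) (hK2 : K ≤ l ^ 7) :
    16 ≤ x * s ^ 2 ∧ 4 * s * l ≤ x * s ^ 2 / 8 ∧ 32 * K ≤ l ^ 20 * x ∧
      56 * (s * l ^ 2) ≤ l ^ 20 * x * s ^ 2 ∧ 1 ≤ l ^ 20 * x * s ^ 2 ∧ 10 ^ 9 ≤ s := by
  have hl1 : (1 : ℝ) ≤ l := le_trans (by norm_num) hl9
  have hl0 : 0 < l := by linarith
  have hs0 : 0 < s := lt_of_lt_of_le (by positivity) hsl
  have hsl1 : l ≤ s := by
    calc l = l ^ 1 := (pow_one l).symm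
      _ ≤ l ^ 100 := pow_le_pow_right₀ hl1 (by norm_num)
      _ ≤ s := hsl
  have hs9 : 10 ^ 9 ≤ s := hl9.trans hsl1
  have hxs : l ^ 94 ≤ x * s := by
    calc l ^ 94 = 1 * l ^ 94 := (one_mul _).symm
      _ ≤ (x * l ^ 6) * l ^ 94 := by gcongr
      _ = x * l ^ 100 := by ring
      _ ≤ x * s := by gcongr
  have h94 : 32 * l ≤ l ^ 94 := by
    calc 32 * l ≤ l * l := by
          apply mul_le_mul_of_nonneg_right _ hl0.le
          exact le_trans (by norm_num) hl9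
      _ = l ^ 2 := by ring
      _ ≤ l ^ 94 := pow_le_pow_right₀ hl1 (by norm_num)
  have hxs32 : 32 * l ≤ x * s := h94.trans hxs
  have hxs1 : 1 ≤ x * s := by linarith
  refine ⟨?_, ?_, ?_, ?_, ?_, hs9⟩
  · calc (16 : ℝ) ≤ 1 * s := by linarith
      _ ≤ (x * s) * s := by gcongr
      _ = x * s ^ 2 := by ring
  · have h1 : 32 * l * s ≤ x * s * s := by gcongr
    have e1 : 32 * l * s = 32 * (s * l) := by ring
    have e2 : x * s * s = x * s ^ 2 := by ring
    have e3 : 4 * s * l = 4 * (s * l) := by ring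
    rw [e1, e2] at h1
    rw [e3]
    linarith
  · have h1 : 32 * l ^ 7 ≤ l ^ 14 := by
      calc 32 * l ^ 7 ≤ l ^ 7 * l ^ 7 := by
            apply mul_le_mul_of_nonneg_right _ (by positivity)
            calc (32 : ℝ) ≤ l := le_trans (by norm_num) hl9
              _ = l ^ 1 := (pow_one l).symm
              _ ≤ l ^ 7 := pow_le_pow_right₀ hl1 (by norm_num)
        _ = l ^ 14 := by ring
    calc 32 * K ≤ 32 * l ^ 7 := by gcongr
      _ ≤ l ^ 14 := h1
      _ = 1 * l ^ 14 := (one_mul _).symm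
      _ ≤ (x * l ^ 6) * l ^ 14 := by gcongr
      _ = l ^ 20 * x := by ring
  · calc 56 * (s * l ^ 2) ≤ s * (s * l ^ 2) := by
          apply mul_le_mul_of_nonneg_right _ (by positivity)
          exact le_trans (by norm_num) hs9
      _ = 1 * l ^ 2 * s ^ 2 := by ring
      _ ≤ (x * l ^ 6) * l ^ 2 * s ^ 2 := by gcongr
      _ = l ^ 8 * (x * s ^ 2) := by ring
      _ ≤ l ^ 20 * (x * s ^ 2) := by
          apply mul_le_mul_of_nonneg_right _ (by positivity)
          exact pow_le_pow_right₀ hl1 (by norm_num)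
      _ = l ^ 20 * x * s ^ 2 := by ring
  · calc (1 : ℝ) = 1 * 1 := by norm_num
      _ ≤ (x * l ^ 6) * (l ^ 14 * s ^ 2) := by
          apply mul_le_mul hxl6 _ (by norm_num) (by positivity)
          calc (1 : ℝ) = 1 * 1 := by norm_num
            _ ≤ l ^ 14 * s ^ 2 := mul_le_mul (one_le_pow₀ hl1) (one_le_pow₀ (by linarith))
                (by norm_num) (by positivity)
      _ = l ^ 20 * x * s ^ 2 := by ring

/-- more numerical facts, with `g` -/
theorem LG_num2 (s l g n : ℝ) (hl9 : 10 ^ 9 ≤ l) (hlg : l ^ 100 ≤ g) (hs0 : 0 < s)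
    (hs : s ≤ g ^ 161) (hn : g ^ 480 ≤ n) : 64 * (s * l) ^ 2 ≤ n ∧ 60 * (s ^ 2 * l ^ 4) < g ^ 479 := by
  have hl1 : (1 : ℝ) ≤ l := le_trans (by norm_num) hl9
  have hl0 : 0 < l := by linarith
  have hg0 : 0 < g := lt_of_lt_of_le (by positivity) hlg
  have h4 : 64 * l ^ 4 ≤ g := by
    refine le_trans ?_ hlg
    calc 64 * l ^ 4 ≤ l * l ^ 4 := by
          apply mul_le_mul_of_nonneg_right _ (by positivity)
          exact le_trans (by norm_num) hl9
      _ = l ^ 5 := by ring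
      _ ≤ l ^ 100 := pow_le_pow_right₀ hl1 (by norm_num)
  have hg2 : 2 ≤ g := by
    have : (1 : ℝ) ≤ l ^ 4 := one_le_pow₀ hl1
    linarith
  have hg1 : 1 ≤ g := by linarith
  have h5 : 64 * (s ^ 2 * l ^ 4) ≤ g ^ 323 := by
    calc 64 * (s ^ 2 * l ^ 4) = s ^ 2 * (64 * l ^ 4) := by ring
      _ ≤ (g ^ 161) ^ 2 * g := by gcongr
      _ = g ^ 323 := by ring
  constructor
  · refine le_trans ?_ hn
    calc 64 * (s * l) ^ 2 = 64 * (s ^ 2 * l ^ 2) := by ring
      _ ≤ 64 * (s ^ 2 * l ^ 4) := by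
        gcongr 64 * (s ^ 2 * ?_)
        exact pow_le_pow_right₀ hl1 (by norm_num)
      _ ≤ g ^ 323 := h5
      _ ≤ g ^ 480 := pow_le_pow_right₀ hg1 (by norm_num)
  · have h6 : 0 < s ^ 2 * l ^ 4 := by positivity
    calc 60 * (s ^ 2 * l ^ 4) < 64 * (s ^ 2 * l ^ 4) := by linarith
      _ ≤ g ^ 323 := h5
      _ ≤ g ^ 479 := pow_le_pow_right₀ hg1 (by norm_num)

theorem LG (hO : S_OR) (hT : S_TRUNC) (hC : S_CORE) (hS : S_SPLIT) (hM : S_MO) (hSel : S_SEL)
    (hP : S_PFS) (hA : S_ARB) : S_LG := by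
  classical
  intro n e g A w h s l K x P G T hPF hSGP hGT heP hVS hw hx1 hx2 hxe hh hlog hxl
  obtain ⟨hs159, hs161, -, hl0, hK0, hn0, he0⟩ := hP n e g A s l K hPF
  have hl9 := hPF.l1
  have hlg := hPF.l2
  have hs0 := hPF.s0
  have hs1 := hPF.s1
  have hl1 : (1 : ℝ) ≤ l := le_trans (by norm_num) hl9
  have hg1 : (1 : ℝ) ≤ g := by
    have h1 : 1 ≤ g := le_trans (by norm_num) hPF.par.hg
    exact_mod_cast h1
  have hsl : l ^ 100 ≤ s := by
    calc l ^ 100 ≤ g := hlg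
      _ = (g : ℝ) ^ 1 := (pow_one _).symm
      _ ≤ (g : ℝ) ^ 159 := pow_le_pow_right₀ hg1 (by norm_num)
      _ ≤ s := hs159
  have hx0 : 0 < x := lt_of_lt_of_le (by positivity) hx1
  have hxl6 : 1 ≤ x * l ^ 6 := by
    calc (1 : ℝ) = (l ^ 6)⁻¹ * l ^ 6 := (inv_mul_cancel₀ (by positivity)).symm
      _ ≤ x * l ^ 6 := by gcongr
  obtain ⟨q1, q2, q3, q4, q5, q6⟩ := LG_num s l K x hl9 hsl hx0 hxl6 hPF.K2
  have hnn1 : (g : ℝ) ^ 480 ≤ n := by exact_mod_cast hPF.par.n1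
  obtain ⟨q7, q8⟩ := LG_num2 s l g n hl9 hlg hs0 hs161 hnn1
  have hh1 : (1 : ℝ) ≤ h := by exact_mod_cast hh
  have hhl : (h : ℝ) ≤ l / 4800 := by
    have h1 : 1 ≤ h * K / (x * l) := by
      rw [one_le_div (by positivity)]
      exact hxl
    have h2 := Real.log_nonneg h1
    have h3 : (h : ℝ) * 1 ≤ h * (1 + Real.log (h * K / (x * l))) :=
      mul_le_mul_of_nonneg_left (by linarith) (by linarith)
    linarith
  have hn1 : 1 ≤ n := by exact_mod_cast hn0
  -- truncation of `P`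
  have hsP : s ^ 2 ≤ P.card := by
    have h1 : (e : ℝ) ≤ n * P.card := by exact_mod_cast heP
    rw [← hs1] at h1
    have h2 : s ^ 2 * n ≤ P.card * n := by linarith
    exact le_of_mul_le_mul_right h2 hn0
  obtain ⟨P1, hP1, hSG1, hP1lo, hP1hi⟩ := hT n ⌈s ^ 2⌉₊ P hSGP (Nat.ceil_le.2 hsP)
  have hP1lo' : s ^ 2 ≤ P1.card := (Nat.le_ceil _).trans (by exact_mod_cast hP1lo)
  have hP1hi' : (P1.card : ℝ) ≤ s ^ 2 + 2 := by
    have h1 := Nat.ceil_lt_add_one (show 0 ≤ s ^ 2 by positivity)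
    have h2 : (P1.card : ℝ) ≤ ⌈s ^ 2⌉₊ + 1 := by exact_mod_cast hP1hi
    linarith
  obtain ⟨B, N, hOD, hNb, hsum, hcard⟩ := hO n P1 hSG1
  have hcardA : B.card + (B.biUnion N).card ≤ 2 * A :=
    hcard.trans ((card_le_card (LG_vs_mono hP1)).trans hVS)
  have hNb' : ∀ b ∈ B, ((N b).card : ℝ) ≤ s + 1 := by
    intro b hb
    have h1 : (((N b).card ^ 2 : ℕ) : ℝ) ≤ P1.card := by exact_mod_cast hNb b hb
    push_cast at h1
    have h2 : ((N b).card : ℝ) ^ 2 ≤ (s + 1) ^ 2 := by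
      have h3 : (s + 1) ^ 2 = s ^ 2 + 2 * s + 1 := by ring
      linarith
    exact (pow_le_pow_iff_left₀ (Nat.cast_nonneg _) (by linarith) (by norm_num)).1 h2
  obtain ⟨B1, hB1⟩ : ∃ B1 : Finset (Fin n), B1 = B.filter (fun b => s / (64 * l) ≤
    ((N b).card : ℝ)) := ⟨_, rfl⟩
  have hB1B : B1 ⊆ B := by rw [hB1]; exact filter_subset _ _
  have hOD1 : OD P1 B1 N := by
    intro b hb a ha
    obtain ⟨h1, h2⟩ := hOD b (hB1B hb) a ha
    exact ⟨h1, fun h3 => h2 (hB1B h3)⟩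
  have hcard1 : B1.card + (B1.biUnion N).card ≤ 2 * A :=
    (add_le_add (card_le_card hB1B) (card_le_card (biUnion_subset_biUnion_of_subset_left N
      hB1B))).trans hcardA
  have hAR : (2 * A : ℝ) ≤ 4 * s * l := by
    have := hPF.A2
    linarith
  have hcard1R : (B1.card : ℝ) + (B1.biUnion N).card ≤ 4 * s * l := by
    refine le_trans ?_ hAR
    exact_mod_cast hcard1
  have hB1R : (B1.card : ℝ) ≤ 4 * s * l := by
    have : (0 : ℝ) ≤ (B1.biUnion N).card := Nat.cast_nonneg _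
    linarith
  have hV1R : ((B1.biUnion N).card : ℝ) ≤ 4 * s * l := by
    have : (0 : ℝ) ≤ B1.card := Nat.cast_nonneg _
    linarith
  have hsum1 : s ^ 2 / 16 ≤ ∑ b ∈ B1, ((N b).card : ℝ) := by
    have e1 := sum_filter_add_sum_filter_not B (fun b => s / (64 * l) ≤ ((N b).card : ℝ))
      (fun b => ((N b).card : ℝ))
    rw [← hB1] at e1
    have e2 : ∑ b ∈ B.filter (fun b => ¬ s / (64 * l) ≤ ((N b).card : ℝ)), ((N b).card : ℝ) ≤
        s ^ 2 / 16 := by
      calc ∑ b ∈ B.filter (fun b => ¬ s / (64 * l) ≤ ((N b).card : ℝ)), ((N b).card : ℝ) ≤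
          ∑ b ∈ B.filter (fun b => ¬ s / (64 * l) ≤ ((N b).card : ℝ)), s / (64 * l) := by
            refine sum_le_sum fun b hb => ?_
            exact (not_le.1 (mem_filter.1 hb).2).le
        _ = (B.filter (fun b => ¬ s / (64 * l) ≤ ((N b).card : ℝ))).card * (s / (64 * l)) := by
            rw [sum_const, nsmul_eq_mul]
        _ ≤ (4 * s * l) * (s / (64 * l)) := by
            gcongr
            have h1 : (B.filter (fun b => ¬ s / (64 * l) ≤ ((N b).card : ℝ))).card ≤ 2 * A :=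
              (card_le_card (filter_subset _ _)).trans ((Nat.le_add_right _ _).trans hcardA)
            refine le_trans ?_ hAR
            exact_mod_cast h1
        _ = s ^ 2 / 16 := by
            field_simp
            ring
    have e3 : (P1.card : ℝ) ≤ 8 * ∑ b ∈ B, ((N b).card : ℝ) := by exact_mod_cast hsum
    linarith
  -- truncation of `G`
  obtain ⟨G1, hG1, hSG2, hG1lo, hG1hi⟩ := hT n ⌈x * e⌉₊ G hGT.sg (Nat.ceil_le.2 hxe)
  have hG1lo' : x * e ≤ G1.card := (Nat.le_ceil _).trans (by exact_mod_cast hG1lo)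
  have hG1hi' : (G1.card : ℝ) ≤ x * e + 2 := by
    have h1 := Nat.ceil_lt_add_one (show 0 ≤ x * e by positivity)
    have h2 : (G1.card : ℝ) ≤ ⌈x * e⌉₊ + 1 := by exact_mod_cast hG1hi
    linarith
  have hGT1 : GT G1 T w := LG_gt_mono hGT hG1 hSG2
  have hxe' : x * e = x * s ^ 2 * n := by rw [← hs1]; ring
  rw [hxe'] at hG1lo' hG1hi'
  obtain ⟨M0, hM0⟩ : ∃ M0 : ℕ, M0 = ⌈l ^ 20 * x * s ^ 2⌉₊ := ⟨_, rfl⟩
  have hM0lo : l ^ 20 * x * s ^ 2 ≤ M0 := by rw [hM0]; exact Nat.le_ceil _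
  have hM0hi : (M0 : ℝ) ≤ 2 * l ^ 20 * x * s ^ 2 := by
    have h1 := Nat.ceil_lt_add_one (show 0 ≤ l ^ 20 * x * s ^ 2 by positivity)
    rw [← hM0] at h1
    linarith
  have hM01 : 1 ≤ M0 := by
    have : (1 : ℝ) ≤ M0 := q5.trans hM0lo
    exact_mod_cast this
  obtain ⟨D, hD⟩ : ∃ D : ℕ, D = G1.card / (8 * n) := ⟨_, rfl⟩
  have hD1 : 8 * n * D ≤ G1.card := by rw [hD]; exact Nat.mul_div_le _ _
  have hD2 : G1.card < 8 * n * (D + 1) := by
    rw [hD]
    exact Nat.lt_mul_div_succ _ (by omega)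
  have hDlo : x * s ^ 2 / 16 ≤ D := by
    have h1 : (G1.card : ℝ) < 8 * n * (D + 1) := by exact_mod_cast hD2
    have h2 : x * s ^ 2 * n < (8 * (D + 1)) * n := by linarith
    have h3 := lt_of_mul_lt_mul_right h2 hn0.le
    linarith
  have hDhi : (D : ℝ) ≤ x * s ^ 2 / 4 := by
    have h1 : (8 : ℝ) * n * D ≤ G1.card := by exact_mod_cast hD1
    have hn1' : (1 : ℝ) ≤ n := by exact_mod_cast hn1
    have h2 : (8 * D : ℝ) * n ≤ (x * s ^ 2 + 2) * n := by
      have e1 : (x * s ^ 2 + 2) * n = x * s ^ 2 * n + 2 * n := by ring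
      have e2 : (8 * D : ℝ) * n = 8 * n * D := by ring
      rw [e1, e2]
      linarith
    have h3 := le_of_mul_le_mul_right h2 hn0
    linarith
  have hmle : ((⌈s * h / 64⌉₊ : ℕ) : ℝ) ≤ s * l := by
    have h1 := Nat.ceil_lt_add_one (show 0 ≤ s * h / 64 by positivity)
    have h2 : s * h ≤ s * l / 4800 := by
      calc s * h ≤ s * (l / 4800) := by gcongr
        _ = s * l / 4800 := by ring
    have h3 : 2 ≤ s * l := by
      calc (2 : ℝ) = 2 * 1 := by norm_num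
        _ ≤ s * l := mul_le_mul (by linarith) hl1 (by norm_num) hs0.le
    linarith
  rcases hS n M0 D G1 hSG2 hn1 hM01 hD1 with hH | ⟨Y, nb, hY1, hY2, hY3⟩
  · -- many vertices of high degree
    refine LG_emb_mono hP1 hG1 le_rfl hcard1 (hM n w M0 ⌈s * h / 64⌉₊ P1 G1 T B1
      (univ.filter (fun y => M0 ≤ dgr G1 y)) N hn1 hGT1 hOD1 ?_ (fun y hy => (mem_filter.1 hy).2)
      ?_ ?_)
    · have h1 : (G1.card : ℝ) ≤ 8 * n * (univ.filter (fun y => M0 ≤ dgr G1 y)).card := by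
        exact_mod_cast hH
      have h2 : x * s ^ 2 * n ≤ (8 * (univ.filter (fun y => M0 ≤ dgr G1 y)).card) * n := by
        linarith
      have h3 := le_of_mul_le_mul_right h2 hn0
      have h4 : (B1.card : ℝ) ≤ (univ.filter (fun y => M0 ≤ dgr G1 y)).card := by linarith
      exact_mod_cast h4
    · have h1 : (2 : ℝ) * n * ⌈s * h / 64⌉₊ ≤ (∑ b ∈ B1, ((N b).card : ℝ)) * M0 := by
        calc (2 : ℝ) * n * ⌈s * h / 64⌉₊ ≤ 2 * n * (s * l) := by gcongr
          _ = 2 * s * (l * n) := by ring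
          _ = 2 * s * (s ^ 3 * K) := by rw [hPF.K3]
          _ = s ^ 4 / 16 * (32 * K) := by ring
          _ ≤ s ^ 4 / 16 * (l ^ 20 * x) := by gcongr
          _ = s ^ 2 / 16 * (l ^ 20 * x * s ^ 2) := by ring
          _ ≤ (∑ b ∈ B1, ((N b).card : ℝ)) * M0 := by
              apply mul_le_mul hsum1 hM0lo (by positivity)
              exact sum_nonneg fun b _ => Nat.cast_nonneg _
      exact_mod_cast h1
    · have h1 : (4 : ℝ) * (B1.card + (B1.biUnion N).card + w * (⌈s * h / 64⌉₊ + B1.card)) ≤ M0 := by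
        refine le_trans ?_ hM0lo
        refine le_trans ?_ q4
        have hw2 : (w : ℝ) ≤ 2 * l := by linarith
        have h2 : (w : ℝ) * (⌈s * h / 64⌉₊ + B1.card) ≤ (2 * l) * (s * l + 4 * s * l) := by
          gcongr
        have h3 : s * l ≤ s * l ^ 2 := by
          have : l ≤ l ^ 2 := le_self_pow₀ hl1 (by norm_num)
          gcongr
        have e1 : (2 * l) * (s * l + 4 * s * l) = 10 * (s * l ^ 2) := by ring
        have e2 : 4 * s * l = 4 * (s * l) := by ring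
        rw [e1] at h2
        rw [e2] at hcard1R
        linarith
      exact_mod_cast h1
  · -- balanced part
    have hnY : (n : ℝ) ≤ 4 * l ^ 20 * Y.card := by
      have h1 : (G1.card : ℝ) ≤ 2 * Y.card * M0 := by exact_mod_cast hY3
      have h2 : x * s ^ 2 * n ≤ x * s ^ 2 * (4 * l ^ 20 * Y.card) := by
        calc x * s ^ 2 * n ≤ 2 * Y.card * M0 := by linarith
          _ ≤ 2 * Y.card * (2 * l ^ 20 * x * s ^ 2) := by gcongr
          _ = x * s ^ 2 * (4 * l ^ 20 * Y.card) := by ring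
      exact le_of_mul_le_mul_left h2 (by positivity)
    have hARB : ∀ b : Fin n, ∃ k mb : ℕ, b ∈ B1 → 1 ≤ k ∧ k ≤ h ∧ k * mb ≤ (N b).card ∧
        mb * D ≤ n ∧ ((g ^ 479 : ℕ) : ℝ) ≤ ((mb : ℝ) * D / (4 * n)) ^ k * Y.card ∧
        256 * M0 * n * k ≤ mb * D * g ^ 479 ∧ ((N b).card : ℝ) * h ≤ 2 * s * k := by
      intro b
      by_cases hb : b ∈ B1
      · obtain ⟨k, mb, hkm⟩ := hA n e g A s l K x h D M0 Y.card (N b).card hPF hx1 hx2 hh hlog hxl
          hDlo hDhi hnY hM0hi (by rw [hB1] at hb; exact (mem_filter.1 hb).2) (hNb' b (hB1B hb))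
        exact ⟨k, mb, fun _ => hkm⟩
      · exact ⟨0, 0, fun h => absurd h hb⟩
    choose k mb hkm using hARB
    have hV4 : 4 * (B1.biUnion N).card ^ 2 ≤ n := by
      have h1 : (4 : ℝ) * ((B1.biUnion N).card : ℝ) ^ 2 ≤ n := by
        refine le_trans ?_ q7
        calc (4 : ℝ) * ((B1.biUnion N).card : ℝ) ^ 2 ≤ 4 * (4 * s * l) ^ 2 := by gcongr
          _ = 64 * (s * l) ^ 2 := by ring
      exact_mod_cast h1
    obtain ⟨φ, hφ, B0, hB0, hk2, hB0z⟩ := hC n D M0 (g ^ 479) Y nb B1 N k mb hn1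
      (fun y hy => (hY1 y hy).1) hY2 (fun b hb => by
        obtain ⟨a1, a2, a3, a4, a5, a6, a7⟩ := hkm b hb
        exact ⟨a1, a3, a4, a5, a6⟩) hV4
    have hkB0 : ((∑ b ∈ B0, k b : ℕ) : ℝ) ≤ 4 * s * l * l := by
      have h1 : ∑ b ∈ B0, k b ≤ B1.card * h := by
        calc ∑ b ∈ B0, k b ≤ ∑ b ∈ B1, k b := sum_le_sum_of_subset hB0
          _ ≤ ∑ _b ∈ B1, h := sum_le_sum fun b hb => (hkm b hb).2.1
          _ = B1.card * h := by rw [sum_const, smul_eq_mul]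
      calc ((∑ b ∈ B0, k b : ℕ) : ℝ) ≤ ((B1.card * h : ℕ) : ℝ) := by exact_mod_cast h1
        _ = (B1.card : ℝ) * h := by push_cast; ring
        _ ≤ (4 * s * l) * l := by
            gcongr
            linarith
    have hfin : (1 + (B1.biUnion N).card) * ((B1.biUnion N).card + B1.card + w * ∑ b ∈ B0, k b) <
        g ^ 479 := by
      have hw2 : (w : ℝ) ≤ 2 * l := by linarith
      have hsl1 : 1 ≤ s * l := by
        calc (1 : ℝ) = 1 * 1 := by norm_num
          _ ≤ s * l := mul_le_mul (by linarith) hl1 (by norm_num) hs0.le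
      have h1 : ((1 : ℝ) + (B1.biUnion N).card) * ((B1.biUnion N).card + B1.card +
          w * ((∑ b ∈ B0, k b : ℕ) : ℝ)) < g ^ 479 := by
        refine lt_of_le_of_lt ?_ q8
        calc ((1 : ℝ) + (B1.biUnion N).card) * ((B1.biUnion N).card + B1.card +
            w * ((∑ b ∈ B0, k b : ℕ) : ℝ)) ≤ (s * l + 4 * s * l) *
              (4 * s * l + (2 * l) * (4 * s * l * l)) := by
              gcongr
              linarith
          _ = (5 * (s * l)) * (4 * (s * l) + 8 * (s * l ^ 3)) := by ring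
          _ ≤ (5 * (s * l)) * (4 * (s * l ^ 3) + 8 * (s * l ^ 3)) := by
              have h3 : l ≤ l ^ 3 := by
                calc l = l ^ 1 := (pow_one l).symm
                  _ ≤ l ^ 3 := pow_le_pow_right₀ hl1 (by norm_num)
              gcongr
          _ = 60 * (s ^ 2 * l ^ 4) := by ring
      exact_mod_cast h1
    have hEmb := hSel n w (g ^ 479) P1 G1 T B1 B0 Y N nb k φ hGT1 hOD1 hB0 hφ
      (fun y hy => (hY1 y hy).2) hB0z hfin
    refine LG_emb_mono hP1 hG1 ?_ (by rw [add_comm]; exact hcard1) hEmb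
    apply Nat.ceil_le.2
    have h1 : (∑ b ∈ B1, ((N b).card : ℝ)) * h ≤ 2 * s * ((∑ b ∈ B1, k b : ℕ) : ℝ) := by
      push_cast
      rw [sum_mul, mul_sum]
      exact sum_le_sum fun b hb => (hkm b hb).2.2.2.2.2.2
    have h2 : ((∑ b ∈ B1, k b : ℕ) : ℝ) ≤ 2 * ((∑ b ∈ B0, k b : ℕ) : ℝ) := by exact_mod_cast hk2
    have h3 : s ^ 2 / 16 * h ≤ (∑ b ∈ B1, ((N b).card : ℝ)) * h :=
      mul_le_mul_of_nonneg_right hsum1 (by linarith)
    have h4 : s * (s * h / 16) ≤ s * (4 * ((∑ b ∈ B0, k b : ℕ) : ℝ)) := by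
      calc s * (s * h / 16) = s ^ 2 / 16 * h := by ring
        _ ≤ 2 * s * ((∑ b ∈ B1, k b : ℕ) : ℝ) := h3.trans h1
        _ ≤ 2 * s * (2 * ((∑ b ∈ B0, k b : ℕ) : ℝ)) := by gcongr
        _ = s * (4 * ((∑ b ∈ B0, k b : ℕ) : ℝ)) := by ring
    have h5 := le_of_mul_le_mul_left h4 hs0
    linarith

end H773V
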