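import Pool.Agent.H773R2.U2.Defs

namespace H773V

open Finset Pool.Agent.Results.MP_9dddc4_co.UkExponent

theorem LIFT3_vs {n : ℕ} {F : Finset (Fin n × Fin n)} {x : Fin n} (hx : x ∈ VS F) :
    ∃ p ∈ F, x = p.1 ∨ x = p.2 := by
  unfold VS at hx
  rcases Finset.mem_union.mp hx with h | h
  · obtain ⟨p, hp, rfl⟩ := Finset.mem_image.mp h
    exact ⟨p, hp, Or.inl rfl⟩
  · obtain ⟨p, hp, rfl⟩ := Finset.mem_image.mp h
    exact ⟨p, hp, Or.inr rfl⟩

theorem LIFT3_fst {n : ℕ} {F : Finset (Fin n × Fin n)} {p : Fin n × Fin n} (hp : p ∈ F) :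
    p.1 ∈ VS F := Finset.mem_union_left _ (Finset.mem_image_of_mem _ hp)

theorem LIFT3_snd {n : ℕ} {F : Finset (Fin n × Fin n)} {p : Fin n × Fin n} (hp : p ∈ F) :
    p.2 ∈ VS F := Finset.mem_union_right _ (Finset.mem_image_of_mem _ hp)

theorem LIFT3 : S_LIFT3 := by
  intro n m N H1 H2 U1 U2 v z hvU hzU hE
  obtain ⟨F, φ, hFP, hasym, hm, hN, hφ, hG, -, -⟩ := hE
  have h1 : ∀ p ∈ F, p.1 ≠ p.2 ∧ p.1 ≠ v ∧ p.2 ≠ v ∧ ({v, p.1, p.2} : Finset (Fin n)) ∈ H1 ∧
      p.1 ∉ U1 ∧ p.2 ∉ U1 := fun p hp => by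
    have := hFP hp
    unfold lkp at this
    exact (Finset.mem_filter.mp this).2
  have h2 : ∀ p ∈ F, φ p.1 ≠ φ p.2 ∧ φ p.1 ≠ z ∧ φ p.2 ≠ z ∧
      ({z, φ p.1, φ p.2} : Finset (Fin n)) ∈ H2 ∧ φ p.1 ∉ U2 ∧ φ p.2 ∉ U2 := fun p hp => by
    have := hG p hp
    unfold lkp at this
    exact (Finset.mem_filter.mp this).2
  have hv1 : ∀ x ∈ VS F, x ≠ v ∧ x ∉ U1 ∧ φ x ≠ z ∧ φ x ∉ U2 := by
    intro x hx
    obtain ⟨p, hp, h | h⟩ := LIFT3_vs hx
    · subst h
      exact ⟨(h1 p hp).2.1, (h1 p hp).2.2.2.2.1, (h2 p hp).2.1, (h2 p hp).2.2.2.2.1⟩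
    · subst h
      exact ⟨(h1 p hp).2.2.1, (h1 p hp).2.2.2.2.2, (h2 p hp).2.2.1, (h2 p hp).2.2.2.2.2⟩
  set F' : ES n := F.image (fun p => ({v, p.1, p.2} : Finset (Fin n))) with hF'
  set g : Fin n → Fin n := fun x => if x = v then z else φ x with hg
  have hgv : g v = z := by simp [hg]
  have hgx : ∀ x, x ≠ v → g x = φ x := fun x hx => by simp [hg, hx]
  have hcov : cov F' ⊆ insert v (VS F) := by
    intro x hx
    unfold cov at hx
    obtain ⟨f, hf, hxf⟩ := Finset.mem_biUnion.mp hx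
    obtain ⟨p, hp, rfl⟩ := Finset.mem_image.mp hf
    simp only [id, Finset.mem_insert, Finset.mem_singleton] at hxf
    rcases hxf with h | h | h
    · exact Finset.mem_insert.mpr (Or.inl h)
    · exact Finset.mem_insert.mpr (Or.inr (h ▸ LIFT3_fst hp))
    · exact Finset.mem_insert.mpr (Or.inr (h ▸ LIFT3_snd hp))
  refine ⟨F', g, ?_, ?_, ?_, ?_, ?_, ?_, ?_⟩
  · intro f hf
    obtain ⟨p, hp, rfl⟩ := Finset.mem_image.mp hf
    exact (h1 p hp).2.2.2.1
  · intro x hx y hy hxy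
    have hx' := Finset.mem_insert.mp (hcov hx)
    have hy' := Finset.mem_insert.mp (hcov hy)
    rcases hx' with hx' | hx' <;> rcases hy' with hy' | hy'
    · rw [hx', hy']
    · exfalso
      rw [hx', hgv, hgx y (hv1 y hy').1] at hxy
      exact (hv1 y hy').2.2.1 hxy.symm
    · exfalso
      rw [hy', hgv, hgx x (hv1 x hx').1] at hxy
      exact (hv1 x hx').2.2.1 hxy
    · rw [hgx x (hv1 x hx').1, hgx y (hv1 y hy').1] at hxy
      exact hφ hx' hy' hxy
  · intro f hf
    unfold img at hf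
    obtain ⟨e, he, rfl⟩ := Finset.mem_image.mp hf
    obtain ⟨p, hp, rfl⟩ := Finset.mem_image.mp he
    have : ({v, p.1, p.2} : Finset (Fin n)).image g = {z, φ p.1, φ p.2} := by
      rw [Finset.image_insert, Finset.image_insert, Finset.image_singleton, hgv,
        hgx _ (h1 p hp).2.1, hgx _ (h1 p hp).2.2.1]
    rw [this]
    exact (h2 p hp).2.2.2.1
  · have hc : F'.card = F.card := by
      apply Finset.card_image_of_injOn
      intro p hp q hq hpq
      have hpq' : ({v, p.1, p.2} : Finset (Fin n)) = {v, q.1, q.2} := hpq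
      obtain ⟨a1, a2, a3, -⟩ := h1 p hp
      obtain ⟨b1, b2, b3, -⟩ := h1 q hq
      have c1 : p.1 ∈ ({v, q.1, q.2} : Finset (Fin n)) := hpq' ▸ (by simp)
      have c2 : p.2 ∈ ({v, q.1, q.2} : Finset (Fin n)) := hpq' ▸ (by simp)
      simp only [Finset.mem_insert, Finset.mem_singleton] at c1 c2
      rcases c1 with c1 | c1 | c1
      · exact absurd c1 a2
      · rcases c2 with c2 | c2 | c2
        · exact absurd c2 a3
        · exact absurd (c1.trans c2.symm) a1
        · exact Prod.ext c1 c2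
      · rcases c2 with c2 | c2 | c2
        · exact absurd c2 a3
        · exfalso
          apply hasym q hq
          have : (q.2, q.1) = p := Prod.ext c1.symm c2.symm
          rw [this]
          exact hp
        · exact absurd (c1.trans c2.symm) a1
    rw [hc]
    exact hm
  · rw [Finset.disjoint_left]
    intro x hx
    rcases Finset.mem_insert.mp (hcov hx) with h | h
    · rw [h]; exact hvU
    · exact (hv1 x h).2.1
  · rw [Finset.disjoint_left]
    intro y hy
    obtain ⟨x, hx, rfl⟩ := Finset.mem_image.mp hy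
    rcases Finset.mem_insert.mp (hcov hx) with h | h
    · rw [h, hgv]; exact hzU
    · rw [hgx x (hv1 x h).1]
      exact (hv1 x h).2.2.2
  · calc (cov F').card ≤ (insert v (VS F)).card := Finset.card_le_card hcov
      _ ≤ (VS F).card + 1 := Finset.card_insert_le _ _
      _ ≤ N + 1 := by omega

end H773V
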