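import Pool.Agent.H773R2.U2.Defs

set_option autoImplicit false

namespace H773V

open Finset Pool.Agent.Results.MP_9dddc4_co.UkExponent

lemma LIFTI_cod {n : ℕ} (H : ES n) (hH : IsRGraph 3 H) (u v : Fin n) (huv : u ≠ v) :
    cod H u v ≤ ((univ : Finset (Fin n)).filter
      (fun t => ({u, v, t} : Finset (Fin n)) ∈ H)).card := by
  classical
  unfold cod
  calc (H.filter (fun f => u ∈ f ∧ v ∈ f)).card
      ≤ (((univ : Finset (Fin n)).filter (fun t => ({u, v, t} : Finset (Fin n)) ∈ H)).image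
          (fun t => ({u, v, t} : Finset (Fin n)))).card := by
        apply card_le_card
        intro f hf
        rw [mem_filter] at hf
        obtain ⟨hfH, hu, hv⟩ := hf
        have h3 := hH f hfH
        have h1 : ((f.erase u).erase v).card = 1 := by
          rw [card_erase_of_mem (mem_erase.2 ⟨huv.symm, hv⟩), card_erase_of_mem hu, h3]
        obtain ⟨t, ht⟩ := card_eq_one.1 h1
        have hft : ({u, v, t} : Finset (Fin n)) = f := by
          rw [← insert_erase hu, ← insert_erase (mem_erase.2 ⟨huv.symm, hv⟩), ht]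
        rw [mem_image]
        refine ⟨t, ?_, hft⟩
        rw [mem_filter, hft]
        exact ⟨mem_univ _, hfH⟩
    _ ≤ _ := card_image_le

/-- greedy choice of private thirds -/
lemma LIFTI_greedy {n : ℕ} (H : ES n) (hH : IsRGraph 3 H) (D w N : ℕ) (V : Finset (Fin n))
    (hV : V.card ≤ N) (S : Finset (Fin n × Fin n)) (hS : S ⊆ hv H D)
    (hD : N + S.card * w ≤ D) :
    ∃ τ : Fin n × Fin n → Finset (Fin n), (∀ p ∈ S, (τ p).card = w ∧
      ∀ t ∈ τ p, ({p.1, p.2, t} : Finset (Fin n)) ∈ H ∧ t ∉ V) ∧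
      ∀ p ∈ S, ∀ q ∈ S, p ≠ q → Disjoint (τ p) (τ q) := by
  classical
  induction S using Finset.induction_on with
  | empty => exact ⟨fun _ => ∅, by simp, by simp⟩
  | insert p S hp ih =>
    rw [card_insert_of_notMem hp] at hD
    have hD' : N + S.card * w + w ≤ D := by
      have : (S.card + 1) * w = S.card * w + w := by ring
      omega
    obtain ⟨τ, h1, h2⟩ := ih (fun x hx => hS (mem_insert_of_mem hx)) (by omega)
    have hpv := hS (mem_insert_self p S)
    unfold hv at hpv
    rw [mem_filter] at hpv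
    obtain ⟨-, hne, hcod⟩ := hpv
    have hc := hcod.trans (LIFTI_cod H hH p.1 p.2 hne)
    have hU : (S.biUnion τ).card ≤ S.card * w := by
      calc (S.biUnion τ).card ≤ ∑ q ∈ S, (τ q).card := card_biUnion_le
        _ = ∑ _q ∈ S, w := sum_congr rfl fun q hq => (h1 q hq).1
        _ = S.card * w := by rw [sum_const, smul_eq_mul]
    have hbig : w ≤ ((((univ : Finset (Fin n)).filter
        (fun t => ({p.1, p.2, t} : Finset (Fin n)) ∈ H)) \ V) \ S.biUnion τ).card := by
      have e1 := le_card_sdiff V ((univ : Finset (Fin n)).filter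
        (fun t => ({p.1, p.2, t} : Finset (Fin n)) ∈ H))
      have e2 := le_card_sdiff (S.biUnion τ) (((univ : Finset (Fin n)).filter
        (fun t => ({p.1, p.2, t} : Finset (Fin n)) ∈ H)) \ V)
      omega
    obtain ⟨R, hR, hRc⟩ := exists_subset_card_eq hbig
    have hτ : ∀ q ∈ S, Function.update τ p R q = τ q := by
      intro q hq
      have : q ≠ p := fun h => hp (h ▸ hq)
      rw [Function.update_of_ne this]
    have hself : Function.update τ p R p = R := Function.update_self _ _ _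
    have hdis : ∀ q ∈ S, Disjoint R (τ q) := by
      intro q hq
      rw [Finset.disjoint_left]
      intro x hx hx'
      have := hR hx
      rw [mem_sdiff] at this
      exact this.2 (mem_biUnion.2 ⟨q, hq, hx'⟩)
    refine ⟨Function.update τ p R, ?_, ?_⟩
    · intro q hq
      rcases mem_insert.1 hq with rfl | hq
      · rw [hself]
        refine ⟨hRc, fun t ht => ?_⟩
        have := hR ht
        rw [mem_sdiff, mem_sdiff, mem_filter] at this
        exact ⟨this.1.1.2, this.1.2⟩
      · rw [hτ q hq]; exact h1 q hq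
    · intro q hq q' hq' hqq
      rcases mem_insert.1 hq with h3 | h3
      · rcases mem_insert.1 hq' with h4 | h4
        · exact absurd (h3.trans h4.symm) hqq
        · rw [h3, hself, hτ q' h4]; exact hdis q' h4
      · rcases mem_insert.1 hq' with h4 | h4
        · rw [h4, hself, hτ q h3]; exact (hdis q h3).symm
        · rw [hτ q h3, hτ q' h4]; exact h2 q h3 q' h4 hqq

lemma LIFTI_bij {n : ℕ} (s t : Finset (Fin n)) (h : s.card = t.card) :
    ∃ β : Fin n → Fin n, (∀ x ∈ s, β x ∈ t) ∧ ∀ x ∈ s, ∀ y ∈ s, β x = β y → x = y := by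
  classical
  let e := Finset.equivOfCardEq h
  refine ⟨fun x => if hx : x ∈ s then (e ⟨x, hx⟩ : Fin n) else x, ?_, ?_⟩
  · intro x hx
    simp only [hx, dif_pos]
    exact (e ⟨x, hx⟩).2
  · intro x hx y hy hxy
    simp only [hx, hy, dif_pos] at hxy
    have := e.injective (Subtype.ext hxy)
    exact congrArg Subtype.val this

theorem LIFTI : S_LIFTI := by
  classical
  intro n D w m N H1 H2 G T hH1 hH2 hGT hT hE hD
  obtain ⟨F, φ, hF, -, hm, hN, hinj, hG, hTV, hTT⟩ := hE
  obtain ⟨F1, hF1, hF1c⟩ := exists_subset_card_eq hm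
  have hVmem : ∀ p ∈ F1, p.1 ∈ VS F ∧ p.2 ∈ VS F := by
    intro p hp
    unfold VS
    rw [mem_union, mem_union, mem_image, mem_image, mem_image, mem_image]
    exact ⟨Or.inl ⟨p, hF1 hp, rfl⟩, Or.inr ⟨p, hF1 hp, rfl⟩⟩
  obtain ⟨τ, hτ1, hτ2⟩ := LIFTI_greedy H1 hH1 D w N (VS F) hN F1 (hF1.trans hF) (by
    rw [hF1c]; exact hD)
  -- bijections
  have hβ : ∀ p : Fin n × Fin n, ∃ β : Fin n → Fin n, p ∈ F1 →
      ((∀ x ∈ τ p, β x ∈ T (φ p.1) (φ p.2)) ∧ ∀ x ∈ τ p, ∀ y ∈ τ p, β x = β y → x = y) := by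
    intro p
    by_cases hp : p ∈ F1
    · obtain ⟨β, h1⟩ := LIFTI_bij (τ p) (T (φ p.1) (φ p.2)) (by
        rw [(hτ1 p hp).1, hGT.card _ _ (hG p (hF1 hp))])
      exact ⟨β, fun _ => h1⟩
    · exact ⟨id, fun h => absurd h hp⟩
  choose β hβ using hβ
  let f : Fin n → Fin n := fun x => if x ∈ VS F then φ x else
    if h : ∃ p ∈ F1, x ∈ τ p then β h.choose x else x
  have hfV : ∀ x ∈ VS F, f x = φ x := fun x hx => if_pos hx
  have hfτ : ∀ p ∈ F1, ∀ x ∈ τ p, f x = β p x := by
    intro p hp x hx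
    have hxV := ((hτ1 p hp).2 x hx).2
    have hex : ∃ p ∈ F1, x ∈ τ p := ⟨p, hp, hx⟩
    have e1 : f x = β hex.choose x := by
      show (if x ∈ VS F then φ x else
        if h : ∃ p ∈ F1, x ∈ τ p then β h.choose x else x) = _
      rw [if_neg hxV, dif_pos hex]
    have e2 : hex.choose = p := by
      by_contra hne
      exact Finset.disjoint_left.1 (hτ2 _ hex.choose_spec.1 p hp hne) hex.choose_spec.2 hx
    rw [e1, e2]
  let F' : ES n := F1.biUnion fun p => (τ p).image fun t => ({p.1, p.2, t} : Finset (Fin n))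
  have hF'mem : ∀ s ∈ F', ∃ p ∈ F1, ∃ t ∈ τ p, s = {p.1, p.2, t} := by
    intro s hs
    rw [mem_biUnion] at hs
    obtain ⟨p, hp, hs⟩ := hs
    rw [mem_image] at hs
    obtain ⟨t, ht, rfl⟩ := hs
    exact ⟨p, hp, t, ht, rfl⟩
  have hcov : ∀ x ∈ cov F', x ∈ VS F ∨ ∃ p ∈ F1, x ∈ τ p := by
    intro x hx
    unfold cov at hx
    rw [mem_biUnion] at hx
    obtain ⟨s, hs, hxs⟩ := hx
    obtain ⟨p, hp, t, ht, rfl⟩ := hF'mem s hs
    simp only [id, mem_insert, mem_singleton] at hxs
    rcases hxs with rfl | rfl | rfl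
    · exact Or.inl (hVmem p hp).1
    · exact Or.inl (hVmem p hp).2
    · exact Or.inr ⟨p, hp, ht⟩
  refine ⟨F', f, ?_, ?_, ?_, ?_⟩
  · intro s hs
    obtain ⟨p, hp, t, ht, rfl⟩ := hF'mem s hs
    exact ((hτ1 p hp).2 t ht).1
  · intro x hx y hy hxy
    have hcross : ∀ x ∈ VS F, ∀ p ∈ F1, ∀ y ∈ τ p, f x ≠ f y := by
      intro x hx p hp y hy h
      rw [hfV x hx, hfτ p hp y hy] at h
      have h1 := (hβ p hp).1 y hy
      rw [← h] at h1
      exact Finset.disjoint_left.1 (hTV p (hF1 hp)) h1 (mem_image_of_mem φ hx)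
    rcases hcov x hx with hx1 | ⟨p, hp, hx1⟩
    · rcases hcov y hy with hy1 | ⟨q, hq, hy1⟩
      · rw [hfV x hx1, hfV y hy1] at hxy
        exact hinj hx1 hy1 hxy
      · exact absurd hxy (hcross x hx1 q hq y hy1)
    · rcases hcov y hy with hy1 | ⟨q, hq, hy1⟩
      · exact absurd hxy.symm (hcross y hy1 p hp x hx1)
      · rw [hfτ p hp x hx1, hfτ q hq y hy1] at hxy
        by_cases hpq : p = q
        · subst hpq
          exact (hβ p hp).2 x hx1 y hy1 hxy
        · exfalso
          have h1 := (hβ p hp).1 x hx1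
          have h2 := (hβ q hq).1 y hy1
          rw [← hxy] at h2
          exact Finset.disjoint_left.1 (hTT p (hF1 hp) q (hF1 hq) hpq) h1 h2
  · intro s hs
    unfold img at hs
    rw [mem_image] at hs
    obtain ⟨s', hs', rfl⟩ := hs
    obtain ⟨p, hp, t, ht, rfl⟩ := hF'mem s' hs'
    rw [image_insert, image_insert, image_singleton, hfV _ (hVmem p hp).1,
      hfV _ (hVmem p hp).2, hfτ p hp t ht]
    exact hT _ _ (hG p (hF1 hp)) _ ((hβ p hp).1 t ht)
  · -- the cardinality
    have hkey : ∀ p ∈ F1, ∀ t ∈ τ p, ∀ q ∈ F1, ∀ t' ∈ τ q,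
        ({p.1, p.2, t} : Finset (Fin n)) = {q.1, q.2, t'} → t = t' ∧ p = q := by
      intro p hp t ht q hq t' ht' h
      have htV := ((hτ1 p hp).2 t ht).2
      have h1 : t ∈ ({q.1, q.2, t'} : Finset (Fin n)) := by
        rw [← h]; simp
      simp only [mem_insert, mem_singleton] at h1
      have h2 : t = t' := by
        rcases h1 with h1 | h1 | h1
        · exact absurd (h1 ▸ (hVmem q hq).1) htV
        · exact absurd (h1 ▸ (hVmem q hq).2) htV
        · exact h1
      refine ⟨h2, ?_⟩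
      by_contra hne
      exact Finset.disjoint_left.1 (hτ2 p hp q hq hne) ht (h2 ▸ ht')
    have hcard : F'.card = ∑ p ∈ F1, (τ p).card := by
      rw [card_biUnion]
      · refine sum_congr rfl fun p hp => ?_
        refine card_image_of_injOn ?_
        intro t ht t' ht' h
        exact (hkey p hp t ht p hp t' ht' h).1
      · intro p hp q hq hne
        show Disjoint _ _
        rw [Finset.disjoint_left]
        intro s hs hs'
        rw [mem_image] at hs hs'
        obtain ⟨t, ht, rfl⟩ := hs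
        obtain ⟨t', ht', h⟩ := hs'
        exact hne (hkey p hp t ht q hq t' ht' h.symm).2
    rw [hcard, sum_congr rfl fun p hp => (hτ1 p hp).1, sum_const, smul_eq_mul, hF1c]

end H773V
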