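import Pool.Agent.H773R2.U2.Defs

set_option linter.unusedVariables false

namespace H773V

open Finset

theorem MO_count {n : ℕ} (S U : Finset (Fin n)) (t : Fin n → Finset (Fin n))
    (hd : ∀ u ∈ S, ∀ v ∈ S, u ≠ v → Disjoint (t u) (t v)) :
    (S.filter (fun u => ¬ Disjoint (t u) U)).card ≤ U.card := by
  classical
  have h : ∀ u ∈ S.filter (fun u => ¬ Disjoint (t u) U), ∃ x ∈ U, x ∈ t u := by
    intro u hu
    have := (mem_filter.1 hu).2
    rw [not_disjoint_iff] at this
    obtain ⟨x, hx1, hx2⟩ := this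
    exact ⟨x, hx2, hx1⟩
  choose! f hf1 hf2 using h
  refine card_le_card_of_injOn f (fun u hu => hf1 u hu) ?_
  intro u hu v hv huv
  have hu' := mem_coe.1 hu
  have hv' := mem_coe.1 hv
  by_contra hne
  have := hd u (mem_filter.1 hu').1 v (mem_filter.1 hv').1 hne
  exact disjoint_left.1 this (hf2 u hu') (by rw [huv]; exact hf2 v hv')

theorem MO_deg {n : ℕ} {G : Finset (Fin n × Fin n)} (h : SG G) (y : Fin n) :
    dgr G y ≤ (univ.filter (fun u => (u, y) ∈ G)).card := by
  unfold dgr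
  refine card_le_card_of_injOn Prod.snd ?_ ?_
  · intro p hp
    obtain ⟨hp1, hp2⟩ := mem_filter.1 (mem_coe.1 hp)
    refine mem_coe.2 (mem_filter.2 ⟨mem_univ _, ?_⟩)
    have h3 : (y, p.2) ∈ G := by rw [← hp2]; exact hp1
    exact (h _ _ h3).1
  · intro p hp q hq hpq
    obtain ⟨hp1, hp2⟩ := mem_filter.1 (mem_coe.1 hp)
    obtain ⟨hq1, hq2⟩ := mem_filter.1 (mem_coe.1 hq)
    exact Prod.ext (by rw [hp2, hq2]) hpq

theorem MO_pt {n w : ℕ} {G : Finset (Fin n × Fin n)} {T : Fin n → Fin n → Finset (Fin n)}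
    (hG : GT G T w) (U : Finset (Fin n)) (y : Fin n) :
    dgr G y ≤ ((univ \ U).filter (fun u => (u, y) ∈ G ∧ Disjoint (T u y) U)).card
      + 2 * U.card := by
  classical
  have h1 := MO_deg hG.sg y
  have h2 := MO_count (univ.filter (fun u => (u, y) ∈ G)) U (fun u => T u y) (by
    intro u hu v hv huv
    have hu1 := (hG.sg _ _ (mem_filter.1 hu).2).1
    have hv1 := (hG.sg _ _ (mem_filter.1 hv).2).1
    rw [hG.tsym u y, hG.tsym v y]
    exact hG.disj y u v hu1 hv1 huv)
  have h3 : univ.filter (fun u => (u, y) ∈ G) ⊆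
      ((univ \ U).filter (fun u => (u, y) ∈ G ∧ Disjoint (T u y) U)) ∪ U ∪
        ((univ.filter (fun u => (u, y) ∈ G)).filter (fun u => ¬ Disjoint (T u y) U)) := by
    intro u hu
    have hu1 := (mem_filter.1 hu).2
    by_cases hU : u ∈ U
    · exact mem_union_left _ (mem_union_right _ hU)
    by_cases hT : Disjoint (T u y) U
    · exact mem_union_left _ (mem_union_left _ (mem_filter.2
        ⟨mem_sdiff.2 ⟨mem_univ _, hU⟩, hu1, hT⟩))
    · exact mem_union_right _ (mem_filter.2 ⟨hu, hT⟩)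
  have h4 := card_le_card h3
  have h5 := card_union_le
    (((univ \ U).filter (fun u => (u, y) ∈ G ∧ Disjoint (T u y) U)) ∪ U)
    ((univ.filter (fun u => (u, y) ∈ G)).filter (fun u => ¬ Disjoint (T u y) U))
  have h6 := card_union_le
    ((univ \ U).filter (fun u => (u, y) ∈ G ∧ Disjoint (T u y) U)) U
  omega

theorem MO_avg {n w M : ℕ} {G : Finset (Fin n × Fin n)} {T : Fin n → Fin n → Finset (Fin n)}
    (hG : GT G T w) (U C : Finset (Fin n)) (y : Fin n → Fin n)
    (hy : ∀ b ∈ C, M ≤ dgr G (y b)) (hU : 4 * U.card ≤ M) (hC : C.Nonempty) (hM : 0 < M) :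
    ∃ u, u ∉ U ∧ C.card * M ≤
      2 * n * (C.filter (fun b => (u, y b) ∈ G ∧ Disjoint (T u (y b)) U)).card := by
  classical
  obtain ⟨b0, hb0⟩ := hC
  have hn : M ≤ n := by
    refine (hy b0 hb0).trans ((MO_deg hG.sg _).trans ?_)
    refine (card_filter_le _ _).trans ?_
    simp
  have hcomp : (univ \ U).card + U.card = n := by
    rw [card_sdiff_add_card_eq_card (subset_univ U)]
    simp
  by_contra hcon
  push Not at hcon
  have hsum : ∑ u ∈ univ \ U, (C.filter (fun b => (u, y b) ∈ G ∧ Disjoint (T u (y b)) U)).card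
      = ∑ b ∈ C, ((univ \ U).filter (fun u => (u, y b) ∈ G ∧ Disjoint (T u (y b)) U)).card :=
    sum_card_bipartiteAbove_eq_sum_card_bipartiteBelow
      (fun u b => (u, y b) ∈ G ∧ Disjoint (T u (y b)) U)
  have hlow : C.card * M ≤ 2 * ∑ b ∈ C,
      ((univ \ U).filter (fun u => (u, y b) ∈ G ∧ Disjoint (T u (y b)) U)).card := by
    rw [mul_sum, ← smul_eq_mul, ← sum_const]
    refine sum_le_sum fun b hb => ?_
    have h1 := MO_pt hG U (y b)
    have h2 := hy b hb
    omega
  have hne : (univ \ U : Finset (Fin n)).Nonempty := by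
    rw [← card_pos]; omega
  have hup : ∑ u ∈ univ \ U,
      2 * n * (C.filter (fun b => (u, y b) ∈ G ∧ Disjoint (T u (y b)) U)).card <
      ∑ u ∈ (univ \ U : Finset (Fin n)), C.card * M :=
    sum_lt_sum_of_nonempty hne fun u hu => hcon u (mem_sdiff.1 hu).2
  rw [← mul_sum, sum_const, smul_eq_mul, hsum] at hup
  have h7 : (univ \ U : Finset (Fin n)).card * (C.card * M) ≤ n * (C.card * M) :=
    Nat.mul_le_mul_right _ (by omega)
  have h8 : n * (C.card * M) ≤ n * (2 * ∑ b ∈ C,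
      ((univ \ U).filter (fun u => (u, y b) ∈ G ∧ Disjoint (T u (y b)) U)).card) :=
    Nat.mul_le_mul_left _ hlow
  have h9 : n * (2 * ∑ b ∈ C,
      ((univ \ U).filter (fun u => (u, y b) ∈ G ∧ Disjoint (T u (y b)) U)).card) =
      2 * n * ∑ b ∈ C,
      ((univ \ U).filter (fun u => (u, y b) ∈ G ∧ Disjoint (T u (y b)) U)).card := by ring
  omega

/-- the state of the greedy embedding -/
structure MO_St {n : ℕ} (G : Finset (Fin n × Fin n)) (T : Fin n → Fin n → Finset (Fin n))
    (B V : Finset (Fin n)) (N : Fin n → Finset (Fin n)) (y : Fin n → Fin n)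
    (F : Finset (Fin n × Fin n)) (φ : Fin n → Fin n) : Prop where
  sub : ∀ p ∈ F, p.1 ∈ V ∧ p.2 ∈ B ∧ p.1 ∈ N p.2
  eqy : ∀ b ∈ B, φ b = y b
  inj : Set.InjOn φ (↑(B ∪ V) : Set (Fin n))
  mem : ∀ p ∈ F, (φ p.1, φ p.2) ∈ G
  dis : ∀ p ∈ F, Disjoint (T (φ p.1) (φ p.2)) ((B ∪ V).image φ)
  pdis : ∀ p ∈ F, ∀ q ∈ F, p ≠ q → Disjoint (T (φ p.1) (φ p.2)) (T (φ q.1) (φ q.2))

theorem MO_emb {n m K : ℕ} {P G : Finset (Fin n × Fin n)} {T : Fin n → Fin n → Finset (Fin n)}
    {B V : Finset (Fin n)} {N : Fin n → Finset (Fin n)} {y : Fin n → Fin n}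
    {F : Finset (Fin n × Fin n)} {φ : Fin n → Fin n} (hO : OD P B N)
    (hV : ∀ v ∈ V, v ∉ B) (h : MO_St G T B V N y F φ) (hm : m ≤ F.card)
    (hK : B.card + V.card ≤ K) : Emb P G T m K := by
  classical
  have hVS : VS F ⊆ B ∪ V := by
    intro x hx
    rcases mem_union.1 hx with hx | hx
    · obtain ⟨p, hp, rfl⟩ := mem_image.1 hx
      exact mem_union_right _ (h.sub p hp).1
    · obtain ⟨p, hp, rfl⟩ := mem_image.1 hx
      exact mem_union_left _ (h.sub p hp).2.1
  refine ⟨F, φ, ?_, ?_, hm, ?_, ?_, h.mem, ?_, h.pdis⟩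
  · intro p hp
    obtain ⟨h1, h2, h3⟩ := h.sub p hp
    exact (hO p.2 h2 p.1 h3).1
  · intro p hp hq
    exact hV _ (h.sub _ hq).1 (h.sub p hp).2.1
  · exact ((card_le_card hVS).trans (card_union_le _ _)).trans hK
  · exact h.inj.mono (coe_subset.2 hVS)
  · intro p hp
    exact (h.dis p hp).mono_right (image_subset_image hVS)

theorem MO_step {n w M m : ℕ} {G : Finset (Fin n × Fin n)} {T : Fin n → Fin n → Finset (Fin n)}
    {B V : Finset (Fin n)} {N : Fin n → Finset (Fin n)} {y : Fin n → Fin n}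
    {F : Finset (Fin n × Fin n)} {φ : Fin n → Fin n} (hG : GT G T w)
    (hyi : Set.InjOn y (↑B : Set (Fin n))) (hy : ∀ b ∈ B, M ≤ dgr G (y b))
    (hM : 4 * (B.card + V.card + w * F.card) ≤ M) (hM0 : 0 < M)
    (h : MO_St G T B V N y F φ) (a : Fin n) (haV : a ∉ V) (haB : a ∉ B)
    (hr : (B.filter (fun b => a ∈ N b)).Nonempty) :
    ∃ F' φ', MO_St G T B (insert a V) N y F' φ' ∧
      (B.filter (fun b => a ∈ N b)).card * M + 2 * n * F.card ≤ 2 * n * F'.card := by
  classical
  set U : Finset (Fin n) := (B ∪ V).image φ ∪ F.biUnion (fun p => T (φ p.1) (φ p.2)) with hUdef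
  have hUc : U.card ≤ B.card + V.card + w * F.card := by
    have h1 : ((B ∪ V).image φ).card ≤ B.card + V.card :=
      card_image_le.trans (card_union_le _ _)
    have h2 : (F.biUnion (fun p => T (φ p.1) (φ p.2))).card ≤ F.card * w := by
      refine card_biUnion_le_card_mul _ _ _ fun p hp => ?_
      exact (hG.card _ _ (h.mem p hp)).le
    have h3 := card_union_le ((B ∪ V).image φ) (F.biUnion (fun p => T (φ p.1) (φ p.2)))
    rw [mul_comm] at h2
    rw [hUdef]
    omega
  obtain ⟨u, huU, hcnt⟩ := MO_avg hG U (B.filter (fun b => a ∈ N b)) y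
    (fun b hb => hy b (mem_filter.1 hb).1) (by omega) hr hM0
  set C := B.filter (fun b => a ∈ N b) with hCdef
  set D := C.filter (fun b => (u, y b) ∈ G ∧ Disjoint (T u (y b)) U) with hDdef
  have huI : u ∉ (B ∪ V).image φ := fun hc => huU (mem_union_left _ hc)
  have huT : ∀ p ∈ F, u ∉ T (φ p.1) (φ p.2) := fun p hp hc =>
    huU (mem_union_right _ (mem_biUnion.2 ⟨p, hp, hc⟩))
  have hD : ∀ b ∈ D, b ∈ B ∧ a ∈ N b ∧ (u, y b) ∈ G ∧ Disjoint (T u (y b)) U := by
    intro b hb
    obtain ⟨h1, h2, h3⟩ := mem_filter.1 hb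
    obtain ⟨h4, h5⟩ := mem_filter.1 h1
    exact ⟨h4, h5, h2, h3⟩
  set φ' := Function.update φ a u with hφ'
  have hφa : φ' a = u := Function.update_self _ _ _
  have hφn : ∀ x, x ≠ a → φ' x = φ x := fun x hx => Function.update_of_ne hx _ _
  have hφB : ∀ b ∈ B, φ' b = y b := by
    intro b hb
    rw [hφn b (fun hc => haB (hc ▸ hb))]
    exact h.eqy b hb
  have hφV : ∀ v ∈ V, φ' v = φ v := fun v hv => hφn v (fun hc => haV (hc ▸ hv))
  have hφB' : ∀ b ∈ B, φ' b = φ b := fun v hv => hφn v (fun hc => haB (hc ▸ hv))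
  have hF1 : ∀ p ∈ F, φ' p.1 = φ p.1 := fun p hp => hφV _ (h.sub p hp).1
  have hF2 : ∀ p ∈ F, φ' p.2 = φ p.2 := fun p hp => hφB' _ (h.sub p hp).2.1
  have hun : B ∪ insert a V = insert a (B ∪ V) := by
    rw [union_insert]
  have hanot : a ∉ B ∪ V := by
    intro hc
    rcases mem_union.1 hc with hc | hc
    · exact haB hc
    · exact haV hc
  have himg0 : (B ∪ V).image φ' = (B ∪ V).image φ := by
    refine image_congr ?_
    intro x hx
    exact hφn x (fun hc => hanot (hc ▸ (mem_coe.1 hx)))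
  have himg : (B ∪ insert a V).image φ' = insert u ((B ∪ V).image φ) := by
    rw [hun, image_insert, hφa, himg0]
  have hmemF' : ∀ p, p ∈ F ∪ D.image (fun b => (a, b)) → p ∈ F ∨ ∃ b ∈ D, p = (a, b) := by
    intro p hp
    rcases mem_union.1 hp with hp | hp
    · exact Or.inl hp
    · obtain ⟨b, hb, rfl⟩ := mem_image.1 hp
      exact Or.inr ⟨b, hb, rfl⟩
  have hcross : ∀ p ∈ F, ∀ b ∈ D, Disjoint (T (φ' p.1) (φ' p.2)) (T (φ' a) (φ' b)) := by
    intro p hp b hb
    obtain ⟨h1, h2, h3, h4⟩ := hD b hb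
    rw [hF1 p hp, hF2 p hp, hφa, hφB b h1]
    refine (h4.mono_right ?_).symm
    intro x hx
    exact mem_union_right _ (mem_biUnion.2 ⟨p, hp, hx⟩)
  refine ⟨F ∪ D.image (fun b => (a, b)), φ', ⟨?_, hφB, ?_, ?_, ?_, ?_⟩, ?_⟩
  · intro p hp
    rcases hmemF' p hp with hp | ⟨b, hb, rfl⟩
    · obtain ⟨h1, h2, h3⟩ := h.sub p hp
      exact ⟨mem_insert_of_mem h1, h2, h3⟩
    · obtain ⟨h1, h2, h3, h4⟩ := hD b hb
      exact ⟨mem_insert_self _ _, h1, h2⟩
  · rw [hun, coe_insert, Set.injOn_insert (by simpa using hanot)]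
    refine ⟨?_, ?_⟩
    · intro x hx z hz hxz
      have hx' := mem_coe.1 hx
      have hz' := mem_coe.1 hz
      rw [hφn x (fun hc => hanot (hc ▸ hx')), hφn z (fun hc => hanot (hc ▸ hz'))] at hxz
      exact h.inj hx hz hxz
    · rw [hφa, ← coe_image, himg0]
      exact fun hc => huI (mem_coe.1 hc)
  · intro p hp
    rcases hmemF' p hp with hp | ⟨b, hb, rfl⟩
    · rw [hF1 p hp, hF2 p hp]
      exact h.mem p hp
    · obtain ⟨h1, h2, h3, h4⟩ := hD b hb
      show (φ' a, φ' b) ∈ G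
      rw [hφa, hφB b h1]
      exact h3
  · intro p hp
    rw [himg]
    rcases hmemF' p hp with hp | ⟨b, hb, rfl⟩
    · rw [hF1 p hp, hF2 p hp, disjoint_insert_right]
      exact ⟨huT p hp, h.dis p hp⟩
    · obtain ⟨h1, h2, h3, h4⟩ := hD b hb
      show Disjoint (T (φ' a) (φ' b)) _
      rw [hφa, hφB b h1, disjoint_insert_right]
      exact ⟨(hG.nm _ _ h3).1, h4.mono_right subset_union_left⟩
  · intro p hp q hq hpq
    rcases hmemF' p hp with hp | ⟨b, hb, rfl⟩
    · rcases hmemF' q hq with hq | ⟨b', hb', rfl⟩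
      · rw [hF1 p hp, hF2 p hp, hF1 q hq, hF2 q hq]
        exact h.pdis p hp q hq hpq
      · exact hcross p hp b' hb'
    · rcases hmemF' q hq with hq | ⟨b', hb', rfl⟩
      · exact (hcross q hq b hb).symm
      · obtain ⟨h1, h2, h3, h4⟩ := hD b hb
        obtain ⟨k1, k2, k3, k4⟩ := hD b' hb'
        show Disjoint (T (φ' a) (φ' b)) (T (φ' a) (φ' b'))
        rw [hφa, hφB b h1, hφB b' k1]
        refine hG.disj u _ _ h3 k3 ?_
        intro hc
        have := hyi (mem_coe.2 h1) (mem_coe.2 k1) hc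
        exact hpq (by rw [this])
  · have hdisj : Disjoint F (D.image (fun b => (a, b))) := by
      rw [disjoint_left]
      intro p hp hp'
      obtain ⟨b, hb, rfl⟩ := mem_image.1 hp'
      exact haV (h.sub _ hp).1
    rw [card_union_of_disjoint hdisj, card_image_of_injective _ (fun b b' hbb =>
      (Prod.mk.inj hbb).2), mul_add]
    omega

theorem MO : S_MO := by
  classical
  intro n w M m P G T B Hi N hn hG hO hBH hHi hsum hM
  -- the injection
  obtain ⟨e⟩ : Nonempty (B ↪ Hi) :=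
    Function.Embedding.nonempty_of_card_le (by simpa using hBH)
  let y : Fin n → Fin n := fun x => if h : x ∈ B then (e ⟨x, h⟩ : Fin n) else x
  have hyB : ∀ b (hb : b ∈ B), y b = (e ⟨b, hb⟩ : Fin n) := fun b hb => dif_pos hb
  have hyi : Set.InjOn y (↑B : Set (Fin n)) := by
    intro b hb b' hb' hbb
    have hb1 := mem_coe.1 hb
    have hb2 := mem_coe.1 hb'
    rw [hyB b hb1, hyB b' hb2] at hbb
    have := e.injective (Subtype.ext hbb)
    exact congrArg Subtype.val this
  have hy : ∀ b ∈ B, M ≤ dgr G (y b) := by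
    intro b hb
    rw [hyB b hb]
    exact hHi _ (e ⟨b, hb⟩).2
  have hV0 : ∀ a ∈ B.biUnion N, a ∉ B := by
    intro a ha
    obtain ⟨b, hb, hab⟩ := mem_biUnion.1 ha
    exact (hO b hb a hab).2
  have key : ∀ V : Finset (Fin n), V ⊆ B.biUnion N →
      Emb P G T m (B.card + (B.biUnion N).card) ∨
      ∃ F φ, MO_St G T B V N y F φ ∧ F.card < m ∧
        (∑ a ∈ V, (B.filter (fun b => a ∈ N b)).card) * M ≤ 2 * n * F.card := by
    intro V
    induction V using Finset.induction_on with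
    | empty =>
      intro _
      have hst : MO_St G T B ∅ N y ∅ y :=
        ⟨by simp, fun _ _ => rfl, by simpa using hyi, by simp, by simp, by simp⟩
      rcases Nat.eq_zero_or_pos m with hm | hm
      · left
        subst hm
        exact MO_emb hO (by simp) hst (by simp) (by simp)
      · right
        exact ⟨∅, y, hst, by simpa using hm, by simp⟩
    | insert a V haV ih =>
      intro hsub
      have haV0 : a ∈ B.biUnion N := hsub (mem_insert_self _ _)
      have hVsub : V ⊆ B.biUnion N := fun x hx => hsub (mem_insert_of_mem hx)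
      rcases ih hVsub with hE | ⟨F, φ, hst, hFm, hFs⟩
      · exact Or.inl hE
      obtain ⟨b, hb, hab⟩ := mem_biUnion.1 haV0
      have hr : (B.filter (fun b => a ∈ N b)).Nonempty := ⟨b, mem_filter.2 ⟨hb, hab⟩⟩
      have hVc := card_le_card hVsub
      have hBpos : 0 < B.card := card_pos.2 ⟨b, hb⟩
      have hwF : w * F.card ≤ w * (m + B.card) := Nat.mul_le_mul_left _ (by omega)
      obtain ⟨F', φ', hst', hcard⟩ := MO_step (M := M) (m := m) hG hyi hy (by omega) (by omega)
        hst a haV (hV0 a haV0) hr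
      rcases lt_or_ge F'.card m with hlt | hge
      · right
        refine ⟨F', φ', hst', hlt, ?_⟩
        rw [sum_insert haV, add_mul]
        omega
      · left
        refine MO_emb hO ?_ hst' hge ?_
        · intro v hv
          exact hV0 v (hsub hv)
        · have := card_le_card hsub
          omega
  rcases key _ (Subset.refl _) with h | ⟨F, φ, hst, hFm, hFs⟩
  · exact h
  · exfalso
    have hdc : ∑ a ∈ B.biUnion N, (B.filter (fun b => a ∈ N b)).card = ∑ b ∈ B, (N b).card := by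
      have h1 : ∑ a ∈ B.biUnion N, (B.filter (fun b => a ∈ N b)).card
          = ∑ b ∈ B, ((B.biUnion N).filter (fun a => a ∈ N b)).card :=
        sum_card_bipartiteAbove_eq_sum_card_bipartiteBelow (fun a b => a ∈ N b)
      rw [h1]
      refine sum_congr rfl fun b hb => ?_
      congr 1
      ext x
      constructor
      · intro hx
        exact (mem_filter.1 hx).2
      · intro hx
        exact mem_filter.2 ⟨mem_biUnion.2 ⟨b, hb, hx⟩, hx⟩
    rw [hdc] at hFs
    have h1 : 2 * n * m ≤ 2 * n * F.card := hsum.trans hFs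
    have h2 : m ≤ F.card := Nat.le_of_mul_le_mul_left h1 (by omega)
    omega

end H773V
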