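import Pool.Agent.H773R2.U2.Defs

/-! Task MULTI. -/

namespace H773V

open Finset Pool.Agent.Results.MP_9dddc4_co.UkExponent

theorem MULTI_mem_cov {n : ℕ} {F : ES n} {e : Finset (Fin n)} (he : e ∈ F) {x : Fin n}
    (hx : x ∈ e) : x ∈ cov F := by
  unfold cov
  exact mem_biUnion.2 ⟨e, he, hx⟩

theorem MULTI_cov_union {n : ℕ} (F F' : ES n) : cov (F ∪ F') = cov F ∪ cov F' := by
  classical
  unfold cov
  exact union_biUnion

theorem MULTI_core {n : ℕ} (N Mx : ℕ) (H1 H2 : ES n) (Q : Finset (Fin n)) (μ : Fin n → ℕ)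
    (hH : IsRGraph 3 H1)
    (hP : ∀ z ∈ Q, ∀ U1 U2 : Finset (Fin n), U1.card ≤ Mx → U2.card ≤ Mx → z ∉ U2 →
      Piece H1 H2 U1 U2 (μ z) N) (Q' : Finset (Fin n)) :
    Q' ⊆ Q → Q'.card * N + Q.card ≤ Mx →
    ∃ (F : ES n) (f : Fin n → Fin n), F ⊆ H1 ∧ Set.InjOn f (cov F : Set (Fin n)) ∧
      img f F ⊆ H2 ∧ ∑ z ∈ Q', μ z ≤ F.card ∧ (cov F).card ≤ Q'.card * N ∧
      Disjoint ((cov F).image f) (Q \ Q') := by
  classical
  induction Q' using Finset.induction_on with
  | empty =>
    intro _ _
    refine ⟨∅, id, empty_subset _, ?_, ?_, ?_, ?_, ?_⟩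
    · exact Function.injective_id.injOn
    · unfold img
      simp
    · simp
    · simp [cov]
    · simp [cov]
  | insert z Q' hz ih =>
    intro hsub hcard
    rw [card_insert_of_notMem hz] at hcard
    have hzQ : z ∈ Q := hsub (mem_insert_self _ _)
    obtain ⟨F, f, hF, hf, hfi, hsum, hcov, hdis⟩ :=
      ih ((subset_insert _ _).trans hsub) (by nlinarith)
    have hz2 : z ∉ (cov F).image f ∪ Q.erase z := by
      intro h
      rcases mem_union.1 h with h | h
      · exact (disjoint_left.1 hdis h) (mem_sdiff.2 ⟨hzQ, hz⟩)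
      · exact (notMem_erase _ _) h
    obtain ⟨F1, f1, hF1, hf1, hfi1, hm1, hd1, hd2, hN1⟩ := hP z hzQ (cov F)
      ((cov F).image f ∪ Q.erase z) (by nlinarith) (by
        refine (card_union_le _ _).trans ?_
        have h1 : ((cov F).image f).card ≤ (cov F).card := card_image_le
        have h2 : (Q.erase z).card ≤ Q.card := card_le_card (erase_subset _ _)
        nlinarith) hz2
    set f' : Fin n → Fin n := fun x => if x ∈ cov F then f x else f1 x with hf'
    have hfF : ∀ x ∈ cov F, f' x = f x := fun x hx => if_pos hx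
    have hfF1 : ∀ x ∈ cov F1, f' x = f1 x := fun x hx => if_neg (disjoint_left.1 hd1 hx)
    have himF : ∀ e ∈ F, e.image f' = e.image f := by
      intro e he
      exact image_congr fun x hx => hfF x (MULTI_mem_cov he hx)
    have himF1 : ∀ e ∈ F1, e.image f' = e.image f1 := by
      intro e he
      exact image_congr fun x hx => hfF1 x (MULTI_mem_cov he hx)
    have hFF1 : Disjoint F F1 := by
      rw [disjoint_left]
      intro e he he1
      have h3 : e.card = 3 := hH e (hF he)
      obtain ⟨x, hx⟩ := card_pos.1 (by omega : 0 < e.card)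
      exact disjoint_left.1 hd1 (MULTI_mem_cov he1 hx) (MULTI_mem_cov he hx)
    refine ⟨F ∪ F1, f', union_subset hF hF1, ?_, ?_, ?_, ?_, ?_⟩
    · rw [MULTI_cov_union]
      intro x hx y hy hxy
      rw [coe_union] at hx hy
      rcases hx with hx | hx <;> rcases hy with hy | hy
      · rw [hfF x hx, hfF y hy] at hxy
        exact hf hx hy hxy
      · rw [hfF x hx, hfF1 y hy] at hxy
        exact absurd (mem_union_left _ (mem_image.2 ⟨x, hx, hxy⟩))
          (disjoint_left.1 hd2 (mem_image_of_mem f1 hy))
      · rw [hfF1 x hx, hfF y hy] at hxy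
        exact absurd (mem_union_left _ (mem_image.2 ⟨y, hy, hxy.symm⟩))
          (disjoint_left.1 hd2 (mem_image_of_mem f1 hx))
      · rw [hfF1 x hx, hfF1 y hy] at hxy
        exact hf1 hx hy hxy
    · intro e he
      unfold img at he
      obtain ⟨e', he', rfl⟩ := mem_image.1 he
      rcases mem_union.1 he' with h | h
      · rw [himF e' h]
        exact hfi (mem_image_of_mem _ h)
      · rw [himF1 e' h]
        exact hfi1 (mem_image_of_mem _ h)
    · rw [sum_insert hz, card_union_of_disjoint hFF1]
      omega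
    · rw [MULTI_cov_union, card_insert_of_notMem hz]
      refine (card_union_le _ _).trans ?_
      nlinarith
    · rw [MULTI_cov_union, image_union, disjoint_union_left]
      constructor
      · have : (cov F).image f' = (cov F).image f := image_congr fun x hx => hfF x hx
        rw [this]
        refine disjoint_of_subset_right ?_ hdis
        exact sdiff_subset_sdiff le_rfl (subset_insert _ _)
      · have : (cov F1).image f' = (cov F1).image f1 := image_congr fun x hx => hfF1 x hx
        rw [this]
        refine disjoint_of_subset_right ?_ hd2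
        intro x hx
        rw [mem_sdiff, mem_insert, not_or] at hx
        exact mem_union_right _ (mem_erase.2 ⟨hx.2.1, hx.1⟩)

theorem MULTI : S_MULTI := by
  intro n N Mx H1 H2 Q μ hH hP Q' hQ' hcard
  obtain ⟨F, f, h1, h2, h3, h4, -, -⟩ := MULTI_core N Mx H1 H2 Q μ hH hP Q' hQ' hcard
  exact ⟨F, f, h1, h2, h3, h4⟩

end H773V
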