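import Pool.Agent.H773R2.U2.Defs

/-! NC0: 3-graphs without large matchings. -/

set_option linter.unusedVariables false

namespace H773V

open Finset Pool.Agent.Results.MP_9dddc4_co.UkExponent
open H773U (ContainsT Tr dg cg nn mm)

theorem NC0_contains {n A : ℕ} (H M : ES n) (hH : IsRGraph 3 H) (hM : M ⊆ H)
    (hd : ∀ f ∈ M, ∀ f' ∈ M, f ≠ f' → Disjoint f f') (hA : A ≤ M.card) : ContainsT H A 1 1 := by
  classical
  obtain ⟨g0⟩ : Nonempty (Fin A ↪ M) := by
    apply Function.Embedding.nonempty_of_card_le
    simpa using hA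
  set g : Fin A → Finset (Fin n) := fun i => (g0 i : Finset (Fin n)) with hg
  have hgM : ∀ i, g i ∈ M := fun i => (g0 i).2
  have hginj : Function.Injective g := fun i j h => g0.injective (Subtype.ext h)
  have h3 : ∀ i, ∃ x y z, x ≠ y ∧ x ≠ z ∧ y ≠ z ∧ g i = {x, y, z} := fun i =>
    Finset.card_eq_three.1 (hH (g i) (hM (hgM i)))
  choose x y z hxy hxz hyz hgi using h3
  have key : ∀ i i' u, u ∈ g i → u ∈ g i' → i = i' := by
    intro i i' u hu hu'
    by_contra hne
    exact Finset.disjoint_left.1 (hd (g i) (hgM i) (g i') (hgM i') (fun h => hne (hginj h))) hu hu'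
  have mx : ∀ i, x i ∈ g i := fun i => by rw [hgi]; simp
  have my : ∀ i, y i ∈ g i := fun i => by rw [hgi]; simp
  have mz : ∀ i, z i ∈ g i := fun i => by rw [hgi]; simp
  refine ⟨Sum.elim (Sum.elim x (fun p => y p.1)) (fun p => z p.1), ?_, ?_⟩
  · rintro ((i | ⟨i, j⟩) | ⟨i, j, l⟩) ((i' | ⟨i', j'⟩) | ⟨i', j', l'⟩) h <;>
      simp only [Sum.elim_inl, Sum.elim_inr] at h
    · have := key i i' _ (mx i) (h ▸ mx i')
      subst this; rfl
    · have := key i i' _ (mx i) (h ▸ my i')
      subst this; exact absurd h (hxy i)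
    · have := key i i' _ (mx i) (h ▸ mz i')
      subst this; exact absurd h (hxz i)
    · have := key i i' _ (my i) (h ▸ mx i')
      subst this; exact absurd h.symm (hxy i)
    · have := key i i' _ (my i) (h ▸ my i')
      subst this
      rw [Subsingleton.elim j j']
    · have := key i i' _ (my i) (h ▸ mz i')
      subst this; exact absurd h (hyz i)
    · have := key i i' _ (mz i) (h ▸ mx i')
      subst this; exact absurd h.symm (hxz i)
    · have := key i i' _ (mz i) (h ▸ my i')
      subst this; exact absurd h.symm (hyz i)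
    · have := key i i' _ (mz i) (h ▸ mz i')
      subst this
      rw [Subsingleton.elim j j', Subsingleton.elim l l']
  · intro i j l
    show ({x i, y i, z i} : Finset (Fin n)) ∈ H
    rw [← hgi]
    exact hM (hgM i)

theorem NC0 : S_NC0 := by
  classical
  intro n A H hH hno
  set S := H.powerset.filter (fun M => ∀ f ∈ M, ∀ f' ∈ M, f ≠ f' → Disjoint f f') with hS
  have hne : S.Nonempty := ⟨∅, by rw [hS, Finset.mem_filter]; exact ⟨Finset.empty_mem_powerset _, by simp⟩⟩
  obtain ⟨M, hM, hmax⟩ := Finset.exists_max_image S Finset.card hne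
  rw [hS, Finset.mem_filter, Finset.mem_powerset] at hM
  obtain ⟨hMH, hMd⟩ := hM
  have hlt : M.card < A := by
    by_contra hc
    exact hno (NC0_contains H M hH hMH hMd (not_lt.1 hc))
  refine ⟨M.biUnion id, ?_, ?_⟩
  · calc (M.biUnion id).card ≤ ∑ f ∈ M, (id f).card := Finset.card_biUnion_le
      _ = ∑ f ∈ M, 3 := Finset.sum_congr rfl (fun f hf => hH f (hMH hf))
      _ = M.card * 3 := by rw [Finset.sum_const, smul_eq_mul]
      _ ≤ 3 * A := by omega
  · intro f hf
    by_contra hc
    push Not at hc
    have hdis : ∀ f' ∈ M, Disjoint f f' := by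
      intro f' hf'
      rw [Finset.disjoint_left]
      intro v hv hv'
      exact hc v hv (Finset.mem_biUnion.2 ⟨f', hf', hv'⟩)
    have hfM : f ∉ M := by
      intro h
      have h1 := hdis f h
      rw [disjoint_self, Finset.bot_eq_empty] at h1
      have := hH f hf
      rw [h1] at this
      simp at this
    have hin : insert f M ∈ S := by
      rw [hS, Finset.mem_filter, Finset.mem_powerset]
      refine ⟨Finset.insert_subset hf hMH, ?_⟩
      intro a ha b hb hab
      rcases Finset.mem_insert.1 ha with e1 | ha' <;> rcases Finset.mem_insert.1 hb with e2 | hb'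
      · exact absurd (e1.trans e2.symm) hab
      · rw [e1]; exact hdis b hb'
      · rw [e2]; exact (hdis a ha').symm
      · exact hMd a ha' b hb' hab
    have := hmax _ hin
    rw [Finset.card_insert_of_notMem hfM] at this
    omega

end H773V
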