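import Pool.Agent.H773R2.U2.Defs

/-! Task NC1. -/

set_option autoImplicit false

namespace H773V

open Finset Pool.Agent.Results.MP_9dddc4_co.UkExponent
open H773U (ContainsT Tr dg cg nn mm)

/-- sets of edges through `v` which are disjoint outside `v` -/
def NC1_good {n : ℕ} (H : ES n) (v : Fin n) (M : ES n) : Prop :=
  (∀ f ∈ M, f ∈ H ∧ v ∈ f) ∧ ∀ f ∈ M, ∀ g ∈ M, f ≠ g → Disjoint (f.erase v) (g.erase v)

theorem NC1_contains {n A : ℕ} {H M : ES n} {v : Fin n} (hH : IsRGraph 3 H)
    (hM : NC1_good H v M) (hA : A ≤ M.card) : ContainsT H 1 A 1 := by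
  classical
  have hxy : ∀ f : Finset (Fin n), f ∈ M → ∃ x y : Fin n, x ≠ y ∧ f.erase v = {x, y} := by
    intro f hf
    obtain ⟨h1, h2⟩ := hM.1 f hf
    have h3 : (f.erase v).card = 2 := by
      rw [card_erase_of_mem h2, hH f h1]
    obtain ⟨x, y, hne, he⟩ := card_eq_two.1 h3
    exact ⟨x, y, hne, he⟩
  have : Nonempty (Fin n) := ⟨v⟩
  choose! x y hne hxe using hxy
  have hcard : Fintype.card (Fin A) ≤ Fintype.card {f // f ∈ M} := by
    simpa using hA
  obtain ⟨e⟩ := Function.Embedding.nonempty_of_card_le hcard
  have hx : ∀ j, x (e j) ∈ (e j : Finset (Fin n)).erase v := by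
    intro j
    rw [hxe _ (e j).2]
    simp
  have hy : ∀ j, y (e j) ∈ (e j : Finset (Fin n)).erase v := by
    intro j
    rw [hxe _ (e j).2]
    simp
  have hdis : ∀ i j, i ≠ j →
      Disjoint ((e i : Finset (Fin n)).erase v) ((e j : Finset (Fin n)).erase v) := by
    intro i j hij
    apply hM.2 _ (e i).2 _ (e j).2
    intro h
    exact hij (e.injective (Subtype.ext h))
  refine ⟨fun t => match t with
    | .inl (.inl _) => v
    | .inl (.inr (_, j)) => x (e j)
    | .inr (_, j, _) => y (e j), ?_, ?_⟩
  · rintro ((i | ⟨i, j⟩) | ⟨i, j, l⟩) ((i' | ⟨i', j'⟩) | ⟨i', j', l'⟩) h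
    · rw [Subsingleton.elim i i']
    · exact absurd (hx j') (by
        have h' : v = x (e j') := h
        rw [← h']
        exact notMem_erase _ _)
    · exact absurd (hy j') (by
        have h' : v = y (e j') := h
        rw [← h']
        exact notMem_erase _ _)
    · exact absurd (hx j) (by
        have h' : x (e j) = v := h
        rw [h']
        exact notMem_erase _ _)
    · have h' : x (e j) = x (e j') := h
      by_cases hj : j = j'
      · subst hj
        rw [Subsingleton.elim i i']
      · exact absurd h' ((disjoint_left.1 (hdis j j' hj) (hx j)) ∘ fun hh => by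
          rw [hh]; exact hx j')
    · have h' : x (e j) = y (e j') := h
      by_cases hj : j = j'
      · subst hj
        exact absurd h' (hne _ (e j).2)
      · exact absurd h' ((disjoint_left.1 (hdis j j' hj) (hx j)) ∘ fun hh => by
          rw [hh]; exact hy j')
    · exact absurd (hy j) (by
        have h' : y (e j) = v := h
        rw [h']
        exact notMem_erase _ _)
    · have h' : y (e j) = x (e j') := h
      by_cases hj : j = j'
      · subst hj
        exact absurd h'.symm (hne _ (e j).2)
      · exact absurd h' ((disjoint_left.1 (hdis j j' hj) (hy j)) ∘ fun hh => by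
          rw [hh]; exact hx j')
    · have h' : y (e j) = y (e j') := h
      by_cases hj : j = j'
      · subst hj
        rw [Subsingleton.elim i i', Subsingleton.elim l l']
      · exact absurd h' ((disjoint_left.1 (hdis j j' hj) (hy j)) ∘ fun hh => by
          rw [hh]; exact hy j')
  · intro i j l
    have h1 := hM.1 _ (e j).2
    have h2 : ({v, x (e j), y (e j)} : Finset (Fin n)) = (e j : Finset (Fin n)) := by
      rw [← hxe _ (e j).2, insert_erase h1.2]
    show ({v, x (e j), y (e j)} : Finset (Fin n)) ∈ H
    rw [h2]
    exact h1.1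

theorem NC1 : S_NC1 := by
  classical
  intro n A H hH hA v
  let G : Finset (ES n) := (H.powerset).filter (fun M => NC1_good H v M)
  have hG : G.Nonempty := by
    refine ⟨∅, ?_⟩
    rw [mem_filter, mem_powerset]
    exact ⟨empty_subset _, by simp [NC1_good]⟩
  obtain ⟨M, hMG, hmax⟩ := exists_max_image G card hG
  rw [mem_filter, mem_powerset] at hMG
  obtain ⟨hMH, hM⟩ := hMG
  have hlt : M.card < A := by
    by_contra h
    exact hA (NC1_contains hH hM (not_lt.1 h))
  refine ⟨M.biUnion (fun f => f.erase v), ?_, ?_, ?_⟩
  · refine (card_biUnion_le).trans ?_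
    have : ∑ f ∈ M, (f.erase v).card = ∑ f ∈ M, 2 := by
      apply sum_congr rfl
      intro f hf
      obtain ⟨h1, h2⟩ := hM.1 f hf
      rw [card_erase_of_mem h2, hH f h1]
    rw [this, sum_const, smul_eq_mul]
    omega
  · intro h
    rw [mem_biUnion] at h
    obtain ⟨f, -, hf⟩ := h
    exact notMem_erase _ _ hf
  · intro f hf hvf
    by_contra hcon
    push Not at hcon
    have hW : ∀ g ∈ M, Disjoint (f.erase v) (g.erase v) := by
      intro g hg
      rw [disjoint_left]
      intro w hw hw'
      exact hcon w (mem_of_mem_erase hw) (mem_biUnion.2 ⟨g, hg, hw'⟩)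
    have hfM : f ∉ M := by
      intro hfM
      have h1 := hW f hfM
      rw [disjoint_self_iff_empty] at h1
      have h2 : (f.erase v).card = 2 := by
        rw [card_erase_of_mem hvf, hH f hf]
      rw [h1] at h2
      simp at h2
    have hins : insert f M ∈ G := by
      rw [mem_filter, mem_powerset]
      refine ⟨insert_subset hf hMH, ?_, ?_⟩
      · intro g hg
        rcases mem_insert.1 hg with rfl | hg
        · exact ⟨hf, hvf⟩
        · exact hM.1 g hg
      · intro g hg g' hg' hne
        rcases mem_insert.1 hg with h1 | h1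
        · rcases mem_insert.1 hg' with h2 | h2
          · exact absurd (h1.trans h2.symm) hne
          · rw [h1]
            exact hW g' h2
        · rcases mem_insert.1 hg' with h2 | h2
          · rw [h2]
            exact (hW g h1).symm
          · exact hM.2 g h1 g' h2 hne
    have := hmax _ hins
    rw [card_insert_of_notMem hfM] at this
    omega

end H773V
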