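import Pool.Agent.H773R2.U2.Defs

set_option linter.unusedVariables false

namespace H773V

open Finset Pool.Agent.Results.MP_9dddc4_co.UkExponent
open H773U (ContainsT Tr dg cg nn mm)

/-- thirds -/
def NC2_W {n : ℕ} (H : ES n) (u v : Fin n) : Finset (Fin n) :=
  univ.filter (fun w => w ≠ u ∧ w ≠ v ∧ ({u, v, w} : Finset (Fin n)) ∈ H)

theorem NC2_card {n : ℕ} (H : ES n) (hH : IsRGraph 3 H) (u v : Fin n) (huv : u ≠ v) :
    cod H u v ≤ (NC2_W H u v).card := by
  have hsub : H.filter (fun f => u ∈ f ∧ v ∈ f) ⊆
      (NC2_W H u v).image (fun w => ({u, v, w} : Finset (Fin n))) := by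
    intro f hf
    rw [mem_filter] at hf
    obtain ⟨hfH, hu, hv⟩ := hf
    have h3 := hH f hfH
    have h2 : ({u, v} : Finset (Fin n)) ⊆ f := by
      intro x hx
      rw [mem_insert, mem_singleton] at hx
      rcases hx with rfl | rfl
      · exact hu
      · exact hv
    have hc : (f \ {u, v}).card = 1 := by
      rw [card_sdiff_of_subset h2, card_pair huv, h3]
    obtain ⟨w, hw⟩ := card_eq_one.1 hc
    have hwm : w ∈ f \ {u, v} := by rw [hw]; exact mem_singleton_self w
    rw [mem_sdiff, mem_insert, mem_singleton, not_or] at hwm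
    have hf' : ({u, v, w} : Finset (Fin n)) = f := by
      ext x
      constructor
      · intro hx
        rw [mem_insert, mem_insert, mem_singleton] at hx
        rcases hx with rfl | rfl | rfl
        · exact hu
        · exact hv
        · exact hwm.1
      · intro hx
        rw [mem_insert, mem_insert, mem_singleton]
        by_cases h : x ∈ ({u, v} : Finset (Fin n))
        · rw [mem_insert, mem_singleton] at h
          tauto
        · have : x ∈ f \ {u, v} := mem_sdiff.2 ⟨hx, h⟩
          rw [hw, mem_singleton] at this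
          tauto
    refine mem_image.2 ⟨w, ?_, hf'⟩
    rw [NC2_W, mem_filter]
    exact ⟨mem_univ _, hwm.2.1, hwm.2.2, hf'.symm ▸ hfH⟩
  exact (card_le_card hsub).trans card_image_le

theorem NC2 : S_NC2 := by
  intro n A H hH hT u v huv
  by_contra hcon
  rw [not_lt] at hcon
  apply hT
  have hA : A ≤ (NC2_W H u v).card := hcon.trans (NC2_card H hH u v huv)
  let e : Fin A → Fin n := fun l => ((NC2_W H u v).equivFin.symm (Fin.castLE hA l) : Fin n)
  have he : ∀ l, e l ∈ NC2_W H u v := fun l => ((NC2_W H u v).equivFin.symm (Fin.castLE hA l)).2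
  have hinj : Function.Injective e := by
    intro a b hab
    have h1 : (NC2_W H u v).equivFin.symm (Fin.castLE hA a) =
      (NC2_W H u v).equivFin.symm (Fin.castLE hA b) := Subtype.ext hab
    exact Fin.castLE_injective hA ((NC2_W H u v).equivFin.symm.injective h1)
  have he' : ∀ l, e l ≠ u ∧ e l ≠ v ∧ ({u, v, e l} : Finset (Fin n)) ∈ H := by
    intro l
    have := he l
    rw [NC2_W, mem_filter] at this
    exact this.2
  refine ⟨fun x => match x with
    | .inl (.inl _) => u
    | .inl (.inr _) => v
    | .inr (_, _, l) => e l, ?_, ?_⟩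
  · rintro ((a | ⟨a, a'⟩) | ⟨a, a', a''⟩) ((b | ⟨b, b'⟩) | ⟨b, b', b''⟩) hab
    · rw [Subsingleton.elim a b]
    · exact absurd hab huv
    · exact absurd hab.symm (he' _).1
    · exact absurd hab.symm huv
    · rw [Subsingleton.elim a b, Subsingleton.elim a' b']
    · exact absurd hab.symm (he' _).2.1
    · exact absurd hab (he' _).1
    · exact absurd hab (he' _).2.1
    · have : a'' = b'' := hinj hab
      rw [this, Subsingleton.elim a b, Subsingleton.elim a' b']
  · intro i j l
    exact (he' l).2.2

end H773V
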