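import Pool.Agent.H773R2.U2.Defs

namespace H773V

open Finset Pool.Agent.Results.MP_9dddc4_co.UkExponent
open H773U (ContainsT Tr dg cg nn mm)

theorem NOT3 (h0 : S_NC0) (h1 : S_NC1) (h2 : S_NC2) (hT : S_TK) : S_NOT3 := by
  intro n A H hH c0 c1 c2
  obtain ⟨Z, hZ, hZH⟩ := h0 n A H hH c0
  have hW := h1 n A H hH c1
  have hC := h2 n A H hH c2
  obtain ⟨_, _, _, _, _, h6, _, _⟩ := hT n H hH
  have hdeg : ∀ z, deg H z ≤ 2 * A * A := by
    intro z
    obtain ⟨W, hWc, hzW, hWH⟩ := hW z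
    refine le_trans (h6 z W hWH) ?_
    calc ∑ w ∈ W, cod H z w ≤ ∑ w ∈ W, A := by
          apply Finset.sum_le_sum
          intro w hw
          exact (hC z w (fun h => hzW (h ▸ hw))).le
      _ = W.card * A := by rw [Finset.sum_const, smul_eq_mul]
      _ ≤ 2 * A * A := Nat.mul_le_mul_right _ hWc
  have hH1 : H ⊆ Z.biUnion (fun z => H.filter (fun f => z ∈ f)) := by
    intro f hf
    obtain ⟨v, hv, hvZ⟩ := hZH f hf
    exact mem_biUnion.2 ⟨v, hvZ, mem_filter.2 ⟨hf, hv⟩⟩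
  calc H.card ≤ (Z.biUnion (fun z => H.filter (fun f => z ∈ f))).card := card_le_card hH1
    _ ≤ ∑ z ∈ Z, (H.filter (fun f => z ∈ f)).card := card_biUnion_le
    _ ≤ ∑ z ∈ Z, 2 * A * A := Finset.sum_le_sum (fun z _ => hdeg z)
    _ = Z.card * (2 * A * A) := by rw [Finset.sum_const, smul_eq_mul]
    _ ≤ 3 * A * (2 * A * A) := Nat.mul_le_mul_right _ hZ
    _ = 6 * A ^ 3 := by ring

end H773V
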