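import Pool.Agent.H773R2.U2.Defs

/-! Task OC: one centre. -/

namespace H773V

open Finset Pool.Agent.Results.MP_9dddc4_co.UkExponent
open H773U (ContainsT Tr dg cg nn mm)

theorem OC_SG {n : ℕ} (H : ES n) (v : Fin n) (U : Finset (Fin n)) : SG (lkp H v U) := by
  intro a b hab
  unfold lkp at hab ⊢
  simp only [mem_filter, mem_univ, true_and] at hab ⊢
  obtain ⟨h1, h2, h3, h4, h5, h6⟩ := hab
  refine ⟨⟨h1.symm, h3, h2, ?_, h6, h5⟩, h1⟩
  rwa [Finset.pair_comm b a]

theorem OC_card {n : ℕ} (H : ES n) (hH : IsRGraph 3 H) (v : Fin n) (U : Finset (Fin n)) :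
    2 * (H.filter (fun f => v ∈ f ∧ Disjoint f U)).card ≤ (lkp H v U).card := by
  classical
  set S := H.filter (fun f => v ∈ f ∧ Disjoint f U) with hS
  set Fb : Finset (Fin n) → Finset (Fin n × Fin n) := fun f =>
    (lkp H v U).filter (fun p => ({v, p.1, p.2} : Finset (Fin n)) = f) with hFb
  have hfib : ∀ f ∈ S, 2 ≤ (Fb f).card := by
    intro f hf
    rw [hS, mem_filter] at hf
    obtain ⟨hfH, hvf, hd⟩ := hf
    have h3 : f.card = 3 := hH f hfH
    have h2 : (f.erase v).card = 2 := by rw [card_erase_of_mem hvf, h3]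
    obtain ⟨a, b, hab, hfe⟩ := card_eq_two.1 h2
    have ha : a ∈ f.erase v := by rw [hfe]; simp
    have hb : b ∈ f.erase v := by rw [hfe]; simp
    rw [mem_erase] at ha hb
    have hf' : ({v, a, b} : Finset (Fin n)) = f := by
      rw [← hfe, insert_erase hvf]
    have haU : a ∉ U := fun h => (Finset.disjoint_left.1 hd) ha.2 h
    have hbU : b ∉ U := fun h => (Finset.disjoint_left.1 hd) hb.2 h
    have hsub : ({(a, b), (b, a)} : Finset (Fin n × Fin n)) ⊆ Fb f := by
      intro p hp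
      rw [mem_insert, mem_singleton] at hp
      rw [hFb, mem_filter]
      unfold lkp
      simp only [mem_filter, mem_univ, true_and]
      rcases hp with rfl | rfl
      · exact ⟨⟨hab, ha.1, hb.1, by rw [hf']; exact hfH, haU, hbU⟩, hf'⟩
      · refine ⟨⟨hab.symm, hb.1, ha.1, ?_, hbU, haU⟩, ?_⟩
        · show ({v, b, a} : Finset (Fin n)) ∈ H
          rw [Finset.pair_comm b a, hf']; exact hfH
        · show ({v, b, a} : Finset (Fin n)) = f
          rw [Finset.pair_comm b a, hf']
    calc 2 = ({(a, b), (b, a)} : Finset (Fin n × Fin n)).card := by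
          rw [card_pair]
          intro h
          exact hab (Prod.mk.inj h).1
      _ ≤ _ := card_le_card hsub
  calc 2 * S.card = ∑ f ∈ S, 2 := by rw [sum_const, smul_eq_mul, mul_comm]
    _ ≤ ∑ f ∈ S, (Fb f).card := sum_le_sum hfib
    _ = (S.biUnion Fb).card := by
        rw [card_biUnion]
        intro f _ f' _ hff'
        show Disjoint (Fb f) (Fb f')
        rw [Finset.disjoint_left]
        intro p hp hp'
        rw [hFb, mem_filter] at hp hp'
        exact hff' (hp.2.symm.trans hp'.2)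
    _ ≤ _ := card_le_card (biUnion_subset.2 fun f _ => filter_subset _ _)

theorem OC_GT {n : ℕ} (G : Finset (Fin n × Fin n)) (hG : SG G) :
    GT G (fun _ _ => (∅ : Finset (Fin n))) 0 where
  sg := hG
  tsym := fun _ _ => rfl
  card := fun _ _ _ => rfl
  nm := fun _ _ _ => ⟨by simp, by simp⟩
  disj := fun _ _ _ _ _ _ => by simp

theorem OC_mono {n : ℕ} {P G : Finset (Fin n × Fin n)} {T : Fin n → Fin n → Finset (Fin n)}
    {m m' N : ℕ} (h : Emb P G T m N) (hm : m' ≤ m) : Emb P G T m' N := by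
  obtain ⟨F, φ, h1, h2, h3, h4⟩ := h
  exact ⟨F, φ, h1, h2, hm.trans h3, h4⟩

theorem OC_log (K : ℝ) (hK : 10 ^ 6 ≤ K) : 9600 * (1 + Real.log K) ≤ K := by
  have hK0 : (0 : ℝ) < K := by linarith [show (0 : ℝ) < 10 ^ 6 by norm_num]
  have h1 : Real.log (10 ^ 6) ≤ 20 := by
    rw [Real.log_le_iff_le_exp (by norm_num)]
    have : (2.7 : ℝ) ≤ Real.exp 1 := by linarith [Real.exp_one_gt_d9]
    calc (10 : ℝ) ^ 6 ≤ 2.7 ^ 20 := by norm_num
      _ ≤ (Real.exp 1) ^ 20 := pow_le_pow_left₀ (by norm_num) this 20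
      _ = Real.exp 20 := by rw [← Real.exp_nat_mul]; norm_num
  have h2 : Real.log K = Real.log (K / 10 ^ 6) + Real.log (10 ^ 6) := by
    rw [← Real.log_mul (by positivity) (by positivity)]
    congr 1
    field_simp
  have h3 : Real.log (K / 10 ^ 6) ≤ K / 10 ^ 6 - 1 := Real.log_le_sub_one_of_pos (by positivity)
  rw [h2]
  generalize Real.log (K / 10 ^ 6) = u at h3
  generalize Real.log (10 ^ 6) = w at h1
  norm_num at hK h3
  linarith

theorem OC_arith (l K x s : ℝ) (hl : 1 ≤ l) (hK : 10 ^ 6 ≤ K) (hx0 : 0 < x) (hx1 : x ≤ 1)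
    (hs : 0 < s) (hsm : 4800 ≤ l * x / (1 + Real.log K)) :
    ∃ h : ℕ, 1 ≤ h ∧ (l ^ 6)⁻¹ ≤ x ∧ (h : ℝ) * (1 + Real.log (h * K / (x * l))) ≤ l / 4800 ∧
      x * l ≤ h * K ∧ s * max 1 (l * x / (1 + Real.log K)) / 614400 ≤ s * h / 64 := by
  have hK1 : (1 : ℝ) ≤ K := le_trans (by norm_num) hK
  have hLK := OC_log K hK
  have hlog0 : 0 ≤ Real.log K := Real.log_nonneg hK1
  have hll : 0 < l := by linarith
  have hK0 : 0 < K := by linarith
  set L : ℝ := 1 + Real.log K with hL
  have hL1 : 1 ≤ L := by linarith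
  have hL0 : 0 < L := by linarith
  have hxl : 0 < x * l := mul_pos hx0 hll
  set y : ℝ := l * x / (4800 * L) with hy
  have hyl : y * (4800 * L) = x * l := by
    rw [hy, div_mul_cancel₀ _ (by positivity), mul_comm]
  have hyx : l * x / L = 4800 * y := by
    rw [div_eq_iff hL0.ne', mul_comm l x, ← hyl]
    ring
  have hy1 : 1 ≤ y := by
    rw [hyx] at hsm
    linarith
  have hy0 : 0 < y := by linarith
  have hh1 : 1 ≤ ⌊y⌋₊ := by
    rw [Nat.one_le_floor_iff]
    exact hy1
  set h : ℕ := ⌊y⌋₊ with hh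
  have hhr : (1 : ℝ) ≤ h := by exact_mod_cast hh1
  have hhy : (h : ℝ) ≤ y := Nat.floor_le hy0.le
  have hhy2 : y ≤ 2 * h := by
    have a1 : y < h + 1 := Nat.lt_floor_add_one y
    linarith
  have hh0 : (0 : ℝ) < h := by linarith
  have hyxl : y ≤ x * l := by
    rw [← hyl]
    exact le_mul_of_one_le_right hy0.le (by linarith)
  have c4 : x * l ≤ h * K := by
    calc x * l = y * (4800 * L) := hyl.symm
      _ ≤ 2 * h * (4800 * L) := mul_le_mul_of_nonneg_right hhy2 (by positivity)
      _ = h * (9600 * L) := by ring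
      _ ≤ h * K := mul_le_mul_of_nonneg_left hLK hh0.le
  refine ⟨h, hh1, ?_, ?_, c4, ?_⟩
  · have d1 : 1 ≤ x * l := hy1.trans hyxl
    rw [inv_le_iff_one_le_mul₀ (by positivity)]
    have d2 : l ≤ l ^ 6 := le_self_pow₀ hl (by norm_num)
    exact d1.trans (mul_le_mul_of_nonneg_left d2 hx0.le)
  · have d4 : 1 ≤ h * K / (x * l) := by
      rw [le_div_iff₀ hxl, one_mul]
      exact c4
    have d1 : h * K / (x * l) ≤ K := by
      rw [div_le_iff₀ hxl, mul_comm K]
      exact mul_le_mul_of_nonneg_right (hhy.trans hyxl) hK0.le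
    have d2 : Real.log (h * K / (x * l)) ≤ Real.log K := Real.log_le_log (by positivity) d1
    have d3 := Real.log_nonneg d4
    calc (h : ℝ) * (1 + Real.log (h * K / (x * l))) ≤ y * L :=
          mul_le_mul hhy (by rw [hL]; linarith) (by linarith) hy0.le
      _ = x * l / 4800 := by rw [← hyl]; ring
      _ ≤ l / 4800 := by
          have : x * l ≤ l := mul_le_of_le_one_left hll.le hx1
          linarith
  · have m1 : max 1 (l * x / L) ≤ 9600 * h := by
      refine max_le (by linarith) ?_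
      rw [hyx]
      linarith
    calc s * max 1 (l * x / L) / 614400 ≤ s * (9600 * h) / 614400 := by
          have := mul_le_mul_of_nonneg_left m1 hs.le
          linarith
      _ = s * h / 64 := by ring

/-- the number of edges avoiding a set when all degrees (or codegrees) are bounded -/
theorem OC_avoid {n : ℕ} (S : ES n) (U : Finset (Fin n)) (D : ℕ)
    (h : ∀ u ∈ U, (S.filter (fun f => u ∈ f)).card ≤ D) :
    S.card ≤ (S.filter (fun f => Disjoint f U)).card + U.card * D := by
  classical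
  have h1 : S.card = (S.filter (fun f => Disjoint f U)).card +
      (S.filter (fun f => ¬ Disjoint f U)).card := by
    rw [Finset.card_filter_add_card_filter_not]
  have h2 : S.filter (fun f => ¬ Disjoint f U) ⊆ U.biUnion (fun u => S.filter (fun f => u ∈ f)) := by
    intro f hf
    rw [mem_filter, Finset.not_disjoint_iff] at hf
    obtain ⟨hfS, u, huf, huU⟩ := hf
    rw [mem_biUnion]
    exact ⟨u, huU, by rw [mem_filter]; exact ⟨hfS, huf⟩⟩
  have h3 : (S.filter (fun f => ¬ Disjoint f U)).card ≤ U.card * D := by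
    refine (card_le_card h2).trans (card_biUnion_le.trans ?_)
    calc ∑ u ∈ U, (S.filter (fun f => u ∈ f)).card ≤ ∑ u ∈ U, D := sum_le_sum h
      _ = U.card * D := by rw [sum_const, smul_eq_mul]
  omega

theorem OC (hT : S_TK) (h1 : S_NC1) (h2 : S_NC2) (hL : S_LG) (hE : S_EMS) (h3 : S_LIFT3)
    (hP : S_PFS) : S_OC := by
  classical
  intro n e g A s l K H1 H2 U1 U2 z pf hK6 hH1 hH2 he1 he2 hc1 hc2 hz hU1 hU2 hzU
  obtain ⟨q1, q2, q3, q4, q5, q6, q7⟩ := hP n e g A s l K pf
  have hg6 : 10 ^ 6 ≤ g := pf.par.hg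
  have hg1 : 1 ≤ g := le_trans (by norm_num) hg6
  -- degrees in `H1`
  have hdeg1 : ∀ v, deg H1 v ≤ 2 * A * A := by
    intro v
    obtain ⟨W, hW, hvW, hWf⟩ := h1 n A H1 hH1 hc1 v
    have t6 := (hT n H1 hH1).2.2.2.2.2.1 v W hWf
    refine t6.trans ?_
    calc ∑ w ∈ W, cod H1 v w ≤ ∑ w ∈ W, A := by
          refine sum_le_sum fun w hw => ?_
          have : v ≠ w := fun h => hvW (h ▸ hw)
          exact (h2 n A H1 hH1 hc2 v w this).le
      _ = W.card * A := by rw [sum_const, smul_eq_mul]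
      _ ≤ 2 * A * A := Nat.mul_le_mul_right _ hW
  have hA2 : 2 * A * A ≤ 2 * g ^ 322 := by
    have : A * A ≤ g ^ 161 * g ^ 161 := Nat.mul_le_mul pf.par.a2 pf.par.a2
    rw [← pow_add] at this
    calc 2 * A * A = 2 * (A * A) := by ring
      _ ≤ 2 * g ^ 322 := Nat.mul_le_mul_left _ this
  -- edges of `H1` avoiding `U1`
  set S1 := H1.filter (fun f => Disjoint f U1) with hS1
  have hav1 : H1.card ≤ S1.card + U1.card * (2 * A * A) :=
    OC_avoid H1 U1 (2 * A * A) fun u _ => hdeg1 u
  have hS1e : e ≤ 2 * S1.card := by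
    have a1 : U1.card * (2 * A * A) ≤ g ^ 170 * (2 * g ^ 322) := Nat.mul_le_mul hU1 hA2
    have a2 : g ^ 170 * (2 * g ^ 322) = 2 * g ^ 492 := by
      rw [show (492 : ℕ) = 170 + 322 by norm_num, pow_add]; ring
    have a3 : 4 * g ^ 492 ≤ g ^ 799 := by
      calc 4 * g ^ 492 ≤ g * g ^ 492 := Nat.mul_le_mul_right _ (le_trans (by norm_num) hg6)
        _ = g ^ 493 := by rw [show (493 : ℕ) = 492 + 1 by norm_num, pow_succ]; ring
        _ ≤ g ^ 799 := Nat.pow_le_pow_right hg1 (by norm_num)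
    have a4 := pf.par.e1
    omega
  have hS1G : IsRGraph 3 S1 := fun f hf => hH1 f (mem_filter.1 hf).1
  have hsum : ∑ v, deg S1 v = 3 * S1.card := sum_deg S1 hS1G
  have hepos : 1 ≤ e := le_trans (Nat.one_le_pow _ _ hg1) pf.par.e1
  obtain ⟨v, hv⟩ : ∃ v : Fin n, e ≤ n * deg S1 v := by
    by_contra hcon
    push Not at hcon
    have hlt : ∑ v : Fin n, n * deg S1 v ≤ ∑ v : Fin n, (e - 1) :=
      sum_le_sum fun v _ => by have := hcon v; omega
    rw [← Finset.mul_sum, hsum, sum_const, card_univ, Fintype.card_fin, smul_eq_mul] at hlt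
    have hn0 : 0 < n := by exact_mod_cast q6
    have := Nat.le_of_mul_le_mul_left hlt hn0
    omega
  have hPc : 2 * deg S1 v ≤ (lkp H1 v U1).card := by
    have := OC_card H1 hH1 v U1
    have he : deg S1 v = (H1.filter (fun f => v ∈ f ∧ Disjoint f U1)).card := by
      unfold deg
      rw [hS1, filter_filter]
      congr 1
      ext f
      simp only [mem_filter]
      tauto
    rw [he]
    exact this
  have hvU : v ∉ U1 := by
    intro hvU
    have : deg S1 v = 0 := by
      unfold deg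
      rw [card_eq_zero, filter_eq_empty_iff]
      intro f hf hvf
      rw [hS1, mem_filter] at hf
      exact (Finset.disjoint_left.1 hf.2) hvf hvU
    rw [this] at hv
    omega
  have hPe : e ≤ n * (lkp H1 v U1).card := hv.trans (Nat.mul_le_mul_left _ (by omega))
  -- the link of `z` in `H2`
  have hG : deg H2 z ≤ (lkp H2 z U2).card := by
    have b1 := OC_avoid (H2.filter (fun f => z ∈ f)) U2 n (by
      intro u hu
      have huz : z ≠ u := fun h => hzU (h ▸ hu)
      have := ((hT n H2 hH2).2.1 z u huz).1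
      unfold cod at this
      rwa [filter_filter])
    have b2 := OC_card H2 hH2 z U2
    rw [filter_filter] at b1
    have b3 : U2.card * n ≤ g ^ 170 * (2 * g ^ 480) := Nat.mul_le_mul hU2 pf.par.n2
    have b4 : g ^ 170 * (2 * g ^ 480) = 2 * g ^ 650 := by
      rw [show (650 : ℕ) = 170 + 480 by norm_num, pow_add]; ring
    have b5 : 4 * g ^ 650 ≤ g ^ 776 := by
      calc 4 * g ^ 650 ≤ g * g ^ 650 := Nat.mul_le_mul_right _ (le_trans (by norm_num) hg6)
        _ = g ^ 651 := by rw [show (651 : ℕ) = 650 + 1 by norm_num, pow_succ]; ring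
        _ ≤ g ^ 776 := Nat.pow_le_pow_right hg1 (by norm_num)
    unfold deg at hz ⊢
    omega
  have hG7 : g ^ 700 ≤ (lkp H2 z U2).card :=
    (Nat.pow_le_pow_right hg1 (by norm_num)).trans (hz.trans hG)
  have hlog0 : 0 ≤ Real.log K := Real.log_nonneg pf.K1
  have hl1 : (1 : ℝ) ≤ l := le_trans (by norm_num) pf.l1
  have hw : ((0 : ℕ) : ℝ) ≤ l + 1 := by push_cast; linarith
  obtain ⟨em1, em2⟩ := hE n e g A 0 s l K (lkp H1 v U1) (lkp H2 z U2) (fun _ _ => ∅) pf
    (OC_SG _ _ _) (OC_GT _ (OC_SG _ _ _)) hPe hw hG7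
  set x : ℝ := (deg H2 z : ℝ) / e with hx
  have hx1 : x ≤ 1 := by
    rw [hx, div_le_one q7]
    have : deg H2 z ≤ H2.card := card_filter_le _ _
    rw [he2] at this
    exact_mod_cast this
  have hx0 : 0 < x := by
    rw [hx]
    have : 0 < deg H2 z := lt_of_lt_of_le (Nat.pow_pos hg1) hz
    have : (0 : ℝ) < deg H2 z := by exact_mod_cast this
    positivity
  have hs0 := pf.s0
  have h1K : 0 < 1 + Real.log K := by linarith
  have key : Emb (lkp H1 v U1) (lkp H2 z U2) (fun _ _ => ∅)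
      ⌈s * max 1 (l * x / (1 + Real.log K)) / 614400⌉₊ (2 * A) := by
    by_cases hc : 2 * A ≤ (VS (lkp H1 v U1)).card
    · refine OC_mono (em2 hc) ?_
      rw [Nat.ceil_le]
      have m1 : max 1 (l * x / (1 + Real.log K)) ≤ l := by
        refine max_le hl1 ?_
        rw [div_le_iff₀ h1K]
        nlinarith
      calc s * max 1 (l * x / (1 + Real.log K)) / 614400
          ≤ s * l / 614400 := by gcongr
        _ ≤ s * l := div_le_self (by positivity) (by norm_num)
        _ ≤ A := pf.A1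
    · push Not at hc
      by_cases hsm : l * x / (1 + Real.log K) < 4800
      · refine OC_mono em1 ?_
        refine Nat.ceil_mono ?_
        have m1 : max 1 (l * x / (1 + Real.log K)) ≤ 4800 := max_le (by norm_num) hsm.le
        calc s * max 1 (l * x / (1 + Real.log K)) / 614400
            ≤ s * 4800 / 614400 := by gcongr
          _ ≤ s / 4 := by linarith
      · push Not at hsm
        obtain ⟨h, hh1, c1, c3, c4, c5⟩ := OC_arith l K x s hl1 hK6 hx0 hx1 hs0 hsm
        have c2 : x * e ≤ ((lkp H2 z U2).card : ℝ) := by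
          rw [hx, div_mul_cancel₀ _ q7.ne']
          exact_mod_cast hG
        have em := hL n e g A 0 h s l K x (lkp H1 v U1) (lkp H2 z U2) (fun _ _ => ∅) pf
          (OC_SG _ _ _) (OC_GT _ (OC_SG _ _ _)) hPe hc.le hw c1 hx1 c2 hh1 c3 c4
        exact OC_mono em (Nat.ceil_mono c5)
  obtain ⟨F, f, r1, r2, r3, r4, r5, r6, r7⟩ := h3 n _ _ H1 H2 U1 U2 v z hvU hzU key
  refine ⟨F, f, r1, r2, r3, r4, r5, r6, r7.trans ?_⟩
  have := pf.par.a1
  omega

end H773V
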