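import Pool.Agent.H773R2.U2.Defs

/-! Task OR (helper680): orientation and bipartition. -/

set_option linter.unusedVariables false

namespace H773V

open Finset Pool.Agent.Results.MP_9dddc4_co.UkExponent
open H773U (ContainsT Tr dg cg nn mm)

/-- the orientation: `b` is smaller than `a` -/
def OR_lt {n : ℕ} (P : Finset (Fin n × Fin n)) (b a : Fin n) : Prop :=
  dgr P b < dgr P a ∨ (dgr P b = dgr P a ∧ b < a)

instance {n : ℕ} (P : Finset (Fin n × Fin n)) (b a : Fin n) : Decidable (OR_lt P b a) := by
  unfold OR_lt; infer_instance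

theorem OR_total {n : ℕ} (P : Finset (Fin n × Fin n)) {a b : Fin n} (h : a ≠ b) :
    (OR_lt P b a ∧ ¬ OR_lt P a b) ∨ (OR_lt P a b ∧ ¬ OR_lt P b a) := by
  unfold OR_lt
  rcases lt_or_gt_of_ne h with h1 | h1
  · have h2 : ¬ b < a := not_lt.2 h1.le
    rcases lt_trichotomy (dgr P a) (dgr P b) with h3 | h3 | h3
    · right
      exact ⟨Or.inl h3, by omega⟩
    · right
      refine ⟨Or.inr ⟨h3, h1⟩, ?_⟩
      rintro (h4 | ⟨_, h4⟩)
      · omega
      · exact h2 h4
    · left
      exact ⟨Or.inl h3, by omega⟩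
  · have h2 : ¬ a < b := not_lt.2 h1.le
    rcases lt_trichotomy (dgr P a) (dgr P b) with h3 | h3 | h3
    · right
      exact ⟨Or.inl h3, by omega⟩
    · left
      refine ⟨Or.inr ⟨h3.symm, h1⟩, ?_⟩
      rintro (h4 | ⟨_, h4⟩)
      · omega
      · exact h2 h4
    · left
      exact ⟨Or.inl h3, by omega⟩

/-- the oriented pairs -/
def OR_Q {n : ℕ} (P : Finset (Fin n × Fin n)) : Finset (Fin n × Fin n) :=
  P.filter (fun p => OR_lt P p.2 p.1)

theorem OR_card_Q {n : ℕ} {P : Finset (Fin n × Fin n)} (hP : SG P) :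
    P.card = 2 * (OR_Q P).card := by
  have h1 : P.card = (OR_Q P).card + (P.filter (fun p => ¬ OR_lt P p.2 p.1)).card := by
    unfold OR_Q
    exact (Finset.card_filter_add_card_filter_not _).symm
  have h2 : (P.filter (fun p => ¬ OR_lt P p.2 p.1)).card = (OR_Q P).card := by
    apply Finset.card_bij (fun p _ => (p.2, p.1))
    · intro p hp
      rw [Finset.mem_filter] at hp
      obtain ⟨h3, h4⟩ := hP p.1 p.2 hp.1
      unfold OR_Q
      rw [Finset.mem_filter]
      refine ⟨h3, ?_⟩
      rcases OR_total P h4 with h5 | h5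
      · exact absurd h5.1 hp.2
      · exact h5.1
    · intro p _ q _ h
      have := Prod.ext_iff.1 h
      exact Prod.ext this.2 this.1
    · intro p hp
      unfold OR_Q at hp
      rw [Finset.mem_filter] at hp
      obtain ⟨h3, h4⟩ := hP p.1 p.2 hp.1
      refine ⟨(p.2, p.1), ?_, rfl⟩
      rw [Finset.mem_filter]
      refine ⟨h3, ?_⟩
      rcases OR_total P h4 with h5 | h5
      · exact h5.2
      · exact absurd hp.2 h5.2
  omega

/-- number of subsets containing `b` but not `a` -/
theorem OR_count {n : ℕ} {a b : Fin n} (hab : a ≠ b) :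
    (univ : Finset (Finset (Fin n))).card ≤
      4 * ((univ : Finset (Finset (Fin n))).filter (fun B => b ∈ B ∧ a ∉ B)).card := by
  classical
  have h1 := Finset.card_le_mul_card_image (f := fun B : Finset (Fin n) => insert b (B.erase a))
    (univ : Finset (Finset (Fin n))) 4 ?_
  · refine h1.trans (Nat.mul_le_mul_left 4 (Finset.card_le_card ?_))
    intro C hC
    rw [Finset.mem_image] at hC
    obtain ⟨B, -, rfl⟩ := hC
    rw [Finset.mem_filter]
    refine ⟨Finset.mem_univ _, Finset.mem_insert_self _ _, ?_⟩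
    rw [Finset.mem_insert]
    rintro (h | h)
    · exact hab h
    · exact Finset.notMem_erase _ _ h
  · intro C _
    have h4 : (univ : Finset (Bool × Bool)).card = 4 := by decide
    rw [← h4]
    apply Finset.card_le_card_of_injOn (fun B : Finset (Fin n) => (decide (a ∈ B), decide (b ∈ B)))
    · intro B _
      exact Finset.mem_coe.2 (Finset.mem_univ _)
    · intro B hB B' hB' h
      have hB1 := (Finset.mem_filter.1 (Finset.mem_coe.1 hB)).2
      have hB2 := (Finset.mem_filter.1 (Finset.mem_coe.1 hB')).2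
      have h5 := Prod.ext_iff.1 h
      have ha : (a ∈ B) ↔ (a ∈ B') := decide_eq_decide.1 h5.1
      have hb : (b ∈ B) ↔ (b ∈ B') := decide_eq_decide.1 h5.2
      ext x
      by_cases hxa : x = a
      · rw [hxa]; exact ha
      · by_cases hxb : x = b
        · rw [hxb]; exact hb
        · have e := congrArg (fun S : Finset (Fin n) => x ∈ S) (hB1.trans hB2.symm)
          simp only [Finset.mem_insert, Finset.mem_erase, hxa, hxb, false_or, not_false_eq_true,
            ne_eq, true_and] at e
          rw [e]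

theorem OR : S_OR := by
  classical
  intro n P hP
  -- averaging
  obtain ⟨B, hB⟩ : ∃ B : Finset (Fin n), (OR_Q P).card ≤
      4 * ((OR_Q P).filter (fun p => p.2 ∈ B ∧ p.1 ∉ B)).card := by
    by_contra hcon
    push Not at hcon
    have h1 : ∑ B : Finset (Fin n), 4 * ((OR_Q P).filter (fun p => p.2 ∈ B ∧ p.1 ∉ B)).card <
        ∑ B : Finset (Fin n), (OR_Q P).card :=
      Finset.sum_lt_sum_of_nonempty ⟨∅, Finset.mem_univ _⟩ fun B _ => hcon B
    rw [Finset.sum_const, smul_eq_mul, ← Finset.mul_sum] at h1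
    have h2 := Finset.sum_card_bipartiteAbove_eq_sum_card_bipartiteBelow
      (s := (univ : Finset (Finset (Fin n)))) (t := OR_Q P)
      (fun (B : Finset (Fin n)) (p : Fin n × Fin n) => p.2 ∈ B ∧ p.1 ∉ B)
    have h3 : ∑ B : Finset (Fin n), ((OR_Q P).filter (fun p => p.2 ∈ B ∧ p.1 ∉ B)).card =
        ∑ p ∈ OR_Q P, ((univ : Finset (Finset (Fin n))).filter (fun B => p.2 ∈ B ∧ p.1 ∉ B)).card :=
      h2
    rw [h3] at h1
    have h4 : ∑ p ∈ OR_Q P, (univ : Finset (Finset (Fin n))).card ≤
        ∑ p ∈ OR_Q P, 4 * ((univ : Finset (Finset (Fin n))).filter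
          (fun B => p.2 ∈ B ∧ p.1 ∉ B)).card := by
      refine Finset.sum_le_sum fun p hp => ?_
      unfold OR_Q at hp
      rw [Finset.mem_filter] at hp
      exact OR_count (hP p.1 p.2 hp.1).2
    rw [Finset.sum_const, smul_eq_mul, ← Finset.mul_sum] at h4
    have h5 := mul_comm (OR_Q P).card (univ : Finset (Finset (Fin n))).card
    omega
  set N : Fin n → Finset (Fin n) := fun b => univ.filter (fun a => (a, b) ∈ OR_Q P ∧ a ∉ B)
    with hN
  have hNmem : ∀ b a, a ∈ N b ↔ (a, b) ∈ OR_Q P ∧ a ∉ B := by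
    intro b a
    rw [hN]
    simp
  have hQP : ∀ p, p ∈ OR_Q P → p ∈ P ∧ OR_lt P p.2 p.1 := by
    intro p hp
    unfold OR_Q at hp
    exact Finset.mem_filter.1 hp
  refine ⟨B.filter (fun b => (N b).Nonempty), N, ?_, ?_, ?_, ?_⟩
  · intro b _ a ha
    rw [hNmem] at ha
    refine ⟨(hQP _ ha.1).1, fun h => ha.2 (Finset.mem_filter.1 h).1⟩
  · intro b _
    -- degrees
    have hdeg : ∀ a ∈ N b, (N b).card ≤ dgr P a := by
      intro a ha
      rw [hNmem] at ha
      have h1 : dgr P b ≤ dgr P a := by
        rcases (hQP _ ha.1).2 with h | h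
        · exact h.le
        · exact h.1.le
      refine le_trans ?_ h1
      unfold dgr
      apply Finset.card_le_card_of_injOn (fun a => (b, a))
      · intro c hc
        have hc' := (hNmem b c).1 (Finset.mem_coe.1 hc)
        rw [Finset.mem_coe, Finset.mem_filter]
        exact ⟨(hP c b (hQP _ hc'.1).1).1, rfl⟩
      · intro c _ c' _ h
        exact (Prod.ext_iff.1 h).2
    have h2 : ∑ a ∈ N b, (N b).card ≤ ∑ a ∈ N b, dgr P a := Finset.sum_le_sum hdeg
    have h3 : ∑ a ∈ N b, dgr P a ≤ P.card := by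
      unfold dgr
      have h4 : ∑ a ∈ N b, (P.filter (fun p => p.1 = a)).card =
          ((N b).biUnion (fun a => P.filter (fun p => p.1 = a))).card := by
        rw [Finset.card_biUnion]
        intro x _ y _ hxy
        rw [Function.onFun, Finset.disjoint_left]
        intro p hp hp'
        exact hxy ((Finset.mem_filter.1 hp).2.symm.trans (Finset.mem_filter.1 hp').2)
      rw [h4]
      apply Finset.card_le_card
      intro p hp
      rw [Finset.mem_biUnion] at hp
      obtain ⟨a, -, ha⟩ := hp
      exact (Finset.mem_filter.1 ha).1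
    rw [Finset.sum_const, smul_eq_mul] at h2
    rw [pow_two]
    exact h2.trans h3
  · have h1 : ∑ b ∈ B.filter (fun b => (N b).Nonempty), (N b).card = ∑ b ∈ B, (N b).card := by
      rw [Finset.sum_filter]
      refine Finset.sum_congr rfl fun b _ => ?_
      by_cases h : (N b).Nonempty
      · rw [if_pos h]
      · rw [if_neg h, Finset.not_nonempty_iff_eq_empty.1 h, Finset.card_empty]
    have h2 : ((OR_Q P).filter (fun p => p.2 ∈ B ∧ p.1 ∉ B)).card = ∑ b ∈ B, (N b).card := by
      rw [Finset.card_eq_sum_card_fiberwise (f := fun p : Fin n × Fin n => p.2) (t := B)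
        (fun p hp => (Finset.mem_filter.1 (Finset.mem_coe.1 hp)).2.1)]
      refine Finset.sum_congr rfl fun b hb => ?_
      symm
      apply Finset.card_bij (fun a _ => (a, b))
      · intro a ha
        rw [hNmem] at ha
        rw [Finset.mem_filter, Finset.mem_filter]
        exact ⟨⟨ha.1, hb, ha.2⟩, rfl⟩
      · intro a _ a' _ h
        exact (Prod.ext_iff.1 h).1
      · intro p hp
        rw [Finset.mem_filter, Finset.mem_filter] at hp
        refine ⟨p.1, ?_, ?_⟩
        · rw [hNmem, ← hp.2]
          exact ⟨hp.1.1, hp.1.2.2⟩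
        · rw [← hp.2]
    rw [h1, ← h2]
    have h3 := OR_card_Q hP
    omega
  · have hdis : Disjoint (B.filter (fun b => (N b).Nonempty))
        ((B.filter (fun b => (N b).Nonempty)).biUnion N) := by
      rw [Finset.disjoint_left]
      intro x hx hx'
      rw [Finset.mem_biUnion] at hx'
      obtain ⟨b, -, hb⟩ := hx'
      rw [hNmem] at hb
      exact hb.2 (Finset.mem_filter.1 hx).1
    rw [← Finset.card_union_of_disjoint hdis]
    apply Finset.card_le_card
    intro x hx
    unfold VS
    rw [Finset.mem_union] at hx ⊢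
    rcases hx with hx | hx
    · right
      obtain ⟨a, ha⟩ := (Finset.mem_filter.1 hx).2
      rw [hNmem] at ha
      exact Finset.mem_image.2 ⟨(a, x), (hQP _ ha.1).1, rfl⟩
    · left
      rw [Finset.mem_biUnion] at hx
      obtain ⟨b, -, hb⟩ := hx
      rw [hNmem] at hb
      exact Finset.mem_image.2 ⟨(x, b), (hQP _ hb.1).1, rfl⟩

end H773V
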