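import Pool.Agent.H773R2.U2.Defs

set_option autoImplicit false

namespace H773V

open Finset

theorem PARM_pow (g : ℝ) (hg : 10 ^ 6 ≤ g) (k : ℕ) (hk : k ≤ 800) :
    (g + 1) ^ k ≤ 2 * g ^ k := by
  have hg0 : 0 < g := by linarith [show (0 : ℝ) < 10 ^ 6 by norm_num]
  have h1 : (g + 1) = g * (1 / g + 1) := by
    field_simp
    ring
  rw [h1, mul_pow, mul_comm]
  apply mul_le_mul_of_nonneg_right _ (by positivity)
  have h2 : (1 / g + 1) ^ k ≤ (Real.exp (1 / g)) ^ k :=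
    pow_le_pow_left₀ (by positivity) (Real.add_one_le_exp _) k
  rw [← Real.exp_nat_mul] at h2
  refine h2.trans ?_
  rw [← Real.le_log_iff_exp_le (by norm_num)]
  have h3 : (k : ℝ) * (1 / g) ≤ 1 / 2 := by
    rw [mul_one_div, div_le_iff₀ hg0]
    have : (k : ℝ) ≤ 800 := by exact_mod_cast hk
    nlinarith
  linarith [Real.log_two_gt_d9]

/-- the core estimate, in terms of `x = n ^ (1/480)` and `y = l ^ (1/3)` -/
theorem PARM_core (n e : ℕ) (x y l : ℝ) (hx0 : 0 ≤ x) (hl : l = Real.log n)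
    (hx : x ^ 480 = n) (hy0 : 0 ≤ y) (hy : y ^ 3 = l) (h1 : 10 ^ 9 ≤ l) (h2 : 2 * l ^ 100 ≤ x)
    (he2 : x ^ 800 / l ^ 4 ≤ e) (he1 : (e : ℝ) ≤ x ^ 800 * y ^ 2) :
    PF n e ⌊x⌋₊ ⌈Real.sqrt ((e : ℝ) / n) * l⌉₊ (Real.sqrt ((e : ℝ) / n)) l
      (l * n / (Real.sqrt ((e : ℝ) / n)) ^ 3) := by
  have l0 : 0 < l := by linarith [show (0 : ℝ) < 10 ^ 9 by norm_num]
  have l1' : 1 ≤ l := by linarith [show (1 : ℝ) ≤ 10 ^ 9 by norm_num]
  have hp : 1 ≤ l ^ 100 := one_le_pow₀ l1'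
  have hx1 : 1 ≤ x := by linarith
  have hxp : 0 < x := by linarith
  have hn : 0 < (n : ℝ) := by rw [← hx]; positivity
  have hg1 : (⌊x⌋₊ : ℝ) ≤ x := Nat.floor_le hx0
  have hg2 : x < (⌊x⌋₊ : ℝ) + 1 := Nat.lt_floor_add_one x
  set g : ℕ := ⌊x⌋₊ with hgdef
  have hlg : l ^ 100 ≤ g := by linarith
  have hgl : ∀ k : ℕ, k ≤ 100 → l ^ k ≤ g := fun k hk => (pow_le_pow_right₀ l1' hk).trans hlg
  have hgR : (10 : ℝ) ^ 6 ≤ g := by
    have := hgl 1 (by norm_num)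
    rw [pow_one] at this
    linarith [show (10 : ℝ) ^ 6 ≤ 10 ^ 9 by norm_num]
  have hg0 : (0 : ℝ) < g := by linarith [show (0 : ℝ) < 10 ^ 6 by norm_num]
  have hyl : y ≤ l := by
    by_contra hcon
    push Not at hcon
    have : y < y ^ 3 := by
      have hy1 : 1 < y := by linarith
      nlinarith [mul_pos (by linarith : 0 < y) (by nlinarith : 0 < y ^ 2 - 1)]
    linarith
  have hy1 : 1 ≤ y := by
    by_contra hcon
    push Not at hcon
    have : y ^ 3 ≤ 1 := pow_le_one₀ hy0 hcon.le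
    linarith [show (1 : ℝ) < 10 ^ 9 by norm_num]
  -- the quantity `s`
  set s : ℝ := Real.sqrt ((e : ℝ) / n) with hs
  have hs2 : s ^ 2 = (e : ℝ) / n := Real.sq_sqrt (by positivity)
  have hsn : s ^ 2 * n = e := by rw [hs2]; field_simp
  have hs0' : 0 ≤ s := Real.sqrt_nonneg _
  have hslo : (x ^ 160 / l ^ 2) ^ 2 ≤ s ^ 2 := by
    rw [hs2, le_div_iff₀ hn, ← hx]
    refine le_trans (le_of_eq ?_) he2
    rw [div_pow, ← pow_mul, ← pow_mul]
    rw [div_mul_eq_mul_div, ← pow_add]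
  have hslo' : x ^ 160 / l ^ 2 ≤ s := le_of_sq_le_sq hslo hs0'
  have hshi : s ^ 2 ≤ (x ^ 160 * y) ^ 2 := by
    rw [hs2, div_le_iff₀ hn, ← hx]
    refine he1.trans (le_of_eq ?_)
    ring
  have hshi' : s ≤ x ^ 160 * y := le_of_sq_le_sq hshi (by positivity)
  have hs0 : 0 < s := lt_of_lt_of_le (by positivity) hslo'
  have hx160 : l ^ 2 ≤ x ^ 160 := by
    have a1 : l ^ 2 ≤ x := by
      have := pow_le_pow_right₀ l1' (show 2 ≤ 100 by norm_num)
      linarith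
    exact a1.trans (le_self_pow₀ hx1 (by norm_num))
  have hsl : 1 ≤ s * l := by
    have a1 : l * (x ^ 160 / l ^ 2) ≤ s * l := by
      rw [mul_comm s l]
      exact mul_le_mul_of_nonneg_left hslo' l0.le
    have a2 : 1 ≤ l * (x ^ 160 / l ^ 2) := by
      rw [mul_div_assoc', le_div_iff₀ (by positivity), one_mul]
      nlinarith
    linarith
  have hA1 : s * l ≤ (⌈s * l⌉₊ : ℝ) := Nat.le_ceil _
  have hA2 : (⌈s * l⌉₊ : ℝ) < s * l + 1 := Nat.ceil_lt_add_one (by positivity)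
  have hA3 : (⌈s * l⌉₊ : ℝ) ≤ 2 * s * l := by linarith
  have hxg : ∀ k : ℕ, k ≤ 800 → x ^ k ≤ 2 * (g : ℝ) ^ k := fun k hk =>
    (pow_le_pow_left₀ hx0 hg2.le k).trans (PARM_pow g hgR k hk)
  have hl2g : l ^ 2 * 4 ≤ g := by
    have a1 := hgl 3 (by norm_num)
    nlinarith [sq_nonneg l]
  refine ⟨⟨by exact_mod_cast hgR, ?_, ?_, ?_, ?_, ?_, ?_⟩, hl, h1, hlg, hs0, hsn, ?_, ?_, ?_,
    hA1, hA3⟩
  · have : ((g : ℝ)) ^ 480 ≤ n := by rw [← hx]; exact pow_le_pow_left₀ hg0.le hg1 _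
    exact_mod_cast this
  · have : (n : ℝ) ≤ 2 * (g : ℝ) ^ 480 := by rw [← hx]; exact hxg 480 (by norm_num)
    exact_mod_cast this
  · have : (1 : ℝ) ≤ (⌈s * l⌉₊ : ℝ) := hsl.trans hA1
    exact_mod_cast this
  · have a1 := hxg 160 (by norm_num)
    have a2 : (⌈s * l⌉₊ : ℝ) ≤ (g : ℝ) ^ 161 := by
      calc (⌈s * l⌉₊ : ℝ) ≤ 2 * s * l := hA3
        _ ≤ 2 * (x ^ 160 * y) * l := by gcongr
        _ ≤ 2 * ((2 * (g : ℝ) ^ 160) * l) * l := by gcongr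
        _ = (g : ℝ) ^ 160 * (l ^ 2 * 4) := by ring
        _ ≤ (g : ℝ) ^ 160 * g := by gcongr
        _ = (g : ℝ) ^ 161 := by rw [← pow_succ]
    exact_mod_cast a2
  · have a2 : (g : ℝ) ^ 799 ≤ e := by
      refine le_trans ?_ he2
      rw [le_div_iff₀ (by positivity)]
      calc (g : ℝ) ^ 799 * l ^ 4 ≤ (g : ℝ) ^ 799 * g := by
            gcongr
            exact hgl 4 (by norm_num)
        _ = (g : ℝ) ^ 800 := by rw [← pow_succ]
        _ ≤ x ^ 800 := pow_le_pow_left₀ hg0.le hg1 _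
    exact_mod_cast a2
  · have a1 := hxg 800 (by norm_num)
    have a2 : (e : ℝ) ≤ (g : ℝ) ^ 801 := by
      calc (e : ℝ) ≤ x ^ 800 * y ^ 2 := he1
        _ ≤ (2 * (g : ℝ) ^ 800) * l ^ 2 := by gcongr
        _ = (g : ℝ) ^ 800 * (l ^ 2 * 2) := by ring
        _ ≤ (g : ℝ) ^ 800 * g := by
            gcongr
            nlinarith [sq_nonneg l]
        _ = (g : ℝ) ^ 801 := by rw [← pow_succ]
    exact_mod_cast a2
  · rw [le_div_iff₀ (by positivity), one_mul]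
    calc s ^ 3 ≤ (x ^ 160 * y) ^ 3 := by gcongr
      _ = x ^ 480 * y ^ 3 := by ring
      _ = l * n := by rw [hx, hy, mul_comm]
  · rw [div_le_iff₀ (by positivity)]
    have a1 : (x ^ 160 / l ^ 2) ^ 3 ≤ s ^ 3 := by gcongr
    have a2 : (x ^ 160 / l ^ 2) ^ 3 = n / l ^ 6 := by
      rw [div_pow, ← pow_mul, ← pow_mul, hx]
    rw [a2] at a1
    calc l * n = l ^ 7 * (n / l ^ 6) := by field_simp
      _ ≤ l ^ 7 * s ^ 3 := by gcongr
  · field_simp

/-- PARM -/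
theorem PARM : S_PARM := by
  have t1 : Filter.Tendsto (fun n : ℕ => Real.log n) Filter.atTop Filter.atTop :=
    Real.tendsto_log_atTop.comp tendsto_natCast_atTop_atTop
  have t2 : ∀ᶠ n : ℕ in Filter.atTop, 2 * (Real.log n) ^ 100 ≤ (n : ℝ) ^ (1 / 480 : ℝ) := by
    have h1 : (fun x : ℝ => Real.log x ^ (100 : ℝ)) =o[Filter.atTop] fun x : ℝ => x ^ (1 / 480 : ℝ) :=
      isLittleO_log_rpow_rpow_atTop _ (by norm_num)
    have h2 := h1.def (show (0 : ℝ) < 1 / 2 by norm_num)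
    have h3 := tendsto_natCast_atTop_atTop (R := ℝ) |>.eventually h2
    filter_upwards [h3, t1.eventually_ge_atTop 0] with n hn hl
    rw [Real.norm_of_nonneg (by positivity), Real.norm_of_nonneg (by positivity)] at hn
    have h4 : Real.log n ^ (100 : ℝ) = Real.log n ^ 100 := by
      exact_mod_cast Real.rpow_natCast (Real.log n) 100
    rw [h4] at hn
    linarith
  filter_upwards [t1.eventually_ge_atTop (10 ^ 9), t2] with n h1 h2 e he2 he1
  have hn0 : (0 : ℝ) ≤ n := Nat.cast_nonneg n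
  have l0 : 0 ≤ Real.log n := le_trans (by norm_num) h1
  have q1 : ((n : ℝ) ^ (1 / 480 : ℝ)) ^ 480 = n := by
    rw [← Real.rpow_natCast, ← Real.rpow_mul hn0]
    norm_num
  have q2 : ((n : ℝ) ^ (1 / 480 : ℝ)) ^ 800 = (n : ℝ) ^ (5 / 3 : ℝ) := by
    rw [← Real.rpow_natCast, ← Real.rpow_mul hn0]
    norm_num
  have q3 : ((Real.log n) ^ (1 / 3 : ℝ)) ^ 3 = Real.log n := by
    rw [← Real.rpow_natCast, ← Real.rpow_mul l0]
    norm_num
  have q4 : ((Real.log n) ^ (1 / 3 : ℝ)) ^ 2 = (Real.log n) ^ (2 / 3 : ℝ) := by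
    rw [← Real.rpow_natCast, ← Real.rpow_mul l0]
    norm_num
  apply PARM_core n e _ ((Real.log n) ^ (1 / 3 : ℝ)) _ (Real.rpow_nonneg hn0 _) rfl q1
    (Real.rpow_nonneg l0 _) q3 h1 h2
  · rw [q2]; exact he2
  · rw [q2, q4]; exact he1

end H773V
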