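import Pool.Agent.H773R2.U2.Defs

set_option autoImplicit false

namespace H773V

theorem PFS : S_PFS := by
  intro n e g A s l K h
  have hg : (10 : ℝ) ^ 6 ≤ g := by exact_mod_cast h.par.hg
  have hg2 : (2 : ℝ) ≤ g := by
    refine le_trans ?_ hg
    norm_num
  have hg0 : (0 : ℝ) < g := by linarith
  have n1 : (g : ℝ) ^ 480 ≤ n := by exact_mod_cast h.par.n1
  have n2 : (n : ℝ) ≤ 2 * (g : ℝ) ^ 480 := by exact_mod_cast h.par.n2
  have e1 : (g : ℝ) ^ 799 ≤ e := by exact_mod_cast h.par.e1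
  have e2 : (e : ℝ) ≤ (g : ℝ) ^ 801 := by exact_mod_cast h.par.e2
  have hs0 := h.s0
  have hs1 := h.s1
  have hn0 : (0 : ℝ) < n := lt_of_lt_of_le (pow_pos hg0 480) n1
  have he0 : (0 : ℝ) < e := lt_of_lt_of_le (pow_pos hg0 799) e1
  refine ⟨?_, ?_, ?_, lt_of_lt_of_le (by norm_num) h.l1, lt_of_lt_of_le one_pos h.K1, hn0, he0⟩
  · by_contra hc
    push Not at hc
    have h1 : s ^ 2 < ((g : ℝ) ^ 159) ^ 2 := pow_lt_pow_left₀ hc hs0.le (by norm_num)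
    have h2 : s ^ 2 * n < ((g : ℝ) ^ 159) ^ 2 * (2 * (g : ℝ) ^ 480) :=
      mul_lt_mul'' h1 (lt_of_le_of_ne n2 ?_) (by positivity) hn0.le |>.trans_le le_rfl
    · have h3 : ((g : ℝ) ^ 159) ^ 2 * (2 * (g : ℝ) ^ 480) = 2 * (g : ℝ) ^ 798 := by ring
      have h4 : (g : ℝ) ^ 799 = g * (g : ℝ) ^ 798 := by ring
      have h5 : 2 * (g : ℝ) ^ 798 ≤ g * (g : ℝ) ^ 798 :=
        mul_le_mul_of_nonneg_right hg2 (by positivity)
      rw [hs1, h3] at h2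
      rw [h4] at e1
      linarith
    · intro heq
      have h3 : s ^ 2 * n < ((g : ℝ) ^ 159) ^ 2 * n := mul_lt_mul_of_pos_right h1 hn0
      rw [hs1] at h3
      have h4 : ((g : ℝ) ^ 159) ^ 2 * n = 2 * (g : ℝ) ^ 798 := by rw [heq]; ring
      have h5 : 2 * (g : ℝ) ^ 798 ≤ g * (g : ℝ) ^ 798 :=
        mul_le_mul_of_nonneg_right hg2 (by positivity)
      have h6 : (g : ℝ) ^ 799 = g * (g : ℝ) ^ 798 := by ring
      rw [h4] at h3
      rw [h6] at e1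
      linarith
  · by_contra hc
    push Not at hc
    have h1 : ((g : ℝ) ^ 161) ^ 2 ≤ s ^ 2 := pow_le_pow_left₀ (by positivity) hc.le 2
    have h2 : ((g : ℝ) ^ 161) ^ 2 * (g : ℝ) ^ 480 ≤ s ^ 2 * n :=
      mul_le_mul h1 n1 (by positivity) (by positivity)
    have h3 : ((g : ℝ) ^ 161) ^ 2 * (g : ℝ) ^ 480 = g * (g : ℝ) ^ 801 := by ring
    have h5 : 2 * (g : ℝ) ^ 801 ≤ g * (g : ℝ) ^ 801 :=
      mul_le_mul_of_nonneg_right hg2 (by positivity)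
    have h6 : (0 : ℝ) < (g : ℝ) ^ 801 := by positivity
    rw [hs1, h3] at h2
    linarith
  · calc (10 : ℝ) ^ 900 = ((10 : ℝ) ^ 9) ^ 100 := by rw [← pow_mul]
      _ ≤ l ^ 100 := pow_le_pow_left₀ (by positivity) h.l1 100
      _ ≤ g := h.l2

end H773V
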