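import Pool.Agent.H773R2.U2.Defs

/-! Task POT: the potential. -/

namespace H773V

open Finset Pool.Agent.Results.MP_9dddc4_co.UkExponent

/-- first part -/
noncomputable def POT_A (N F2 x : ℝ) : ℝ := 8 * Real.sqrt (N * min x F2)

/-- second part -/
noncomputable def POT_B (C1 F1 F2 x : ℝ) : ℝ :=
  if F2 < x then 1 + C1 * ((min x F1) ^ (1 / 4 : ℝ) - F2 ^ (1 / 4 : ℝ)) else 0

/-- third part -/
noncomputable def POT_D (N F1 x : ℝ) : ℝ := if F1 < x then 1 + N ^ 3 * (1 / F1 - 1 / x) else 0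

theorem POT_A_mono {N F2 x y : ℝ} (hN : 0 ≤ N) (h : y ≤ x) : POT_A N F2 y ≤ POT_A N F2 x := by
  unfold POT_A
  have := min_le_min_right F2 h
  have h2 := Real.sqrt_le_sqrt (mul_le_mul_of_nonneg_left this hN)
  linarith

theorem POT_B_nonneg {C1 F1 F2 x : ℝ} (hC : 0 ≤ C1) (h2 : 0 ≤ F2) (h12 : F2 ≤ F1) :
    0 ≤ POT_B C1 F1 F2 x := by
  unfold POT_B
  split_ifs with h
  · have h3 : F2 ^ (1 / 4 : ℝ) ≤ (min x F1) ^ (1 / 4 : ℝ) :=
      Real.rpow_le_rpow h2 (le_min h.le h12) (by norm_num)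
    have := mul_nonneg hC (sub_nonneg.2 h3)
    linarith
  · exact le_rfl

theorem POT_B_one {C1 F1 F2 x : ℝ} (hC : 0 ≤ C1) (h2 : 0 ≤ F2) (h12 : F2 ≤ F1) (h : F2 < x) :
    1 ≤ POT_B C1 F1 F2 x := by
  unfold POT_B
  rw [if_pos h]
  have h3 : F2 ^ (1 / 4 : ℝ) ≤ (min x F1) ^ (1 / 4 : ℝ) :=
    Real.rpow_le_rpow h2 (le_min h.le h12) (by norm_num)
  have := mul_nonneg hC (sub_nonneg.2 h3)
  linarith

theorem POT_B_mono {C1 F1 F2 x y : ℝ} (hC : 0 ≤ C1) (h2 : 0 ≤ F2) (h12 : F2 ≤ F1) (h : y ≤ x) :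
    POT_B C1 F1 F2 y ≤ POT_B C1 F1 F2 x := by
  by_cases hy : F2 < y
  · have hx : F2 < x := hy.trans_le h
    unfold POT_B
    rw [if_pos hy, if_pos hx]
    have h3 : (min y F1) ^ (1 / 4 : ℝ) ≤ (min x F1) ^ (1 / 4 : ℝ) :=
      Real.rpow_le_rpow (le_min (h2.trans hy.le) (h2.trans h12)) (min_le_min_right F1 h)
        (by norm_num)
    have := mul_le_mul_of_nonneg_left (sub_le_sub_right h3 (F2 ^ (1 / 4 : ℝ))) hC
    linarith
  · have : POT_B C1 F1 F2 y = 0 := if_neg hy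
    rw [this]
    exact POT_B_nonneg hC h2 h12

theorem POT_D_nonneg {N F1 x : ℝ} (hN : 0 ≤ N) (h1 : 0 < F1) : 0 ≤ POT_D N F1 x := by
  unfold POT_D
  split_ifs with h
  · have h3 : 1 / x ≤ 1 / F1 := one_div_le_one_div_of_le h1 h.le
    have := mul_nonneg (pow_nonneg hN 3) (sub_nonneg.2 h3)
    linarith
  · exact le_rfl

theorem POT_D_one {N F1 x : ℝ} (hN : 0 ≤ N) (h1 : 0 < F1) (h : F1 < x) : 1 ≤ POT_D N F1 x := by
  unfold POT_D
  rw [if_pos h]
  have h3 : 1 / x ≤ 1 / F1 := one_div_le_one_div_of_le h1 h.le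
  have := mul_nonneg (pow_nonneg hN 3) (sub_nonneg.2 h3)
  linarith

theorem POT_D_mono {N F1 x y : ℝ} (hN : 0 ≤ N) (h1 : 0 < F1) (h : y ≤ x) :
    POT_D N F1 y ≤ POT_D N F1 x := by
  by_cases hy : F1 < y
  · have hx : F1 < x := hy.trans_le h
    unfold POT_D
    rw [if_pos hy, if_pos hx]
    have h3 : 1 / x ≤ 1 / y := one_div_le_one_div_of_le (h1.trans hy) h
    have := mul_le_mul_of_nonneg_left (sub_le_sub_left h3 (1 / F1)) (pow_nonneg hN 3)
    linarith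
  · have : POT_D N F1 y = 0 := if_neg hy
    rw [this]
    exact POT_D_nonneg hN h1

theorem POT_A_step {N F2 x m : ℝ} (hN : 0 < N) (hm : 1 ≤ m) (hmx : m ≤ x) (hx : x ≤ F2)
    (h : Real.sqrt (x / N) ≤ 4 * m) : POT_A N F2 (x - m) + 1 ≤ POT_A N F2 x := by
  unfold POT_A
  have hx0 : 0 < x := by linarith
  rw [min_eq_left hx, min_eq_left (by linarith : x - m ≤ F2), Real.sqrt_mul hN.le,
    Real.sqrt_mul hN.le]
  rw [Real.sqrt_div hx0.le] at h
  set s := Real.sqrt N with hs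
  set u := Real.sqrt x with hu
  set w := Real.sqrt (x - m) with hw
  have hs0 : 0 < s := Real.sqrt_pos.2 hN
  have hu0 : 0 < u := Real.sqrt_pos.2 hx0
  have hw0 : 0 ≤ w := Real.sqrt_nonneg _
  have hu2 : u ^ 2 = x := Real.sq_sqrt hx0.le
  have hw2 : w ^ 2 = x - m := Real.sq_sqrt (by linarith)
  have hwu : w ≤ u := Real.sqrt_le_sqrt (by linarith)
  rw [div_le_iff₀ hs0] at h
  have h1 : m = (u - w) * (u + w) := by nlinarith
  have h2 : (u - w) * (u + w) ≤ (u - w) * (2 * u) :=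
    mul_le_mul_of_nonneg_left (by linarith) (sub_nonneg.2 hwu)
  have h3 : u ≤ 8 * s * (u - w) * u := by
    have : u ≤ 4 * ((u - w) * (2 * u)) * s := by
      refine h.trans ?_
      have : m ≤ (u - w) * (2 * u) := by rw [h1]; exact h2
      have := mul_le_mul_of_nonneg_right this hs0.le
      linarith
    linarith
  have h4 : 1 ≤ 8 * s * (u - w) := by
    refine le_of_mul_le_mul_right ?_ hu0
    linarith
  linarith

theorem POT_B_step {N F1 F2 x m c l : ℝ} (hN : 0 < N) (hc : 0 < c) (hl : 0 < l) (hF2 : 0 < F2)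
    (hm : 1 ≤ m) (hmx : F2 < x - m) (hx : x ≤ F1)
    (h : c * Real.sqrt (x / N) * l * (x / F1) ^ (1 / 4 : ℝ) ≤ m) :
    POT_B (4 * Real.sqrt N * F1 ^ (1 / 4 : ℝ) / (c * l)) F1 F2 (x - m) + 1 ≤
      POT_B (4 * Real.sqrt N * F1 ^ (1 / 4 : ℝ) / (c * l)) F1 F2 x := by
  have hx0 : 0 < x := by linarith
  have hF1 : 0 < F1 := hx0.trans_le hx
  unfold POT_B
  rw [if_pos hmx, if_pos (by linarith : F2 < x), min_eq_left hx,
    min_eq_left (by linarith : x - m ≤ F1)]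
  rw [Real.sqrt_div hx0.le, Real.div_rpow hx0.le hF1.le] at h
  set s := Real.sqrt N with hs
  set v := F1 ^ (1 / 4 : ℝ) with hv
  set u := x ^ (1 / 4 : ℝ) with hu
  have hs0 : 0 < s := Real.sqrt_pos.2 hN
  have hv0 : 0 < v := Real.rpow_pos_of_pos hF1 _
  have hu0 : 0 < u := Real.rpow_pos_of_pos hx0 _
  have hu4 : x = u ^ 4 := by
    rw [hu, ← Real.rpow_natCast, ← Real.rpow_mul hx0.le]
    norm_num
  have hsx : Real.sqrt x = u ^ 2 := by
    rw [hu4, show u ^ 4 = (u ^ 2) ^ 2 by ring, Real.sqrt_sq (by positivity)]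
  rw [hsx] at h
  have h1 : (x - m) ^ (1 / 4 : ℝ) ≤ u * (1 - 1 / 4 * (m / x)) := by
    have e1 : x - m = x * (1 + -(m / x)) := by field_simp; ring
    have hmx1 : m / x ≤ 1 := (div_le_one hx0).2 (by linarith)
    rw [e1, Real.mul_rpow hx0.le (by linarith)]
    refine mul_le_mul_of_nonneg_left ?_ hu0.le
    have := rpow_one_add_le_one_add_mul_self (s := -(m / x)) (p := 1 / 4) (by linarith)
      (by norm_num) (by norm_num)
    linarith
  have h2 : 1 ≤ 4 * s * v / (c * l) * (u * (1 / 4 * (m / x))) := by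
    have h3 : c * (u ^ 2 / s) * l * (u / v) * (s * v * u / (c * l * u ^ 4)) = 1 := by
      field_simp
    have h4 : (0 : ℝ) ≤ s * v * u / (c * l * u ^ 4) := by positivity
    have h5 := mul_le_mul_of_nonneg_right h h4
    rw [h3] at h5
    refine h5.trans (le_of_eq ?_)
    rw [hu4]
    field_simp
  have h6 : 4 * s * v / (c * l) * (x - m) ^ (1 / 4 : ℝ) ≤
      4 * s * v / (c * l) * (u * (1 - 1 / 4 * (m / x))) :=
    mul_le_mul_of_nonneg_left h1 (by positivity)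
  have h7 : 4 * s * v / (c * l) * (u * (1 - 1 / 4 * (m / x))) =
      4 * s * v / (c * l) * u - 4 * s * v / (c * l) * (u * (1 / 4 * (m / x))) := by ring
  rw [h7] at h6
  have h8 : 1 + 4 * s * v / (c * l) * ((x - m) ^ (1 / 4 : ℝ) - F2 ^ (1 / 4 : ℝ)) + 1 ≤
      1 + 4 * s * v / (c * l) * (u - F2 ^ (1 / 4 : ℝ)) := by
    rw [mul_sub, mul_sub]
    linarith
  exact h8

theorem POT_D_step {N F1 x m : ℝ} (hN : 0 < N) (hF1 : 0 < F1) (hm : 1 ≤ m) (hx : F1 < x - m)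
    (h : x ^ 2 ≤ m * N ^ 3) : POT_D N F1 (x - m) + 1 ≤ POT_D N F1 x := by
  have hx0 : 0 < x := by linarith
  have hxm : 0 < x - m := by linarith
  unfold POT_D
  rw [if_pos hx, if_pos (by linarith : F1 < x)]
  have h1 : 1 / (x - m) - 1 / x = m / ((x - m) * x) := by
    field_simp
    ring
  have h2 : 1 ≤ N ^ 3 * (m / ((x - m) * x)) := by
    rw [← mul_div_assoc, le_div_iff₀ (by positivity), one_mul]
    refine le_trans ?_ (h.trans (le_of_eq (mul_comm _ _)))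
    nlinarith
  have h3 : N ^ 3 * (1 / F1 - 1 / (x - m)) = N ^ 3 * (1 / F1 - 1 / x) -
      N ^ 3 * (1 / (x - m) - 1 / x) := by ring
  rw [h3, h1]
  linarith

theorem POT : S_POT := by
  intro c hc
  refine ⟨8 + 4 / c + 1 + 2, by positivity, ?_⟩
  have hlog : ∀ᶠ n : ℕ in Filter.atTop, 1 ≤ Real.log n :=
    (Real.tendsto_log_atTop.comp tendsto_natCast_atTop_atTop).eventually_ge_atTop 1
  filter_upwards [hlog, Filter.eventually_ge_atTop 1] with n hl hn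
  have hN1 : (1 : ℝ) ≤ n := by exact_mod_cast hn
  have hN : (0 : ℝ) < n := by linarith
  obtain ⟨N, hNdef⟩ : ∃ N : ℝ, N = n := ⟨_, rfl⟩
  obtain ⟨l, hldef⟩ : ∃ l : ℝ, l = Real.log n := ⟨_, rfl⟩
  rw [← hldef] at hl
  have hl0 : 0 < l := by linarith
  have hlN : l ≤ N := by
    rw [hldef, hNdef]
    exact (Real.log_le_sub_one_of_pos hN).trans (by linarith)
  rw [← hNdef] at hN hN1
  -- roots
  obtain ⟨p, hp⟩ : ∃ p : ℝ, p = N ^ (1 / 6 : ℝ) := ⟨_, rfl⟩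
  obtain ⟨r, hr⟩ : ∃ r : ℝ, r = l ^ (1 / 3 : ℝ) := ⟨_, rfl⟩
  have hp1 : 1 ≤ p := by rw [hp]; exact Real.one_le_rpow hN1 (by norm_num)
  have hr1 : 1 ≤ r := by rw [hr]; exact Real.one_le_rpow hl (by norm_num)
  have hp0 : 0 < p := by linarith
  have hr0 : 0 < r := by linarith
  have hNp : N = p ^ 6 := by
    rw [hp, ← Real.rpow_natCast, ← Real.rpow_mul hN.le]
    norm_num
  have hlr : l = r ^ 3 := by
    rw [hr, ← Real.rpow_natCast, ← Real.rpow_mul hl0.le]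
    norm_num
  have h53 : N ^ (5 / 3 : ℝ) = p ^ 10 := by
    rw [hp, ← Real.rpow_natCast, ← Real.rpow_mul hN.le]
    norm_num
  have h43 : N ^ (4 / 3 : ℝ) = p ^ 8 := by
    rw [hp, ← Real.rpow_natCast, ← Real.rpow_mul hN.le]
    norm_num
  have h23 : l ^ (2 / 3 : ℝ) = r ^ 2 := by
    rw [hr, ← Real.rpow_natCast, ← Real.rpow_mul hl0.le]
    norm_num
  have hE1 : E1 n = p ^ 10 * r ^ 2 := by
    unfold E1
    rw [← hldef, ← hNdef, h53, h23]
  have hE2 : E2 n = p ^ 10 / r ^ 12 := by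
    unfold E2
    rw [← hldef, ← hNdef, h53, hlr]
    ring
  obtain ⟨F1, hF1⟩ : ∃ F1 : ℝ, F1 = E1 n := ⟨_, rfl⟩
  obtain ⟨F2, hF2⟩ : ∃ F2 : ℝ, F2 = E2 n := ⟨_, rfl⟩
  rw [← hF1] at hE1
  rw [← hF2] at hE2
  have hF10 : 0 < F1 := by rw [hE1]; positivity
  have hF20 : 0 < F2 := by rw [hE2]; positivity
  have hF12 : F2 ≤ F1 := by
    rw [hE1, hE2, div_le_iff₀ (by positivity)]
    have : 1 ≤ r ^ 14 := one_le_pow₀ hr1
    calc p ^ 10 = p ^ 10 * 1 := by ring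
      _ ≤ p ^ 10 * r ^ 14 := mul_le_mul_of_nonneg_left this (by positivity)
      _ = _ := by ring
  obtain ⟨C1, hC1⟩ : ∃ C1 : ℝ, C1 = 4 * Real.sqrt N * F1 ^ (1 / 4 : ℝ) / (c * l) := ⟨_, rfl⟩
  have hC10 : 0 ≤ C1 := by rw [hC1]; positivity
  rw [← hldef, ← hNdef, ← hF1, ← hF2, h43, h23]
  refine ⟨fun e => POT_A N F2 e + POT_B C1 F1 F2 e + POT_D N F1 e, ?_, ?_, ?_⟩
  · have h1 := POT_B_nonneg (x := ((0 : ℕ) : ℝ)) hC10 hF20.le hF12
    have h2 := POT_D_nonneg (N := N) (x := ((0 : ℕ) : ℝ)) hN.le hF10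
    have h3 : 0 ≤ POT_A N F2 ((0 : ℕ) : ℝ) := by unfold POT_A; positivity
    show 0 ≤ POT_A N F2 ((0 : ℕ) : ℝ) + POT_B C1 F1 F2 ((0 : ℕ) : ℝ) + POT_D N F1 ((0 : ℕ) : ℝ)
    linarith
  · intro e
    show POT_A N F2 e + POT_B C1 F1 F2 e + POT_D N F1 e ≤ _
    have hq : 1 ≤ p ^ 8 / r ^ 2 := by
      rw [le_div_iff₀ (by positivity), one_mul]
      have h1 : r ≤ p ^ 2 := by
        have h2 : r ^ 3 ≤ (p ^ 2) ^ 3 := by
          rw [← hlr, ← pow_mul, ← hNp]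
          exact hlN
        exact le_of_pow_le_pow_left₀ (by norm_num) (by positivity) h2
      calc r ^ 2 ≤ (p ^ 2) ^ 2 := pow_le_pow_left₀ hr0.le h1 2
        _ = p ^ 4 := by ring
        _ ≤ p ^ 8 := pow_le_pow_right₀ hp1 (by norm_num)
    have hA : POT_A N F2 e ≤ 8 * (p ^ 8 / r ^ 2) := by
      unfold POT_A
      have h1 : N * min (e : ℝ) F2 ≤ (p ^ 8 / r ^ 6) ^ 2 := by
        refine (mul_le_mul_of_nonneg_left (min_le_right _ _) hN.le).trans (le_of_eq ?_)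
        rw [hE2, hNp]
        field_simp
      have h2 : Real.sqrt (N * min (e : ℝ) F2) ≤ p ^ 8 / r ^ 6 :=
        (Real.sqrt_le_sqrt h1).trans (le_of_eq (Real.sqrt_sq (by positivity)))
      have h3 : p ^ 8 / r ^ 6 ≤ p ^ 8 / r ^ 2 :=
        div_le_div_of_nonneg_left (by positivity) (by positivity)
          (pow_le_pow_right₀ hr1 (by norm_num))
      linarith
    have hB : POT_B C1 F1 F2 e ≤ 1 + 4 / c * (p ^ 8 / r ^ 2) := by
      have hCv : C1 * F1 ^ (1 / 4 : ℝ) = 4 / c * (p ^ 8 / r ^ 2) := by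
        have hv2 : F1 ^ (1 / 4 : ℝ) * F1 ^ (1 / 4 : ℝ) = p ^ 5 * r := by
          rw [← Real.rpow_add hF10]
          have e1 : (1 / 4 + 1 / 4 : ℝ) = 1 / 2 := by norm_num
          rw [e1, ← Real.sqrt_eq_rpow, hE1, show p ^ 10 * r ^ 2 = (p ^ 5 * r) ^ 2 by ring,
            Real.sqrt_sq (by positivity)]
        have hsN : Real.sqrt N = p ^ 3 := by
          rw [hNp, show p ^ 6 = (p ^ 3) ^ 2 by ring, Real.sqrt_sq (by positivity)]
        rw [hC1, hsN, hlr]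
        calc 4 * p ^ 3 * F1 ^ (1 / 4 : ℝ) / (c * r ^ 3) * F1 ^ (1 / 4 : ℝ) =
            4 * p ^ 3 * (F1 ^ (1 / 4 : ℝ) * F1 ^ (1 / 4 : ℝ)) / (c * r ^ 3) := by ring
          _ = _ := by
            rw [hv2]
            field_simp
      unfold POT_B
      split_ifs with h
      · have h1 : (min (e : ℝ) F1) ^ (1 / 4 : ℝ) ≤ F1 ^ (1 / 4 : ℝ) :=
          Real.rpow_le_rpow (le_min (by positivity) hF10.le) (min_le_right _ _) (by norm_num)
        have h2 : (0 : ℝ) ≤ F2 ^ (1 / 4 : ℝ) := by positivity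
        have h3 : C1 * ((min (e : ℝ) F1) ^ (1 / 4 : ℝ) - F2 ^ (1 / 4 : ℝ)) ≤
            C1 * F1 ^ (1 / 4 : ℝ) := mul_le_mul_of_nonneg_left (by linarith) hC10
        rw [hCv] at h3
        linarith
      · positivity
    have hD : POT_D N F1 e ≤ 1 + p ^ 8 / r ^ 2 := by
      unfold POT_D
      split_ifs with h
      · have h1 : (0 : ℝ) ≤ 1 / (e : ℝ) := by positivity
        have h2 : N ^ 3 * (1 / F1 - 1 / e) ≤ N ^ 3 * (1 / F1) :=
          mul_le_mul_of_nonneg_left (by linarith) (by positivity)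
        have h3 : N ^ 3 * (1 / F1) = p ^ 8 / r ^ 2 := by
          rw [hE1, hNp]
          field_simp
        linarith
      · positivity
    have hfin : (8 + 4 / c + 1 + 2) * p ^ 8 / r ^ 2 =
        8 * (p ^ 8 / r ^ 2) + 4 / c * (p ^ 8 / r ^ 2) + p ^ 8 / r ^ 2 + 2 * (p ^ 8 / r ^ 2) := by
      ring
    rw [hfin]
    linarith
  · intro e m hm hme h1 h2 h3
    show POT_A N F2 ((e - m : ℕ) : ℝ) + POT_B C1 F1 F2 ((e - m : ℕ) : ℝ) +
      POT_D N F1 ((e - m : ℕ) : ℝ) + 1 ≤ POT_A N F2 e + POT_B C1 F1 F2 e + POT_D N F1 e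
    have hm' : (1 : ℝ) ≤ m := by exact_mod_cast hm
    have hme' : (m : ℝ) ≤ e := by exact_mod_cast hme
    rw [Nat.cast_sub hme]
    have hle : (e : ℝ) - m ≤ e := by linarith
    have mA := POT_A_mono (F2 := F2) hN.le hle
    have mB := POT_B_mono hC10 hF20.le hF12 hle
    have mD := POT_D_mono hN.le hF10 hle
    by_cases c1 : (e : ℝ) ≤ F2
    · have := POT_A_step hN hm' hme' c1 (h1 c1)
      linarith
    rw [not_le] at c1
    by_cases c2 : (e : ℝ) - m ≤ F2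
    · have h4 : POT_B C1 F1 F2 ((e : ℝ) - m) = 0 := if_neg (not_lt.2 c2)
      have h5 := POT_B_one hC10 hF20.le hF12 c1
      linarith
    rw [not_le] at c2
    by_cases c3 : (e : ℝ) ≤ F1
    · have := POT_B_step hN hc hl0 hF20 hm' c2 c3 (h2 c1 c3)
      rw [← hC1] at this
      linarith
    rw [not_le] at c3
    by_cases c4 : (e : ℝ) - m ≤ F1
    · have h4 : POT_D N F1 ((e : ℝ) - m) = 0 := if_neg (not_lt.2 c4)
      have h5 := POT_D_one hN.le hF10 c3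
      linarith
    rw [not_le] at c4
    have := POT_D_step hN hF10 hm' c4 (h3 c3)
    linarith

end H773V
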