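import Pool.Agent.H773R2.U2.Defs

namespace H773V

open Finset Pool.Agent.Results.MP_9dddc4_co.UkExponent
open H773U (ContainsT Tr dg cg nn mm)

/-- if all edges through `u, v` meet `Z` outside `u, v` then the codegree is at most `|Z|` -/
theorem PP_cod {n : ℕ} (H : ES n) (hH : IsRGraph 3 H) (u v : Fin n) (huv : u ≠ v)
    (Z : Finset (Fin n)) (hu : u ∉ Z) (hv : v ∉ Z)
    (hZ : ∀ f ∈ H, u ∈ f → v ∈ f → ∃ w ∈ f, w ∈ Z) : cod H u v ≤ Z.card := by
  unfold cod
  refine le_trans (card_le_card ?_) (card_image_le (s := Z) (f := fun t => ({u, v, t} : Finset (Fin n))))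
  intro f hf
  obtain ⟨hfH, huf, hvf⟩ := mem_filter.1 hf
  obtain ⟨t, htf, htZ⟩ := hZ f hfH huf hvf
  refine mem_image.2 ⟨t, htZ, ?_⟩
  apply Finset.eq_of_subset_of_card_le
  · intro x hx
    simp only [mem_insert, mem_singleton] at hx
    rcases hx with rfl | rfl | rfl <;> assumption
  · rw [hH f hfH]
    have htu : u ≠ t := fun h => hu (h ▸ htZ)
    have htv : v ≠ t := fun h => hv (h ▸ htZ)
    rw [card_insert_of_notMem (by simp [huv, htu]), card_insert_of_notMem (by simp [htv]),
      card_singleton]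

theorem PP (hT : S_TK) (h0 : S_NC0) (h1 : S_NC1) : S_PP := by
  intro n e g A H hpar hH hcard c0 c1
  obtain ⟨Z, hZ, hZH⟩ := h0 n A H hH c0
  have hWex := h1 n A H hH c1
  choose W hWc hvW hWH using hWex
  obtain ⟨_, hcod, _, _, _, _, _, _⟩ := hT n H hH
  have hg := hpar.hg
  have hg1 : 1 ≤ g := by omega
  have hgA : 3 * A < g ^ 470 := by
    have h1 : A ≤ g ^ 161 := hpar.a2
    have h2 : g ^ 470 = g ^ 161 * g ^ 309 := by rw [← pow_add]
    have h3 : g ≤ g ^ 309 := Nat.le_self_pow (by norm_num) g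
    have h4 : 1 ≤ g ^ 161 := Nat.one_le_pow _ _ hg1
    rw [h2]
    calc 3 * A ≤ 3 * g ^ 161 := Nat.mul_le_mul_left _ h1
      _ < g ^ 161 * g ^ 309 := by nlinarith
  set D := g ^ 470 with hD
  have memhv : ∀ p : Fin n × Fin n, p ∈ hv H D ↔ p.1 ≠ p.2 ∧ D ≤ cod H p.1 p.2 := by
    intro p
    simp [hv]
  have hSG : SG (hv H D) := by
    intro u v huv
    rw [memhv] at huv
    refine ⟨?_, huv.1⟩
    rw [memhv]
    exact ⟨huv.1.symm, by rw [(hcod v u huv.1.symm).2]; exact huv.2⟩
  refine ⟨hSG, ?_, ?_, Z, hZ, ?_⟩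
  · -- number of pairs
    set Lo := H.filter (fun f => ∀ p : Fin n × Fin n, p ∈ hv H D → ¬ (p.1 ∈ f ∧ p.2 ∈ f)) with hLo
    set Hi := H.filter (fun f => ¬ ∀ p : Fin n × Fin n, p ∈ hv H D → ¬ (p.1 ∈ f ∧ p.2 ∈ f)) with hHi
    have hsplit : Lo.card + Hi.card = H.card :=
      Finset.card_filter_add_card_filter_not _
    have hLoc : Lo.card ≤ 3 * A * (2 * A * D) := by
      have hsub : Lo ⊆ Z.biUnion (fun z => ((W z).filter (fun w => cod H z w < D)).biUnion
          (fun w => H.filter (fun f => z ∈ f ∧ w ∈ f))) := by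
        intro f hf
        obtain ⟨hfH, hfp⟩ := mem_filter.1 hf
        obtain ⟨z, hzf, hzZ⟩ := hZH f hfH
        obtain ⟨w, hwf, hwW⟩ := hWH z f hfH hzf
        have hzw : z ≠ w := fun h => hvW z (h ▸ hwW)
        refine mem_biUnion.2 ⟨z, hzZ, mem_biUnion.2 ⟨w, mem_filter.2 ⟨hwW, ?_⟩,
          mem_filter.2 ⟨hfH, hzf, hwf⟩⟩⟩
        by_contra hge
        exact hfp (z, w) ((memhv _).2 ⟨hzw, by simpa using hge⟩) ⟨hzf, hwf⟩
      calc Lo.card ≤ _ := card_le_card hsub
        _ ≤ ∑ z ∈ Z, (((W z).filter (fun w => cod H z w < D)).biUnion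
          (fun w => H.filter (fun f => z ∈ f ∧ w ∈ f))).card := card_biUnion_le
        _ ≤ ∑ z ∈ Z, 2 * A * D := by
            apply Finset.sum_le_sum
            intro z _
            calc _ ≤ ∑ w ∈ (W z).filter (fun w => cod H z w < D),
                  (H.filter (fun f => z ∈ f ∧ w ∈ f)).card := card_biUnion_le
              _ ≤ ∑ w ∈ (W z).filter (fun w => cod H z w < D), D := by
                  apply Finset.sum_le_sum
                  intro w hw
                  exact (mem_filter.1 hw).2.le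
              _ = ((W z).filter (fun w => cod H z w < D)).card * D := by
                  rw [Finset.sum_const, smul_eq_mul]
              _ ≤ 2 * A * D := Nat.mul_le_mul_right _
                  (le_trans (card_filter_le _ _) (hWc z))
        _ = Z.card * (2 * A * D) := by rw [Finset.sum_const, smul_eq_mul]
        _ ≤ 3 * A * (2 * A * D) := Nat.mul_le_mul_right _ hZ
    have hLoe : 2 * Lo.card ≤ e := by
      have h1 : A ≤ g ^ 161 := hpar.a2
      have h2 : g ^ 799 ≤ e := hpar.e1
      have h3 : 3 * A * (2 * A * D) ≤ 6 * g ^ 792 := by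
        calc 3 * A * (2 * A * D) = 6 * (A * A) * D := by ring
          _ ≤ 6 * (g ^ 161 * g ^ 161) * D :=
              Nat.mul_le_mul_right _ (Nat.mul_le_mul_left _ (Nat.mul_le_mul h1 h1))
          _ = 6 * g ^ 792 := by rw [hD]; ring
      have h4 : 12 * g ^ 792 ≤ g ^ 799 := by
        have h5 : g ^ 799 = g ^ 7 * g ^ 792 := by rw [← pow_add]
        rw [h5]
        apply Nat.mul_le_mul_right
        exact le_trans (by omega) (Nat.le_self_pow (n := 7) (by norm_num) g)
      omega
    have hHie : e ≤ 2 * Hi.card := by omega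
    have hdc : 2 * Hi.card ≤ ∑ p ∈ hv H D, cod H p.1 p.2 := by
      have e1 : ∑ p ∈ hv H D, cod H p.1 p.2 =
          ∑ f ∈ H, ((hv H D).filter (fun p => p.1 ∈ f ∧ p.2 ∈ f)).card := by
        unfold cod
        simp only [card_filter]
        rw [Finset.sum_comm]
      rw [e1]
      calc 2 * Hi.card = ∑ f ∈ Hi, 2 := by rw [Finset.sum_const, smul_eq_mul, mul_comm]
        _ ≤ ∑ f ∈ Hi, ((hv H D).filter (fun p => p.1 ∈ f ∧ p.2 ∈ f)).card := by
            apply Finset.sum_le_sum
            intro f hf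
            obtain ⟨_, hf2⟩ := mem_filter.1 hf
            push Not at hf2
            obtain ⟨p, hp, hp1, hp2⟩ := hf2
            have hp' := hSG p.1 p.2 hp
            have hne : p ≠ (p.2, p.1) := fun h => hp'.2 (congrArg Prod.fst h)
            calc 2 = ({p, (p.2, p.1)} : Finset (Fin n × Fin n)).card := (card_pair hne).symm
              _ ≤ _ := by
                  apply card_le_card
                  intro q hq
                  simp only [mem_insert, mem_singleton] at hq
                  rcases hq with rfl | rfl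
                  · exact mem_filter.2 ⟨hp, hp1, hp2⟩
                  · exact mem_filter.2 ⟨hp'.1, hp2, hp1⟩
        _ ≤ ∑ f ∈ H, ((hv H D).filter (fun p => p.1 ∈ f ∧ p.2 ∈ f)).card :=
            Finset.sum_le_sum_of_subset (filter_subset _ _)
    calc e ≤ 2 * Hi.card := hHie
      _ ≤ ∑ p ∈ hv H D, cod H p.1 p.2 := hdc
      _ ≤ ∑ p ∈ hv H D, n := by
          apply Finset.sum_le_sum
          intro p hp
          exact (hcod p.1 p.2 ((memhv p).1 hp).1).1
      _ = n * (hv H D).card := by rw [Finset.sum_const, smul_eq_mul, mul_comm]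
  · -- degrees
    intro v
    unfold dgr
    have hsub : ((hv H D).filter (fun p => p.1 = v)) ⊆ (W v).image (fun w => (v, w)) := by
      intro p hp
      obtain ⟨hp1, hp2⟩ := mem_filter.1 hp
      obtain ⟨q1, q2⟩ := p
      simp only at hp2
      subst hp2
      rw [memhv] at hp1
      refine mem_image.2 ⟨q2, ?_, rfl⟩
      by_contra hq2
      have := PP_cod H hH q1 q2 hp1.1 (W q1) (hvW q1) hq2 (fun f hf h1 _ => hWH q1 f hf h1)
      have h3 := hWc q1
      have h4 := hp1.2
      simp only at h4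
      omega
    exact le_trans (card_le_card hsub) (le_trans card_image_le (hWc v))
  · intro p hp
    rw [memhv] at hp
    by_contra hcon
    push Not at hcon
    have := PP_cod H hH p.1 p.2 hp.1 Z hcon.1 hcon.2 (fun f hf _ _ => hZH f hf)
    have h4 := hp.2
    omega

end H773V
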