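import Pool.Agent.H773R2.U2.Defs

set_option autoImplicit false

namespace H773V

/-- the state of the selection process after the centres of `B1` have been processed -/
def SEL_St {n : ℕ} (G : Finset (Fin n × Fin n)) (T : Fin n → Fin n → Finset (Fin n))
    (B1 : Finset (Fin n)) (N : Fin n → Finset (Fin n)) (V0 : Finset (Fin n)) (k : Fin n → ℕ)
    (φ : Fin n → Fin n) (y : Fin n → Fin n) (N' : Fin n → Finset (Fin n)) : Prop :=
  (∀ b ∈ B1, N' b ⊆ N b ∧ (N' b).card = k b ∧ ∀ a ∈ N' b, (φ a, y b) ∈ G) ∧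
  (∀ b ∈ B1, y b ∉ V0.image φ) ∧
  (∀ b ∈ B1, ∀ b' ∈ B1, y b = y b' → b = b') ∧
  (∀ b ∈ B1, ∀ a ∈ N' b, ∀ b' ∈ B1, y b' ∉ T (φ a) (y b)) ∧
  (∀ b ∈ B1, ∀ a ∈ N' b, Disjoint (T (φ a) (y b)) (V0.image φ)) ∧
  (∀ b ∈ B1, ∀ b' ∈ B1, ∀ a ∈ N' b, ∀ a' ∈ N' b', (a, b) ≠ (a', b') →
    Disjoint (T (φ a) (y b)) (T (φ a') (y b')))

theorem SEL_step {n w z : ℕ} (G : Finset (Fin n × Fin n))
    (T : Fin n → Fin n → Finset (Fin n)) (B B1 Y : Finset (Fin n)) (N nb : Fin n → Finset (Fin n))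
    (k : Fin n → ℕ) (φ : Fin n → Fin n) (K : ℕ) (hG : GT G T w)
    (hφ : Set.InjOn φ (B.biUnion N : Set (Fin n)))
    (hnb : ∀ y ∈ Y, ∀ x ∈ nb y, (x, y) ∈ G) (b : Fin n) (hbB : b ∈ B) (hb1 : b ∉ B1) (hB1 : B1 ⊆ B)
    (hz : z ≤ (Y.filter (fun y => k b ≤ ((N b).filter (fun a => φ a ∈ nb y)).card)).card)
    (hK : ∑ b ∈ B1, k b ≤ K)
    (hlt : (1 + (B.biUnion N).card) * ((B.biUnion N).card + B.card + w * K) < z)
    (y : Fin n → Fin n) (N' : Fin n → Finset (Fin n)) (h : SEL_St G T B1 N (B.biUnion N) k φ y N') :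
    ∃ (y' : Fin n → Fin n) (N'' : Fin n → Finset (Fin n)),
      SEL_St G T (insert b B1) N (B.biUnion N) k φ y' N'' := by
  classical
  obtain ⟨ha, hb, hc, hd, he, hf⟩ := h
  set V0 := B.biUnion N with hV0
  set U : Finset (Fin n) := V0.image φ ∪ B1.image y ∪
    B1.biUnion (fun b' => (N' b').biUnion (fun a => T (φ a) (y b'))) with hU
  have hUc : U.card ≤ V0.card + B.card + w * K := by
    have h1 : (V0.image φ).card ≤ V0.card := Finset.card_image_le
    have h2 : (B1.image y).card ≤ B.card := Finset.card_image_le.trans (Finset.card_le_card hB1)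
    have h3 : (B1.biUnion (fun b' => (N' b').biUnion (fun a => T (φ a) (y b')))).card ≤ w * K := by
      refine Finset.card_biUnion_le.trans ?_
      calc ∑ b' ∈ B1, ((N' b').biUnion (fun a => T (φ a) (y b'))).card
          ≤ ∑ b' ∈ B1, w * k b' := by
            refine Finset.sum_le_sum fun b' hb' => ?_
            refine Finset.card_biUnion_le.trans ?_
            calc ∑ a ∈ N' b', (T (φ a) (y b')).card = ∑ a ∈ N' b', w :=
                  Finset.sum_congr rfl fun a ha' => hG.card _ _ ((ha b' hb').2.2 a ha')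
              _ = w * k b' := by
                  rw [Finset.sum_const, (ha b' hb').2.1, smul_eq_mul, mul_comm]
              _ ≤ w * k b' := le_rfl
        _ = w * ∑ b' ∈ B1, k b' := by rw [Finset.mul_sum]
        _ ≤ w * K := Nat.mul_le_mul_left _ hK
    rw [hU]
    refine (Finset.card_union_le _ _).trans ?_
    have h4 := Finset.card_union_le (V0.image φ) (B1.image y)
    omega
  -- bad choices
  set bad : Finset (Fin n) := U ∪ (N b).biUnion (fun a => U.biUnion (fun t =>
    Y.filter (fun x => φ a ∈ nb x ∧ t ∈ T (φ a) x))) with hbad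
  have hbadc : bad.card ≤ (1 + V0.card) * U.card := by
    have h1 : ((N b).biUnion (fun a => U.biUnion (fun t =>
        Y.filter (fun x => φ a ∈ nb x ∧ t ∈ T (φ a) x)))).card ≤ V0.card * U.card := by
      refine Finset.card_biUnion_le.trans ?_
      calc ∑ a ∈ N b, (U.biUnion (fun t => Y.filter (fun x => φ a ∈ nb x ∧ t ∈ T (φ a) x))).card
          ≤ ∑ a ∈ N b, U.card := by
            refine Finset.sum_le_sum fun a _ => ?_
            refine Finset.card_biUnion_le.trans ?_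
            calc ∑ t ∈ U, (Y.filter (fun x => φ a ∈ nb x ∧ t ∈ T (φ a) x)).card
                ≤ ∑ t ∈ U, 1 := by
                  refine Finset.sum_le_sum fun t _ => ?_
                  rw [Finset.card_le_one]
                  intro x hx x' hx'
                  rw [Finset.mem_filter] at hx hx'
                  by_contra hne
                  have h5 := hG.disj (φ a) x x' (hnb x hx.1 _ hx.2.1) (hnb x' hx'.1 _ hx'.2.1) hne
                  exact (Finset.disjoint_left.1 h5) hx.2.2 hx'.2.2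
              _ = U.card := by simp
        _ = (N b).card * U.card := by rw [Finset.sum_const, smul_eq_mul]
        _ ≤ V0.card * U.card :=
            Nat.mul_le_mul_right _ (Finset.card_le_card (Finset.subset_biUnion_of_mem N hbB))
    rw [hbad]
    refine (Finset.card_union_le _ _).trans ?_
    rw [add_mul, one_mul]
    omega
  have hbadz : bad.card < z := by
    refine lt_of_le_of_lt hbadc (lt_of_le_of_lt ?_ hlt)
    exact Nat.mul_le_mul_left _ hUc
  obtain ⟨y0, hy0, hy0b⟩ := Finset.exists_mem_notMem_of_card_lt_card (lt_of_lt_of_le hbadz hz)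
  rw [Finset.mem_filter] at hy0
  obtain ⟨hy0Y, hy0k⟩ := hy0
  obtain ⟨N0, hN0, hN0c⟩ := Finset.exists_subset_card_eq hy0k
  have hy0U : y0 ∉ U := fun h => hy0b (by rw [hbad]; exact Finset.mem_union_left _ h)
  have hN0G : ∀ a ∈ N0, (φ a, y0) ∈ G := fun a ha' =>
    hnb y0 hy0Y _ (Finset.mem_filter.1 (hN0 ha')).2
  have hN0T : ∀ a ∈ N0, Disjoint (T (φ a) y0) U := by
    intro a ha'
    rw [Finset.disjoint_left]
    intro t ht htU
    apply hy0b
    rw [hbad]
    refine Finset.mem_union_right _ ?_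
    rw [Finset.mem_biUnion]
    refine ⟨a, (Finset.mem_filter.1 (hN0 ha')).1, ?_⟩
    rw [Finset.mem_biUnion]
    exact ⟨t, htU, Finset.mem_filter.2 ⟨hy0Y, (Finset.mem_filter.1 (hN0 ha')).2, ht⟩⟩
  have hUV : V0.image φ ⊆ U := by
    rw [hU]
    exact Finset.subset_union_left.trans Finset.subset_union_left
  have hUy : ∀ b' ∈ B1, y b' ∈ U := by
    intro b' hb'
    rw [hU]
    exact Finset.mem_union_left _ (Finset.mem_union_right _ (Finset.mem_image_of_mem _ hb'))
  have hUT : ∀ b' ∈ B1, ∀ a ∈ N' b', T (φ a) (y b') ⊆ U := by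
    intro b' hb' a ha' t ht
    rw [hU]
    refine Finset.mem_union_right _ ?_
    rw [Finset.mem_biUnion]
    exact ⟨b', hb', Finset.mem_biUnion.2 ⟨a, ha', ht⟩⟩
  have hN0V : ∀ a ∈ N0, a ∈ V0 := fun a ha' =>
    Finset.mem_biUnion.2 ⟨b, hbB, (Finset.mem_filter.1 (hN0 ha')).1⟩
  have hne : ∀ b' ∈ B1, b' ≠ b := fun b' hb' hcon => hb1 (hcon ▸ hb')
  have hyb : Function.update y b y0 b = y0 := Function.update_self _ _ _
  have hNb : Function.update N' b N0 b = N0 := Function.update_self _ _ _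
  have hy1 : ∀ b' ∈ B1, Function.update y b y0 b' = y b' := fun b' hb' =>
    Function.update_of_ne (hne b' hb') _ _
  have hN1 : ∀ b' ∈ B1, Function.update N' b N0 b' = N' b' := fun b' hb' =>
    Function.update_of_ne (hne b' hb') _ _
  refine ⟨Function.update y b y0, Function.update N' b N0, ?_, ?_, ?_, ?_, ?_, ?_⟩
  · intro b' hb'
    rcases Finset.mem_insert.1 hb' with rfl | hb'
    · rw [hyb, hNb]
      exact ⟨fun a ha' => (Finset.mem_filter.1 (hN0 ha')).1, hN0c, hN0G⟩
    · rw [hy1 b' hb', hN1 b' hb']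
      exact ha b' hb'
  · intro b' hb'
    rcases Finset.mem_insert.1 hb' with rfl | hb'
    · rw [hyb]
      exact fun h => hy0U (hUV h)
    · rw [hy1 b' hb']
      exact hb b' hb'
  · intro b1 hb1' b2 hb2' h12
    rcases Finset.mem_insert.1 hb1' with e1 | hb1'
    · rcases Finset.mem_insert.1 hb2' with e2 | hb2'
      · rw [e1, e2]
      · rw [e1, hyb, hy1 b2 hb2'] at h12
        exact absurd (h12 ▸ hUy b2 hb2') hy0U
    · rcases Finset.mem_insert.1 hb2' with e2 | hb2'
      · rw [e2, hyb, hy1 b1 hb1'] at h12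
        exact absurd (h12 ▸ hUy b1 hb1') hy0U
      · rw [hy1 b1 hb1', hy1 b2 hb2'] at h12
        exact hc b1 hb1' b2 hb2' h12
  · intro b1 hb1' a ha1 b2 hb2'
    rcases Finset.mem_insert.1 hb1' with e1 | hb1'
    · rw [e1, hNb] at ha1
      rw [e1, hyb]
      rcases Finset.mem_insert.1 hb2' with e2 | hb2'
      · rw [e2, hyb]
        exact (hG.nm _ _ (hN0G a ha1)).2
      · rw [hy1 b2 hb2']
        exact fun h => (Finset.disjoint_left.1 (hN0T a ha1)) h (hUy b2 hb2')
    · rw [hN1 b1 hb1'] at ha1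
      rw [hy1 b1 hb1']
      rcases Finset.mem_insert.1 hb2' with e2 | hb2'
      · rw [e2, hyb]
        exact fun h => hy0U (hUT b1 hb1' a ha1 h)
      · rw [hy1 b2 hb2']
        exact hd b1 hb1' a ha1 b2 hb2'
  · intro b1 hb1' a ha1
    rcases Finset.mem_insert.1 hb1' with e1 | hb1'
    · rw [e1, hNb] at ha1
      rw [e1, hyb]
      exact (hN0T a ha1).mono_right hUV
    · rw [hN1 b1 hb1'] at ha1
      rw [hy1 b1 hb1']
      exact he b1 hb1' a ha1
  · intro b1 hb1' b2 hb2' a ha1 a' ha2 hab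
    rcases Finset.mem_insert.1 hb1' with e1 | hb1'
    · rw [e1, hNb] at ha1
      rw [e1, hyb]
      rcases Finset.mem_insert.1 hb2' with e2 | hb2'
      · rw [e2, hNb] at ha2
        rw [e2, hyb]
        have haa : a ≠ a' := by
          intro h
          apply hab
          rw [h, e1, e2]
        have hφa : φ a ≠ φ a' := by
          intro h
          exact haa (hφ (by exact_mod_cast hN0V a ha1) (by exact_mod_cast hN0V a' ha2) h)
        have g1 := (hG.sg _ _ (hN0G a ha1)).1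
        have g2 := (hG.sg _ _ (hN0G a' ha2)).1
        rw [hG.tsym (φ a) y0, hG.tsym (φ a') y0]
        exact hG.disj y0 (φ a) (φ a') g1 g2 hφa
      · rw [hN1 b2 hb2'] at ha2
        rw [hy1 b2 hb2']
        exact (hN0T a ha1).mono_right (hUT b2 hb2' a' ha2)
    · rw [hN1 b1 hb1'] at ha1
      rw [hy1 b1 hb1']
      rcases Finset.mem_insert.1 hb2' with e2 | hb2'
      · rw [e2, hNb] at ha2
        rw [e2, hyb]
        exact ((hN0T a' ha2).mono_right (hUT b1 hb1' a ha1)).symm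
      · rw [hN1 b2 hb2'] at ha2
        rw [hy1 b2 hb2']
        exact hf b1 hb1' b2 hb2' a ha1 a' ha2 hab

theorem SEL : S_SEL := by
  classical
  intro n w z P G T B B0 Y N nb k φ hG hOD hB0 hφ hnb hz hlt
  have key : ∀ B1 : Finset (Fin n), B1 ⊆ B0 → ∃ (y : Fin n → Fin n) (N' : Fin n → Finset (Fin n)),
      SEL_St G T B1 N (B.biUnion N) k φ y N' := by
    intro B1
    induction B1 using Finset.induction_on with
    | empty =>
      intro _
      refine ⟨id, fun _ => ∅, ?_, ?_, ?_, ?_, ?_, ?_⟩ <;> simp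
    | insert b B1 hb ih =>
      intro hsub
      have hb0 : b ∈ B0 := hsub (Finset.mem_insert_self _ _)
      have hs1 : B1 ⊆ B0 := fun x hx => hsub (Finset.mem_insert_of_mem hx)
      obtain ⟨y, N', hst⟩ := ih hs1
      exact SEL_step G T B B1 Y N nb k φ (∑ b ∈ B0, k b) hG hφ hnb b (hB0 hb0) hb
        (hs1.trans hB0) (hz b hb0) (Finset.sum_le_sum_of_subset hs1) hlt y N' hst
  obtain ⟨y, N', ha, hb, hc, hd, he, hf⟩ := key B0 (Finset.Subset.refl _)
  set V0 := B.biUnion N with hV0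
  set F : Finset (Fin n × Fin n) := B0.biUnion (fun b => (N' b).image (fun a => (a, b))) with hF
  have hmem : ∀ p : Fin n × Fin n, p ∈ F ↔ p.2 ∈ B0 ∧ p.1 ∈ N' p.2 := by
    intro p
    rw [hF, Finset.mem_biUnion]
    constructor
    · rintro ⟨b, hb1, hp⟩
      rw [Finset.mem_image] at hp
      obtain ⟨a, ha1, rfl⟩ := hp
      exact ⟨hb1, ha1⟩
    · rintro ⟨h1, h2⟩
      exact ⟨p.2, h1, Finset.mem_image.2 ⟨p.1, h2, rfl⟩⟩
  have hN'V : ∀ b ∈ B0, ∀ a ∈ N' b, a ∈ V0 := fun b hb1 a ha1 =>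
    Finset.mem_biUnion.2 ⟨b, hB0 hb1, (ha b hb1).1 ha1⟩
  have hVB : ∀ a ∈ V0, a ∉ B := by
    intro a ha1
    obtain ⟨b, hb1, hab⟩ := Finset.mem_biUnion.1 ha1
    exact (hOD b hb1 a hab).2
  have hVB0 : ∀ a ∈ V0, a ∉ B0 := fun a ha1 h => hVB a ha1 (hB0 h)
  set ψ : Fin n → Fin n := fun x => if x ∈ B0 then y x else φ x with hψ
  have hψB : ∀ b ∈ B0, ψ b = y b := fun b hb1 => if_pos hb1
  have hψV : ∀ a ∈ V0, ψ a = φ a := fun a ha1 => if_neg (hVB0 a ha1)
  have hVS : VS F ⊆ V0 ∪ B0 := by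
    intro x hx
    unfold VS at hx
    rcases Finset.mem_union.1 hx with hx | hx
    · obtain ⟨p, hp, rfl⟩ := Finset.mem_image.1 hx
      have := (hmem p).1 hp
      exact Finset.mem_union_left _ (hN'V _ this.1 _ this.2)
    · obtain ⟨p, hp, rfl⟩ := Finset.mem_image.1 hx
      exact Finset.mem_union_right _ ((hmem p).1 hp).1
  refine ⟨F, ψ, ?_, ?_, ?_, ?_, ?_, ?_, ?_, ?_⟩
  · intro p hp
    have h1 := (hmem p).1 hp
    exact (hOD p.2 (hB0 h1.1) p.1 ((ha p.2 h1.1).1 h1.2)).1
  · intro p hp hp'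
    have h1 := (hmem p).1 hp
    have h2 := (hmem _).1 hp'
    exact hVB0 p.1 (hN'V _ h1.1 _ h1.2) h2.1
  · rw [hF, Finset.card_biUnion]
    · refine Finset.sum_le_sum fun b hb1 => ?_
      rw [Finset.card_image_of_injective _ (fun a a' h => (Prod.mk.inj h).1), (ha b hb1).2.1]
    · intro b hb1 b' hb1' hne
      simp only [Function.onFun]
      rw [Finset.disjoint_left]
      intro p hp hp'
      obtain ⟨a, _, rfl⟩ := Finset.mem_image.1 hp
      obtain ⟨a', _, h'⟩ := Finset.mem_image.1 hp'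
      exact hne (Prod.mk.inj h').2.symm
  · refine (Finset.card_le_card hVS).trans ((Finset.card_union_le _ _).trans ?_)
    exact Nat.add_le_add_left (Finset.card_le_card hB0) _
  · intro x hx x' hx' hxx
    have hx1 := Finset.mem_union.1 (hVS (by exact_mod_cast hx))
    have hx2 := Finset.mem_union.1 (hVS (by exact_mod_cast hx'))
    rcases hx1 with h1 | h1
    · rcases hx2 with h2 | h2
      · rw [hψV x h1, hψV x' h2] at hxx
        exact hφ (by exact_mod_cast h1) (by exact_mod_cast h2) hxx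
      · rw [hψV x h1, hψB x' h2] at hxx
        exact absurd (hxx ▸ Finset.mem_image_of_mem φ h1) (hb x' h2)
    · rcases hx2 with h2 | h2
      · rw [hψB x h1, hψV x' h2] at hxx
        exact absurd (hxx.symm ▸ Finset.mem_image_of_mem φ h2) (hb x h1)
      · rw [hψB x h1, hψB x' h2] at hxx
        exact hc x h1 x' h2 hxx
  · intro p hp
    have h1 := (hmem p).1 hp
    rw [hψV _ (hN'V _ h1.1 _ h1.2), hψB _ h1.1]
    exact (ha p.2 h1.1).2.2 p.1 h1.2
  · intro p hp
    have h1 := (hmem p).1 hp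
    rw [hψV _ (hN'V _ h1.1 _ h1.2), hψB _ h1.1, Finset.disjoint_left]
    intro t ht ht'
    obtain ⟨x, hx, rfl⟩ := Finset.mem_image.1 ht'
    rcases Finset.mem_union.1 (hVS hx) with h2 | h2
    · rw [hψV x h2] at ht
      exact (Finset.disjoint_left.1 (he p.2 h1.1 p.1 h1.2)) ht (Finset.mem_image_of_mem φ h2)
    · rw [hψB x h2] at ht
      exact hd p.2 h1.1 p.1 h1.2 x h2 ht
  · intro p hp q hq hpq
    have h1 := (hmem p).1 hp
    have h2 := (hmem q).1 hq
    rw [hψV _ (hN'V _ h1.1 _ h1.2), hψB _ h1.1, hψV _ (hN'V _ h2.1 _ h2.2), hψB _ h2.1]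
    exact hf p.2 h1.1 q.2 h2.1 p.1 h1.2 q.1 h2.2 hpq

end H773V
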