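import Pool.Agent.H773R2.U2.Defs

namespace H773V

open Finset

theorem SFE_deg_le {n : ℕ} (G : Finset (Fin n × Fin n)) (y : Fin n) : dgr G y ≤ n := by
  unfold dgr
  have h : ((G.filter (fun p => p.1 = y)).image Prod.snd).card = (G.filter (fun p => p.1 = y)).card :=
    Finset.card_image_of_injOn (by
      intro p hp q hq h
      simp only [Finset.coe_filter, Set.mem_setOf_eq] at hp hq
      exact Prod.ext (hp.2.trans hq.2.symm) h)
  rw [← h]
  exact (Finset.card_le_univ _).trans (by simp)

theorem SFE_sum {n : ℕ} (G : Finset (Fin n × Fin n)) : G.card = ∑ y, dgr G y := by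
  unfold dgr
  exact Finset.card_eq_sum_card_fiberwise (fun p _ => by simp)

theorem SFE_hi {n : ℕ} (G : Finset (Fin n × Fin n)) (D a : ℕ) (hn : 0 < n)
    (h : n * (a + 1 + D) ≤ G.card) :
    a + 1 ≤ ((univ : Finset (Fin n)).filter (fun y => D + 1 ≤ dgr G y)).card := by
  set Hi := (univ : Finset (Fin n)).filter (fun y => D + 1 ≤ dgr G y) with hHi
  have h1 : ∑ y, dgr G y ≤ ∑ y, (D + if y ∈ Hi then n else 0) := by
    refine Finset.sum_le_sum fun y _ => ?_
    split_ifs with hy
    · exact (SFE_deg_le G y).trans (Nat.le_add_left _ _)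
    · have : ¬ (D + 1 ≤ dgr G y) := fun h' => hy (Finset.mem_filter.2 ⟨Finset.mem_univ _, h'⟩)
      omega
  rw [← SFE_sum, Finset.sum_add_distrib, Finset.sum_ite_mem, Finset.univ_inter, Finset.sum_const,
    Finset.sum_const, Finset.card_univ, Fintype.card_fin, smul_eq_mul, smul_eq_mul] at h1
  have h2 : n * (a + 1) ≤ n * Hi.card := by nlinarith
  exact Nat.le_of_mul_le_mul_left h2 hn

/-- choice of one image -/
theorem SFE_pick {n w : ℕ} (G : Finset (Fin n × Fin n)) (T : Fin n → Fin n → Finset (Fin n))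
    (hG : GT G T w) (y : Fin n) (U : Finset (Fin n)) (h : 2 * U.card < dgr G y) :
    ∃ v, (v, y) ∈ G ∧ v ∉ U ∧ Disjoint (T v y) U := by
  classical
  -- the neighbours of `y`
  set N : Finset (Fin n) := (univ : Finset (Fin n)).filter (fun v => (v, y) ∈ G) with hN
  have hNc : N.card = dgr G y := by
    unfold dgr
    refine Finset.card_bij (fun v _ => (y, v)) ?_ ?_ ?_
    · intro v hv
      simp only [hN, Finset.mem_filter, Finset.mem_univ, true_and] at hv
      simp [(hG.sg _ _ hv).1]
    · intro v _ v' _ e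
      simpa using e
    · intro p hp
      simp only [Finset.mem_filter] at hp
      refine ⟨p.2, ?_, Prod.ext hp.2.symm rfl⟩
      have : (y, p.2) ∈ G := by rw [← hp.2]; exact hp.1
      simp [hN, (hG.sg _ _ this).1]
  -- bad neighbours
  set Bad : Finset (Fin n) := N.filter (fun v => ¬ Disjoint (T v y) U) with hBad
  have hBc : Bad.card ≤ U.card := by
    have hex : ∀ v ∈ Bad, ∃ t, t ∈ T v y ∧ t ∈ U := by
      intro v hv
      have := (Finset.mem_filter.1 hv).2
      rw [Finset.not_disjoint_iff] at this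
      exact this
    choose! t ht using hex
    refine Finset.card_le_card_of_injOn t (fun v hv => (ht v hv).2) ?_
    intro v hv v' hv' e
    by_contra hne
    have m1 : (y, v) ∈ G := (hG.sg _ _ (Finset.mem_filter.1 (Finset.mem_filter.1 hv).1).2).1
    have m2 : (y, v') ∈ G := (hG.sg _ _ (Finset.mem_filter.1 (Finset.mem_filter.1 hv').1).2).1
    have hd := hG.disj y v v' m1 m2 hne
    rw [hG.tsym y v, hG.tsym y v', Finset.disjoint_left] at hd
    refine hd (ht v hv).1 ?_
    rw [e]
    exact (ht v' hv').1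
  have hex : ∃ v ∈ N, v ∉ U ∪ Bad := by
    by_contra hcon
    push Not at hcon
    have hsub : N ⊆ U ∪ Bad := hcon
    have := (Finset.card_le_card hsub).trans (Finset.card_union_le _ _)
    omega
  obtain ⟨v, hvN, hv⟩ := hex
  rw [Finset.mem_union, not_or] at hv
  refine ⟨v, (Finset.mem_filter.1 hvN).2, hv.1, ?_⟩
  by_contra hd
  exact hv.2 (Finset.mem_filter.2 ⟨hvN, hd⟩)

/-- choice of all images of the leaves -/
theorem SFE_choose {n w a : ℕ} (G : Finset (Fin n × Fin n)) (T : Fin n → Fin n → Finset (Fin n))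
    (hG : GT G T w) (L Y : Finset (Fin n)) (z : Fin n → Fin n) (hL : L.card ≤ a)
    (hY : Y.card ≤ a) (hz : ∀ x ∈ L, 2 * (2 + w) * a + 1 ≤ dgr G (z x)) :
    ∀ L' ⊆ L, ∃ u : Fin n → Fin n, Set.InjOn u (L' : Set (Fin n)) ∧
      (∀ x ∈ L', (u x, z x) ∈ G) ∧ (∀ x ∈ L', u x ∉ Y) ∧
      (∀ x ∈ L', ∀ x' ∈ L', u x ∉ T (u x') (z x')) ∧
      (∀ x ∈ L', Disjoint (T (u x) (z x)) Y) ∧
      (∀ x ∈ L', ∀ x' ∈ L', x ≠ x' → Disjoint (T (u x) (z x)) (T (u x') (z x'))) := by
  classical
  intro L'
  induction L' using Finset.induction_on with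
  | empty => intro _; exact ⟨id, by simp⟩
  | insert x0 L' hx0 ih =>
    intro hsub
    obtain ⟨u, i1, i2, i3, i4, i5, i6⟩ := ih ((Finset.subset_insert _ _).trans hsub)
    have hx0L : x0 ∈ L := hsub (Finset.mem_insert_self _ _)
    have hcard : (insert x0 L').card ≤ a := (Finset.card_le_card hsub).trans hL
    rw [Finset.card_insert_of_notMem hx0] at hcard
    set U : Finset (Fin n) := Y ∪ L'.image u ∪ L'.biUnion (fun x => T (u x) (z x)) with hU
    have hUc : U.card ≤ (2 + w) * a := by
      have c1 : (L'.biUnion (fun x => T (u x) (z x))).card ≤ L'.card * w := by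
        refine Finset.card_biUnion_le_card_mul _ _ _ fun x hx => ?_
        rw [hG.card _ _ (i2 x hx)]
      have c2 : U.card ≤ Y.card + L'.card + L'.card * w := by
        refine (Finset.card_union_le _ _).trans (Nat.add_le_add ?_ c1)
        exact (Finset.card_union_le _ _).trans (Nat.add_le_add_left Finset.card_image_le _)
      have c3 : L'.card * w ≤ a * w := Nat.mul_le_mul_right _ (by omega)
      have c4 : (2 + w) * a = a + a + a * w := by ring
      omega
    obtain ⟨v, v1, v2, v3⟩ := SFE_pick G T hG (z x0) U (by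
      have := hz x0 hx0L
      have e : 2 * (2 + w) * a = 2 * ((2 + w) * a) := by ring
      omega)
    have hYU : ∀ t ∈ Y, t ∈ U := fun t ht => by simp [hU, ht]
    have huU : ∀ x ∈ L', u x ∈ U := fun x hx => by
      simp only [hU, Finset.mem_union, Finset.mem_image, Finset.mem_biUnion]
      exact Or.inl (Or.inr ⟨x, hx, rfl⟩)
    have hTU : ∀ x ∈ L', ∀ t ∈ T (u x) (z x), t ∈ U := fun x hx t ht => by
      simp only [hU, Finset.mem_union, Finset.mem_image, Finset.mem_biUnion]
      exact Or.inr ⟨x, hx, ht⟩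
    have hne : ∀ x ∈ L', x ≠ x0 := fun x hx h => hx0 (h ▸ hx)
    have e0 : Function.update u x0 v x0 = v := Function.update_self _ _ _
    have e1 : ∀ x ∈ L', Function.update u x0 v x = u x := fun x hx =>
      Function.update_of_ne (hne x hx) _ _
    rw [Finset.disjoint_left] at v3
    refine ⟨Function.update u x0 v, ?_, ?_, ?_, ?_, ?_, ?_⟩
    · rw [Finset.coe_insert, Set.injOn_insert (by simpa using hx0)]
      refine ⟨?_, ?_⟩
      · intro x hx y hy h
        rw [e1 x hx, e1 y hy] at h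
        exact i1 hx hy h
      · rintro ⟨x, hx, h⟩
        rw [e0, e1 x hx] at h
        exact v2 (h ▸ huU x hx)
    · intro x hx
      rcases Finset.mem_insert.1 hx with rfl | hx
      · rw [e0]; exact v1
      · rw [e1 x hx]; exact i2 x hx
    · intro x hx
      rcases Finset.mem_insert.1 hx with rfl | hx
      · rw [e0]; exact fun h => v2 (hYU _ h)
      · rw [e1 x hx]; exact i3 x hx
    · intro x hx x' hx'
      rcases Finset.mem_insert.1 hx with h0 | hx1
      · rcases Finset.mem_insert.1 hx' with h0' | hx1'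
        · rw [h0, h0', e0]; exact (hG.nm _ _ v1).1
        · rw [h0, e0, e1 x' hx1']; exact fun h => v2 (hTU x' hx1' _ h)
      · rcases Finset.mem_insert.1 hx' with h0' | hx1'
        · rw [h0', e0, e1 x hx1]; exact fun h => v3 h (huU x hx1)
        · rw [e1 x hx1, e1 x' hx1']; exact i4 x hx1 x' hx1'
    · intro x hx
      rcases Finset.mem_insert.1 hx with rfl | hx
      · rw [e0, Finset.disjoint_left]; exact fun t ht h => v3 ht (hYU _ h)
      · rw [e1 x hx]; exact i5 x hx
    · intro x hx x' hx' hxx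
      rcases Finset.mem_insert.1 hx with h0 | hx1
      · rcases Finset.mem_insert.1 hx' with h0' | hx1'
        · exact absurd (h0.trans h0'.symm) hxx
        · rw [h0, e0, e1 x' hx1', Finset.disjoint_left]
          exact fun t ht h => v3 ht (hTU x' hx1' _ h)
      · rcases Finset.mem_insert.1 hx' with h0' | hx1'
        · rw [h0', e0, e1 x hx1, Finset.disjoint_left]
          exact fun t ht h => v3 h (hTU x hx1 _ ht)
        · rw [e1 x hx1, e1 x' hx1']; exact i6 x hx1 x' hx1' hxx

theorem SFE (h : S_SFOR) : S_SFE := by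
  classical
  intro n w a P G T hP hG hVS hcard
  obtain ⟨L, c, hLa, hL⟩ := h n a P hP hVS
  rcases Nat.eq_zero_or_pos n with rfl | hn
  · have ha : a = 0 := by
      have : (VS P).card = 0 := by
        rw [Finset.card_eq_zero, Finset.eq_empty_iff_forall_notMem]
        exact fun x => x.elim0
      omega
    subst ha
    exact ⟨∅, id, by simp [VS]⟩
  set C : Finset (Fin n) := L.image c with hC
  have hCa : C.card ≤ a := hLa ▸ Finset.card_image_le
  have hHi := SFE_hi G (2 * (2 + w) * a) a hn hcard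
  set Hi := (univ : Finset (Fin n)).filter (fun y => 2 * (2 + w) * a + 1 ≤ dgr G y) with hHidef
  obtain ⟨C', hC'sub, hC'card⟩ := Finset.exists_subset_card_eq
    (show C.card ≤ Hi.card by omega)
  obtain ⟨e⟩ : Nonempty (C ≃ C') := ⟨Finset.equivOfCardEq hC'card.symm⟩
  -- the map on the centres
  set y : Fin n → Fin n := fun x => if hx : x ∈ C then (e ⟨x, hx⟩ : Fin n) else x with hy
  have yC : ∀ x (hx : x ∈ C), y x = e ⟨x, hx⟩ := fun x hx => by simp [hy, hx]
  have yinj : Set.InjOn y (C : Set (Fin n)) := by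
    intro x hx x' hx' hxx
    rw [yC x hx, yC x' hx'] at hxx
    have := e.injective (Subtype.ext hxx)
    simpa using this
  have yHi : ∀ x ∈ C, 2 * (2 + w) * a + 1 ≤ dgr G (y x) := by
    intro x hx
    rw [yC x hx]
    exact (Finset.mem_filter.1 (hC'sub (e ⟨x, hx⟩).2)).2
  have hcC : ∀ x ∈ L, c x ∈ C := fun x hx => Finset.mem_image_of_mem _ hx
  obtain ⟨u, i1, i2, i3, i4, i5, i6⟩ := SFE_choose (a := a) G T hG L (C.image y)
    (fun x => y (c x)) hLa.le (Finset.card_image_le.trans hCa)
    (fun x hx => yHi _ (hcC x hx)) L subset_rfl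
  set F : Finset (Fin n × Fin n) := L.image (fun x => (x, c x)) with hF
  have hFm : ∀ p, p ∈ F ↔ p.1 ∈ L ∧ p.2 = c p.1 := by
    intro p
    simp only [hF, Finset.mem_image]
    constructor
    · rintro ⟨x, hx, rfl⟩; exact ⟨hx, rfl⟩
    · rintro ⟨h1, h2⟩; exact ⟨p.1, h1, Prod.ext rfl h2.symm⟩
  have hVF : VS F = L ∪ C := by
    unfold VS
    rw [hF, Finset.image_image, Finset.image_image, hC]
    have : (Prod.fst ∘ fun x => (x, c x)) = (id : Fin n → Fin n) := rfl
    rw [this, Finset.image_id]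
    rfl
  set φ : Fin n → Fin n := fun x => if x ∈ L then u x else y x with hφ
  have φL : ∀ x ∈ L, φ x = u x := fun x hx => by simp [hφ, hx]
  have φC : ∀ x ∈ C, φ x = y x := by
    intro x hx
    obtain ⟨x', hx', rfl⟩ := Finset.mem_image.1 hx
    simp [hφ, (hL x' hx').2]
  have φim : ∀ t, t ∈ (VS F).image φ → (∃ x ∈ L, t = u x) ∨ t ∈ C.image y := by
    intro t ht
    obtain ⟨x, hx, rfl⟩ := Finset.mem_image.1 ht
    rw [hVF, Finset.mem_union] at hx
    rcases hx with hx | hx
    · exact Or.inl ⟨x, hx, φL x hx⟩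
    · exact Or.inr (by rw [φC x hx]; exact Finset.mem_image_of_mem _ hx)
  refine ⟨F, φ, ?_, ?_, ?_, ?_, ?_, ?_, ?_, ?_⟩
  · intro p hp
    obtain ⟨h1, h2⟩ := (hFm p).1 hp
    have := (hL p.1 h1).1
    rw [← h2] at this
    exact this
  · intro p hp hq
    obtain ⟨h1, h2⟩ := (hFm p).1 hp
    obtain ⟨h3, -⟩ := (hFm _).1 hq
    simp only at h3
    rw [h2] at h3
    exact (hL p.1 h1).2 h3
  · rw [hF, Finset.card_image_of_injective _ (fun x y h => (Prod.ext_iff.1 h).1), hLa]
  · rw [hVF]
    refine (Finset.card_union_le _ _).trans ?_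
    omega
  · rw [hVF]
    intro x hx x' hx' hxx
    rw [Finset.coe_union] at hx hx'
    rcases hx with hx | hx <;> rcases hx' with hx' | hx'
    · rw [φL x hx, φL x' hx'] at hxx
      exact i1 hx hx' hxx
    · rw [φL x hx, φC x' hx'] at hxx
      exact absurd (hxx ▸ Finset.mem_image_of_mem y hx') (i3 x hx)
    · rw [φC x hx, φL x' hx'] at hxx
      exact absurd (hxx ▸ Finset.mem_image_of_mem y hx) (i3 x' hx')
    · rw [φC x hx, φC x' hx'] at hxx
      exact yinj hx hx' hxx
  · intro p hp
    obtain ⟨h1, h2⟩ := (hFm p).1 hp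
    rw [φL _ h1, h2, φC _ (hcC _ h1)]
    exact i2 _ h1
  · intro p hp
    obtain ⟨h1, h2⟩ := (hFm p).1 hp
    rw [φL _ h1, h2, φC _ (hcC _ h1), Finset.disjoint_left]
    intro t ht ht'
    rcases φim t ht' with ⟨x, hx, rfl⟩ | hc
    · exact i4 x hx _ h1 ht
    · exact (Finset.disjoint_left.1 (i5 _ h1)) ht hc
  · intro p hp q hq hpq
    obtain ⟨h1, h2⟩ := (hFm p).1 hp
    obtain ⟨h3, h4⟩ := (hFm q).1 hq
    have hne : p.1 ≠ q.1 := by
      intro h5
      exact hpq (Prod.ext h5 (by rw [h2, h4, h5]))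
    rw [φL _ h1, h2, φC _ (hcC _ h1), φL _ h3, h4, φC _ (hcC _ h3)]
    exact i6 _ h1 _ h3 hne

end H773V
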