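import Pool.Agent.H773R2.U2.Defs

/-! Task SFOR (helper879): star forests. -/

set_option autoImplicit false

namespace H773V

open Finset Pool.Agent.Results.MP_9dddc4_co.UkExponent
open H773U (ContainsT Tr dg cg nn mm)

lemma SFOR_mem_VS {n : ℕ} {P : Finset (Fin n × Fin n)} (hP : SG P) {x : Fin n} :
    x ∈ VS P ↔ ∃ y, (x, y) ∈ P := by
  unfold VS
  rw [mem_union, mem_image, mem_image]
  constructor
  · rintro (⟨⟨a, b⟩, h1, rfl⟩ | ⟨⟨a, b⟩, h1, rfl⟩)
    · exact ⟨b, h1⟩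
    · exact ⟨a, (hP a b h1).1⟩
  · rintro ⟨y, hy⟩
    exact Or.inl ⟨(x, y), hy, rfl⟩

theorem SFOR : S_SFOR := by
  intro n a P hP ha
  classical
  -- a maximal independent subset
  obtain ⟨I, hI, hmax⟩ := exists_max_image
    ((VS P).powerset.filter (fun I => ∀ u ∈ I, ∀ v ∈ I, (u, v) ∉ P)) card
    ⟨∅, by simp⟩
  rw [mem_filter, mem_powerset] at hI
  obtain ⟨hIV, hind⟩ := hI
  -- vertices outside have a neighbour in `I`
  have hout : ∀ x ∈ VS P \ I, ∃ c, (x, c) ∈ P ∧ c ∈ I := by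
    intro x hx
    rw [mem_sdiff] at hx
    by_contra hcon
    push Not at hcon
    have h1 : insert x I ∈ (VS P).powerset.filter (fun I => ∀ u ∈ I, ∀ v ∈ I, (u, v) ∉ P) := by
      rw [mem_filter, mem_powerset]
      refine ⟨insert_subset hx.1 hIV, ?_⟩
      intro u hu v hv
      rcases mem_insert.1 hu with rfl | hu' <;> rcases mem_insert.1 hv with rfl | hv'
      · intro h
        exact (hP _ _ h).2 rfl
      · intro h
        exact hcon v h hv'
      · intro h
        exact hcon u (hP _ _ h).1 hu'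
      · exact hind u hu' v hv'
    have h2 := hmax _ h1
    rw [card_insert_of_notMem hx.2] at h2
    omega
  have hin : ∀ x ∈ I, ∃ c, (x, c) ∈ P ∧ c ∉ I := by
    intro x hx
    obtain ⟨y, hy⟩ := (SFOR_mem_VS hP).1 (hIV hx)
    exact ⟨y, hy, fun hyI => hind x hx y hyI hy⟩
  have key : ∃ L' : Finset (Fin n), a ≤ L'.card ∧ ∀ x ∈ L', ∃ c, (x, c) ∈ P ∧ c ∉ L' := by
    by_cases h : a ≤ I.card
    · exact ⟨I, h, hin⟩
    · refine ⟨VS P \ I, ?_, ?_⟩
      · rw [card_sdiff_of_subset hIV]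
        omega
      · intro x hx
        obtain ⟨c, hc1, hc2⟩ := hout x hx
        refine ⟨c, hc1, ?_⟩
        rw [mem_sdiff, not_and_not_right]
        exact fun _ => hc2
  obtain ⟨L', hL', hc⟩ := key
  obtain ⟨L, hLL, hLc⟩ := exists_subset_card_eq hL'
  choose! c hc using hc
  exact ⟨L, c, hLc, fun x hx => ⟨(hc x (hLL hx)).1, fun h => (hc x (hLL hx)).2 (hLL h)⟩⟩

end H773V
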