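import Pool.Agent.H773R2.U2.Defs

/-! Common subgraphs of pairs (SHC). -/

namespace H773V

open Finset Pool.Agent.Results.MP_9dddc4_co.UkExponent

theorem SHC_img_congr {n : ℕ} (F : ES n) (f g : Fin n → Fin n) (h : ∀ x ∈ cov F, f x = g x) :
    img f F = img g F := by
  unfold img
  apply Finset.image_congr
  intro e he
  apply Finset.image_congr
  intro x hx
  apply h
  exact Finset.mem_biUnion.2 ⟨e, he, hx⟩

theorem SHC : S_SHC := by
  rintro n m H ⟨F, f, hF, hf, hfF, hm⟩
  obtain ⟨F0, hF0, hcard⟩ := Finset.exists_subset_card_eq hm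
  have hcov : cov F0 ⊆ cov F := Finset.biUnion_subset_biUnion_of_subset_left _ hF0
  obtain ⟨σ, hσ⟩ := exists_perm_extend (cov F0) f (hf.mono (by exact_mod_cast hcov))
  refine ⟨F0, ![1, σ], hcard, fun i => ?_⟩
  fin_cases i
  · show img (fun x => x) F0 ⊆ H 0
    have : img (fun x : Fin n => x) F0 = F0 := by
      unfold img
      simp
    rw [this]
    exact hF0.trans hF
  · show img σ F0 ⊆ H 1
    rw [SHC_img_congr F0 σ f hσ]
    exact (Finset.image_subset_image hF0).trans hfF

end H773V
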