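import Pool.Agent.H773R2.U2.Defs

/-! Symmetry of the relation of having a common subgraph (SHS). -/

namespace H773V

open Finset Pool.Agent.Results.MP_9dddc4_co.UkExponent

theorem SHS_img_congr {n : ℕ} (F : ES n) (f g : Fin n → Fin n) (h : ∀ x ∈ cov F, f x = g x) :
    img f F = img g F := by
  unfold img
  apply Finset.image_congr
  intro e he
  apply Finset.image_congr
  intro x hx
  apply h
  exact Finset.mem_biUnion.2 ⟨e, he, hx⟩

theorem SHS : S_SHS := by
  rintro n m H1 H2 ⟨F, f, hF, hf, hfF, hm⟩
  obtain ⟨σ, hσ⟩ := exists_perm_extend (cov F) f hf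
  have h1 : img σ F = img f F := SHS_img_congr F σ f hσ
  have h2 : img σ.symm (img σ F) = F := by
    unfold img
    rw [Finset.image_image]
    have : ((fun e : Finset (Fin n) => e.image σ.symm) ∘ fun e => e.image σ) = id := by
      funext e
      simp [Function.comp_def, Finset.image_image]
    rw [this, Finset.image_id]
  refine ⟨img σ F, σ.symm, ?_, σ.symm.injective.injOn, ?_, ?_⟩
  · rw [h1]; exact hfF
  · rw [h2]; exact hF
  · rw [img_card_inj σ.injective]; exact hm

end H773V
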