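import Pool.Agent.H773R2.U2.Defs

/-! Task SPLIT. -/

namespace H773V

open Finset Pool.Agent.Results.MP_9dddc4_co.UkExponent

theorem SPLIT_dgr {n : ℕ} (G : Finset (Fin n × Fin n)) (x : Fin n) :
    dgr G x = (univ.filter (fun y => (x, y) ∈ G)).card := by
  classical
  unfold dgr
  refine card_bij' (fun p _ => p.2) (fun y _ => (x, y)) ?_ ?_ ?_ ?_
  · intro p hp
    rw [mem_filter] at hp ⊢
    refine ⟨mem_univ _, ?_⟩
    rw [← hp.2]
    exact hp.1
  · intro y hy
    rw [mem_filter] at hy ⊢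
    exact ⟨hy.2, rfl⟩
  · intro p hp
    rw [mem_filter] at hp
    rw [← hp.2]
  · intro y _
    rfl

theorem SPLIT_sum {n : ℕ} (G : Finset (Fin n × Fin n)) : ∑ y, dgr G y = G.card := by
  classical
  rw [card_eq_sum_card_fiberwise (f := Prod.fst) (t := univ) (fun x _ => mem_univ _)]
  rfl

theorem SPLIT_mono {n : ℕ} {G G' : Finset (Fin n × Fin n)} (h : G' ⊆ G) (x : Fin n) :
    dgr G' x ≤ dgr G x := card_le_card (filter_subset_filter _ h)

theorem SPLIT : S_SPLIT := by
  classical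
  intro n M D G hG hn hM hD
  set Hi := univ.filter (fun y => M ≤ dgr G y) with hHi
  by_cases hbig : G.card ≤ 8 * n * Hi.card
  · exact Or.inl hbig
  right
  rw [not_le] at hbig
  set G' := G.filter (fun p => p.1 ∉ Hi ∧ p.2 ∉ Hi) with hG'
  have hG'G : G' ⊆ G := filter_subset _ _
  have hsym : ∀ x y, (x, y) ∈ G' → (y, x) ∈ G' := by
    intro x y h
    rw [hG', mem_filter] at h ⊢
    exact ⟨(hG x y h.1).1, h.2.2, h.2.1⟩
  have hcard : G.card ≤ G'.card + 2 * (n * Hi.card) := by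
    have hsub : G ⊆ G' ∪ (Hi ×ˢ univ ∪ univ ×ˢ Hi) := by
      intro p hp
      by_cases h1 : p.1 ∈ Hi
      · exact mem_union_right _ (mem_union_left _ (mem_product.2 ⟨h1, mem_univ _⟩))
      · by_cases h2 : p.2 ∈ Hi
        · exact mem_union_right _ (mem_union_right _ (mem_product.2 ⟨mem_univ _, h2⟩))
        · exact mem_union_left _ (mem_filter.2 ⟨hp, h1, h2⟩)
    refine (card_le_card hsub).trans ?_
    refine (card_union_le _ _).trans ?_
    have h3 := card_union_le (Hi ×ˢ (univ : Finset (Fin n))) ((univ : Finset (Fin n)) ×ˢ Hi)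
    rw [card_product, card_product, card_univ, Fintype.card_fin] at h3
    nlinarith
  have hlow : ∀ y, y ∉ Hi → dgr G y < M := by
    intro y hy
    by_contra hcon
    rw [not_lt] at hcon
    exact hy (mem_filter.2 ⟨mem_univ _, hcon⟩)
  have hzero : ∀ y, y ∈ Hi → dgr G' y = 0 := by
    intro y hy
    unfold dgr
    rw [card_eq_zero, filter_eq_empty_iff]
    intro p hp hpy
    rw [hG', mem_filter] at hp
    exact hp.2.1 (hpy ▸ hy)
  set Y := univ.filter (fun y => y ∉ Hi ∧ D ≤ dgr G' y) with hY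
  have hsplit : ∑ y ∈ Y, dgr G' y + ∑ y ∈ univ.filter (fun y => ¬ (y ∉ Hi ∧ D ≤ dgr G' y)),
      dgr G' y = G'.card := by
    rw [hY, sum_filter_add_sum_filter_not, SPLIT_sum]
  have hsmall : ∑ y ∈ univ.filter (fun y => ¬ (y ∉ Hi ∧ D ≤ dgr G' y)), dgr G' y ≤ n * D := by
    have h1 : ∑ y ∈ univ.filter (fun y => ¬ (y ∉ Hi ∧ D ≤ dgr G' y)), dgr G' y ≤
        ∑ y ∈ univ.filter (fun y => ¬ (y ∉ Hi ∧ D ≤ dgr G' y)), D := by
      refine sum_le_sum fun y hy => ?_
      rw [mem_filter] at hy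
      by_cases h2 : y ∈ Hi
      · rw [hzero y h2]
        exact Nat.zero_le _
      · by_contra hcon
        rw [not_le] at hcon
        exact hy.2 ⟨h2, hcon.le⟩
    refine h1.trans ?_
    rw [sum_const, smul_eq_mul]
    refine Nat.mul_le_mul_right _ ?_
    refine (card_le_univ _).trans ?_
    rw [Fintype.card_fin]
  have hYM : ∑ y ∈ Y, dgr G' y ≤ Y.card * M := by
    rw [← smul_eq_mul, ← sum_const]
    refine sum_le_sum fun y hy => ?_
    rw [hY, mem_filter] at hy
    exact (SPLIT_mono hG'G y).trans (hlow y hy.2.1).le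
  have hex : ∀ y, ∃ S : Finset (Fin n), y ∈ Y → (S.card = D ∧ ∀ x ∈ S, (x, y) ∈ G') := by
    intro y
    by_cases hy : y ∈ Y
    · have hy' := hy
      rw [hY, mem_filter] at hy'
      have h1 := hy'.2.2
      rw [SPLIT_dgr] at h1
      obtain ⟨S, hS, hSc⟩ := exists_subset_card_eq h1
      refine ⟨S, fun _ => ⟨hSc, fun x hx => ?_⟩⟩
      have := hS hx
      rw [mem_filter] at this
      exact hsym _ _ this.2
    · exact ⟨∅, fun h => absurd h hy⟩
  choose nb hnb using hex
  refine ⟨Y, nb, ?_, ?_, ?_⟩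
  · intro y hy
    exact ⟨(hnb y hy).1, fun x hx => hG'G ((hnb y hy).2 x hx)⟩
  · intro x
    have h1 : (Y.filter (fun y => x ∈ nb y)).card ≤ dgr G' x := by
      rw [SPLIT_dgr]
      refine card_le_card ?_
      intro y hy
      rw [mem_filter] at hy
      exact mem_filter.2 ⟨mem_univ _, (hnb y hy.1).2 x hy.2⟩
    refine h1.trans ?_
    by_cases hx : x ∈ Hi
    · rw [hzero x hx]
      exact Nat.zero_le _
    · exact (SPLIT_mono hG'G x).trans (hlow x hx).le
  · nlinarith

end H773V
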