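import Pool.Agent.H773R2.U2.Defs

/-! Task STEP: the second moment lemma. -/

namespace H773V

open Finset Pool.Agent.Results.MP_9dddc4_co.UkExponent

theorem STEP_pow (b t d : ℝ) (hb0 : 0 ≤ b) (hb1 : b ≤ 1) (ht0 : 0 ≤ t) (ht1 : t ≤ 1) (hd : 0 ≤ d)
    (h : b ≤ t + d) : ∀ m : ℕ, b ^ m ≤ t ^ m + m * d := by
  intro m
  induction m with
  | zero => simp
  | succ m ih =>
    have h1 : b * b ^ m ≤ b * (t ^ m + m * d) := mul_le_mul_of_nonneg_left ih hb0
    have h2 : b * t ^ m ≤ (t + d) * t ^ m := mul_le_mul_of_nonneg_right h (pow_nonneg ht0 m)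
    have h3 : d * t ^ m ≤ d * 1 := mul_le_mul_of_nonneg_left (pow_le_one₀ ht0 ht1) hd
    have h4 : b * (m * d) ≤ 1 * (m * d) := mul_le_mul_of_nonneg_right hb1 (by positivity)
    rw [pow_succ, pow_succ]
    push_cast
    nlinarith

theorem STEP_pow2 (t : ℝ) (ht0 : 0 ≤ t) (ht1 : t ≤ 1) : ∀ m : ℕ, (1 - t) ^ m * (1 + m * t) ≤ 1 := by
  intro m
  induction m with
  | zero => simp
  | succ m ih =>
    have h1 : (1 - t) * (1 + (m + 1) * t) ≤ 1 + m * t := by nlinarith [mul_nonneg (Nat.cast_nonneg (α := ℝ) m) (mul_nonneg ht0 ht0), mul_nonneg ht0 ht0]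
    have h2 : 0 ≤ (1 - t) ^ m := pow_nonneg (by linarith) m
    have h3 := mul_le_mul_of_nonneg_left h1 h2
    rw [pow_succ]
    push_cast
    nlinarith

theorem STEP_count {n m : ℕ} (S : Finset (Fin n)) :
    (((univ : Finset (Fin m → Fin n)).filter (fun x => ∀ j, x j ∉ S)).card : ℝ) =
      ((n : ℝ) - S.card) ^ m := by
  classical
  have h1 : (univ : Finset (Fin m → Fin n)).filter (fun x => ∀ j, x j ∉ S) =
      Fintype.piFinset (fun _ : Fin m => Sᶜ) := by
    ext x
    simp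
  rw [h1, Fintype.card_piFinset_const, card_compl, Fintype.card_fin]
  push_cast
  rw [Nat.cast_sub]
  have := card_le_univ S
  rwa [Fintype.card_fin] at this

/-- indicator of missing `S` -/
noncomputable def STEP_I {n m : ℕ} (S : Finset (Fin n)) (x : Fin m → Fin n) : ℝ :=
  open scoped Classical in if ∀ j, x j ∉ S then 1 else 0

theorem STEP_sum {n m : ℕ} (S : Finset (Fin n)) :
    ∑ x : Fin m → Fin n, STEP_I S x = ((n : ℝ) - S.card) ^ m := by
  classical
  rw [← STEP_count]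
  unfold STEP_I
  rw [sum_boole]

theorem STEP_mul {n m : ℕ} (S T : Finset (Fin n)) (x : Fin m → Fin n) :
    STEP_I S x * STEP_I T x = STEP_I (S ∪ T) x := by
  classical
  unfold STEP_I
  by_cases h1 : ∀ j, x j ∉ S
  · by_cases h2 : ∀ j, x j ∉ T
    · have h3 : ∀ j, x j ∉ S ∪ T := by
        intro j hj
        rcases mem_union.1 hj with h | h
        · exact h1 j h
        · exact h2 j h
      rw [if_pos h1, if_pos h2, if_pos h3, mul_one]
    · have h3 : ¬ ∀ j, x j ∉ S ∪ T := by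
        intro h
        exact h2 fun j hj => h j (mem_union_right _ hj)
      rw [if_pos h1, if_neg h2, if_neg h3, mul_zero]
  · have h3 : ¬ ∀ j, x j ∉ S ∪ T := by
      intro h
      exact h1 fun j hj => h j (mem_union_left _ hj)
    rw [if_neg h1, if_neg h3, zero_mul]

theorem STEP_pair {n m D : ℕ} (hn : 0 < n) (S T : Finset (Fin n)) (hS : S.card = D)
    (hT : T.card = D) :
    ∑ x : Fin m → Fin n, (STEP_I S x - (1 - (D : ℝ) / n) ^ m) *
      (STEP_I T x - (1 - (D : ℝ) / n) ^ m) ≤ (n : ℝ) ^ m * (m * ((S ∩ T).card / n)) := by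
  classical
  have hn' : (0 : ℝ) < n := by exact_mod_cast hn
  have hDn : D ≤ n := by
    have := card_le_univ S
    rw [Fintype.card_fin, hS] at this
    exact this
  have hDn' : (D : ℝ) ≤ n := by exact_mod_cast hDn
  set α := (1 - (D : ℝ) / n) ^ m with hα
  have hαn : ((n : ℝ) - D) ^ m = α * (n : ℝ) ^ m := by
    rw [hα, ← mul_pow]
    congr 1
    field_simp
  have hu : ((S ∪ T).card : ℝ) + (S ∩ T).card = 2 * D := by
    have := card_union_add_card_inter S T
    rw [hS, hT] at this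
    have h2 : (((S ∪ T).card + (S ∩ T).card : ℕ) : ℝ) = ((D + D : ℕ) : ℝ) := by rw [this]
    push_cast at h2
    linarith
  have hun : ((S ∪ T).card : ℝ) ≤ n := by
    have := card_le_univ (S ∪ T)
    rw [Fintype.card_fin] at this
    exact_mod_cast this
  have hexp : ∑ x : Fin m → Fin n, (STEP_I S x - α) * (STEP_I T x - α) =
      ((n : ℝ) - (S ∪ T).card) ^ m - α ^ 2 * (n : ℝ) ^ m := by
    have h1 : ∀ x : Fin m → Fin n, (STEP_I S x - α) * (STEP_I T x - α) =
        STEP_I (S ∪ T) x - α * STEP_I S x - α * STEP_I T x + α ^ 2 := by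
      intro x
      rw [← STEP_mul]
      ring
    rw [sum_congr rfl fun x _ => h1 x, sum_add_distrib, sum_sub_distrib, sum_sub_distrib,
      ← mul_sum, ← mul_sum, STEP_sum, STEP_sum, STEP_sum, hS, hT, hαn, sum_const, card_univ,
      Fintype.card_fun, Fintype.card_fin, Fintype.card_fin, nsmul_eq_mul]
    push_cast
    ring
  rw [hexp]
  have hb : ((n : ℝ) - (S ∪ T).card) ^ m = (n : ℝ) ^ m * (1 - ((S ∪ T).card : ℝ) / n) ^ m := by
    rw [← mul_pow]
    congr 1
    field_simp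
  have ha : α ^ 2 = ((1 - (D : ℝ) / n) ^ 2) ^ m := by
    rw [hα, ← pow_mul, ← pow_mul, mul_comm]
  rw [hb, ha]
  have hDn1 : (D : ℝ) / n ≤ 1 := (div_le_one hn').2 hDn'
  have hDn0 : 0 ≤ (D : ℝ) / n := by positivity
  have h0 := STEP_pow (1 - ((S ∪ T).card : ℝ) / n) ((1 - (D : ℝ) / n) ^ 2)
    (((S ∩ T).card : ℝ) / n) (by
      rw [sub_nonneg, div_le_one hn']
      exact hun) (by
      have : 0 ≤ ((S ∪ T).card : ℝ) / n := by positivity
      linarith) (sq_nonneg _) (by nlinarith) (by positivity) (by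
      have h5 : ((S ∪ T).card : ℝ) / n = 2 * (D / n) - (S ∩ T).card / n := by
        rw [show ((S ∪ T).card : ℝ) = 2 * D - (S ∩ T).card by linarith]
        ring
      rw [h5]
      nlinarith [sq_nonneg ((D : ℝ) / n)]) m
  nlinarith [mul_le_mul_of_nonneg_left h0 (by positivity : (0 : ℝ) ≤ (n : ℝ) ^ m)]

theorem STEP_codeg {n D Δ : ℕ} (Z : Finset (Fin n)) (nb : Fin n → Finset (Fin n))
    (h1 : ∀ y ∈ Z, (nb y).card = D) (h2 : ∀ x, (Z.filter (fun y => x ∈ nb y)).card ≤ Δ) :
    ∑ y ∈ Z, ∑ y' ∈ Z, (nb y ∩ nb y').card ≤ Δ * (D * Z.card) := by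
  classical
  have h3 : ∀ y ∈ Z, ∑ y' ∈ Z, (nb y ∩ nb y').card ≤ Δ * D := by
    intro y hy
    have h4 : ∑ y' ∈ Z, (nb y ∩ nb y').card =
        ∑ x ∈ nb y, (Z.filter (fun y' => x ∈ nb y')).card := by
      have h5 : ∀ y' ∈ Z, (nb y ∩ nb y').card = ∑ x ∈ nb y, if x ∈ nb y' then 1 else 0 := by
        intro y' _
        rw [← filter_mem_eq_inter, card_filter]
      rw [sum_congr rfl h5, sum_comm]
      refine sum_congr rfl fun x _ => ?_
      rw [card_filter]
    rw [h4]
    refine (sum_le_sum fun x _ => h2 x).trans ?_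
    rw [sum_const, smul_eq_mul, h1 y hy, mul_comm]
  refine (sum_le_sum h3).trans ?_
  rw [sum_const, smul_eq_mul]
  exact le_of_eq (by ring)

theorem STEP : S_STEP := by
  classical
  intro n m D Δ Z nb h1 h2 h3
  rcases Nat.eq_zero_or_pos (m * D * Z.card) with h0 | hpos
  · rw [h0, mul_zero]
    exact Nat.zero_le _
  have hmD : 0 < m * D := Nat.pos_of_mul_pos_right hpos
  have hZ : 0 < Z.card := Nat.pos_of_mul_pos_left hpos
  have hn : 0 < n := lt_of_lt_of_le hmD h3
  have hn' : (0 : ℝ) < n := by exact_mod_cast hn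
  have hDn : D ≤ n := by
    refine le_trans ?_ h3
    exact Nat.le_mul_of_pos_left D (Nat.pos_of_mul_pos_right hmD)
  have hDn' : (D : ℝ) / n ≤ 1 := by
    rw [div_le_one hn']
    exact_mod_cast hDn
  set q : ℝ := m * D / n with hq
  have hq0 : 0 < q := by
    rw [hq]
    have : (0 : ℝ) < m * D := by exact_mod_cast hmD
    positivity
  have hq1 : q ≤ 1 := by
    rw [hq, div_le_one hn']
    exact_mod_cast h3
  set α := (1 - (D : ℝ) / n) ^ m with hα
  have hα0 : 0 ≤ α := pow_nonneg (by linarith) m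
  have hα1 : α ≤ 1 - q / 2 := by
    have h4 := STEP_pow2 ((D : ℝ) / n) (by positivity) hDn' m
    have h5 : (m : ℝ) * (D / n) = q := by rw [hq]; ring
    rw [h5, ← hα] at h4
    have h6 : 1 ≤ (1 - q / 2) * (1 + q) := by nlinarith
    by_contra hcon
    rw [not_le] at hcon
    nlinarith
  have hZ' : (0 : ℝ) < Z.card := by exact_mod_cast hZ
  -- the variance
  have hvar : ∑ x : Fin m → Fin n, (∑ y ∈ Z, (STEP_I (nb y) x - α)) ^ 2 ≤
      (n : ℝ) ^ m * (q * Δ * Z.card) := by
    have h4 : ∑ x : Fin m → Fin n, (∑ y ∈ Z, (STEP_I (nb y) x - α)) ^ 2 =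
        ∑ y ∈ Z, ∑ y' ∈ Z, ∑ x : Fin m → Fin n, (STEP_I (nb y) x - α) *
          (STEP_I (nb y') x - α) := by
      have h5 : ∀ x : Fin m → Fin n, (∑ y ∈ Z, (STEP_I (nb y) x - α)) ^ 2 =
          ∑ y ∈ Z, ∑ y' ∈ Z, (STEP_I (nb y) x - α) * (STEP_I (nb y') x - α) := by
        intro x
        rw [sq, sum_mul_sum]
      rw [sum_congr rfl fun x _ => h5 x, sum_comm]
      refine sum_congr rfl fun y _ => ?_
      rw [sum_comm]
    rw [h4]
    have h6 : ∑ y ∈ Z, ∑ y' ∈ Z, ∑ x : Fin m → Fin n, (STEP_I (nb y) x - α) *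
        (STEP_I (nb y') x - α) ≤
        ∑ y ∈ Z, ∑ y' ∈ Z, (n : ℝ) ^ m * (m * ((nb y ∩ nb y').card / n)) := by
      refine sum_le_sum fun y hy => sum_le_sum fun y' hy' => ?_
      exact STEP_pair hn (nb y) (nb y') (h1 y hy) (h1 y' hy')
    refine h6.trans ?_
    have h7 : ∑ y ∈ Z, ∑ y' ∈ Z, (n : ℝ) ^ m * (m * ((nb y ∩ nb y').card / n)) =
        (n : ℝ) ^ m * (m / n * ((∑ y ∈ Z, ∑ y' ∈ Z, (nb y ∩ nb y').card : ℕ) : ℝ)) := by
      push_cast
      rw [mul_sum, mul_sum]
      refine sum_congr rfl fun y _ => ?_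
      rw [mul_sum, mul_sum]
      refine sum_congr rfl fun y' _ => ?_
      ring
    rw [h7]
    refine mul_le_mul_of_nonneg_left ?_ (by positivity)
    have h8 : ((∑ y ∈ Z, ∑ y' ∈ Z, (nb y ∩ nb y').card : ℕ) : ℝ) ≤
        ((Δ * (D * Z.card) : ℕ) : ℝ) := by
      exact_mod_cast STEP_codeg Z nb h1 h2
    refine (mul_le_mul_of_nonneg_left h8 (by positivity)).trans ?_
    push_cast
    rw [hq]
    exact le_of_eq (by ring)
  -- the bad event
  set Bad := (univ : Finset (Fin m → Fin n)).filter (fun x =>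
    4 * n * (Z.filter (fun y => ∃ j, x j ∈ nb y)).card < m * D * Z.card) with hBad
  have hbad : ∀ x ∈ Bad, (q * Z.card / 4) ^ 2 ≤ (∑ y ∈ Z, (STEP_I (nb y) x - α)) ^ 2 := by
    intro x hx
    rw [hBad, mem_filter] at hx
    have h4 : ((4 * n * (Z.filter (fun y => ∃ j, x j ∈ nb y)).card : ℕ) : ℝ) <
        ((m * D * Z.card : ℕ) : ℝ) := by exact_mod_cast hx.2
    push_cast at h4
    have h5 : ∑ y ∈ Z, (STEP_I (nb y) x - α) =
        Z.card - ((Z.filter (fun y => ∃ j, x j ∈ nb y)).card : ℝ) - Z.card * α := by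
      rw [sum_sub_distrib, sum_const, nsmul_eq_mul]
      congr 1
      have h6 : ∑ y ∈ Z, STEP_I (nb y) x =
          ((Z.filter (fun y => ¬ ∃ j, x j ∈ nb y)).card : ℝ) := by
        rw [card_filter]
        push_cast
        refine sum_congr rfl fun y _ => ?_
        unfold STEP_I
        by_cases h7 : ∀ j, x j ∉ nb y
        · rw [if_pos h7, if_pos (by push Not; exact h7)]
        · rw [if_neg h7, if_neg]
          intro h8
          push Not at h8
          exact h7 h8
      rw [h6, eq_sub_iff_add_eq, add_comm]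
      exact_mod_cast card_filter_add_card_filter_not (s := Z) (fun y => ∃ j, x j ∈ nb y)
    rw [h5]
    have h9 : ((Z.filter (fun y => ∃ j, x j ∈ nb y)).card : ℝ) ≤ q * Z.card / 4 := by
      have h10 : (m : ℝ) * D * Z.card = n * (q * Z.card) := by
        rw [hq]
        field_simp
      rw [h10] at h4
      have h11 : (n : ℝ) * (4 * (Z.filter (fun y => ∃ j, x j ∈ nb y)).card) <
          n * (q * Z.card) := by
        calc (n : ℝ) * (4 * (Z.filter (fun y => ∃ j, x j ∈ nb y)).card) =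
            4 * n * (Z.filter (fun y => ∃ j, x j ∈ nb y)).card := by ring
          _ < _ := h4
      have h12 := lt_of_mul_lt_mul_left h11 hn'.le
      linarith
    have h13 : q * Z.card / 4 ≤
        Z.card - ((Z.filter (fun y => ∃ j, x j ∈ nb y)).card : ℝ) - Z.card * α := by
      have h14 := mul_le_mul_of_nonneg_left hα1 hZ'.le
      nlinarith
    exact pow_le_pow_left₀ (by positivity) h13 2
  have hcheb : (Bad.card : ℝ) * (q * Z.card / 4) ^ 2 ≤ (n : ℝ) ^ m * (q * Δ * Z.card) := by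
    refine le_trans ?_ hvar
    rw [← nsmul_eq_mul, ← sum_const]
    refine (sum_le_sum hbad).trans ?_
    exact sum_le_sum_of_subset_of_nonneg (subset_univ _) fun x _ _ => sq_nonneg _
  have hfin : (Bad.card : ℝ) * (m * D * Z.card) ≤ 16 * Δ * n * (n : ℝ) ^ m := by
    have h4 : (Bad.card : ℝ) * (q * Z.card) ≤ 16 * Δ * (n : ℝ) ^ m := by
      have h5 : 0 < q * Z.card / 16 := by positivity
      refine le_of_mul_le_mul_right ?_ h5
      calc (Bad.card : ℝ) * (q * Z.card) * (q * Z.card / 16) =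
          (Bad.card : ℝ) * (q * Z.card / 4) ^ 2 := by ring
        _ ≤ (n : ℝ) ^ m * (q * Δ * Z.card) := hcheb
        _ = 16 * Δ * (n : ℝ) ^ m * (q * Z.card / 16) := by ring
    have h6 := mul_le_mul_of_nonneg_left h4 hn'.le
    calc (Bad.card : ℝ) * (m * D * Z.card) = n * (Bad.card * (q * Z.card)) := by
          rw [hq]
          field_simp
      _ ≤ n * (16 * Δ * (n : ℝ) ^ m) := h6
      _ = _ := by ring
  exact_mod_cast hfin

end H773V
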