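import Pool.Agent.H773R2.U2.Defs

/-! TIIIa: embedding of `T(g^16, g^136, g^16)` when there are no large stars and books. -/

set_option autoImplicit false

namespace H773V

open Finset Pool.Agent.Results.MP_9dddc4_co.UkExponent
open H773U (ContainsT Tr dg cg nn mm)

theorem TIIIa_pow {g c a b : ℕ} (hc : c ≤ g) (hg : 1 ≤ g) (hab : a + 1 ≤ b) :
    c * g ^ a ≤ g ^ b :=
  calc c * g ^ a ≤ g * g ^ a := Nat.mul_le_mul_right _ hc
    _ = g ^ (a + 1) := by rw [pow_succ, mul_comm]
    _ ≤ g ^ b := Nat.pow_le_pow_right hg hab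

theorem TIIIa (hT : S_TK) (h1 : S_NC1) (h2 : S_NC2) (hE : S_EMT) : S_TIIIa := by
  classical
  intro n e g A H hP hR hcard hn1 hn2
  obtain ⟨hg, hn1', hn2', ha1, ha2, he1, he2⟩ := hP
  have hW := h1 n A H hR hn1
  have hC := h2 n A H hR hn2
  choose W hW1 hW2 hW3 using hW
  obtain ⟨-, -, -, -, hT5, hT6, -, -⟩ := hT n H hR
  have hg1 : 1 ≤ g := by omega
  -- degrees
  have hdeg : ∀ v, deg H v ≤ 2 * g ^ 322 := by
    intro v
    refine (hT6 v (W v) (hW3 v)).trans ?_
    have h3 : ∑ w ∈ W v, cod H v w ≤ ∑ _w ∈ W v, A := by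
      refine Finset.sum_le_sum fun w hw => ?_
      have hne : v ≠ w := fun h => hW2 v (h ▸ hw)
      exact (hC v w hne).le
    rw [Finset.sum_const, smul_eq_mul] at h3
    calc ∑ w ∈ W v, cod H v w ≤ (W v).card * A := h3
      _ ≤ 2 * A * A := Nat.mul_le_mul_right _ (hW1 v)
      _ ≤ 2 * g ^ 161 * g ^ 161 :=
          Nat.mul_le_mul (Nat.mul_le_mul_left _ ha2) ha2
      _ = 2 * g ^ 322 := by rw [mul_assoc, ← pow_add]
  set S : Tr n := univ.filter (fun p : Fin 3 → Fin n =>
    ({p 0, p 1, p 2} : Finset (Fin n)) ∈ H ∧ p 1 ∈ W (p 0)) with hS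
  have hSm : ∀ p ∈ S, ({p 0, p 1, p 2} : Finset (Fin n)) ∈ H := fun p hp =>
    (Finset.mem_filter.1 hp).2.1
  have hSw : ∀ p ∈ S, p 1 ∈ W (p 0) := fun p hp => (Finset.mem_filter.1 hp).2.2
  -- size of `S`
  have hSc : e ≤ S.card := by
    rw [← hcard]
    refine Finset.card_le_card_of_surjOn (fun p : Fin 3 → Fin n =>
      ({p 0, p 1, p 2} : Finset (Fin n))) ?_
    intro f hf
    have hf' : f ∈ H := hf
    have hf3 : f.card = 3 := hR f hf'
    obtain ⟨v, hv⟩ : f.Nonempty := Finset.card_pos.1 (by omega)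
    obtain ⟨w, hw, hwW⟩ := hW3 v f hf' hv
    have hvw : v ≠ w := fun h => hW2 v (h ▸ hwW)
    have h4 : ((f.erase v).erase w).card = 1 := by
      rw [Finset.card_erase_of_mem (Finset.mem_erase.2 ⟨hvw.symm, hw⟩),
        Finset.card_erase_of_mem hv, hf3]
    obtain ⟨z, hz⟩ := Finset.card_eq_one.1 h4
    have h5 : f = {v, w, z} := by
      rw [← hz, Finset.insert_erase (Finset.mem_erase.2 ⟨hvw.symm, hw⟩), Finset.insert_erase hv]
    refine ⟨![v, w, z], ?_, ?_⟩
    · simp only [hS, Finset.coe_filter, Finset.mem_univ, true_and, Set.mem_ofPred_eq]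
      refine ⟨?_, ?_⟩
      · show ({v, w, z} : Finset (Fin n)) ∈ H
        rw [← h5]
        exact hf'
      · exact hwW
    · exact h5.symm
  have hSg : g ^ 799 ≤ S.card := he1.trans hSc
  have hgpos : 0 < g ^ 799 := Nat.pow_pos (by omega)
  have hSne : S.Nonempty := Finset.card_pos.1 (lt_of_lt_of_le hgpos hSg)
  -- codegrees
  have hcg : ∀ (b : Fin 3), b ≠ 0 → ∀ v v', cg S 0 b v v' ≤ A := by
    intro b hb v v'
    by_cases hv : v = v'
    · subst hv
      have h6 : cg S 0 b v v = 0 := by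
        unfold cg
        rw [Finset.card_eq_zero, Finset.filter_eq_empty_iff]
        rintro p hp ⟨h7, h8⟩
        have h9 := hR _ (hSm p hp)
        have h10 : ({p 0, p 1, p 2} : Finset (Fin n)).card ≤ 2 := by
          have h11 : p 0 = p b := by rw [h7, h8]
          fin_cases b
          · exact absurd rfl hb
          · have h12 : p 0 = p 1 := h11
            rw [h12, Finset.insert_eq_of_mem (Finset.mem_insert_self _ _)]
            exact Finset.card_le_two
          · have h12 : p 0 = p 2 := h11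
            rw [h12, Finset.insert_eq_of_mem
              (Finset.mem_insert_of_mem (Finset.mem_singleton_self _))]
            exact Finset.card_le_two
        omega
      omega
    · exact ((hT5 S hSm).2 0 b v v' (Ne.symm hb)).trans (hC v v' hv).le
  have hdg : ∀ a v, dg S a v ≤ 12 * g ^ 322 := by
    intro a v
    have h6 := (hT5 S hSm).1 a v
    have h7 := hdeg v
    omega
  -- number of roots and of pairs
  have hnn : nn S 0 ≤ 2 * g ^ 480 := by
    refine le_trans ?_ hn2'
    unfold nn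
    exact (Finset.card_le_univ _).trans (by rw [Fintype.card_fin])
  have hmm : mm S 0 1 ≤ 4 * g ^ 641 := by
    have h6 : S.image (fun p => (p 0, p 1)) ⊆
        (univ : Finset (Fin n)).biUnion (fun v => (W v).image (fun w => (v, w))) := by
      intro q hq
      rw [Finset.mem_image] at hq
      obtain ⟨p, hp, rfl⟩ := hq
      rw [Finset.mem_biUnion]
      exact ⟨p 0, Finset.mem_univ _, Finset.mem_image.2 ⟨p 1, hSw p hp, rfl⟩⟩
    unfold mm
    calc (S.image (fun p => (p 0, p 1))).card
        ≤ ((univ : Finset (Fin n)).biUnion (fun v => (W v).image (fun w => (v, w)))).card :=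
          Finset.card_le_card h6
      _ ≤ ∑ v : Fin n, ((W v).image (fun w => (v, w))).card := Finset.card_biUnion_le
      _ ≤ ∑ _v : Fin n, 2 * A := by
          refine Finset.sum_le_sum fun v _ => ?_
          exact Finset.card_image_le.trans (hW1 v)
      _ = n * (2 * A) := by rw [Finset.sum_const, Finset.card_univ, Fintype.card_fin, smul_eq_mul]
      _ ≤ (2 * g ^ 480) * (2 * g ^ 161) := Nat.mul_le_mul hn2' (Nat.mul_le_mul_left _ ha2)
      _ = 4 * g ^ 641 := by
          rw [show 641 = 480 + 161 by norm_num, pow_add]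
          ring
  refine hE n H S (g ^ 16) (g ^ 136) (g ^ 16) (12 * g ^ 322) (12 * g ^ 322) (12 * g ^ 322) A A hR
    (Nat.one_le_pow _ _ (by omega)) (Nat.one_le_pow _ _ (by omega)) (Nat.one_le_pow _ _ (by omega))
    hSne hSm (hdg 0) (hdg 1) (hdg 2) (hcg 1 (by decide)) (hcg 2 (by decide)) ?_ ?_ ?_ ?_ ?_ ?_
  · refine le_trans (le_of_eq ?_) ((TIIIa_pow (a := 338) (b := 799) (c := 2592)
      (by omega) hg1 (by norm_num)).trans hSg)
    rw [show 338 = 16 + 322 by norm_num, pow_add]
    ring
  · refine le_trans (le_of_eq ?_) ((TIIIa_pow (a := 474) (b := 799) (c := 2592)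
      (by omega) hg1 (by norm_num)).trans hSg)
    rw [show 474 = 16 + 136 + 322 by norm_num, pow_add, pow_add]
    ring
  · refine le_trans (le_of_eq ?_) ((TIIIa_pow (a := 490) (b := 799) (c := 2592)
      (by omega) hg1 (by norm_num)).trans hSg)
    rw [show 490 = 16 + 136 + 16 + 322 by norm_num, pow_add, pow_add, pow_add]
    ring
  · refine le_trans ?_ ((TIIIa_pow (a := 777) (b := 799) (c := 864)
      (by omega) hg1 (by norm_num)).trans hSg)
    calc 432 * g ^ 136 * A * nn S 0 ≤ 432 * g ^ 136 * g ^ 161 * (2 * g ^ 480) :=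
          Nat.mul_le_mul (Nat.mul_le_mul_left _ ha2) hnn
      _ = 864 * g ^ 777 := by
          rw [show 777 = 136 + 161 + 480 by norm_num, pow_add, pow_add]
          ring
  · refine le_trans ?_ ((TIIIa_pow (a := 793) (b := 799) (c := 864)
      (by omega) hg1 (by norm_num)).trans hSg)
    calc 432 * (g ^ 136 * g ^ 16) * A * nn S 0
        ≤ 432 * (g ^ 136 * g ^ 16) * g ^ 161 * (2 * g ^ 480) :=
          Nat.mul_le_mul (Nat.mul_le_mul_left _ ha2) hnn
      _ = 864 * g ^ 793 := by
          rw [show 793 = 136 + 16 + 161 + 480 by norm_num, pow_add, pow_add, pow_add]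
          ring
  · refine lt_of_lt_of_le ?_ hSg
    have h6 := TIIIa_pow (g := g) (a := 657) (b := 658) (c := 216) (by omega) hg1 (by norm_num)
    have h7 : g ^ 658 < g ^ 799 := Nat.pow_lt_pow_right (by omega) (by norm_num)
    refine lt_of_le_of_lt ?_ h7
    refine le_trans ?_ h6
    calc 54 * g ^ 16 * mm S 0 1 ≤ 54 * g ^ 16 * (4 * g ^ 641) := Nat.mul_le_mul_left _ hmm
      _ = 216 * g ^ 657 := by
          rw [show 657 = 16 + 641 by norm_num, pow_add]
          ring

end H773V
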