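import Pool.Agent.H773R2.U2.Defs

/-! Task TIIIb (helper680). -/

set_option linter.unusedVariables false

namespace H773V

open Finset Pool.Agent.Results.MP_9dddc4_co.UkExponent
open H773U (ContainsT Tr dg cg nn mm)

/-- an edge ordered by degree -/
theorem TIIIb_sort {n : ℕ} (d : Fin n → ℕ) {f : Finset (Fin n)} (hf : f.card = 3) :
    ∃ u v w : Fin n, f = {u, v, w} ∧ u ≠ v ∧ u ≠ w ∧ v ≠ w ∧ d v ≤ d u ∧ d w ≤ d v := by
  obtain ⟨x, y, z, hxy, hxz, hyz, rfl⟩ := Finset.card_eq_three.1 hf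
  rcases le_total (d x) (d y) with h1 | h1 <;> rcases le_total (d y) (d z) with h2 | h2 <;>
    rcases le_total (d x) (d z) with h3 | h3
  · exact ⟨z, y, x, by ext a; simp; tauto, hyz.symm, hxz.symm, hxy.symm, h2, h1⟩
  · exact ⟨z, y, x, by ext a; simp; tauto, hyz.symm, hxz.symm, hxy.symm, h2, h1⟩
  · exact ⟨y, z, x, by ext a; simp; tauto, hyz, hxy.symm, hxz.symm, h2, h3⟩
  · exact ⟨y, x, z, by ext a; simp; tauto, hxy.symm, hyz, hxz, h1, h3⟩
  · exact ⟨z, x, y, by ext a; simp; tauto, hxz.symm, hyz.symm, hxy, h3, h1⟩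
  · exact ⟨x, z, y, by ext a; simp; tauto, hxz, hxy, hyz.symm, h3, h2⟩
  · exact ⟨x, y, z, rfl, hxy, hxz, hyz, h1, h2⟩
  · exact ⟨x, y, z, rfl, hxy, hxz, hyz, h1, h2⟩

theorem TIIIb_distinct {n : ℕ} {x y z : Fin n} (h : ({x, y, z} : Finset (Fin n)).card = 3) :
    x ≠ y ∧ x ≠ z ∧ y ≠ z := by
  refine ⟨?_, ?_, ?_⟩
  · rintro rfl
    have : ({x, x, z} : Finset (Fin n)).card ≤ 2 := by
      rw [Finset.insert_eq_of_mem (Finset.mem_insert_self _ _)]
      exact Finset.card_le_two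
    omega
  · rintro rfl
    have : ({x, y, x} : Finset (Fin n)).card ≤ 2 := by
      rw [Finset.insert_eq_of_mem (by simp)]
      exact Finset.card_le_two
    omega
  · rintro rfl
    have : ({x, y, y} : Finset (Fin n)).card ≤ 2 := by
      rw [Finset.pair_eq_singleton]
      exact Finset.card_le_two
    omega

theorem TIIIb_low {n g k : ℕ} (hg : 0 < g) {L : ℕ} (a : ℕ) (h : L * g ^ a ≤ 3 * g ^ (k + a)) :
    L ≤ 3 * g ^ k := by
  rw [pow_add, ← mul_assoc] at h
  exact Nat.le_of_mul_le_mul_right h (pow_pos hg a)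

theorem TIIIb (hT : S_TK) (h0 : S_NC0) (hE : S_EMT) : S_TIIIb := by
  classical
  intro n e g A H hPar hH hcard hA hhalf
  obtain ⟨hg, n1, n2, a1, a2, e1, e2⟩ := hPar
  have hg0 : 0 < g := by omega
  obtain ⟨-, hcod, -, hdegc, hS5, -, hTK7, hTK8⟩ := hT n H hH
  obtain ⟨Z, hZ, hZc⟩ := h0 n A H hH hA
  set E := H.filter (fun f => ∀ v ∈ f, deg H v < g ^ 776) with hEdef
  set L1 := univ.filter (fun v => g ^ 629 ≤ deg H v) with hL1
  set L2 := univ.filter (fun v => g ^ 645 ≤ deg H v) with hL2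
  set L3 := univ.filter (fun v => g ^ 636 ≤ deg H v) with hL3
  have he801 : 3 * H.card ≤ 3 * g ^ 801 := by omega
  have cL1 : L1.card ≤ 3 * g ^ 172 := TIIIb_low (n := n) hg0 629 ((hdegc (g ^ 629)).trans he801)
  have cL2 : L2.card ≤ 3 * g ^ 156 := TIIIb_low (n := n) hg0 645 ((hdegc (g ^ 645)).trans he801)
  have cL3 : L3.card ≤ 3 * g ^ 165 := TIIIb_low (n := n) hg0 636 ((hdegc (g ^ 636)).trans he801)
  -- the bad edges
  set Ba := H.filter (fun f => ∃ u ∈ f, ∃ v ∈ f, u ≠ v ∧ u ∈ L2 ∧ v ∈ L2) with hBa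
  set Bb := H.filter (fun f => f ⊆ L1) with hBb
  set Bc := H.filter (fun f => ∃ v ∈ f, v ∈ Z ∧ deg H v ≤ g ^ 636) with hBc
  have cBa : Ba.card ≤ 18 * g ^ 792 := by
    have h1 := hTK7 L2 n (fun u v h => (hcod u v h).1)
    refine h1.trans ?_
    calc L2.card ^ 2 * n ≤ (3 * g ^ 156) ^ 2 * (2 * g ^ 480) :=
          Nat.mul_le_mul (Nat.pow_le_pow_left cL2 2) n2
      _ = 18 * g ^ 792 := by ring
  have cBb : Bb.card ≤ 27 * g ^ 516 := by
    have h1 : Bb ⊆ powersetCard 3 L1 := by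
      intro f hf
      rw [hBb, Finset.mem_filter] at hf
      rw [Finset.mem_powersetCard]
      exact ⟨hf.2, hH f hf.1⟩
    refine (Finset.card_le_card h1).trans ?_
    rw [Finset.card_powersetCard]
    refine (Nat.choose_le_pow _ _).trans ?_
    calc L1.card ^ 3 ≤ (3 * g ^ 172) ^ 3 := Nat.pow_le_pow_left cL1 3
      _ = 27 * g ^ 516 := by ring
  have cBc : Bc.card ≤ 3 * g ^ 797 := by
    refine (hTK8 Z (g ^ 636)).trans ?_
    calc Z.card * g ^ 636 ≤ (3 * A) * g ^ 636 := Nat.mul_le_mul_right _ hZ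
      _ ≤ (3 * g ^ 161) * g ^ 636 := Nat.mul_le_mul_right _ (Nat.mul_le_mul_left 3 a2)
      _ = 3 * g ^ 797 := by ring
  -- powers
  have hp : ∀ a b : ℕ, a ≤ b → g ^ a ≤ g ^ b := fun a b h => Nat.pow_le_pow_right hg0 h
  have hg2 : 10 ^ 12 ≤ g ^ 2 := by
    calc 10 ^ 12 = (10 ^ 6) ^ 2 := by norm_num
      _ ≤ g ^ 2 := Nat.pow_le_pow_left hg 2
  have hg799 : 10 ^ 12 * g ^ 797 ≤ g ^ 799 := by
    calc 10 ^ 12 * g ^ 797 ≤ g ^ 2 * g ^ 797 := Nat.mul_le_mul_right _ hg2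
      _ = g ^ 799 := by ring
  -- the triples
  set S : Tr n := univ.filter (fun p : Fin 3 → Fin n => ({p 0, p 1, p 2} : Finset (Fin n)) ∈ E ∧
    g ^ 636 ≤ deg H (p 0) ∧ deg H (p 1) < g ^ 645 ∧ deg H (p 2) < g ^ 629) with hSdef
  have hSmem : ∀ p : Fin 3 → Fin n, p ∈ S ↔ (({p 0, p 1, p 2} : Finset (Fin n)) ∈ E ∧
    g ^ 636 ≤ deg H (p 0) ∧ deg H (p 1) < g ^ 645 ∧ deg H (p 2) < g ^ 629) := by
    intro p
    rw [hSdef, Finset.mem_filter]
    simp
  have hSH : ∀ p ∈ S, ({p 0, p 1, p 2} : Finset (Fin n)) ∈ H := by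
    intro p hp
    have := ((hSmem p).1 hp).1
    rw [hEdef, Finset.mem_filter] at this
    exact this.1
  have hcover : E \ (Ba ∪ Bb ∪ Bc) ⊆ S.image (fun p => ({p 0, p 1, p 2} : Finset (Fin n))) := by
    intro f hf
    rw [Finset.mem_sdiff, Finset.mem_union, Finset.mem_union] at hf
    obtain ⟨hfE, hnot⟩ := hf
    have hfE' := hfE
    rw [hEdef, Finset.mem_filter] at hfE'
    have hfH := hfE'.1
    obtain ⟨u, v, w, hfe, huv, huw, hvw, hdv, hdw⟩ := TIIIb_sort (deg H) (hH f hfH)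
    push Not at hnot
    obtain ⟨⟨hna, hnb⟩, hnc⟩ := hnot
    have hu : u ∈ f := by rw [hfe]; simp
    have hv : v ∈ f := by rw [hfe]; simp
    have hw : w ∈ f := by rw [hfe]; simp
    have k1 : g ^ 636 ≤ deg H u := by
      by_contra hc
      apply hnc
      rw [hBc, Finset.mem_filter]
      obtain ⟨y, hy, hyZ⟩ := hZc f hfH
      refine ⟨hfH, y, hy, hyZ, ?_⟩
      rw [hfe] at hy
      simp only [Finset.mem_insert, Finset.mem_singleton] at hy
      rcases hy with rfl | rfl | rfl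
      · omega
      · omega
      · omega
    have k2 : deg H v < g ^ 645 := by
      by_contra hc
      apply hna
      rw [hBa, Finset.mem_filter]
      refine ⟨hfH, u, hu, v, hv, huv, ?_, ?_⟩
      · rw [hL2, Finset.mem_filter]
        exact ⟨Finset.mem_univ _, by omega⟩
      · rw [hL2, Finset.mem_filter]
        exact ⟨Finset.mem_univ _, by omega⟩
    have k3 : deg H w < g ^ 629 := by
      by_contra hc
      apply hnb
      rw [hBb, Finset.mem_filter]
      refine ⟨hfH, ?_⟩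
      intro y hy
      rw [hfe] at hy
      simp only [Finset.mem_insert, Finset.mem_singleton] at hy
      rw [hL1, Finset.mem_filter]
      refine ⟨Finset.mem_univ _, ?_⟩
      rcases hy with rfl | rfl | rfl
      · omega
      · omega
      · omega
    rw [Finset.mem_image]
    refine ⟨![u, v, w], ?_, ?_⟩
    · rw [hSmem]
      simp only [Matrix.cons_val_zero, Matrix.cons_val_one, Matrix.cons_val]
      rw [← hfe]
      exact ⟨hfE, k1, k2, k3⟩
    · simp only [Matrix.cons_val_zero, Matrix.cons_val_one, Matrix.cons_val]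
      exact hfe.symm
  have hScard : e ≤ 4 * S.card := by
    have h1 : (E \ (Ba ∪ Bb ∪ Bc)).card ≤ S.card :=
      (Finset.card_le_card hcover).trans Finset.card_image_le
    have h2 : E.card ≤ (E \ (Ba ∪ Bb ∪ Bc)).card + (Ba ∪ Bb ∪ Bc).card := by
      calc E.card ≤ ((E \ (Ba ∪ Bb ∪ Bc)) ∪ (Ba ∪ Bb ∪ Bc)).card := by
            apply Finset.card_le_card
            intro x hx
            rw [Finset.mem_union, Finset.mem_sdiff]
            by_cases h : x ∈ Ba ∪ Bb ∪ Bc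
            · exact Or.inr h
            · exact Or.inl ⟨hx, h⟩
        _ ≤ _ := Finset.card_union_le _ _
    have h3 : (Ba ∪ Bb ∪ Bc).card ≤ Ba.card + Bb.card + Bc.card :=
      (Finset.card_union_le _ _).trans (Nat.add_le_add_right (Finset.card_union_le _ _) _)
    have h4 := hp 792 797 (by norm_num)
    have h5 := hp 516 797 (by norm_num)
    omega
  have hS799 : g ^ 799 ≤ 4 * S.card := e1.trans hScard
  have hSbig : 10 ^ 12 * g ^ 797 ≤ 4 * S.card := hg799.trans hS799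
  have hpos797 : 0 < g ^ 797 := pow_pos hg0 _
  have hSne : S.Nonempty := by
    rw [← Finset.card_pos]
    omega
  obtain ⟨hdgS, hcgS⟩ := hS5 S hSH
  have hdis : ∀ p ∈ S, p 0 ≠ p 1 ∧ p 0 ≠ p 2 ∧ p 1 ≠ p 2 := fun p hp =>
    TIIIb_distinct (hH _ (hSH p hp))
  have hdg0 : ∀ (a : Fin 3) (v : Fin n) (D : ℕ), (∀ p ∈ S, deg H (p a) ≤ D) → dg S a v ≤ 6 * D := by
    intro a v D hD
    by_cases h : ∃ p ∈ S, p a = v
    · obtain ⟨p, hp, rfl⟩ := h
      exact (hdgS a (p a)).trans (Nat.mul_le_mul_left 6 (hD p hp))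
    · have : dg S a v = 0 := by
        unfold H773U.dg
        rw [Finset.card_eq_zero, Finset.filter_eq_empty_iff]
        intro p hp hpa
        exact h ⟨p, hp, hpa⟩
      rw [this]
      exact Nat.zero_le _
  have hcg0 : ∀ (a b : Fin 3) (v v' : Fin n), a ≠ b → (∀ p ∈ S, p a ≠ p b) → cg S a b v v' ≤ n := by
    intro a b v v' hab hne
    by_cases hvv : v = v'
    · have : cg S a b v v' = 0 := by
        unfold H773U.cg
        rw [Finset.card_eq_zero, Finset.filter_eq_empty_iff]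
        rintro p hp ⟨h1, h2⟩
        exact hne p hp (by rw [h1, h2, hvv])
      rw [this]
      exact Nat.zero_le _
    · exact (hcgS a b v v' hab).trans (hcod v v' hvv).1
  have hnn : nn S 0 ≤ 3 * g ^ 165 := by
    refine le_trans ?_ cL3
    unfold H773U.nn
    apply Finset.card_le_card
    intro v hv
    rw [Finset.mem_image] at hv
    obtain ⟨p, hp, rfl⟩ := hv
    rw [hL3, Finset.mem_filter]
    exact ⟨Finset.mem_univ _, ((hSmem p).1 hp).2.1⟩
  have hmm : mm S 0 1 ≤ nn S 0 * n := by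
    unfold H773U.mm H773U.nn
    calc (S.image (fun p => (p 0, p 1))).card
        ≤ ((S.image (fun p => p 0)) ×ˢ (univ : Finset (Fin n))).card := by
          apply Finset.card_le_card
          intro x hx
          rw [Finset.mem_image] at hx
          obtain ⟨p, hp, rfl⟩ := hx
          rw [Finset.mem_product]
          exact ⟨Finset.mem_image.2 ⟨p, hp, rfl⟩, Finset.mem_univ _⟩
      _ = (S.image (fun p => p 0)).card * n := by
          rw [Finset.card_product, Finset.card_univ, Fintype.card_fin]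
  have hE776 : ∀ p ∈ S, ∀ v ∈ ({p 0, p 1, p 2} : Finset (Fin n)), deg H v < g ^ 776 := by
    intro p hp
    have := ((hSmem p).1 hp).1
    rw [hEdef, Finset.mem_filter] at this
    exact this.2
  refine hE n H S (g ^ 16) (g ^ 136) (g ^ 16) (6 * g ^ 776) (6 * g ^ 645) (6 * g ^ 629) n n hH
    (Nat.one_le_iff_ne_zero.2 (pow_ne_zero _ hg0.ne'))
    (Nat.one_le_iff_ne_zero.2 (pow_ne_zero _ hg0.ne'))
    (Nat.one_le_iff_ne_zero.2 (pow_ne_zero _ hg0.ne')) hSne hSH ?_ ?_ ?_ ?_ ?_ ?_ ?_ ?_ ?_ ?_ ?_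
  · intro v
    exact hdg0 0 v _ fun p hp => (hE776 p hp (p 0) (by simp)).le
  · intro v
    exact hdg0 1 v _ fun p hp => ((hSmem p).1 hp).2.2.1.le
  · intro v
    exact hdg0 2 v _ fun p hp => ((hSmem p).1 hp).2.2.2.le
  · intro v v'
    exact hcg0 0 1 v v' (by decide) fun p hp => (hdis p hp).1
  · intro v v'
    exact hcg0 0 2 v v' (by decide) fun p hp => (hdis p hp).2.1
  · have h1 : 216 * g ^ 16 * (6 * g ^ 776) = 1296 * g ^ 792 := by ring
    have h2 := hp 792 797 (by norm_num)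
    rw [h1]
    omega
  · have h1 : 216 * (g ^ 16 * g ^ 136) * (6 * g ^ 645) = 1296 * g ^ 797 := by ring
    rw [h1]
    omega
  · have h1 : 216 * (g ^ 16 * g ^ 136 * g ^ 16) * (6 * g ^ 629) = 1296 * g ^ 797 := by ring
    rw [h1]
    omega
  · have h1 : 432 * g ^ 136 * n * nn S 0 ≤ 432 * g ^ 136 * (2 * g ^ 480) * (3 * g ^ 165) :=
      Nat.mul_le_mul (Nat.mul_le_mul_left _ n2) hnn
    have h2 : 432 * g ^ 136 * (2 * g ^ 480) * (3 * g ^ 165) = 2592 * g ^ 781 := by ring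
    have h3 := hp 781 797 (by norm_num)
    rw [h2] at h1
    omega
  · have h1 : 432 * (g ^ 136 * g ^ 16) * n * nn S 0 ≤
        432 * (g ^ 136 * g ^ 16) * (2 * g ^ 480) * (3 * g ^ 165) :=
      Nat.mul_le_mul (Nat.mul_le_mul_left _ n2) hnn
    have h2 : 432 * (g ^ 136 * g ^ 16) * (2 * g ^ 480) * (3 * g ^ 165) = 2592 * g ^ 797 := by ring
    rw [h2] at h1
    omega
  · have h1 : 54 * g ^ 16 * mm S 0 1 ≤ 54 * g ^ 16 * ((3 * g ^ 165) * (2 * g ^ 480)) :=
      Nat.mul_le_mul_left _ (hmm.trans (Nat.mul_le_mul hnn n2))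
    have h2 : 54 * g ^ 16 * ((3 * g ^ 165) * (2 * g ^ 480)) = 324 * g ^ 661 := by ring
    have h3 := hp 661 797 (by norm_num)
    rw [h2] at h1
    omega

end H773V
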