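import Pool.Agent.H773R2.U2.Defs

namespace H773V
open Finset Pool.Agent.Results.MP_9dddc4_co.UkExponent
open H773U (ContainsT Tr dg cg nn mm)

theorem TIIa_pw {g : ℕ} (hg : 10 ^ 6 ≤ g) (a b : ℕ) (h : a + 2 ≤ b) : 10 ^ 12 * g ^ a ≤ g ^ b := by
  have h1 : 10 ^ 12 ≤ g ^ 2 := by
    calc 10 ^ 12 = (10 ^ 6) ^ 2 := by norm_num
      _ ≤ g ^ 2 := Nat.pow_le_pow_left hg 2
  calc 10 ^ 12 * g ^ a ≤ g ^ 2 * g ^ a := Nat.mul_le_mul_right _ h1
    _ = g ^ (a + 2) := by ring
    _ ≤ g ^ b := Nat.pow_le_pow_right (by omega) h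

theorem TIIa (hT : S_TK) (h0 : S_NC0) (h2 : S_NC2) (hE : S_EMT) : S_TIIa := by
  classical
  intro n e g A H hP hH he hA0 hA2
  have hg : 10 ^ 6 ≤ g := hP.hg
  have hgp : 0 < g := by omega
  obtain ⟨Z, hZ1, hZ2⟩ := h0 n A H hH hA0
  have hcod : ∀ u v : Fin n, u ≠ v → cod H u v ≤ A := fun u v huv => (h2 n A H hH hA2 u v huv).le
  obtain ⟨T1, T2, T3, T4, T5, T6, T7, T8⟩ := hT n H hH
  set L : Finset (Fin n) := Finset.univ.filter (fun v => g ^ 629 ≤ deg H v) with hL
  have hLc : L.card ≤ 3 * g ^ 172 := by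
    have h := T4 (g ^ 629)
    have h' : L.card * g ^ 629 ≤ (3 * g ^ 172) * g ^ 629 := by
      calc L.card * g ^ 629 ≤ 3 * H.card := h
        _ ≤ 3 * g ^ 801 := by rw [he]; exact Nat.mul_le_mul_left _ hP.e2
        _ = _ := by ring
    exact Nat.le_of_mul_le_mul_right h' (by positivity)
  have hdeg : ∀ v, deg H v ≤ g ^ 641 := by
    intro v
    have h : 2 * deg H v ≤ 2 * g ^ 641 := by
      rw [T1 v]
      calc ∑ u ∈ univ.erase v, cod H v u ≤ ∑ _u ∈ univ.erase v, A :=
            Finset.sum_le_sum fun u hu => hcod v u (Finset.ne_of_mem_erase hu).symm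
        _ ≤ n * A := by
            rw [Finset.sum_const, smul_eq_mul]
            refine Nat.mul_le_mul_right _ ((Finset.card_le_univ _).trans ?_)
            rw [Fintype.card_fin]
        _ ≤ (2 * g ^ 480) * g ^ 161 := Nat.mul_le_mul hP.n2 hP.a2
        _ = _ := by ring
    omega
  set S : Tr n := Finset.univ.filter (fun p : Fin 3 → Fin n =>
    ({p 0, p 1, p 2} : Finset (Fin n)) ∈ H ∧ p 0 ∈ L ∧ p 1 ∉ L ∧ p 2 ∉ L) with hS
  have hSm : ∀ p ∈ S, ({p 0, p 1, p 2} : Finset (Fin n)) ∈ H ∧ p 0 ∈ L ∧ p 1 ∉ L ∧ p 2 ∉ L :=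
    fun p hp => (Finset.mem_filter.1 hp).2
  -- the three classes of edges
  have hcover : H ⊆ (H.filter (fun f => ∃ v ∈ f, v ∈ Z ∧ deg H v ≤ g ^ 629)) ∪
      (H.filter (fun f => ∃ u ∈ f, ∃ v ∈ f, u ≠ v ∧ u ∈ L ∧ v ∈ L)) ∪
      S.image (fun p => ({p 0, p 1, p 2} : Finset (Fin n))) := by
    intro f hf
    rw [Finset.mem_union, Finset.mem_union, Finset.mem_filter, Finset.mem_filter]
    by_cases hex : ∃ v ∈ f, v ∈ L
    · obtain ⟨v, hvf, hvL⟩ := hex
      by_cases hex2 : ∃ u ∈ f, u ≠ v ∧ u ∈ L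
      · obtain ⟨u, huf, huv, huL⟩ := hex2
        exact Or.inl (Or.inr ⟨hf, u, huf, v, hvf, huv, huL, hvL⟩)
      · right
        have hc : (f.erase v).card = 2 := by
          rw [Finset.card_erase_of_mem hvf, hH f hf]
        obtain ⟨x, y, hxy, hfe⟩ := Finset.card_eq_two.1 hc
        have hxf : x ∈ f.erase v := by rw [hfe]; simp
        have hyf : y ∈ f.erase v := by rw [hfe]; simp
        have hfeq : ({v, x, y} : Finset (Fin n)) = f := by
          rw [← Finset.insert_erase hvf, hfe]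
        refine Finset.mem_image.2 ⟨![v, x, y], ?_, ?_⟩
        · rw [hS, Finset.mem_filter]
          refine ⟨Finset.mem_univ _, ?_, ?_, ?_, ?_⟩
          · show ({v, x, y} : Finset (Fin n)) ∈ H
            rw [hfeq]
            exact hf
          · exact hvL
          · intro hxL
            exact hex2 ⟨x, Finset.mem_of_mem_erase hxf, Finset.ne_of_mem_erase hxf, hxL⟩
          · intro hyL
            exact hex2 ⟨y, Finset.mem_of_mem_erase hyf, Finset.ne_of_mem_erase hyf, hyL⟩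
        · exact hfeq
    · left; left
      obtain ⟨v, hvf, hvZ⟩ := hZ2 f hf
      refine ⟨hf, v, hvf, hvZ, ?_⟩
      by_contra hlt
      exact hex ⟨v, hvf, by rw [hL, Finset.mem_filter]; exact ⟨Finset.mem_univ _, (not_le.1 hlt).le⟩⟩
  have hcount := (Finset.card_le_card hcover).trans ((Finset.card_union_le _ _).trans
    (Nat.add_le_add_right (Finset.card_union_le _ _) _))
  have b1 : (H.filter (fun f => ∃ v ∈ f, v ∈ Z ∧ deg H v ≤ g ^ 629)).card ≤ 3 * g ^ 790 := by
    calc _ ≤ Z.card * g ^ 629 := T8 Z (g ^ 629)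
      _ ≤ (3 * g ^ 161) * g ^ 629 := Nat.mul_le_mul_right _ (hZ1.trans (Nat.mul_le_mul_left _ hP.a2))
      _ = _ := by ring
  have b2 : (H.filter (fun f => ∃ u ∈ f, ∃ v ∈ f, u ≠ v ∧ u ∈ L ∧ v ∈ L)).card ≤ 9 * g ^ 505 := by
    calc _ ≤ L.card ^ 2 * A := T7 L A hcod
      _ ≤ (3 * g ^ 172) ^ 2 * g ^ 161 := Nat.mul_le_mul (Nat.pow_le_pow_left hLc 2) hP.a2
      _ = _ := by ring
  have b3 : (S.image (fun p => ({p 0, p 1, p 2} : Finset (Fin n)))).card ≤ S.card :=
    Finset.card_image_le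
  have hSc : g ^ 799 ≤ 2 * S.card := by
    have q1 := TIIa_pw hg 790 799 (by norm_num)
    have q2 := TIIa_pw hg 505 799 (by norm_num)
    have q3 := hP.e1
    rw [he] at hcount
    generalize g ^ 799 = x at *
    generalize g ^ 790 = y at *
    generalize g ^ 505 = z at *
    omega
  have hSne : S.Nonempty := by
    rw [← Finset.card_pos]
    have : 0 < g ^ 799 := by positivity
    omega
  obtain ⟨D1, D2⟩ := T5 S fun p hp => (hSm p hp).1
  have hnn : nn S 0 ≤ 3 * g ^ 172 := by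
    refine le_trans (Finset.card_le_card ?_) hLc
    intro x hx
    obtain ⟨p, hp, rfl⟩ := Finset.mem_image.1 hx
    exact (hSm p hp).2.1
  have hmm : mm S 0 1 ≤ 6 * g ^ 652 := by
    have h : mm S 0 1 ≤ L.card * n := by
      have : S.image (fun p => (p 0, p 1)) ⊆ L ×ˢ (Finset.univ : Finset (Fin n)) := by
        intro x hx
        obtain ⟨p, hp, rfl⟩ := Finset.mem_image.1 hx
        exact Finset.mem_product.2 ⟨(hSm p hp).2.1, Finset.mem_univ _⟩
      refine (Finset.card_le_card this).trans ?_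
      rw [Finset.card_product, Finset.card_univ, Fintype.card_fin]
    calc mm S 0 1 ≤ L.card * n := h
      _ ≤ (3 * g ^ 172) * (2 * g ^ 480) := Nat.mul_le_mul hLc hP.n2
      _ = _ := by ring
  have hlow : ∀ a : Fin 3, (∀ p ∈ S, p a ∉ L) → ∀ v, dg S a v ≤ 6 * g ^ 629 := by
    intro a ha v
    by_cases hv : v ∈ L
    · have : dg S a v = 0 := by
        unfold H773U.dg
        rw [Finset.card_eq_zero, Finset.filter_eq_empty_iff]
        intro p hp hpv
        exact ha p hp (by rw [hpv]; exact hv)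
      omega
    · refine (D1 a v).trans (Nat.mul_le_mul_left _ ?_)
      rw [hL, Finset.mem_filter, not_and] at hv
      exact (not_le.1 (hv (Finset.mem_univ _))).le
  have hcg : ∀ a : Fin 3, a ≠ 0 → (∀ p ∈ S, p a ∉ L) → ∀ v v', cg S 0 a v v' ≤ A := by
    intro a ha0 ha v v'
    by_cases hv : v = v'
    · have : cg S 0 a v v' = 0 := by
        unfold H773U.cg
        rw [Finset.card_eq_zero, Finset.filter_eq_empty_iff]
        rintro p hp ⟨h1, h2⟩
        apply ha p hp
        rw [h2, ← hv, ← h1]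
        exact (hSm p hp).2.1
      omega
    · exact (D2 0 a v v' ha0.symm).trans (hcod v v' hv)
  refine hE n H S (g ^ 152) 1 (g ^ 16) (6 * g ^ 641) (6 * g ^ 629) (6 * g ^ 629) A A hH
    (Nat.one_le_pow _ _ hgp) le_rfl (Nat.one_le_pow _ _ hgp) hSne (fun p hp => (hSm p hp).1)
    (fun v => (D1 0 v).trans (Nat.mul_le_mul_left _ (hdeg v)))
    (hlow 1 fun p hp => (hSm p hp).2.2.1) (hlow 2 fun p hp => (hSm p hp).2.2.2)
    (hcg 1 (by decide) fun p hp => (hSm p hp).2.2.1) (hcg 2 (by decide) fun p hp => (hSm p hp).2.2.2)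
    ?_ ?_ ?_ ?_ ?_ ?_
  · have e1 : 216 * g ^ 152 * (6 * g ^ 641) = 1296 * g ^ 793 := by ring
    have q := TIIa_pw hg 793 799 (by norm_num)
    rw [e1]
    generalize g ^ 799 = x at *
    generalize g ^ 793 = y at *
    omega
  · have e1 : 216 * (g ^ 152 * 1) * (6 * g ^ 629) = 1296 * g ^ 781 := by ring
    have q := TIIa_pw hg 781 799 (by norm_num)
    rw [e1]
    generalize g ^ 799 = x at *
    generalize g ^ 781 = y at *
    omega
  · have e1 : 216 * (g ^ 152 * 1 * g ^ 16) * (6 * g ^ 629) = 1296 * g ^ 797 := by ring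
    have q := TIIa_pw hg 797 799 (by norm_num)
    rw [e1]
    generalize g ^ 799 = x at *
    generalize g ^ 797 = y at *
    omega
  · have e1 : 432 * 1 * A * nn S 0 ≤ 1296 * g ^ 333 := by
      calc 432 * 1 * A * nn S 0 ≤ 432 * 1 * g ^ 161 * (3 * g ^ 172) :=
            Nat.mul_le_mul (Nat.mul_le_mul_left _ hP.a2) hnn
        _ = _ := by ring
    have q := TIIa_pw hg 333 799 (by norm_num)
    refine e1.trans ?_
    generalize g ^ 799 = x at *
    generalize g ^ 333 = y at *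
    omega
  · have e1 : 432 * (1 * g ^ 16) * A * nn S 0 ≤ 1296 * g ^ 349 := by
      calc 432 * (1 * g ^ 16) * A * nn S 0 ≤ 432 * (1 * g ^ 16) * g ^ 161 * (3 * g ^ 172) :=
            Nat.mul_le_mul (Nat.mul_le_mul_left _ hP.a2) hnn
        _ = _ := by ring
    have q := TIIa_pw hg 349 799 (by norm_num)
    refine e1.trans ?_
    generalize g ^ 799 = x at *
    generalize g ^ 349 = y at *
    omega
  · have e1 : 54 * g ^ 16 * mm S 0 1 ≤ 324 * g ^ 668 := by
      calc 54 * g ^ 16 * mm S 0 1 ≤ 54 * g ^ 16 * (6 * g ^ 652) := Nat.mul_le_mul_left _ hmm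
        _ = _ := by ring
    have q := TIIa_pw hg 668 799 (by norm_num)
    have q0 : 0 < g ^ 668 := by positivity
    refine lt_of_le_of_lt e1 ?_
    generalize g ^ 799 = x at *
    generalize g ^ 668 = y at *
    omega

end H773V
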