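import Pool.Agent.H773R2.U2.Defs

/-! TIIb -/

namespace H773V

open Finset Pool.Agent.Results.MP_9dddc4_co.UkExponent
open H773U (ContainsT Tr dg cg nn mm)

theorem TIIb_pw {g c k m : ℕ} (hc : c ≤ g) (hk : k + 1 ≤ m) (hg : 1 ≤ g) : c * g ^ k ≤ g ^ m :=
  calc c * g ^ k ≤ g * g ^ k := Nat.mul_le_mul_right _ hc
    _ = g ^ (k + 1) := by rw [pow_succ]; ring
    _ ≤ g ^ m := Nat.pow_le_pow_right hg hk

/-- heavy pairs cover many edges -/
theorem TIIb_heavy (hT : S_TK) (h1 : S_NC1) (hL : S_LEAF) (n e g A : ℕ) (H : ES n)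
    (hP : Par n e g A) (hH : IsRGraph 3 H) (hcard : H.card = e) (hA : ¬ ContainsT H 1 A 1)
    (hE : e ≤ 2 * (H.filter (fun f => ∃ u ∈ f, ∃ v ∈ f, u ≠ v ∧ g ^ 176 ≤ cod H u v)).card) :
    ContainsT H (g ^ 152) 1 (g ^ 16) := by
  classical
  obtain ⟨-, hT2, -, -, -, hT6, -, -⟩ := hT n H hH
  have hg1 : 1 ≤ g := by have := hP.hg; omega
  choose W hW1 hW2 hW3 using h1 n A H hH hA
  have hdeg : ∀ v, deg H v ≤ 2 * A * n := by
    intro v
    calc deg H v ≤ ∑ w ∈ W v, cod H v w := hT6 v (W v) (hW3 v)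
      _ ≤ ∑ w ∈ W v, n := by
          apply Finset.sum_le_sum
          intro w hw
          exact (hT2 v w (fun h => hW2 v (h ▸ hw))).1
      _ = (W v).card * n := by rw [Finset.sum_const, smul_eq_mul]
      _ ≤ 2 * A * n := Nat.mul_le_mul_right _ (hW1 v)
  set P : Finset (Fin n × Fin n) → Prop := fun M =>
    (∀ p ∈ M, p.1 ≠ p.2 ∧ g ^ 176 ≤ cod H p.1 p.2) ∧
      ∀ p ∈ M, ∀ q ∈ M, p ≠ q → p.1 ≠ q.1 ∧ p.1 ≠ q.2 ∧ p.2 ≠ q.1 ∧ p.2 ≠ q.2 with hPdef
  have hne : ((univ : Finset (Finset (Fin n × Fin n))).filter P).Nonempty :=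
    ⟨∅, by simp [hPdef]⟩
  obtain ⟨M, hM, hmax⟩ := Finset.exists_max_image _ Finset.card hne
  have hMP : P M := (Finset.mem_filter.1 hM).2
  obtain ⟨hM1, hM2⟩ := hMP
  by_cases hbig : g ^ 152 ≤ M.card
  · -- large matching
    set p : Fin (g ^ 152) → Fin n × Fin n := fun i => (M.equivFin.symm (Fin.castLE hbig i) : _)
      with hp
    have hpM : ∀ i, p i ∈ M := fun i => (M.equivFin.symm (Fin.castLE hbig i)).2
    have hpinj : ∀ i j, p i = p j → i = j := by
      intro i j hij
      have h2 := M.equivFin.symm.injective (Subtype.ext hij)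
      exact Fin.castLE_injective hbig h2
    apply hL n (g ^ 152) 1 (g ^ 16) H (fun i => (p i).1) (fun q => (p q.1).2) hH
    · intro i j hij
      by_contra hne
      exact (hM2 _ (hpM i) _ (hpM j) (fun h => hne (hpinj i j h))).1 hij
    · rintro ⟨i, a⟩ ⟨j, b⟩ hij
      have hij' : i = j := by
        by_contra hne
        exact (hM2 _ (hpM i) _ (hpM j) (fun h => hne (hpinj i j h))).2.2.2 hij
      rw [Prod.mk.injEq]
      exact ⟨hij', Subsingleton.elim _ _⟩
    · rintro i ⟨j, b⟩
      by_cases hij : i = j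
      · subst hij
        exact (hM1 _ (hpM i)).1
      · exact (hM2 _ (hpM i) _ (hpM j) (fun h => hij (hpinj i j h))).2.1
    · intro i j
      refine le_trans ?_ (hM1 _ (hpM i)).2
      have e1 : g ^ 152 * 1 * g ^ 16 = g ^ 168 := by
        rw [mul_one, ← pow_add]
      have e2 : g ^ 152 ≤ g ^ 168 := Nat.pow_le_pow_right hg1 (by norm_num)
      have e3 : 3 * g ^ 168 ≤ g ^ 176 := TIIb_pw (by have := hP.hg; omega) (by norm_num) hg1
      rw [e1]
      omega
  · -- small matching: contradiction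
    exfalso
    push Not at hbig
    set VM : Finset (Fin n) := M.image Prod.fst ∪ M.image Prod.snd with hVM
    have hVMc : VM.card ≤ 2 * g ^ 152 := by
      have h3 : VM.card ≤ M.card + M.card :=
        (Finset.card_union_le _ _).trans (Nat.add_le_add Finset.card_image_le Finset.card_image_le)
      omega
    have hcover : ∀ u v : Fin n, u ≠ v → g ^ 176 ≤ cod H u v → u ∈ VM ∨ v ∈ VM := by
      intro u v huv hcod
      by_contra hcon
      push Not at hcon
      obtain ⟨hu, hv⟩ := hcon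
      have hu1 : ∀ q ∈ M, q.1 ≠ u ∧ q.2 ≠ u := by
        intro q hq
        constructor
        · intro h; exact hu (Finset.mem_union_left _ (Finset.mem_image.2 ⟨q, hq, h⟩))
        · intro h; exact hu (Finset.mem_union_right _ (Finset.mem_image.2 ⟨q, hq, h⟩))
      have hv1 : ∀ q ∈ M, q.1 ≠ v ∧ q.2 ≠ v := by
        intro q hq
        constructor
        · intro h; exact hv (Finset.mem_union_left _ (Finset.mem_image.2 ⟨q, hq, h⟩))
        · intro h; exact hv (Finset.mem_union_right _ (Finset.mem_image.2 ⟨q, hq, h⟩))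
      have hnot : (u, v) ∉ M := fun h => (hu1 _ h).1 rfl
      have hins : P (insert (u, v) M) := by
        refine ⟨?_, ?_⟩
        · intro q hq
          rcases Finset.mem_insert.1 hq with rfl | hq
          · exact ⟨huv, hcod⟩
          · exact hM1 q hq
        · intro q hq r hr hqr
          rcases Finset.mem_insert.1 hq with rfl | hq
          · rcases Finset.mem_insert.1 hr with rfl | hr
            · exact absurd rfl hqr
            · exact ⟨(hu1 r hr).1.symm, (hu1 r hr).2.symm, (hv1 r hr).1.symm, (hv1 r hr).2.symm⟩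
          · rcases Finset.mem_insert.1 hr with rfl | hr
            · exact ⟨(hu1 q hq).1, (hv1 q hq).1, (hu1 q hq).2, (hv1 q hq).2⟩
            · exact hM2 q hq r hr hqr
      have h4 := hmax (insert (u, v) M) (Finset.mem_filter.2 ⟨Finset.mem_univ _, hins⟩)
      rw [Finset.card_insert_of_notMem hnot] at h4
      omega
    have hsub : H.filter (fun f => ∃ u ∈ f, ∃ v ∈ f, u ≠ v ∧ g ^ 176 ≤ cod H u v)
        ⊆ VM.biUnion (fun v => H.filter (fun f => v ∈ f)) := by
      intro f hf
      obtain ⟨hfH, u, hu, v, hv, huv, hcod⟩ := Finset.mem_filter.1 hf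
      rw [Finset.mem_biUnion]
      rcases hcover u v huv hcod with h | h
      · exact ⟨u, h, Finset.mem_filter.2 ⟨hfH, hu⟩⟩
      · exact ⟨v, h, Finset.mem_filter.2 ⟨hfH, hv⟩⟩
    have hcnt : (H.filter (fun f => ∃ u ∈ f, ∃ v ∈ f, u ≠ v ∧ g ^ 176 ≤ cod H u v)).card
        ≤ VM.card * (2 * A * n) := by
      calc _ ≤ (VM.biUnion (fun v => H.filter (fun f => v ∈ f))).card := Finset.card_le_card hsub
        _ ≤ ∑ v ∈ VM, (H.filter (fun f => v ∈ f)).card := Finset.card_biUnion_le
        _ ≤ ∑ v ∈ VM, 2 * A * n := Finset.sum_le_sum fun v _ => hdeg v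
        _ = VM.card * (2 * A * n) := by rw [Finset.sum_const, smul_eq_mul]
    have hfin : VM.card * (2 * A * n) ≤ 8 * g ^ 793 := by
      calc VM.card * (2 * A * n) ≤ (2 * g ^ 152) * (2 * g ^ 161 * (2 * g ^ 480)) := by
            gcongr
            · exact hP.a2
            · exact hP.n2
        _ = 8 * g ^ 793 := by
            have : g ^ 793 = g ^ 152 * g ^ 161 * g ^ 480 := by rw [← pow_add, ← pow_add]
            rw [this]; ring
    have h5 : 17 * g ^ 793 ≤ g ^ 799 := TIIb_pw (by have := hP.hg; omega) (by norm_num) hg1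
    have h6 := hP.e1
    have h7 : 0 < g ^ 793 := by positivity
    omega

/-- few heavy pairs -/
theorem TIIb_light (hT : S_TK) (h1 : S_NC1) (hEM : S_EMT) (n e g A : ℕ) (H : ES n)
    (hP : Par n e g A) (hH : IsRGraph 3 H) (hcard : H.card = e) (hA : ¬ ContainsT H 1 A 1)
    (hE : 2 * (H.filter (fun f => ∃ u ∈ f, ∃ v ∈ f, u ≠ v ∧ g ^ 176 ≤ cod H u v)).card < e) :
    ContainsT H (g ^ 152) 1 (g ^ 16) := by
  classical
  have hg1 : 1 ≤ g := by have := hP.hg; omega
  choose W hW1 hW2 hW3 using h1 n A H hH hA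
  set E1 : ES n := H.filter (fun f => ¬ ∃ u ∈ f, ∃ v ∈ f, u ≠ v ∧ g ^ 176 ≤ cod H u v) with hE1
  have hE1H : E1 ⊆ H := Finset.filter_subset _ _
  have hE1R : IsRGraph 3 E1 := fun f hf => hH f (hE1H hf)
  have hE1c : e < 2 * E1.card := by
    have := Finset.card_filter_add_card_filter_not (s := H)
      (p := fun f => ∃ u ∈ f, ∃ v ∈ f, u ≠ v ∧ g ^ 176 ≤ cod H u v)
    rw [hcard] at this
    rw [hE1]
    omega
  obtain ⟨-, -, -, -, hT5, hT6, -, -⟩ := hT n E1 hE1R
  have hcod : ∀ u v, u ≠ v → cod E1 u v ≤ g ^ 176 := by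
    intro u v huv
    by_cases h0 : cod E1 u v = 0
    · omega
    · have h2 : (E1.filter (fun f => u ∈ f ∧ v ∈ f)).Nonempty := by
        rw [← Finset.card_pos]
        exact Nat.pos_of_ne_zero h0
      obtain ⟨f, hf⟩ := h2
      obtain ⟨hf1, hfu, hfv⟩ := Finset.mem_filter.1 hf
      have h3 := (Finset.mem_filter.1 hf1).2
      have h4 : ¬ g ^ 176 ≤ cod H u v := fun h => h3 ⟨u, hfu, v, hfv, huv, h⟩
      have h5 : cod E1 u v ≤ cod H u v :=
        Finset.card_le_card (Finset.filter_subset_filter _ hE1H)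
      omega
  have hdeg : ∀ v, deg E1 v ≤ 2 * A * g ^ 176 := by
    intro v
    calc deg E1 v ≤ ∑ w ∈ W v, cod E1 v w := hT6 v (W v) (fun f hf => hW3 v f (hE1H hf))
      _ ≤ ∑ w ∈ W v, g ^ 176 := by
          apply Finset.sum_le_sum
          intro w hw
          exact hcod v w (fun h => hW2 v (h ▸ hw))
      _ = (W v).card * g ^ 176 := by rw [Finset.sum_const, smul_eq_mul]
      _ ≤ 2 * A * g ^ 176 := Nat.mul_le_mul_right _ (hW1 v)
  set S : Tr n := univ.filter (fun p : Fin 3 → Fin n =>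
    ({p 0, p 1, p 2} : Finset (Fin n)) ∈ E1 ∧ p 1 ∈ W (p 0)) with hS
  have hSE : ∀ p ∈ S, ({p 0, p 1, p 2} : Finset (Fin n)) ∈ E1 :=
    fun p hp => (Finset.mem_filter.1 hp).2.1
  have hScard : E1.card ≤ S.card := by
    have hsub : E1 ⊆ S.image (fun p => ({p 0, p 1, p 2} : Finset (Fin n))) := by
      intro f hf
      obtain ⟨a, b, c, hab, hac, hbc, rfl⟩ := Finset.card_eq_three.1 (hE1R f hf)
      obtain ⟨w, hw, hwW⟩ := hW3 a _ (hE1H hf) (by simp)
      have hwa : w ≠ a := fun h => hW2 a (h ▸ hwW)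
      simp only [Finset.mem_insert, Finset.mem_singleton] at hw
      rw [Finset.mem_image]
      rcases hw with rfl | rfl | rfl
      · exact absurd rfl hwa
      · refine ⟨![a, w, c], ?_, ?_⟩
        · rw [hS, Finset.mem_filter]
          exact ⟨Finset.mem_univ _, by simpa using hf, by simpa using hwW⟩
        · simp
      · refine ⟨![a, w, b], ?_, ?_⟩
        · rw [hS, Finset.mem_filter]
          refine ⟨Finset.mem_univ _, ?_, by simpa using hwW⟩
          have : ({a, w, b} : Finset (Fin n)) = {a, b, w} := by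
            ext x; simp only [Finset.mem_insert, Finset.mem_singleton]; tauto
          simpa [this] using hf
        · simp only [Matrix.cons_val_zero, Matrix.cons_val_one, Matrix.cons_val]
          ext x; simp only [Finset.mem_insert, Finset.mem_singleton]; tauto
    exact (Finset.card_le_card hsub).trans Finset.card_image_le
  obtain ⟨hdg, hcg⟩ := hT5 S hSE
  have hdg' : ∀ a v, dg S a v ≤ 12 * g ^ 337 := by
    intro a v
    calc dg S a v ≤ 6 * deg E1 v := hdg a v
      _ ≤ 6 * (2 * A * g ^ 176) := Nat.mul_le_mul_left _ (hdeg v)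
      _ ≤ 6 * (2 * g ^ 161 * g ^ 176) := by
          have := hP.a2
          gcongr
      _ = 12 * g ^ 337 := by
          have : g ^ 337 = g ^ 161 * g ^ 176 := by rw [← pow_add]
          rw [this]; ring
  have hinj : ∀ p ∈ S, ∀ a b : Fin 3, a ≠ b → p a ≠ p b := by
    intro p hp a b hab heq
    have h3 := hE1R _ (hSE p hp)
    have hlt : ({p 0, p 1, p 2} : Finset (Fin n)).card < 3 := by
      have h4 : ({p 0, p 1, p 2} : Finset (Fin n)) = (univ : Finset (Fin 3)).image p := by
        ext x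
        simp [Fin.exists_fin_succ, eq_comm]
      rw [h4]
      have h5 : ((univ : Finset (Fin 3)).image p).card < (univ : Finset (Fin 3)).card := by
        refine lt_of_le_of_ne Finset.card_image_le ?_
        intro h6
        rw [Finset.card_image_iff] at h6
        exact hab (h6 (by simp) (by simp) heq)
      simpa using h5
    omega
  have hcg' : ∀ a b : Fin 3, a ≠ b → ∀ v v', cg S a b v v' ≤ g ^ 176 := by
    intro a b hab v v'
    by_cases hvv : v = v'
    · have : cg S a b v v' = 0 := by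
        unfold H773U.cg
        rw [Finset.card_eq_zero, Finset.filter_eq_empty_iff]
        rintro p hp ⟨h6, h7⟩
        exact hinj p hp a b hab (by rw [h6, h7, hvv])
      omega
    · exact (hcg a b v v' hab).trans (hcod v v' hvv)
  have hnn : nn S 0 ≤ 2 * g ^ 480 := by
    refine le_trans ?_ hP.n2
    unfold H773U.nn
    calc _ ≤ (univ : Finset (Fin n)).card := Finset.card_le_card (Finset.subset_univ _)
      _ = n := by simp
  have hmm : mm S 0 1 ≤ 4 * g ^ 641 := by
    unfold H773U.mm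
    have hsub : S.image (fun p => (p 0, p 1))
        ⊆ (univ : Finset (Fin n)).biUnion (fun v => (W v).image (fun w => (v, w))) := by
      intro q hq
      obtain ⟨p, hp, rfl⟩ := Finset.mem_image.1 hq
      rw [Finset.mem_biUnion]
      exact ⟨p 0, Finset.mem_univ _, Finset.mem_image.2 ⟨p 1, (Finset.mem_filter.1 hp).2.2, rfl⟩⟩
    calc _ ≤ _ := Finset.card_le_card hsub
      _ ≤ ∑ v : Fin n, ((W v).image (fun w => (v, w))).card := Finset.card_biUnion_le
      _ ≤ ∑ v : Fin n, 2 * A := Finset.sum_le_sum fun v _ => Finset.card_image_le.trans (hW1 v)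
      _ = n * (2 * A) := by simp
      _ ≤ (2 * g ^ 480) * (2 * g ^ 161) := by
          have h6 := hP.a2
          have h7 := hP.n2
          gcongr
      _ = 4 * g ^ 641 := by
          have : g ^ 641 = g ^ 480 * g ^ 161 := by rw [← pow_add]
          rw [this]; ring
  have hbigS : g ^ 799 < 2 * S.card := by
    have := hP.e1
    omega
  have hgbig := hP.hg
  have key : ∀ c k : ℕ, 2 * c ≤ g → k + 1 ≤ 799 → c * g ^ k < S.card := by
    intro c k hc hk
    have h6 : 2 * c * g ^ k ≤ g ^ 799 := TIIb_pw hc hk hg1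
    rw [mul_assoc] at h6
    omega
  have hne : S.Nonempty := by
    rw [← Finset.card_pos]
    have := key 0 0 (by omega) (by norm_num)
    omega
  refine hEM n H S (g ^ 152) 1 (g ^ 16) (12 * g ^ 337) (12 * g ^ 337) (12 * g ^ 337) (g ^ 176)
    (g ^ 176) hH (Nat.one_le_pow _ _ hg1) le_rfl (Nat.one_le_pow _ _ hg1) hne
    (fun p hp => hE1H (hSE p hp)) (hdg' 0) (hdg' 1) (hdg' 2) (hcg' 0 1 (by decide))
    (hcg' 0 2 (by decide)) ?_ ?_ ?_ ?_ ?_ ?_
  · refine le_trans (le_of_eq ?_) (key 2592 489 (by omega) (by norm_num)).le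
    have : g ^ 489 = g ^ 152 * g ^ 337 := by rw [← pow_add]
    rw [this]; ring
  · refine le_trans (le_of_eq ?_) (key 2592 489 (by omega) (by norm_num)).le
    have : g ^ 489 = g ^ 152 * g ^ 337 := by rw [← pow_add]
    rw [this]; ring
  · refine le_trans (le_of_eq ?_) (key 2592 505 (by omega) (by norm_num)).le
    have : g ^ 505 = g ^ 152 * g ^ 16 * g ^ 337 := by rw [← pow_add, ← pow_add]
    rw [this]; ring
  · refine le_trans (Nat.mul_le_mul_left _ hnn) ?_
    refine le_trans (le_of_eq ?_) (key 864 656 (by omega) (by norm_num)).le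
    have : g ^ 656 = g ^ 176 * g ^ 480 := by rw [← pow_add]
    rw [this]; ring
  · refine le_trans (Nat.mul_le_mul_left _ hnn) ?_
    refine le_trans (le_of_eq ?_) (key 864 672 (by omega) (by norm_num)).le
    have : g ^ 672 = g ^ 16 * g ^ 176 * g ^ 480 := by rw [← pow_add, ← pow_add]
    rw [this]; ring
  · refine lt_of_le_of_lt (Nat.mul_le_mul_left _ hmm) ?_
    refine lt_of_eq_of_lt ?_ (key 216 657 (by omega) (by norm_num))
    have : g ^ 657 = g ^ 16 * g ^ 641 := by rw [← pow_add]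
    rw [this]; ring

theorem TIIb (hT : S_TK) (h1 : S_NC1) (hE : S_EMT) (hL : S_LEAF) : S_TIIb := by
  intro n e g A H hP hH hcard hA
  by_cases h : e ≤ 2 * (H.filter (fun f => ∃ u ∈ f, ∃ v ∈ f, u ≠ v ∧ g ^ 176 ≤ cod H u v)).card
  · exact TIIb_heavy hT h1 hL n e g A H hP hH hcard hA h
  · exact TIIb_light hT h1 hE n e g A H hP hH hcard hA (not_le.1 h)

end H773V
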