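import Pool.Agent.H773R2.U2.Defs

/-! Task TIa. -/

namespace H773V

open Finset Pool.Agent.Results.MP_9dddc4_co.UkExponent

lemma TIa_count {n : ℕ} (P : Finset (Fin n × Fin n)) (hP : SG P) (D u : ℕ) (U Z : Finset (Fin n))
    (hD : ∀ v, dgr P v ≤ D) (hZ : ∀ p ∈ P, p.1 ∈ Z ∨ p.2 ∈ Z)
    (hno : ∀ v, v ∉ U → (P.filter (fun p => p.1 = v ∧ p.2 ∉ U)).card < u) :
    P.card ≤ 2 * U.card * D + 2 * Z.card * u := by
  classical
  -- pairs with the first entry in `U`
  have h1 : (P.filter (fun p => p.1 ∈ U)).card ≤ U.card * D := by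
    have e1 : P.filter (fun p => p.1 ∈ U) ⊆ U.biUnion (fun v => P.filter (fun p => p.1 = v)) := by
      intro p hp
      rw [mem_filter] at hp
      exact mem_biUnion.2 ⟨p.1, hp.2, mem_filter.2 ⟨hp.1, rfl⟩⟩
    refine (card_le_card e1).trans (card_biUnion_le.trans ?_)
    refine (sum_le_sum (fun v _ => hD v)).trans ?_
    rw [sum_const, smul_eq_mul]
  have hsw : ∀ Q : Fin n × Fin n → Prop, ∀ [DecidablePred Q],
      (P.filter Q).card = (P.filter (fun p => Q p.swap)).card := by
    intro Q _
    apply card_bij (fun p _ => p.swap)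
    · intro p hp
      rw [mem_filter] at hp ⊢
      refine ⟨(hP p.1 p.2 hp.1).1, ?_⟩
      rw [Prod.swap_swap]
      exact hp.2
    · intro p _ q _ h
      exact Prod.swap_injective h
    · intro p hp
      rw [mem_filter] at hp
      exact ⟨p.swap, mem_filter.2 ⟨(hP p.1 p.2 hp.1).1, hp.2⟩, Prod.swap_swap p⟩
  have h2 : (P.filter (fun p => p.2 ∈ U)).card ≤ U.card * D := by
    have := hsw (fun p => p.2 ∈ U)
    rw [this]
    exact h1
  have h3 : (P.filter (fun p => p.1 ∈ Z ∧ p.1 ∉ U ∧ p.2 ∉ U)).card ≤ Z.card * u := by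
    have e1 : P.filter (fun p => p.1 ∈ Z ∧ p.1 ∉ U ∧ p.2 ∉ U) ⊆
        (Z.filter (fun v => v ∉ U)).biUnion (fun v => P.filter (fun p => p.1 = v ∧ p.2 ∉ U)) := by
      intro p hp
      rw [mem_filter] at hp
      exact mem_biUnion.2 ⟨p.1, mem_filter.2 ⟨hp.2.1, hp.2.2.1⟩,
        mem_filter.2 ⟨hp.1, rfl, hp.2.2.2⟩⟩
    refine (card_le_card e1).trans (card_biUnion_le.trans ?_)
    refine (sum_le_sum (fun v hv => (hno v (mem_filter.1 hv).2).le)).trans ?_
    rw [sum_const, smul_eq_mul]
    exact Nat.mul_le_mul_right _ (card_filter_le _ _)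
  have h4 : (P.filter (fun p => p.2 ∈ Z ∧ p.2 ∉ U ∧ p.1 ∉ U)).card ≤ Z.card * u := by
    have := hsw (fun p => p.2 ∈ Z ∧ p.2 ∉ U ∧ p.1 ∉ U)
    rw [this]
    exact h3
  have h5 : P ⊆ (P.filter (fun p => p.1 ∈ U) ∪ P.filter (fun p => p.2 ∈ U)) ∪
      (P.filter (fun p => p.1 ∈ Z ∧ p.1 ∉ U ∧ p.2 ∉ U) ∪
        P.filter (fun p => p.2 ∈ Z ∧ p.2 ∉ U ∧ p.1 ∉ U)) := by
    intro p hp
    simp only [mem_union, mem_filter]
    have := hZ p hp
    by_cases ha : p.1 ∈ U
    · exact Or.inl (Or.inl ⟨hp, ha⟩)
    · by_cases hb : p.2 ∈ U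
      · exact Or.inl (Or.inr ⟨hp, hb⟩)
      · rcases this with h | h
        · exact Or.inr (Or.inl ⟨hp, h, ha, hb⟩)
        · exact Or.inr (Or.inr ⟨hp, h, hb, ha⟩)
  have h6 := (card_le_card h5).trans ((card_union_le _ _).trans
    (Nat.add_le_add (card_union_le _ _) (card_union_le _ _)))
  nlinarith

/-- greedy choice of disjoint stars -/
theorem TIa_stars {n : ℕ} (P : Finset (Fin n × Fin n)) (hP : SG P) (D u : ℕ) (Z : Finset (Fin n))
    (hD : ∀ v, dgr P v ≤ D) (hZ : ∀ p ∈ P, p.1 ∈ Z ∨ p.2 ∈ Z) :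
    ∀ t : ℕ, 2 * (t * (1 + u)) * D + 2 * Z.card * u < P.card →
    ∃ (x : Fin t → Fin n) (y : Fin t × Fin u → Fin n), Function.Injective x ∧
      Function.Injective y ∧ (∀ i q, x i ≠ y q) ∧ ∀ i j, (x i, y (i, j)) ∈ P := by
  classical
  intro t
  induction t with
  | zero =>
    intro _
    refine ⟨fun i => i.elim0, fun q => q.1.elim0, fun i => i.elim0, fun q => q.1.elim0,
      fun i => i.elim0, fun i => i.elim0⟩
  | succ t ih =>
    intro hc
    obtain ⟨x, y, hx, hy, hxy, hPxy⟩ := ih (by
      refine lt_of_le_of_lt ?_ hc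
      have : t * (1 + u) ≤ (t + 1) * (1 + u) := Nat.mul_le_mul_right _ (by omega)
      gcongr)
    set U : Finset (Fin n) := univ.image x ∪ univ.image y with hU
    have hUc : U.card ≤ t * (1 + u) := by
      refine (card_union_le _ _).trans ?_
      have h1 : (univ.image x).card ≤ t := by
        refine card_image_le.trans ?_
        simp
      have h2 : (univ.image y).card ≤ t * u := by
        refine card_image_le.trans ?_
        simp
      nlinarith
    have hex : ∃ v, v ∉ U ∧ u ≤ (P.filter (fun p => p.1 = v ∧ p.2 ∉ U)).card := by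
      by_contra hcon
      push Not at hcon
      have h1 := TIa_count P hP D u U Z hD hZ hcon
      have h2 : 2 * U.card * D + 2 * Z.card * u ≤ 2 * ((t + 1) * (1 + u)) * D + 2 * Z.card * u := by
        have : U.card ≤ (t + 1) * (1 + u) :=
          hUc.trans (Nat.mul_le_mul_right _ (by omega))
        gcongr
      omega
    obtain ⟨v, hv, hcard⟩ := hex
    have hcard' : u ≤ ((P.filter (fun p => p.1 = v ∧ p.2 ∉ U)).image Prod.snd).card := by
      rw [card_image_of_injOn]
      · exact hcard
      · intro p hp q hq h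
        rw [mem_coe, mem_filter] at hp hq
        exact Prod.ext (hp.2.1.trans hq.2.1.symm) h
    obtain ⟨S, hS, hSc⟩ := exists_subset_card_eq hcard'
    have hz := S.equivFin.symm
    rw [hSc] at hz
    set z : Fin u → Fin n := fun j => (hz j : Fin n) with hzd
    have hzinj : Function.Injective z := by
      intro a b hab
      exact hz.injective (Subtype.ext hab)
    have hzP : ∀ j, (v, z j) ∈ P ∧ z j ∉ U := by
      intro j
      have h1 := hS (hz j).2
      rw [mem_image] at h1
      obtain ⟨p, hp, hpe⟩ := h1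
      rw [mem_filter] at hp
      have h2 : p = (v, z j) := Prod.ext hp.2.1 hpe
      rw [h2] at hp
      exact ⟨hp.1, hp.2.2⟩
    have hxU : ∀ i, x i ∈ U := fun i => mem_union_left _ (mem_image_of_mem _ (mem_univ _))
    have hyU : ∀ q, y q ∈ U := fun q => mem_union_right _ (mem_image_of_mem _ (mem_univ _))
    set Y : Fin (t + 1) → Fin u → Fin n :=
      Fin.snoc (α := fun _ => Fin u → Fin n) (fun i j => y (i, j)) z with hY
    have hYc : ∀ (i : Fin t) j, Y i.castSucc j = y (i, j) := by
      intro i j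
      rw [hY, Fin.snoc_castSucc]
    have hYl : ∀ j, Y (Fin.last t) j = z j := by
      intro j
      rw [hY, Fin.snoc_last]
    refine ⟨Fin.snoc (α := fun _ => Fin n) x v, fun q => Y q.1 q.2, ?_, ?_, ?_, ?_⟩
    · intro a b hab
      induction a using Fin.lastCases with
      | last =>
        induction b using Fin.lastCases with
        | last => rfl
        | cast b =>
          rw [Fin.snoc_last, Fin.snoc_castSucc] at hab
          exact absurd (hab ▸ hxU b) hv
      | cast a =>
        induction b using Fin.lastCases with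
        | last =>
          rw [Fin.snoc_last, Fin.snoc_castSucc] at hab
          exact absurd (hab ▸ hxU a) hv
        | cast b =>
          rw [Fin.snoc_castSucc, Fin.snoc_castSucc] at hab
          rw [hx hab]
    · rintro ⟨a, j⟩ ⟨b, k⟩ hab
      simp only at hab
      induction a using Fin.lastCases with
      | last =>
        induction b using Fin.lastCases with
        | last =>
          rw [hYl, hYl] at hab
          rw [hzinj hab]
        | cast b =>
          rw [hYl, hYc] at hab
          exact absurd (hab ▸ hyU (b, k)) (hzP j).2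
      | cast a =>
        induction b using Fin.lastCases with
        | last =>
          rw [hYl, hYc] at hab
          exact absurd (hab ▸ hyU (a, j)) (hzP k).2
        | cast b =>
          rw [hYc, hYc] at hab
          have := hy hab
          rw [Prod.mk.injEq] at this
          rw [this.1, this.2]
    · rintro a ⟨b, k⟩
      simp only
      induction a using Fin.lastCases with
      | last =>
        rw [Fin.snoc_last]
        induction b using Fin.lastCases with
        | last =>
          rw [hYl]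
          exact (hP v (z k) (hzP k).1).2
        | cast b =>
          rw [hYc]
          intro h
          exact hv (h ▸ hyU (b, k))
      | cast a =>
        rw [Fin.snoc_castSucc]
        induction b using Fin.lastCases with
        | last =>
          rw [hYl]
          intro h
          exact (hzP k).2 (h ▸ hxU a)
        | cast b =>
          rw [hYc]
          exact hxy a (b, k)
    · intro a j
      simp only
      induction a using Fin.lastCases with
      | last =>
        rw [Fin.snoc_last, hYl]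
        exact (hzP j).1
      | cast a =>
        rw [Fin.snoc_castSucc, hYc]
        exact hPxy a j

theorem TIa (hP : S_PP) (hL : S_LEAF) : S_TIa := by
  intro n e g A H hpar hR he h1 h2
  obtain ⟨hSG, hcard, hdeg, Z, hZc, hZ⟩ := hP n e g A H hpar hR he h1 h2
  obtain ⟨hg, hn1, hn2, ha1, ha2, he1, he2⟩ := hpar
  set P := hv H (g ^ 470) with hPd
  have hg0 : 0 < g := by omega
  have hPc : g ^ 319 ≤ 2 * P.card := by
    have e1 : g ^ 480 * g ^ 319 ≤ g ^ 480 * (2 * P.card) := by
      calc g ^ 480 * g ^ 319 = g ^ 799 := by rw [← pow_add]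
        _ ≤ e := he1
        _ ≤ n * P.card := hcard
        _ ≤ (2 * g ^ 480) * P.card := Nat.mul_le_mul_right _ hn2
        _ = g ^ 480 * (2 * P.card) := by ring
    exact Nat.le_of_mul_le_mul_left e1 (pow_pos hg0 _)
  have hcond : 2 * (g ^ 16 * (1 + g ^ 136)) * (2 * A) + 2 * Z.card * g ^ 136 < P.card := by
    have e0 : 1 ≤ g ^ 136 := Nat.one_le_pow _ _ hg0
    have e1 : 2 * (g ^ 16 * (1 + g ^ 136)) * (2 * A) ≤ 8 * g ^ 313 := by
      calc 2 * (g ^ 16 * (1 + g ^ 136)) * (2 * A)
          ≤ 2 * (g ^ 16 * (g ^ 136 + g ^ 136)) * (2 * g ^ 161) := by gcongr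
        _ = 8 * (g ^ 16 * g ^ 136 * g ^ 161) := by ring
        _ = 8 * g ^ 313 := by rw [← pow_add, ← pow_add]
    have e2 : 2 * Z.card * g ^ 136 ≤ 6 * g ^ 313 := by
      calc 2 * Z.card * g ^ 136 ≤ 2 * (3 * A) * g ^ 136 := by gcongr
        _ ≤ 2 * (3 * g ^ 161) * g ^ 136 := by gcongr
        _ = 6 * (g ^ 161 * g ^ 136) := by ring
        _ = 6 * g ^ 297 := by rw [← pow_add]
        _ ≤ 6 * g ^ 313 := Nat.mul_le_mul_left _ (Nat.pow_le_pow_right hg0 (by norm_num))
    have e3 : 28 * g ^ 313 < g ^ 319 := by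
      calc 28 * g ^ 313 < g * g ^ 313 := by
            apply Nat.mul_lt_mul_of_pos_right
            · omega
            · exact pow_pos hg0 _
        _ = g ^ 314 := (pow_succ' g 313).symm
        _ ≤ g ^ 319 := Nat.pow_le_pow_right hg0 (by norm_num)
    omega
  obtain ⟨x, y, hx, hy, hxy, hPxy⟩ := TIa_stars P hSG (2 * A) (g ^ 136) Z hdeg hZ (g ^ 16) hcond
  refine hL n (g ^ 16) (g ^ 136) (g ^ 16) H x y hR hx hy hxy ?_
  intro i j
  have h3 := hPxy i j
  rw [hPd] at h3
  unfold hv at h3
  rw [mem_filter] at h3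
  refine le_trans ?_ h3.2.2
  have e1 : g ^ 16 ≤ g ^ 168 := Nat.pow_le_pow_right hg0 (by norm_num)
  have e2 : g ^ 16 * g ^ 136 ≤ g ^ 168 := by
    rw [← pow_add]
    exact Nat.pow_le_pow_right hg0 (by norm_num)
  have e3 : g ^ 16 * g ^ 136 * g ^ 16 = g ^ 168 := by
    rw [← pow_add, ← pow_add]
  have e4 : 3 * g ^ 168 ≤ g ^ 470 := by
    calc 3 * g ^ 168 ≤ g * g ^ 168 := Nat.mul_le_mul_right _ (by omega)
      _ = g ^ 169 := by rw [← pow_succ']
      _ ≤ g ^ 470 := Nat.pow_le_pow_right hg0 (by norm_num)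
  omega

end H773V
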