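import Pool.Agent.H773R2.U2.Defs

/-! TIb: the tree `T(g^16, g^136, g^16)` when at least half of the edges have a heavy pair
(helper9). -/

set_option autoImplicit false

namespace H773V

open Finset Pool.Agent.Results.MP_9dddc4_co.UkExponent
open H773U (ContainsT Tr dg cg nn mm)

theorem TIb_third {n : ℕ} {f : Finset (Fin n)} (hf : f.card = 3) {u v : Fin n} (hu : u ∈ f)
    (hv : v ∈ f) (huv : u ≠ v) : ∃ w, w ≠ u ∧ w ≠ v ∧ f = {u, v, w} := by
  have h1 : v ∈ f.erase u := mem_erase.2 ⟨huv.symm, hv⟩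
  have h2 : ((f.erase u).erase v).card = 1 := by
    rw [card_erase_of_mem h1, card_erase_of_mem hu, hf]
  obtain ⟨w, hw⟩ := card_eq_one.1 h2
  have h3 : w ∈ (f.erase u).erase v := by rw [hw]; exact mem_singleton_self w
  rw [mem_erase, mem_erase] at h3
  refine ⟨w, h3.2.1, h3.1, ?_⟩
  rw [← insert_erase hu, ← insert_erase h1, hw]

theorem TIb (hT : S_TK) (h2 : S_NC2) (hE : S_EMT) : S_TIb := by
  intro n e g A H hP hR hcard hnc hhalf
  obtain ⟨hg, n1, n2, a1, a2, e1, e2⟩ := hP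
  obtain ⟨k1, k2, k3, k4, k5, -, k7, -⟩ := hT n H hR
  have hcod : ∀ u v, u ≠ v → cod H u v < A := h2 n A H hR hnc
  classical
  have hg0 : 0 < g := by omega
  have gp : ∀ k : ℕ, 0 < g ^ k := fun k => pow_pos hg0 k
  set L1 : Finset (Fin n) := univ.filter (fun v => g ^ 629 ≤ deg H v) with hL1d
  have hL1 : L1.card ≤ 3 * g ^ 172 := by
    have h := k4 (g ^ 629)
    rw [hcard] at h
    have h3 : L1.card * g ^ 629 ≤ 3 * g ^ 172 * g ^ 629 := by
      calc L1.card * g ^ 629 ≤ 3 * e := h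
        _ ≤ 3 * g ^ 801 := by omega
        _ = 3 * g ^ 172 * g ^ 629 := by rw [mul_assoc, ← pow_add]
    exact Nat.le_of_mul_le_mul_right h3 (gp 629)
  set S : Tr n := univ.filter (fun p => ({p 0, p 1, p 2} : Finset (Fin n)) ∈ H ∧
    g ^ 24 ≤ cod H (p 0) (p 1) ∧ deg H (p 2) < g ^ 629) with hSd
  set B1 := H.filter (fun f => ∃ u ∈ f, ∃ v ∈ f, u ≠ v ∧ u ∈ L1 ∧ v ∈ L1) with hB1d
  set B2 := H.filter (fun f => ∃ w ∈ f, ∃ x ∈ f, w ∈ L1 ∧ cod H w x < g ^ 24) with hB2d
  have hB1 : B1.card ≤ L1.card ^ 2 * A := k7 L1 A (fun u v h => (hcod u v h).le)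
  have hB2 : B2.card ≤ L1.card * n * g ^ 24 := by
    have hsub : B2 ⊆ ((L1 ×ˢ (univ : Finset (Fin n))).filter
        (fun q => cod H q.1 q.2 < g ^ 24)).biUnion
        (fun q => H.filter (fun f => q.1 ∈ f ∧ q.2 ∈ f)) := by
      intro f hf
      rw [hB2d, mem_filter] at hf
      obtain ⟨hfH, w, hw, x, hx, hwL, hc⟩ := hf
      rw [mem_biUnion]
      exact ⟨(w, x), mem_filter.2 ⟨mem_product.2 ⟨hwL, mem_univ _⟩, hc⟩,
        mem_filter.2 ⟨hfH, hw, hx⟩⟩
    refine (card_le_card hsub).trans (card_biUnion_le.trans ?_)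
    have h3 : ∀ q ∈ (L1 ×ˢ (univ : Finset (Fin n))).filter (fun q => cod H q.1 q.2 < g ^ 24),
        (H.filter (fun f => q.1 ∈ f ∧ q.2 ∈ f)).card ≤ g ^ 24 := by
      intro q hq
      exact ((mem_filter.1 hq).2).le
    refine (sum_le_card_nsmul _ _ _ h3).trans ?_
    rw [smul_eq_mul]
    refine Nat.mul_le_mul_right _ ((card_filter_le _ _).trans ?_)
    rw [card_product, card_univ, Fintype.card_fin]
  set Eh := H.filter (fun f => ∃ u ∈ f, ∃ v ∈ f, u ≠ v ∧ g ^ 24 ≤ cod H u v) with hEhd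
  have hcover : Eh ⊆ S.image (fun p => ({p 0, p 1, p 2} : Finset (Fin n))) ∪ (B1 ∪ B2) := by
    intro f hf
    rw [hEhd, mem_filter] at hf
    obtain ⟨hfH, u, hu, v, hv, huv, hc⟩ := hf
    have hf3 := hR f hfH
    obtain ⟨w, hwu, hwv, hfw⟩ := TIb_third hf3 hu hv huv
    have hgood : ∀ a b c : Fin n, f = {a, b, c} → g ^ 24 ≤ cod H a b → deg H c < g ^ 629 →
        f ∈ S.image (fun p => ({p 0, p 1, p 2} : Finset (Fin n))) := by
      intro a b c h3 h4 h5
      rw [mem_image]
      refine ⟨![a, b, c], ?_, ?_⟩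
      · rw [hSd, mem_filter]
        simp only [Matrix.cons_val_zero, Matrix.cons_val_one, Matrix.cons_val]
        exact ⟨mem_univ _, h3 ▸ hfH, h4, h5⟩
      · simp only [Matrix.cons_val_zero, Matrix.cons_val_one, Matrix.cons_val]
        exact h3.symm
    by_cases hw : deg H w < g ^ 629
    · exact mem_union_left _ (hgood u v w hfw hc hw)
    · push Not at hw
      have hwL : w ∈ L1 := by
        rw [hL1d, mem_filter]
        exact ⟨mem_univ _, hw⟩
      have hwf : w ∈ f := by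
        rw [hfw]
        simp
      by_cases hv1 : deg H v < g ^ 629
      · by_cases hcc : g ^ 24 ≤ cod H w u
        · refine mem_union_left _ (hgood w u v ?_ hcc hv1)
          rw [hfw]
          ext x
          simp only [mem_insert, mem_singleton]
          tauto
        · push Not at hcc
          refine mem_union_right _ (mem_union_right _ ?_)
          rw [hB2d, mem_filter]
          exact ⟨hfH, w, hwf, u, hu, hwL, hcc⟩
      · push Not at hv1
        have hvL : v ∈ L1 := by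
          rw [hL1d, mem_filter]
          exact ⟨mem_univ _, hv1⟩
        refine mem_union_right _ (mem_union_left _ ?_)
        rw [hB1d, mem_filter]
        exact ⟨hfH, w, hwf, v, hv, hwv, hwL, hvL⟩
  have hcount : Eh.card ≤ S.card + (B1.card + B2.card) :=
    (card_le_card hcover).trans ((card_union_le _ _).trans
      (add_le_add card_image_le (card_union_le _ _)))
  have hb1 : B1.card ≤ 9 * g ^ 505 := by
    calc B1.card ≤ L1.card ^ 2 * A := hB1
      _ ≤ (3 * g ^ 172) ^ 2 * g ^ 161 := Nat.mul_le_mul (Nat.pow_le_pow_left hL1 2) a2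
      _ = 9 * g ^ 505 := by ring
  have hb2 : B2.card ≤ 6 * g ^ 676 := by
    calc B2.card ≤ L1.card * n * g ^ 24 := hB2
      _ ≤ (3 * g ^ 172) * (2 * g ^ 480) * g ^ 24 :=
        Nat.mul_le_mul_right _ (Nat.mul_le_mul hL1 n2)
      _ = 6 * g ^ 676 := by ring
  have hp1 : g ^ 505 ≤ g ^ 676 := Nat.pow_le_pow_right hg0 (by norm_num)
  have hp2 : 60 * g ^ 676 ≤ g ^ 799 := by
    calc 60 * g ^ 676 ≤ g ^ 123 * g ^ 676 := by
          refine Nat.mul_le_mul_right _ ?_
          calc 60 ≤ g := by omega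
            _ = g ^ 1 := (pow_one g).symm
            _ ≤ g ^ 123 := Nat.pow_le_pow_right hg0 (by norm_num)
      _ = g ^ 799 := by rw [← pow_add]
  have hS4 : e ≤ 4 * S.card := by omega
  have hS5 : g ^ 799 ≤ 4 * S.card := e1.trans hS4
  have hSpos : 0 < S.card := by
    have := gp 799
    omega
  have hSm : ∀ p ∈ S, ({p 0, p 1, p 2} : Finset (Fin n)) ∈ H := by
    intro p hp
    exact (mem_filter.1 hp).2.1
  have hdist : ∀ p ∈ S, p 0 ≠ p 1 ∧ p 0 ≠ p 2 ∧ p 1 ≠ p 2 := by
    intro p hp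
    have h3 := hR _ (hSm p hp)
    refine ⟨?_, ?_, ?_⟩
    · intro h4
      rw [h4, insert_eq_of_mem (mem_insert_self _ _)] at h3
      have := card_le_two (a := p 1) (b := p 2)
      omega
    · intro h4
      rw [h4, insert_eq_of_mem (mem_insert_of_mem (mem_singleton_self _))] at h3
      have := card_le_two (a := p 1) (b := p 2)
      omega
    · intro h4
      rw [h4, pair_eq_singleton] at h3
      have := card_le_two (a := p 0) (b := p 2)
      omega
  obtain ⟨k5a, k5b⟩ := k5 S hSm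
  -- degrees
  have hdeg : ∀ v, 2 * deg H v ≤ n * A := by
    intro v
    rw [k1 v]
    have h3 : ∀ u ∈ univ.erase v, cod H v u ≤ A := by
      intro u hu
      exact (hcod v u (ne_of_mem_erase hu).symm).le
    refine (sum_le_card_nsmul _ _ _ h3).trans ?_
    rw [smul_eq_mul]
    refine Nat.mul_le_mul_right _ ((card_erase_le).trans ?_)
    rw [card_univ, Fintype.card_fin]
  have hnA : n * A ≤ 2 * g ^ 641 := by
    calc n * A ≤ 2 * g ^ 480 * g ^ 161 := Nat.mul_le_mul n2 a2
      _ = 2 * g ^ 641 := by ring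
  have hdg : ∀ a v, dg S a v ≤ 6 * g ^ 641 := by
    intro a v
    have h3 := k5a a v
    have h4 := hdeg v
    omega
  have hdg2 : ∀ v, dg S 2 v ≤ 6 * g ^ 629 := by
    intro v
    by_cases h3 : deg H v < g ^ 629
    · have h4 := k5a 2 v
      omega
    · have h4 : dg S 2 v = 0 := by
        unfold dg
        rw [card_eq_zero, filter_eq_empty_iff]
        intro p hp h5
        have h6 := (mem_filter.1 hp).2.2.2
        rw [h5] at h6
        exact h3 h6
      rw [h4]
      exact Nat.zero_le _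
  have hcg : ∀ b : Fin 3, b ≠ 0 → ∀ v v', cg S 0 b v v' ≤ g ^ 161 := by
    intro b hb v v'
    by_cases h3 : v = v'
    · have h4 : cg S 0 b v v' = 0 := by
        unfold cg
        rw [card_eq_zero, filter_eq_empty_iff]
        rintro p hp ⟨h5, h6⟩
        have h7 := hdist p hp
        rw [← h3, ← h5] at h6
        fin_cases b
        · exact hb rfl
        · exact h7.1 h6.symm
        · exact h7.2.1 h6.symm
      rw [h4]
      exact Nat.zero_le _
    · exact (k5b 0 b v v' (Ne.symm hb)).trans ((hcod v v' h3).le.trans a2)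
  have hnn : nn S 0 ≤ 2 * g ^ 480 := by
    unfold nn
    refine (card_le_univ _).trans ?_
    rw [Fintype.card_fin]
    exact n2
  have hmm : mm S 0 1 * g ^ 24 ≤ 6 * e := by
    rw [← hcard, ← k3]
    unfold mm
    have h3 : S.image (fun p => (p 0, p 1)) ⊆
        (univ : Finset (Fin n × Fin n)).filter (fun p => p.1 ≠ p.2) := by
      intro q hq
      obtain ⟨p, hp, rfl⟩ := mem_image.1 hq
      exact mem_filter.2 ⟨mem_univ _, (hdist p hp).1⟩
    refine le_trans ?_ (sum_le_sum_of_subset h3)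
    rw [← smul_eq_mul]
    refine card_nsmul_le_sum _ _ _ ?_
    intro q hq
    obtain ⟨p, hp, rfl⟩ := mem_image.1 hq
    exact (mem_filter.1 hp).2.2.1
  -- arithmetic
  have ar : ∀ c k : ℕ, 4 * c ≤ 10 ^ 12 → k + 2 ≤ 799 → c * g ^ k ≤ S.card := by
    intro c k hc hk
    have h3 : 4 * (c * g ^ k) ≤ g ^ 799 := by
      calc 4 * (c * g ^ k) = (4 * c) * g ^ k := by ring
        _ ≤ g ^ 2 * g ^ k := by
          refine Nat.mul_le_mul_right _ (hc.trans ?_)
          calc 10 ^ 12 = (10 ^ 6) ^ 2 := by norm_num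
            _ ≤ g ^ 2 := Nat.pow_le_pow_left hg 2
        _ = g ^ (k + 2) := by rw [← pow_add, add_comm]
        _ ≤ g ^ 799 := Nat.pow_le_pow_right hg0 hk
    omega
  refine hE n H S (g ^ 16) (g ^ 136) (g ^ 16) (6 * g ^ 641) (6 * g ^ 641) (6 * g ^ 629)
    (g ^ 161) (g ^ 161) hR (gp 16) (gp 136) (gp 16) (card_pos.1 hSpos) hSm (hdg 0) (hdg 1) hdg2
    (hcg 1 (by decide)) (hcg 2 (by decide)) ?_ ?_ ?_ ?_ ?_ ?_
  · calc 216 * g ^ 16 * (6 * g ^ 641) = 1296 * g ^ 657 := by ring
      _ ≤ S.card := ar _ _ (by norm_num) (by norm_num)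
  · calc 216 * (g ^ 16 * g ^ 136) * (6 * g ^ 641) = 1296 * g ^ 793 := by ring
      _ ≤ S.card := ar _ _ (by norm_num) (by norm_num)
  · calc 216 * (g ^ 16 * g ^ 136 * g ^ 16) * (6 * g ^ 629) = 1296 * g ^ 797 := by ring
      _ ≤ S.card := ar _ _ (by norm_num) (by norm_num)
  · calc 432 * g ^ 136 * g ^ 161 * nn S 0 ≤ 432 * g ^ 136 * g ^ 161 * (2 * g ^ 480) :=
          Nat.mul_le_mul_left _ hnn
      _ = 864 * g ^ 777 := by ring
      _ ≤ S.card := ar _ _ (by norm_num) (by norm_num)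
  · calc 432 * (g ^ 136 * g ^ 16) * g ^ 161 * nn S 0
          ≤ 432 * (g ^ 136 * g ^ 16) * g ^ 161 * (2 * g ^ 480) := Nat.mul_le_mul_left _ hnn
      _ = 864 * g ^ 793 := by ring
      _ ≤ S.card := ar _ _ (by norm_num) (by norm_num)
  · have h3 : (54 * g ^ 16 * mm S 0 1) * g ^ 8 < S.card * g ^ 8 := by
      calc (54 * g ^ 16 * mm S 0 1) * g ^ 8 = 54 * (mm S 0 1 * g ^ 24) := by ring
        _ ≤ 54 * (6 * e) := Nat.mul_le_mul_left _ hmm
        _ ≤ 54 * (6 * (4 * S.card)) := by omega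
        _ = S.card * 1296 := by ring
        _ < S.card * g ^ 8 := by
          refine Nat.mul_lt_mul_of_pos_left ?_ hSpos
          calc 1296 < g := by omega
            _ = g ^ 1 := (pow_one g).symm
            _ ≤ g ^ 8 := Nat.pow_le_pow_right hg0 (by norm_num)
    exact Nat.lt_of_mul_lt_mul_right h3

end H773V
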