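import Pool.Agent.H773R2.U2.Defs

/-! Task TK (helper879): counting toolkit. -/

set_option autoImplicit false

namespace H773V

open Finset Pool.Agent.Results.MP_9dddc4_co.UkExponent
open H773U (ContainsT Tr dg cg nn mm)

lemma TK_1 {n : ℕ} {H : ES n} (hH : IsRGraph 3 H) (v : Fin n) :
    2 * deg H v = ∑ u ∈ univ.erase v, cod H v u := by
  have h1 : ∀ u ∈ univ.erase v, cod H v u =
      ((H.filter (fun f => v ∈ f)).bipartiteAbove (fun (u : Fin n) (f : Finset (Fin n)) => u ∈ f)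
        u).card := by
    intro u _
    unfold cod bipartiteAbove
    rw [filter_filter]
  rw [sum_congr rfl h1, sum_card_bipartiteAbove_eq_sum_card_bipartiteBelow]
  have h2 : ∀ f ∈ H.filter (fun f => v ∈ f),
      ((univ.erase v).bipartiteBelow (fun (u : Fin n) (f : Finset (Fin n)) => u ∈ f) f).card
        = 2 := by
    intro f hf
    rw [mem_filter] at hf
    have h3 : (univ.erase v).bipartiteBelow (fun (u : Fin n) (f : Finset (Fin n)) => u ∈ f) f
        = f.erase v := by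
      ext u
      simp [bipartiteBelow, and_comm]
    rw [h3, card_erase_of_mem hf.2, hH f hf.1]
  rw [sum_congr rfl h2, sum_const, smul_eq_mul, mul_comm]
  rfl

lemma TK_2a {n : ℕ} {H : ES n} (hH : IsRGraph 3 H) {u v : Fin n} (huv : u ≠ v) :
    cod H u v ≤ n := by
  unfold cod
  have h1 : (H.filter (fun f => u ∈ f ∧ v ∈ f)).card ≤
      (univ.image (fun w : Fin n => ({w} : Finset (Fin n)))).card := by
    refine card_le_card_of_injOn (fun f => f \ {u, v}) ?_ ?_
    · intro f hf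
      have hf' := mem_filter.1 (mem_coe.1 hf)
      have hsub : ({u, v} : Finset (Fin n)) ⊆ f := by
        intro x hx
        rcases mem_insert.1 hx with rfl | hx
        · exact hf'.2.1
        · rw [mem_singleton.1 hx]; exact hf'.2.2
      have hc : (f \ {u, v}).card = 1 := by
        rw [card_sdiff_of_subset hsub, card_pair huv, hH f hf'.1]
      obtain ⟨w, hw⟩ := card_eq_one.1 hc
      refine mem_coe.2 (mem_image.2 ⟨w, mem_univ _, ?_⟩)
      exact hw.symm
    · intro f hf g hg hfg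
      have hf' := mem_filter.1 (mem_coe.1 hf)
      have hg' := mem_filter.1 (mem_coe.1 hg)
      have hs : ∀ f : Finset (Fin n), u ∈ f ∧ v ∈ f → ({u, v} : Finset (Fin n)) ⊆ f := by
        intro f hf x hx
        rcases mem_insert.1 hx with rfl | hx
        · exact hf.1
        · rw [mem_singleton.1 hx]; exact hf.2
      have e1 := sdiff_union_of_subset (hs f hf'.2)
      have e2 := sdiff_union_of_subset (hs g hg'.2)
      have hfg' : f \ {u, v} = g \ {u, v} := hfg
      rw [← e1, ← e2, hfg']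
  refine h1.trans (card_image_le.trans ?_)
  rw [card_univ, Fintype.card_fin]

lemma TK_2b {n : ℕ} {H : ES n} (u v : Fin n) : cod H u v = cod H v u := by
  unfold cod
  congr 1
  exact filter_congr fun f _ => and_comm

lemma TK_3 {n : ℕ} {H : ES n} (hH : IsRGraph 3 H) :
    ∑ p ∈ (univ : Finset (Fin n × Fin n)).filter (fun p => p.1 ≠ p.2), cod H p.1 p.2
      = 6 * H.card := by
  have h1 : ∀ p ∈ (univ : Finset (Fin n × Fin n)).filter (fun p => p.1 ≠ p.2), cod H p.1 p.2 =
      (H.bipartiteAbove (fun (p : Fin n × Fin n) (f : Finset (Fin n)) => p.1 ∈ f ∧ p.2 ∈ f)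
        p).card := fun p _ => rfl
  rw [sum_congr rfl h1, sum_card_bipartiteAbove_eq_sum_card_bipartiteBelow]
  have h2 : ∀ f ∈ H, (((univ : Finset (Fin n × Fin n)).filter (fun p => p.1 ≠ p.2)).bipartiteBelow
      (fun (p : Fin n × Fin n) (f : Finset (Fin n)) => p.1 ∈ f ∧ p.2 ∈ f) f).card = 6 := by
    intro f hf
    have h3 : ((univ : Finset (Fin n × Fin n)).filter (fun p => p.1 ≠ p.2)).bipartiteBelow
        (fun (p : Fin n × Fin n) (f : Finset (Fin n)) => p.1 ∈ f ∧ p.2 ∈ f) f = f.offDiag := by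
      ext p
      simp only [bipartiteBelow, mem_filter, mem_univ, true_and, mem_offDiag]
      tauto
    rw [h3, offDiag_card, hH f hf]
  rw [sum_congr rfl h2, sum_const, smul_eq_mul, mul_comm]

lemma TK_4 {n : ℕ} {H : ES n} (hH : IsRGraph 3 H) (D : ℕ) :
    (univ.filter (fun v => D ≤ deg H v)).card * D ≤ 3 * H.card := by
  rw [← sum_deg H hH, ← smul_eq_mul]
  refine (card_nsmul_le_sum _ (deg H) D ?_).trans ?_
  · intro v hv
    exact (mem_filter.1 hv).2
  · exact sum_le_sum_of_subset (filter_subset _ _)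

lemma TK_edge {n : ℕ} (p : Fin 3 → Fin n) : ({p 0, p 1, p 2} : Finset (Fin n)) = univ.image p := by
  ext x
  simp [Fin.exists_fin_succ, eq_comm]

lemma TK_inj {n : ℕ} {H : ES n} (hH : IsRGraph 3 H) {p : Fin 3 → Fin n}
    (hp : ({p 0, p 1, p 2} : Finset (Fin n)) ∈ H) : Function.Injective p := by
  have h1 := hH _ hp
  rw [TK_edge] at h1
  have h2 : (univ.image p).card = (univ : Finset (Fin 3)).card := by
    rw [h1, card_univ, Fintype.card_fin]
  have h3 := card_image_iff.1 h2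
  rwa [coe_univ, Set.injOn_univ] at h3

lemma TK_5a {n : ℕ} {H : ES n} (hH : IsRGraph 3 H) (S : Tr n)
    (hS : ∀ p ∈ S, ({p 0, p 1, p 2} : Finset (Fin n)) ∈ H) (a : Fin 3) (v : Fin n) :
    dg S a v ≤ 6 * deg H v := by
  unfold dg deg
  refine card_le_mul_card_image_of_maps_to (f := fun p : Fin 3 → Fin n => univ.image p) ?_ 6 ?_
  · intro p hp
    rw [mem_filter] at hp
    rw [mem_filter]
    refine ⟨?_, ?_⟩
    · rw [← TK_edge]
      exact hS p hp.1
    · rw [← hp.2]
      exact mem_image_of_mem _ (mem_univ _)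
  · intro f hf
    rw [mem_filter] at hf
    have hf3 := hH f hf.1
    have hmem : ∀ p : {p // p ∈ (S.filter (fun p => p a = v)).filter
        (fun p => univ.image p = f)}, Function.Injective p.1 ∧ ∀ i, p.1 i ∈ f := by
      rintro ⟨p, hp⟩
      rw [mem_filter, mem_filter] at hp
      refine ⟨TK_inj hH (hS p hp.1.1), fun i => ?_⟩
      have h5 : p i ∈ univ.image p := mem_image_of_mem p (mem_univ i)
      rw [hp.2] at h5
      exact h5
    have h1 := Fintype.card_le_of_injective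
      (fun p : {p // p ∈ (S.filter (fun p => p a = v)).filter (fun p => univ.image p = f)} =>
        (⟨fun i => ⟨p.1 i, (hmem p).2 i⟩, fun i j hij =>
          (hmem p).1 (congrArg Subtype.val hij)⟩ : Fin 3 ↪ {x // x ∈ f})) (by
        intro p p' hpp
        apply Subtype.ext
        funext i
        exact congrArg Subtype.val (congrArg (fun e : Fin 3 ↪ {x // x ∈ f} => e i) hpp))
    rw [Fintype.card_coe, Fintype.card_embedding_eq, Fintype.card_coe, hf3, Fintype.card_fin] at h1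
    exact h1

lemma TK_5b {n : ℕ} {H : ES n} (hH : IsRGraph 3 H) (S : Tr n)
    (hS : ∀ p ∈ S, ({p 0, p 1, p 2} : Finset (Fin n)) ∈ H) (a b : Fin 3) (v v' : Fin n)
    (hab : a ≠ b) : cg S a b v v' ≤ cod H v v' := by
  unfold cg cod
  refine card_le_card_of_injOn (fun p : Fin 3 → Fin n => univ.image p) ?_ ?_
  · intro p hp
    have hp' := mem_filter.1 (mem_coe.1 hp)
    refine mem_coe.2 (mem_filter.2 ⟨?_, ?_, ?_⟩)
    · have := hS p hp'.1
      rwa [TK_edge] at this
    · rw [← hp'.2.1]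
      exact mem_image_of_mem _ (mem_univ _)
    · rw [← hp'.2.2]
      exact mem_image_of_mem _ (mem_univ _)
  · intro p hp p' hp' hpp
    have hp := mem_filter.1 (mem_coe.1 hp)
    have hp' := mem_filter.1 (mem_coe.1 hp')
    have hpp : univ.image p = univ.image p' := hpp
    have hi := TK_inj hH (hS p hp.1)
    have key : ∀ (a b c i : Fin 3), a ≠ b → c ≠ a → c ≠ b → i ≠ a → i ≠ b → i = c := by decide
    funext c
    by_cases hca : c = a
    · rw [hca, hp.2.1, hp'.2.1]
    by_cases hcb : c = b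
    · rw [hcb, hp.2.2, hp'.2.2]
    have hc : p c ∈ univ.image p' := by
      rw [← hpp]
      exact mem_image_of_mem _ (mem_univ _)
    obtain ⟨i, _, hi2⟩ := mem_image.1 hc
    have hia : i ≠ a := by
      rintro rfl
      exact hca (hi (by rw [hp.2.1, ← hi2, hp'.2.1]))
    have hib : i ≠ b := by
      rintro rfl
      exact hcb (hi (by rw [hp.2.2, ← hi2, hp'.2.2]))
    rw [← hi2, key a b c i hab hca hcb hia hib]

lemma TK_6 {n : ℕ} {H : ES n} (v : Fin n) (W : Finset (Fin n))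
    (hW : ∀ f ∈ H, v ∈ f → ∃ w ∈ f, w ∈ W) : deg H v ≤ ∑ w ∈ W, cod H v w := by
  unfold deg cod
  refine (card_le_card ?_).trans card_biUnion_le
  intro f hf
  rw [mem_filter] at hf
  obtain ⟨w, hw1, hw2⟩ := hW f hf.1 hf.2
  exact mem_biUnion.2 ⟨w, hw2, mem_filter.2 ⟨hf.1, hf.2, hw1⟩⟩

lemma TK_7 {n : ℕ} {H : ES n} (L : Finset (Fin n)) (D : ℕ)
    (hD : ∀ u v, u ≠ v → cod H u v ≤ D) :
    (H.filter (fun f => ∃ u ∈ f, ∃ v ∈ f, u ≠ v ∧ u ∈ L ∧ v ∈ L)).card ≤ L.card ^ 2 * D := by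
  have h1 : (H.filter (fun f => ∃ u ∈ f, ∃ v ∈ f, u ≠ v ∧ u ∈ L ∧ v ∈ L)) ⊆
      L.offDiag.biUnion (fun p => H.filter (fun f => p.1 ∈ f ∧ p.2 ∈ f)) := by
    intro f hf
    rw [mem_filter] at hf
    obtain ⟨hf, u, hu, v, hv, huv, huL, hvL⟩ := hf
    exact mem_biUnion.2 ⟨(u, v), mem_offDiag.2 ⟨huL, hvL, huv⟩, mem_filter.2 ⟨hf, hu, hv⟩⟩
  refine (card_le_card h1).trans (card_biUnion_le.trans ?_)
  refine (sum_le_card_nsmul _ _ D ?_).trans ?_
  · intro p hp
    exact hD p.1 p.2 (mem_offDiag.1 hp).2.2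
  · rw [smul_eq_mul, offDiag_card, sq]
    exact Nat.mul_le_mul_right _ (Nat.sub_le _ _)

lemma TK_8 {n : ℕ} {H : ES n} (Z : Finset (Fin n)) (D : ℕ) :
    (H.filter (fun f => ∃ v ∈ f, v ∈ Z ∧ deg H v ≤ D)).card ≤ Z.card * D := by
  have h1 : (H.filter (fun f => ∃ v ∈ f, v ∈ Z ∧ deg H v ≤ D)) ⊆
      (Z.filter (fun v => deg H v ≤ D)).biUnion (fun v => H.filter (fun f => v ∈ f)) := by
    intro f hf
    rw [mem_filter] at hf
    obtain ⟨hf, v, hv, hvZ, hvD⟩ := hf
    exact mem_biUnion.2 ⟨v, mem_filter.2 ⟨hvZ, hvD⟩, mem_filter.2 ⟨hf, hv⟩⟩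
  refine (card_le_card h1).trans (card_biUnion_le.trans ?_)
  refine (sum_le_card_nsmul _ _ D ?_).trans ?_
  · intro v hv
    exact (mem_filter.1 hv).2
  · rw [smul_eq_mul]
    exact Nat.mul_le_mul_right _ (card_le_card (filter_subset _ _))

theorem TK : S_TK := by
  intro n H hH
  refine ⟨TK_1 hH, fun u v huv => ⟨TK_2a hH huv, TK_2b u v⟩, TK_3 hH, TK_4 hH, ?_, TK_6, TK_7,
    TK_8⟩
  intro S hS
  exact ⟨TK_5a hH S hS, fun a b v v' hab => TK_5b hH S hS a b v v' hab⟩

end H773V
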