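import Pool.Agent.H773R2.U2.Defs

namespace H773V

theorem TRUNC : S_TRUNC := by
  classical
  intro n m P
  induction hk : P.card using Nat.strong_induction_on generalizing P with
  | _ k ih =>
    intro hP hm
    by_cases hle : P.card ≤ m + 1
    · exact ⟨P, Finset.Subset.refl _, hP, by omega, hle⟩
    · rw [not_le] at hle
      have hne : P.Nonempty := Finset.card_pos.1 (by omega)
      obtain ⟨⟨u, v⟩, huv⟩ := hne
      obtain ⟨h1, h2⟩ := hP u v huv
      have hmem : (v, u) ∈ P.erase (u, v) :=
        Finset.mem_erase.2 ⟨fun h => h2 (congrArg Prod.fst h).symm, h1⟩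
      have hcard : ((P.erase (u, v)).erase (v, u)).card + 2 = P.card := by
        rw [Finset.card_erase_of_mem hmem, Finset.card_erase_of_mem huv]
        omega
      have hSG : SG ((P.erase (u, v)).erase (v, u)) := by
        intro x y hxy
        rw [Finset.mem_erase, Finset.mem_erase] at hxy
        obtain ⟨a1, a2, a3⟩ := hxy
        refine ⟨?_, (hP x y a3).2⟩
        rw [Finset.mem_erase, Finset.mem_erase]
        refine ⟨fun h => a2 ?_, fun h => a1 ?_, (hP x y a3).1⟩
        · rw [Prod.ext_iff] at h ⊢
          exact ⟨h.2, h.1⟩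
        · rw [Prod.ext_iff] at h ⊢
          exact ⟨h.2, h.1⟩
      obtain ⟨P1, b1, b2, b3, b4⟩ := ih _ (by omega) _ rfl hSG (by omega)
      exact ⟨P1, b1.trans ((Finset.erase_subset _ _).trans (Finset.erase_subset _ _)), b2, b3, b4⟩

end H773V
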