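import Pool.Agent.H773R2.U2.Defs

/-! The upper bound for `U_2(n,3)` from FIN2 and POT. -/

namespace H773V

open Finset Pool.Agent.Results.MP_9dddc4_co.UkExponent

theorem UB_E2_le_E1 {n : ℕ} (hn : 1 ≤ Real.log n) : E2 n ≤ E1 n := by
  unfold E1 E2
  have h0 : (0:ℝ) ≤ (n : ℝ) ^ (5 / 3 : ℝ) := Real.rpow_nonneg (Nat.cast_nonneg n) _
  have h1 : (n : ℝ) ^ (5 / 3 : ℝ) / (Real.log n) ^ 4 ≤ (n : ℝ) ^ (5 / 3 : ℝ) :=
    div_le_self h0 (one_le_pow₀ hn)
  have h2 : (1:ℝ) ≤ (Real.log n) ^ (2 / 3 : ℝ) := Real.one_le_rpow hn (by norm_num)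
  calc (n : ℝ) ^ (5 / 3 : ℝ) / (Real.log n) ^ 4 ≤ (n : ℝ) ^ (5 / 3 : ℝ) := h1
    _ = (n : ℝ) ^ (5 / 3 : ℝ) * 1 := (mul_one _).symm
    _ ≤ (n : ℝ) ^ (5 / 3 : ℝ) * (Real.log n) ^ (2 / 3 : ℝ) := mul_le_mul_of_nonneg_left h2 h0

theorem UB (hF : S_FIN2) (hP : S_POT) : S_UB := by
  obtain ⟨c, hc, hF⟩ := hF
  obtain ⟨C, hC, hP⟩ := hP c hc
  refine ⟨C, hC, ?_⟩
  have hlog : ∀ᶠ n : ℕ in Filter.atTop, (1:ℝ) ≤ Real.log n :=
    (Real.tendsto_log_atTop.comp tendsto_natCast_atTop_atTop).eventually_ge_atTop 1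
  filter_upwards [hF, hP, hlog, Filter.eventually_ge_atTop 1] with n hFn hPn hl hn1
  obtain ⟨Φ, hΦ0, hΦb, hΦ⟩ := hPn
  have hE := UB_E2_le_E1 hl
  have hk : 0 < 2 := by norm_num
  refine U_le hk _ fun e H hH hcard => ?_
  have hgreedy := greedy (k := 2) (n := n) (r := 3) hk Φ (by
    intro e he H hH hcard
    have hle : ∀ s, Common H s → s ≤ e := fun s hs => by
      have := hs.le_card 0
      rwa [hcard] at this
    rcases le_or_gt (e : ℝ) (E2 n) with h2 | h2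
    · obtain ⟨s, hs1, hs2, hs3⟩ := common_star hk (by omega) H hH hcard he
      refine ⟨s, hs1, hs2, hΦ e s hs1 (hle s hs2) (fun _ => hs3) ?_ ?_⟩
      · intro h3
        exact absurd h3 (not_lt.2 h2)
      · intro h3
        exact absurd (h2.trans hE) (not_le.2 h3)
    · rcases le_or_gt (e : ℝ) (E1 n) with h1 | h1
      · obtain ⟨s, hs1, hs2, hs3⟩ := hFn e H hH hcard h2.le h1
        refine ⟨s, hs1, hs2, hΦ e s hs1 (hle s hs2) ?_ (fun _ _ => hs3) ?_⟩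
        · intro h3
          exact absurd h3 (not_le.2 h2)
        · intro h3
          exact absurd h3 (not_lt.2 h1)
      · obtain ⟨s, hs1, hs2, hs3⟩ := common_rand hk H hH hcard he
        refine ⟨s, hs1, hs2, hΦ e s hs1 (hle s hs2) ?_ ?_ ?_⟩
        · intro h3
          exact absurd h3 (not_le.2 h2)
        · intro _ h3
          exact absurd h3 (not_le.2 h1)
        · intro _
          simpa using hs3) e H hH hcard
  obtain ⟨t, ht1, ht2⟩ := hgreedy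
  refine ⟨t, ht1, ?_⟩
  have h3 := hΦb e
  linarith

end H773V
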